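import Pool.Agent.W_7d29a1_GW.BasG56
import Pool.Agent.W_7d29a1_NS.Avg71

/-!
Theorem GW, leaf AVG: the half planes `{x | u ≤ x j}`, `u` an integer, for a finite path space.
-/

namespace Pool.Agent.W_7d29a1_GW

open MeasureTheory ProbabilityTheory Filter Topology Pool.Agent.W_MP_7d29a1_pr
  Pool.Agent.W_7d29a1_h46 Pool.Agent.W_7d29a1_h46u Pool.Agent.W_7d29a1_D2.B35
  Pool.Agent.W_7d29a1_Q29 Pool.Agent.W_7d29a1_S90 Pool.Agent.W_7d29a1_NS

variable {d : ℕ} {S : Type} [Fintype S] {ρ : Measure ℝ}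

lemma gp2_lin71 {w : S → ℝ} (hw : Wp w) (β : ℝ) (ps : S → ℕ → Site d) (n : ℕ) (η : Env d)
    (c : ℝ) (f1 : S → S → ℝ) (f2 f3 : S → ℝ) :
    gp2 β ps n w η (fun s s' => c * (f1 s s' - f2 s' - f3 s')) =
      c * (gp2 β ps n w η f1 - gp β ps n w η f2 - gp β ps n w η f3) := by
  unfold gp2
  have h1 : ∀ s : S, gp β ps n w η (fun s' => c * (f1 s s' - f2 s' - f3 s')) =
      c * (gp β ps n w η (f1 s) - gp β ps n w η f2 - gp β ps n w η f3) := by
    intro s
    rw [gp_mul56 β ps n w η c fun s' => f1 s s' - f2 s' - f3 s',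
      gp_sub56 β ps n w η (fun s' => f1 s s' - f2 s') f3, gp_sub56 β ps n w η (f1 s) f2]
  simp only [h1]
  rw [gp_mul56 β ps n w η c fun s => gp β ps n w η (f1 s) - gp β ps n w η f2 - gp β ps n w η f3,
    gp_sub56 β ps n w η (fun s => gp β ps n w η (f1 s) - gp β ps n w η f2) (fun _ => gp β ps n w η f3),
    gp_sub56 β ps n w η (fun s => gp β ps n w η (f1 s)) (fun _ => gp β ps n w η f2), gp_const56 hw,
    gp_const56 hw]

lemma gp2_sum71 {ι : Type*} (I : Finset ι) (β : ℝ) (ps : S → ℕ → Site d) (n : ℕ) (w : S → ℝ)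
    (η : Env d) (f : ι → S → S → ℝ) :
    ∑ i ∈ I, gp2 β ps n w η (f i) = gp2 β ps n w η (fun s s' => ∑ i ∈ I, f i s s') := by
  unfold gp2
  rw [← gp_sum56 I β ps n w η fun i s => gp β ps n w η fun s' => f i s s']
  congr 1
  funext s
  exact (gp_sum56 I β ps n w η fun i s' => f i s s').symm

lemma int_gp2_71 [IsProbabilityMeasure ρ] {w : S → ℝ} (hw : Wp w) (β : ℝ) (ps : S → ℕ → Site d)
    (n : ℕ) {f : Env d → S → S → ℝ}
    (hf : ∀ s s', Measurable fun η => f η s s') {C : ℝ} (hC : ∀ η s s', |f η s s'| ≤ C) :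
    Integrable (fun η : Env d => gp2 β ps n w η (f η)) (law d ρ) := by
  unfold gp2
  exact gp_int56 hw β ps n (f := fun η s => gp β ps n w η (f η s))
    (fun s => gp_meas56 β ps n w (f := fun η s' => f η s s') (hf s)) (C := C)
    fun η s => gp_abs56 hw β ps n η (hC η s)

open Classical in
/-- Leaf AVG. -/
theorem avgG71 [IsProbabilityMeasure ρ] (β : ℝ) : AvgG ρ β := by
  intro S _ ps n w hw0 hw1 τ t j m M K lam G hτ ht hl1 hlK hGm hG
  have hw : Wp w := ⟨hw0, hw1⟩
  have hcoord : ∀ (v : Vec 2), |v j| ≤ ‖v‖ := fun v => by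
    have := PiLp.norm_apply_le v j
    rwa [Real.norm_eq_abs] at this
  have hinc : ∀ s' : S, |(ps s' τ j : ℝ) + m j - (ps s' t j : ℝ)| ≤
      gi ps τ t m s' := by
    intro s'
    have h1 := hcoord (emb (ps s' t) - emb (ps s' τ) - m)
    have h2 : (emb (ps s' t) - emb (ps s' τ) - m) j =
        (ps s' t j : ℝ) - (ps s' τ j : ℝ) - m j := rfl
    rw [h2] at h1
    have h3 : (ps s' τ j : ℝ) + m j - (ps s' t j : ℝ) =
        -((ps s' t j : ℝ) - (ps s' τ j : ℝ) - m j) := by ring
    rw [h3, abs_neg]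
    exact h1
  constructor
  · -- the separated replicas
    have hmF : ∀ u : ℤ, ∀ s s' : S, Measurable fun η : Env 2 =>
        (if ¬ ((u : ℝ) ≤ (ps s τ j : ℝ) + m j ↔ u ≤ ps s' t j) then G (ps s τ) η else 0) := by
      intro u s s'
      split_ifs
      · exact measurable_const
      · exact hGm _
    have hbF : ∀ u : ℤ, ∀ (η : Env 2) (s s' : S),
        |(if ¬ ((u : ℝ) ≤ (ps s τ j : ℝ) + m j ↔ u ≤ ps s' t j) then G (ps s τ) η else 0)| ≤
          1 := by
      intro u η s s'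
      split_ifs
      · simp
      · rw [abs_of_nonneg (hG _ _).1]
        exact (hG _ _).2
    have hm1 : ∀ s s' : S, Measurable fun η : Env 2 =>
        (if 2 * lam ≤ |(ps s τ j : ℝ) - (ps s' τ j : ℝ)| then G (ps s τ) η else 0) := by
      intro s s'
      split_ifs
      · exact hGm _
      · exact measurable_const
    have hb1 : ∀ (η : Env 2) (s s' : S),
        |(if 2 * lam ≤ |(ps s τ j : ℝ) - (ps s' τ j : ℝ)| then G (ps s τ) η else 0)| ≤ 1 := by
      intro η s s'
      split_ifs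
      · rw [abs_of_nonneg (hG _ _).1]
        exact (hG _ _).2
      · simp
    have hI1 := int_gp2_71 (ρ := ρ) hw β ps n hm1 hb1
    have hI2 : Integrable (fun η : Env 2 => gp β ps n w η (fun s : S =>
      if lam < gi ps τ t m s then (1 : ℝ) else 0)) (law 2 ρ) := gp_intF56 hw β ps n _
    have hI3 : Integrable (fun η : Env 2 => gp β ps n w η (fun s : S =>
      if K - lam < ‖emb (ps s t) - M‖ then (1 : ℝ) else 0)) (law 2 ρ) :=
      gp_intF56 hw β ps n _
    rw [← integral_finsetSum _ fun u _ => int_gp2_71 (ρ := ρ) hw β ps n (hmF u) (hbF u)]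
    unfold gTl
    rw [int_lin71 (lam - 1) hI1 hI2 hI3]
    refine integral_mono (((hI1.sub hI2).sub hI3).const_mul _)
      (integrable_finsetSum _ fun u _ => int_gp2_71 (ρ := ρ) hw β ps n (hmF u) (hbF u)) fun η => ?_
    show (lam - 1) * (gp2 β ps n w η (fun s s' : S =>
        if 2 * lam ≤ |(ps s τ j : ℝ) - (ps s' τ j : ℝ)| then G (ps s τ) η else 0) -
        gp β ps n w η (fun s : S => if lam < gi ps τ t m s then (1 : ℝ) else 0) -
        gp β ps n w η (fun s : S =>
          if K - lam < ‖emb (ps s t) - M‖ then (1 : ℝ) else 0)) ≤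
      ∑ u ∈ Finset.Icc ⌊M j - K⌋ ⌈M j + K⌉, gp2 β ps n w η (fun s s' : S =>
        if ¬ ((u : ℝ) ≤ (ps s τ j : ℝ) + m j ↔ u ≤ ps s' t j) then G (ps s τ) η else 0)
    rw [gp2_sum71, ← gp2_lin71 hw]
    refine gp2_mono56 hw β ps n η fun s s' => ?_
    have hg0 := (hG (ps s τ) η).1
    have hg1 := (hG (ps s τ) η).2
    have hnn : 0 ≤ ∑ u ∈ Finset.Icc ⌊M j - K⌋ ⌈M j + K⌉,
        (if ¬ ((u : ℝ) ≤ (ps s τ j : ℝ) + m j ↔ u ≤ ps s' t j) then G (ps s τ) η else 0) :=
      Finset.sum_nonneg fun u _ => by split_ifs <;> simp [hg0]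
    have hneg : ∀ x y z : ℝ, x ≤ 1 → 0 ≤ y → 0 ≤ z → 1 ≤ y + z → (lam - 1) * (x - y - z) ≤ 0 :=
      fun x y z hx hy hz hyz => mul_nonpos_of_nonneg_of_nonpos (by linarith) (by linarith)
    have hf1 : (if 2 * lam ≤ |(ps s τ j : ℝ) - (ps s' τ j : ℝ)| then G (ps s τ) η else 0) ≤
        1 := (le_abs_self _).trans (hb1 η s s')
    by_cases c2 : lam < gi ps τ t m s'
    · refine le_trans (hneg _ _ _ hf1 ?_ ?_ ?_) hnn
      · rw [if_pos c2]; norm_num
      · split_ifs <;> norm_num
      · rw [if_pos c2]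
        split_ifs <;> norm_num
    · by_cases c3 : K - lam < ‖emb (ps s' t) - M‖
      · refine le_trans (hneg _ _ _ hf1 ?_ ?_ ?_) hnn
        · split_ifs <;> norm_num
        · rw [if_pos c3]; norm_num
        · rw [if_pos c3, if_neg c2]
          norm_num
      · rw [if_neg c2, if_neg c3, sub_zero, sub_zero]
        by_cases c1 : 2 * lam ≤ |(ps s τ j : ℝ) - (ps s' τ j : ℝ)|
        · rw [if_pos c1]
          rw [not_lt] at c2 c3
          have h1 := (hinc s').trans c2
          have h2 := (hcoord (emb (ps s' t) - M)).trans c3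
          have h3 : (emb (ps s' t) - M) j = (ps s' t j : ℝ) - M j := rfl
          rw [h3] at h2
          have h4 := Int.floor_le (M j - K)
          have h5 := Int.le_ceil (M j + K)
          have h6 := abs_le.1 h1
          have h7 := abs_le.1 h2
          refine cntlo71 (a := (ps s τ j : ℝ) + m j) (b := ps s' t j) (fun u => Iff.rfl)
            (by linarith) hg0 ?_ (by linarith) (by linarith)
          have h8 := abs_sub_abs_le_abs_sub ((ps s τ j : ℝ) - (ps s' τ j : ℝ))
            (-((ps s' τ j : ℝ) + m j - (ps s' t j : ℝ)))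
          rw [abs_neg] at h8
          have h9 : (ps s τ j : ℝ) - (ps s' τ j : ℝ) -
              -((ps s' τ j : ℝ) + m j - (ps s' t j : ℝ)) =
              (ps s τ j : ℝ) + m j - (ps s' t j : ℝ) := by ring
          rw [h9] at h8
          linarith
        · rw [if_neg c1, mul_zero]
          exact hnn
  · -- the two ends of one walk
    have hI1 : ∀ u : ℤ, Integrable (fun η : Env 2 => gp β ps n w η (fun s : S =>
      if ¬ ((u : ℝ) ≤ (ps s τ j : ℝ) + m j ↔ u ≤ ps s t j) then (1 : ℝ) else 0)) (law 2 ρ) :=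
      fun u => gp_intF56 hw β ps n _
    have hI2 : Integrable (fun η : Env 2 => gp β ps n w η (fun s : S => gi ps τ t m s))
      (law 2 ρ) := gp_intF56 hw β ps n _
    have h1 : (∫ η, gp β ps n w η (fun s : S => gi ps τ t m s) ∂(law 2 ρ)) + 1 =
        ∫ η, (gp β ps n w η (fun s : S => gi ps τ t m s) + 1) ∂(law 2 ρ) := by
      rw [integral_add hI2 (integrable_const 1)]
      simp
    rw [← integral_finsetSum _ fun u _ => hI1 u, h1]
    refine integral_mono (integrable_finsetSum _ fun u _ => hI1 u)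
      (hI2.add (integrable_const 1)) fun η => ?_
    show ∑ u ∈ Finset.Icc ⌊M j - K⌋ ⌈M j + K⌉, gp β ps n w η (fun s : S =>
        if ¬ ((u : ℝ) ≤ (ps s τ j : ℝ) + m j ↔ u ≤ ps s t j) then (1 : ℝ) else 0) ≤
      gp β ps n w η (fun s : S => gi ps τ t m s) + 1
    rw [← gp_sum56]
    have h2 : gp β ps n w η (fun s : S => gi ps τ t m s) + 1 =
        gp β ps n w η (fun s : S => gi ps τ t m s + 1) := by
      rw [gp_add56 β ps n w η (fun s : S => gi ps τ t m s) (fun _ => 1), gp_const56 hw]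
    rw [h2]
    refine gp_mono56 hw β ps n η fun s => ?_
    refine (cnthi71 (a := (ps s τ j : ℝ) + m j) (b := ps s t j) (fun u => Iff.rfl)).trans ?_
    have := hinc s
    linarith

end Pool.Agent.W_7d29a1_GW
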