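import Pool.Agent.W_7d29a1_GW.DefsG31
import Pool.Agent.W_7d29a1_NS.Pre63

/-!
Theorem NS for finite a priori path spaces: elementary facts used in the end.
-/

namespace Pool.Agent.W_7d29a1_GW

open MeasureTheory ProbabilityTheory Filter Topology Pool.Agent.W_MP_7d29a1_pr
  Pool.Agent.W_7d29a1_h46 Pool.Agent.W_7d29a1_h46u Pool.Agent.W_7d29a1_D2.B35
  Pool.Agent.W_7d29a1_Q29 Pool.Agent.W_7d29a1_Q29.D85 Pool.Agent.W_7d29a1_S90
  Pool.Agent.W_7d29a1_NS

section Bas

variable {d : ℕ} {S : Type} [Fintype S] {β : ℝ} {ps : S → ℕ → Site d} {n : ℕ} {w : S → ℝ}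

lemma gw_nn63 (hw : ∀ s, 0 ≤ w s) (η : Env d) (s : S) : 0 ≤ gw β ps n w η s :=
  mul_nonneg (hw s) (Real.exp_pos _).le

lemma gw_sum_pos63 (hw : ∀ s, 0 ≤ w s) (hs : 0 < ∑ s, w s) (η : Env d) :
    0 < ∑ s, gw β ps n w η s := by
  obtain ⟨s, -, h1⟩ := Finset.exists_lt_of_sum_lt (s := Finset.univ) (f := fun _ : S => (0 : ℝ))
    (g := w) (by simpa using hs)
  refine Finset.sum_pos' (fun s _ => gw_nn63 hw η s) ⟨s, Finset.mem_univ s, ?_⟩
  exact mul_pos h1 (Real.exp_pos _)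

lemma gp_mono63 (hw : ∀ s, 0 ≤ w s) (hs : 0 < ∑ s, w s) (η : Env d) {f g : S → ℝ}
    (hfg : ∀ s, f s ≤ g s) : gp β ps n w η f ≤ gp β ps n w η g := by
  unfold gp
  exact div_le_div_of_nonneg_right (Finset.sum_le_sum fun s _ =>
    mul_le_mul_of_nonneg_left (hfg s) (gw_nn63 hw η s)) (gw_sum_pos63 hw hs η).le

lemma gp_const63 (hw : ∀ s, 0 ≤ w s) (hs : 0 < ∑ s, w s) (η : Env d) (c : ℝ) :
    gp β ps n w η (fun _ => c) = c := by
  unfold gp
  rw [← Finset.sum_mul]
  exact mul_div_cancel_left₀ _ (gw_sum_pos63 hw hs η).ne'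

lemma gp_add63 (η : Env d) (f g : S → ℝ) :
    gp β ps n w η (fun s => f s + g s) = gp β ps n w η f + gp β ps n w η g := by
  unfold gp
  rw [← add_div, ← Finset.sum_add_distrib]
  congr 1
  exact Finset.sum_congr rfl fun s _ => mul_add _ _ _

lemma gp_mul63 (η : Env d) (c : ℝ) (f : S → ℝ) :
    gp β ps n w η (fun s => c * f s) = c * gp β ps n w η f := by
  unfold gp
  rw [mul_div_assoc', Finset.mul_sum]
  congr 1
  exact Finset.sum_congr rfl fun s _ => by ring

lemma gp_bd63 (hw : ∀ s, 0 ≤ w s) (hs : 0 < ∑ s, w s) (η : Env d) {f : S → ℝ}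
    (hf : ∀ s, 0 ≤ f s ∧ f s ≤ 1) : 0 ≤ gp β ps n w η f ∧ gp β ps n w η f ≤ 1 := by
  have h1 := gp_mono63 (β := β) (ps := ps) (n := n) hw hs η (f := fun _ => 0) (g := f)
    fun s => (hf s).1
  have h2 := gp_mono63 (β := β) (ps := ps) (n := n) hw hs η (f := f) (g := fun _ => 1)
    fun s => (hf s).2
  rw [gp_const63 hw hs] at h1 h2
  exact ⟨h1, h2⟩

lemma gp2_mono63 (hw : ∀ s, 0 ≤ w s) (hs : 0 < ∑ s, w s) (η : Env d) {f g : S → S → ℝ}
    (hfg : ∀ s s', f s s' ≤ g s s') : gp2 β ps n w η f ≤ gp2 β ps n w η g :=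
  gp_mono63 hw hs η fun s => gp_mono63 hw hs η fun s' => hfg s s'

lemma gp2_bd63 (hw : ∀ s, 0 ≤ w s) (hs : 0 < ∑ s, w s) (η : Env d) {f : S → S → ℝ}
    (hf : ∀ s s', 0 ≤ f s s' ∧ f s s' ≤ 1) :
    0 ≤ gp2 β ps n w η f ∧ gp2 β ps n w η f ≤ 1 :=
  gp_bd63 hw hs η fun s => gp_bd63 hw hs η fun s' => hf s s'

lemma gp2_add63 (η : Env d) (f g : S → S → ℝ) :
    gp2 β ps n w η (fun s s' => f s s' + g s s') =
      gp2 β ps n w η f + gp2 β ps n w η g := by
  unfold gp2
  rw [← gp_add63]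
  congr 1
  funext s
  exact gp_add63 _ _ _

lemma gp2_fst63 (hw : ∀ s, 0 ≤ w s) (hs : 0 < ∑ s, w s) (η : Env d) (f : S → ℝ) :
    gp2 β ps n w η (fun s _ => f s) = gp β ps n w η f := by
  unfold gp2
  congr 1
  funext s
  exact gp_const63 hw hs η _

lemma gp2_snd63 (hw : ∀ s, 0 ≤ w s) (hs : 0 < ∑ s, w s) (η : Env d) (f : S → ℝ) :
    gp2 β ps n w η (fun _ s' => f s') = gp β ps n w η f := by
  unfold gp2
  exact gp_const63 hw hs η _

lemma meas_gw63 (s : S) : Measurable fun η : Env d => gw β ps n w η s := by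
  unfold gw
  have h1 : Measurable fun η : Env d => β * ∑ i ∈ Finset.range n, η (i + 1, ps s (i + 1)) :=
    (Finset.measurable_sum _ fun i _ =>
      measurable_pi_apply ((i + 1, ps s (i + 1)) : ℕ × Site d)).const_mul β
  exact (Real.measurable_exp.comp h1).const_mul _

lemma meas_gp63 {f : Env d → S → ℝ} (hf : ∀ s, Measurable fun η => f η s) :
    Measurable fun η : Env d => gp β ps n w η (f η) := by
  unfold gp
  exact (Finset.measurable_sum _ fun s _ => (meas_gw63 s).mul (hf s)).div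
    (Finset.measurable_sum _ fun s _ => meas_gw63 s)

lemma meas_gp2_63 {f : Env d → S → S → ℝ} (hf : ∀ s s', Measurable fun η => f η s s') :
    Measurable fun η : Env d => gp2 β ps n w η (f η) := by
  unfold gp2
  exact meas_gp63 fun s => meas_gp63 fun s' => hf s s'

variable {ρ : Measure ℝ} [IsProbabilityMeasure ρ]

lemma int_gp63 (hw : ∀ s, 0 ≤ w s) (hs : 0 < ∑ s, w s) (f : S → ℝ) :
    Integrable (fun η : Env d => gp β ps n w η f) (law d ρ) := by
  have h1 : ∀ s, |f s| ≤ ∑ s, |f s| := fun s =>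
    Finset.single_le_sum (f := fun s => |f s|) (fun _ _ => abs_nonneg _) (Finset.mem_univ s)
  refine (integrable_const (∑ s, |f s|)).mono'
    (meas_gp63 (f := fun _ => f) fun _ => measurable_const).aestronglyMeasurable
    (Eventually.of_forall fun η => ?_)
  rw [Real.norm_eq_abs, abs_le]
  constructor
  · have h2 := gp_mono63 (β := β) (ps := ps) (n := n) hw hs η (f := fun _ => -(∑ s, |f s|))
      (g := f) fun s => (abs_le.1 (h1 s)).1
    rwa [gp_const63 hw hs] at h2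
  · have h2 := gp_mono63 (β := β) (ps := ps) (n := n) hw hs η (f := f)
      (g := fun _ => ∑ s, |f s|) fun s => (abs_le.1 (h1 s)).2
    rwa [gp_const63 hw hs] at h2

lemma int_gp2_63 (hw : ∀ s, 0 ≤ w s) (hs : 0 < ∑ s, w s) {f : Env d → S → S → ℝ}
    (hf : ∀ s s', Measurable fun η => f η s s') (hb : ∀ η s s', 0 ≤ f η s s' ∧ f η s s' ≤ 1) :
    Integrable (fun η : Env d => gp2 β ps n w η (f η)) (law d ρ) :=
  int_bd39 (meas_gp2_63 hf) fun η => gp2_bd63 hw hs η (hb η)

open Classical in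
/-- The distance of two replicas at the times `t` and `e`. -/
lemma rpqG63 (hw : ∀ s, 0 ≤ w s) (hs : 0 < ∑ s, w s) (t e : ℕ) (m : Vec d) (r a : ℝ) :
    gRp ρ β ps n w e r ≤ gRp ρ β ps n w t (r - 2 * a) + 2 * gTl ρ β ps n w t e m a := by
  set A : S → S → ℝ := fun s s' =>
    if r - 2 * a < ‖emb (ps s t) - emb (ps s' t)‖ then (1 : ℝ) else 0 with hA
  set B : S → ℝ := fun s => if a < gi ps t e m s then (1 : ℝ) else 0 with hB
  have hpt : ∀ s s' : S,
      (if r < ‖emb (ps s e) - emb (ps s' e)‖ then (1 : ℝ) else 0) ≤ A s s' + B s + B s' := by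
    intro s s'
    simp only [hA, hB]
    have htri : ‖emb (ps s e) - emb (ps s' e)‖ ≤
        ‖emb (ps s t) - emb (ps s' t)‖ + gi ps t e m s + gi ps t e m s' := by
      unfold gi
      have e1 : emb (ps s e) - emb (ps s' e) =
          (emb (ps s t) - emb (ps s' t)) + (emb (ps s e) - emb (ps s t) - m) -
            (emb (ps s' e) - emb (ps s' t) - m) := by abel
      rw [e1]
      exact (norm_sub_le _ _).trans (by gcongr; exact norm_add_le _ _)
    split_ifs <;> linarith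
  have hpe : ∀ η : Env d, gp2 β ps n w η (fun s s' =>
      if r < ‖emb (ps s e) - emb (ps s' e)‖ then (1 : ℝ) else 0) ≤
      gp2 β ps n w η A + 2 * gp β ps n w η B := by
    intro η
    refine (gp2_mono63 hw hs η hpt).trans (le_of_eq ?_)
    rw [gp2_add63 η (fun s s' => A s s' + B s) (fun _ s' => B s'), gp2_add63 η A (fun s _ => B s),
      gp2_fst63 hw hs, gp2_snd63 hw hs]
    ring
  have i1 : ∀ F : S → S → ℝ, (∀ s s', 0 ≤ F s s' ∧ F s s' ≤ 1) →
      Integrable (fun η : Env d => gp2 β ps n w η F) (law d ρ) := fun F hF =>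
    int_gp2_63 hw hs (f := fun _ => F) (fun _ _ => measurable_const) fun _ => hF
  have i2 : Integrable (fun η : Env d => gp2 β ps n w η A) (law d ρ) := i1 _ fun s s' => by
    simp only [hA]
    split_ifs <;> norm_num
  unfold gRp gTl
  rw [← integral_const_mul, ← integral_add i2 ((int_gp63 hw hs _).const_mul 2)]
  exact integral_mono (i1 _ fun s s' => by split_ifs <;> norm_num)
    (i2.add ((int_gp63 hw hs _).const_mul 2)) hpe

open Classical in
/-- Chebyshev for a window. -/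
lemma tlqG63 (hw : ∀ s, 0 ≤ w s) (hs : 0 < ∑ s, w s) (t e : ℕ) (m : Vec d) {a : ℝ}
    (ha : 0 < a) : gTl ρ β ps n w t e m a ≤
      (∫ η, gp β ps n w η (fun s => gi ps t e m s ^ 2) ∂(law d ρ)) / a ^ 2 := by
  rw [le_div_iff₀ (by positivity)]
  unfold gTl
  rw [← integral_mul_const]
  refine integral_mono ((int_gp63 hw hs _).mul_const _) (int_gp63 hw hs _) fun η => ?_
  show gp β ps n w η (fun s => if a < gi ps t e m s then (1 : ℝ) else 0) * a ^ 2 ≤ _
  rw [mul_comm, ← gp_mul63]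
  refine gp_mono63 hw hs η fun s => ?_
  show a ^ 2 * (if a < gi ps t e m s then (1 : ℝ) else 0) ≤ gi ps t e m s ^ 2
  split_ifs with h1
  · rw [mul_one]
    exact pow_le_pow_left₀ ha.le h1.le 2
  · rw [mul_zero]
    exact sq_nonneg _

/-- The mean of the increment. -/
lemma incqG63 (hw : ∀ s, 0 ≤ w s) (hs : 0 < ∑ s, w s) (t e : ℕ) (m : Vec d) {a : ℝ}
    (ha : 0 < a) : ∫ η, gp β ps n w η (fun s => gi ps t e m s) ∂(law d ρ) ≤
      (2 * a)⁻¹ * (∫ η, gp β ps n w η (fun s => gi ps t e m s ^ 2) ∂(law d ρ)) + a / 2 := by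
  have h1 : ∀ η : Env d, gp β ps n w η (fun s => gi ps t e m s) ≤
      (2 * a)⁻¹ * gp β ps n w η (fun s => gi ps t e m s ^ 2) + a / 2 := by
    intro η
    rw [← gp_mul63, ← gp_const63 (β := β) (ps := ps) (n := n) hw hs η (a / 2), ← gp_add63]
    refine gp_mono63 hw hs η fun s => ?_
    rw [← sub_nonneg]
    have h3 : (2 * a)⁻¹ * gi ps t e m s ^ 2 + a / 2 - gi ps t e m s =
        (2 * a)⁻¹ * (gi ps t e m s - a) ^ 2 := by
      field_simp
      ring
    rw [h3]
    positivity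
  have h4 := integral_mono (μ := law d ρ) (int_gp63 hw hs _)
    (((int_gp63 hw hs (fun s => gi ps t e m s ^ 2)).const_mul (2 * a)⁻¹).add
      (integrable_const (a / 2))) h1
  refine h4.trans (le_of_eq ?_)
  show ∫ η, ((2 * a)⁻¹ * gp β ps n w η (fun s => gi ps t e m s ^ 2) + a / 2) ∂(law d ρ) = _
  rw [integral_add ((int_gp63 hw hs _).const_mul _) (integrable_const _), integral_const_mul]
  have h7 : ∫ _η : Env d, (a / 2) ∂(law d ρ) = a / 2 := by simp
  rw [h7]

lemma gQt_bd63 (hw : ∀ s, 0 ≤ w s) (hs : 0 < ∑ s, w s) (t : ℕ) (y : Site d) (η : Env d) :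
    0 ≤ gQt β ps n w t y η ∧ gQt β ps n w t y η ≤ 1 := by
  unfold gQt
  exact gp_bd63 hw hs η fun s => by split_ifs <;> norm_num

lemma gQt_meas63 (t : ℕ) (y : Site d) : Measurable (gQt β ps n w t y) := by
  unfold gQt
  exact meas_gp63 (f := fun _ s => if ps s t = y then (1 : ℝ) else 0) fun _ => measurable_const

open Classical in
lemma gQt_sum63 (hw : ∀ s, 0 ≤ w s) (hs : 0 < ∑ s, w s) (t : ℕ) (B : Finset (Site d))
    (η : Env d) : ∑ y ∈ B, gQt β ps n w t y η ≤ 1 := by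
  have h1 : ∑ y ∈ B, gQt β ps n w t y η =
      gp β ps n w η (fun s => ∑ y ∈ B, if ps s t = y then (1 : ℝ) else 0) := by
    unfold gQt gp
    rw [← Finset.sum_div]
    congr 1
    rw [Finset.sum_comm]
    exact Finset.sum_congr rfl fun s _ => (Finset.mul_sum _ _ _).symm
  rw [h1]
  refine (gp_bd63 hw hs η fun s => ?_).2
  rw [Finset.sum_ite_eq]
  split_ifs <;> norm_num

open Classical in
/-- The predictable weight: the sites of `B` of conditional probability at least `ε`. -/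
noncomputable def gG (ρ : Measure ℝ) (β : ℝ) (ps : S → ℕ → Site d) (n : ℕ) (w : S → ℝ)
    (B : Finset (Site d)) (ε : ℝ) (t : ℕ) (y : Site d) (η : Env d) : ℝ :=
  if y ∈ B ∧ ε ≤ cE ρ (Pa d (t - 1)) (gQt β ps n w t y) η then (1 : ℝ) else 0

lemma gG_meas63 (B : Finset (Site d)) (ε : ℝ) (t : ℕ) (y : Site d) :
    Measurable (gG ρ β ps n w B ε t y) := by
  unfold gG
  by_cases hy : y ∈ B
  · simp only [hy, true_and]
    refine Measurable.ite ?_ measurable_const measurable_const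
    exact measurableSet_le measurable_const (measurable_cE (gQt_meas63 t y) _)
  · simp only [hy, false_and, if_false]
    exact measurable_const

omit [IsProbabilityMeasure ρ] in
lemma gG_bd63 (B : Finset (Site d)) (ε : ℝ) (t : ℕ) (y : Site d) (η : Env d) :
    0 ≤ gG ρ β ps n w B ε t y η ∧ gG ρ β ps n w B ε t y η ≤ 1 := by
  unfold gG
  split_ifs <;> norm_num

omit [IsProbabilityMeasure ρ] in
lemma gG_out63 (B : Finset (Site d)) (ε : ℝ) (t : ℕ) (y : Site d) (hy : y ∉ B) (η : Env d) :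
    gG ρ β ps n w B ε t y η = 0 := by
  unfold gG
  rw [if_neg fun h1 => hy h1.1]

omit [IsProbabilityMeasure ρ] in
lemma gG_dep63 (B : Finset (Site d)) (ε : ℝ) (t : ℕ) (y : Site d) :
    DependsOn (gG ρ β ps n w B ε t y) (Pa d (t - 1)) := by
  intro η η' hη
  unfold gG
  rw [cE_dep (Pa d (t - 1)) (gQt β ps n w t y) hη]

/-- There are at most `1 / ε` such sites. -/
lemma gG_sum63 (hw : ∀ s, 0 ≤ w s) (hs : 0 < ∑ s, w s) (B : Finset (Site d)) (t : ℕ) {ε : ℝ}
    (hε : 0 < ε) : ∫ η, ∑ y ∈ B, gG ρ β ps n w B ε t y η ∂(law d ρ) ≤ 1 / ε := by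
  have hgi : ∀ y ∈ B, Integrable (gG ρ β ps n w B ε t y) (law d ρ) := fun y _ =>
    int_bd39 (gG_meas63 B ε t y) (gG_bd63 B ε t y)
  have h2 : ∀ η : Env d, ∑ y ∈ B, gG ρ β ps n w B ε t y η ≤ 1 / ε := by
    intro η
    rw [le_div_iff₀ hε, Finset.sum_mul]
    have h3 : ∀ y ∈ B, gG ρ β ps n w B ε t y η * ε ≤
        cE ρ (Pa d (t - 1)) (gQt β ps n w t y) η := by
      intro y _
      have h4 : 0 ≤ cE ρ (Pa d (t - 1)) (gQt β ps n w t y) η :=
        cE_nonneg (fun ξ => (gQt_bd63 hw hs t y ξ).1) _ _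
      unfold gG
      split_ifs with h6
      · simpa using h6.2
      · simpa using h4
    refine (Finset.sum_le_sum h3).trans ?_
    unfold cE
    have hi : ∀ y : Site d, Integrable
        (fun ξ : Env d => gQt β ps n w t y (spl (Pa d (t - 1)) η ξ)) (law d ρ) := fun y =>
      int_bd39 ((gQt_meas63 t y).comp (measurable_spl_right (Pa d (t - 1)) η))
        fun ξ => gQt_bd63 hw hs t y _
    rw [← integral_finsetSum _ fun y _ => hi y]
    have h7 := integral_mono (μ := law d ρ) (integrable_finsetSum B fun y _ => hi y)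
      (integrable_const (1 : ℝ)) fun ξ => gQt_sum63 hw hs t B (spl (Pa d (t - 1)) η ξ)
    simpa using h7
  have h8 := integral_mono (integrable_finsetSum _ hgi) (integrable_const (1 / ε)) h2
  simpa using h8

end Bas

end Pool.Agent.W_7d29a1_GW
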