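import Pool.Agent.W_7d29a1_GW.DefsG31
import Pool.Agent.W_7d29a1_S90.SiI39
import Pool.Agent.W_7d29a1_Q29.Ce39

/-!
Theorem GW: the calculus of `gp`, `gp2` (finite a priori path space).
-/

namespace Pool.Agent.W_7d29a1_GW

open MeasureTheory ProbabilityTheory Filter Topology Pool.Agent.W_MP_7d29a1_pr
  Pool.Agent.W_7d29a1_h46 Pool.Agent.W_7d29a1_h46u Pool.Agent.W_7d29a1_D2.B35
  Pool.Agent.W_7d29a1_Q29 Pool.Agent.W_7d29a1_S90 Pool.Agent.W_7d29a1_NS

variable {d : ℕ} {S : Type} [Fintype S] {ps : S → ℕ → Site d} {n : ℕ} {w : S → ℝ}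

/-! ### The weights -/

omit [Fintype S] in
lemma gw_nonneg39 (hw : ∀ s, 0 ≤ w s) (β : ℝ) (η : Env d) (s : S) : 0 ≤ gw β ps n w η s :=
  mul_nonneg (hw s) (Real.exp_pos _).le

lemma gZ_pos39 (hw : ∀ s, 0 ≤ w s) (hw1 : 0 < ∑ s, w s) (β : ℝ) (η : Env d) :
    0 < ∑ s, gw β ps n w η s := by
  obtain ⟨s, hs, hs0⟩ : ∃ s ∈ Finset.univ, 0 < w s := by
    by_contra hcon
    push Not at hcon
    exact absurd hw1 (not_lt.2 (Finset.sum_nonpos hcon))
  exact Finset.sum_pos' (fun s _ => gw_nonneg39 hw β η s)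
    ⟨s, hs, mul_pos hs0 (Real.exp_pos _)⟩

omit [Fintype S] in
lemma measurable_gw39 (β : ℝ) (s : S) : Measurable fun η : Env d => gw β ps n w η s := by
  unfold gw
  refine measurable_const.mul (Real.measurable_exp.comp (measurable_const.mul ?_))
  exact Finset.measurable_sum _ fun i _ => measurable_pi_apply _

/-! ### One path -/

lemma gp_mono39 (hw : ∀ s, 0 ≤ w s) (β : ℝ) (η : Env d) {f g : S → ℝ} (hfg : ∀ s, f s ≤ g s) :
    gp β ps n w η f ≤ gp β ps n w η g :=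
  div_le_div_of_nonneg_right (Finset.sum_le_sum fun s _ =>
    mul_le_mul_of_nonneg_left (hfg s) (gw_nonneg39 hw β η s))
    (Finset.sum_nonneg fun s _ => gw_nonneg39 hw β η s)

lemma gp_const39 (hw : ∀ s, 0 ≤ w s) (hw1 : 0 < ∑ s, w s) (β : ℝ) (η : Env d) (c : ℝ) :
    gp β ps n w η (fun _ => c) = c := by
  unfold gp
  rw [← Finset.sum_mul, mul_comm]
  exact mul_div_cancel_right₀ c (gZ_pos39 hw hw1 β η).ne'

lemma gp_nonneg39 (hw : ∀ s, 0 ≤ w s) (β : ℝ) (η : Env d) {f : S → ℝ} (hf : ∀ s, 0 ≤ f s) :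
    0 ≤ gp β ps n w η f :=
  div_nonneg (Finset.sum_nonneg fun s _ => mul_nonneg (gw_nonneg39 hw β η s) (hf s))
    (Finset.sum_nonneg fun s _ => gw_nonneg39 hw β η s)

lemma gp_add39 (β : ℝ) (η : Env d) (f g : S → ℝ) :
    gp β ps n w η (fun s => f s + g s) = gp β ps n w η f + gp β ps n w η g := by
  unfold gp
  rw [← add_div, ← Finset.sum_add_distrib]
  congr 1
  exact Finset.sum_congr rfl fun s _ => mul_add _ _ _

lemma gp_sub39 (β : ℝ) (η : Env d) (f g : S → ℝ) :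
    gp β ps n w η (fun s => f s - g s) = gp β ps n w η f - gp β ps n w η g := by
  unfold gp
  rw [← sub_div, ← Finset.sum_sub_distrib]
  congr 1
  exact Finset.sum_congr rfl fun s _ => mul_sub _ _ _

lemma gp_mul39 (β : ℝ) (η : Env d) (c : ℝ) (f : S → ℝ) :
    gp β ps n w η (fun s => c * f s) = c * gp β ps n w η f := by
  unfold gp
  rw [← mul_div_assoc, Finset.mul_sum]
  congr 1
  exact Finset.sum_congr rfl fun s _ => by ring

lemma gp_sum39 {ι : Type*} (I : Finset ι) (β : ℝ) (η : Env d) (f : ι → S → ℝ) :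
    gp β ps n w η (fun s => ∑ i ∈ I, f i s) = ∑ i ∈ I, gp β ps n w η (f i) := by
  unfold gp
  rw [← Finset.sum_div, Finset.sum_comm]
  congr 1
  exact Finset.sum_congr rfl fun s _ => Finset.mul_sum _ _ _

lemma abs_gp_le39 (hw : ∀ s, 0 ≤ w s) (hw1 : 0 < ∑ s, w s) (β : ℝ) (η : Env d) {f : S → ℝ}
    {C : ℝ} (hf : ∀ s, |f s| ≤ C) : |gp β ps n w η f| ≤ C := by
  rw [abs_le]
  constructor
  · have h1 := gp_mono39 (ps := ps) (n := n) hw β η (f := fun _ => -C) (g := f)
      fun s => (abs_le.1 (hf s)).1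
    rwa [gp_const39 hw hw1] at h1
  · have h1 := gp_mono39 (ps := ps) (n := n) hw β η (f := f) (g := fun _ => C)
      fun s => (abs_le.1 (hf s)).2
    rwa [gp_const39 hw hw1] at h1

lemma gp_bd39 (hw : ∀ s, 0 ≤ w s) (hw1 : 0 < ∑ s, w s) (β : ℝ) (η : Env d) {f : S → ℝ}
    (hf : ∀ s, 0 ≤ f s ∧ f s ≤ 1) : 0 ≤ gp β ps n w η f ∧ gp β ps n w η f ≤ 1 := by
  refine ⟨gp_nonneg39 hw β η fun s => (hf s).1, ?_⟩
  have h1 := gp_mono39 (ps := ps) (n := n) hw β η (f := f) (g := fun _ => (1 : ℝ))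
    fun s => (hf s).2
  rwa [gp_const39 hw hw1] at h1

lemma measurable_gp39 (β : ℝ) {f : Env d → S → ℝ} (hf : ∀ s, Measurable fun η => f η s) :
    Measurable fun η : Env d => gp β ps n w η (f η) := by
  unfold gp
  exact (Finset.measurable_sum _ fun s _ => (measurable_gw39 β s).mul (hf s)).div
    (Finset.measurable_sum _ fun s _ => measurable_gw39 β s)

lemma meas_gp39 (β : ℝ) (f : S → ℝ) : Measurable fun η : Env d => gp β ps n w η f :=
  measurable_gp39 β (f := fun _ => f) fun _ => measurable_const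

lemma integrable_gp39 {ρ : Measure ℝ} [IsProbabilityMeasure ρ] (hw : ∀ s, 0 ≤ w s)
    (hw1 : 0 < ∑ s, w s) (β : ℝ) {f : Env d → S → ℝ} (hf : ∀ s, Measurable fun η => f η s)
    {C : ℝ} (hC : ∀ η s, |f η s| ≤ C) :
    Integrable (fun η : Env d => gp β ps n w η (f η)) (law d ρ) := by
  refine (integrable_const C).mono' (measurable_gp39 β hf).aestronglyMeasurable
    (Eventually.of_forall fun η => ?_)
  rw [Real.norm_eq_abs]
  exact abs_gp_le39 hw hw1 β η (hC η)

/-- A function of the path alone. -/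
lemma integrable_gp_fun39 {ρ : Measure ℝ} [IsProbabilityMeasure ρ] (hw : ∀ s, 0 ≤ w s)
    (hw1 : 0 < ∑ s, w s) (β : ℝ) (f : S → ℝ) :
    Integrable (fun η : Env d => gp β ps n w η f) (law d ρ) := by
  refine integrable_gp39 hw hw1 β (f := fun _ => f) (fun s => measurable_const)
    (C := ∑ s, |f s|) fun _ s => ?_
  exact Finset.single_le_sum (f := fun s => |f s|) (fun _ _ => abs_nonneg _) (Finset.mem_univ s)

/-! ### Two paths -/

lemma gp2_mono39 (hw : ∀ s, 0 ≤ w s) (β : ℝ) (η : Env d) {f g : S → S → ℝ}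
    (hfg : ∀ s s', f s s' ≤ g s s') : gp2 β ps n w η f ≤ gp2 β ps n w η g :=
  gp_mono39 hw β η fun s => gp_mono39 hw β η fun s' => hfg s s'

lemma gp2_bd39 (hw : ∀ s, 0 ≤ w s) (hw1 : 0 < ∑ s, w s) (β : ℝ) (η : Env d) {f : S → S → ℝ}
    (hf : ∀ s s', 0 ≤ f s s' ∧ f s s' ≤ 1) :
    0 ≤ gp2 β ps n w η f ∧ gp2 β ps n w η f ≤ 1 :=
  gp_bd39 hw hw1 β η fun s => gp_bd39 hw hw1 β η fun s' => hf s s'

lemma abs_gp2_le39 (hw : ∀ s, 0 ≤ w s) (hw1 : 0 < ∑ s, w s) (β : ℝ) (η : Env d) {f : S → S → ℝ}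
    {C : ℝ} (hf : ∀ s s', |f s s'| ≤ C) : |gp2 β ps n w η f| ≤ C :=
  abs_gp_le39 hw hw1 β η fun s => abs_gp_le39 hw hw1 β η fun s' => hf s s'

lemma gp2_add39 (β : ℝ) (η : Env d) (f g : S → S → ℝ) :
    gp2 β ps n w η (fun s s' => f s s' + g s s') = gp2 β ps n w η f + gp2 β ps n w η g := by
  unfold gp2
  simp_rw [gp_add39]

lemma gp2_sub39 (β : ℝ) (η : Env d) (f g : S → S → ℝ) :
    gp2 β ps n w η (fun s s' => f s s' - g s s') = gp2 β ps n w η f - gp2 β ps n w η g := by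
  unfold gp2
  simp_rw [gp_sub39]

lemma gp2_mul39 (β : ℝ) (η : Env d) (c : ℝ) (f : S → S → ℝ) :
    gp2 β ps n w η (fun s s' => c * f s s') = c * gp2 β ps n w η f := by
  unfold gp2
  simp_rw [gp_mul39]

lemma gp2_sum39 {ι : Type*} (I : Finset ι) (β : ℝ) (η : Env d) (f : ι → S → S → ℝ) :
    gp2 β ps n w η (fun s s' => ∑ i ∈ I, f i s s') = ∑ i ∈ I, gp2 β ps n w η (f i) := by
  unfold gp2
  simp_rw [gp_sum39]

lemma gp2_fst39 (hw : ∀ s, 0 ≤ w s) (hw1 : 0 < ∑ s, w s) (β : ℝ) (η : Env d) (x : S → ℝ) :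
    gp2 β ps n w η (fun s _ => x s) = gp β ps n w η x := by
  unfold gp2
  simp_rw [gp_const39 hw hw1]

lemma gp2_snd39 (hw : ∀ s, 0 ≤ w s) (hw1 : 0 < ∑ s, w s) (β : ℝ) (η : Env d) (x : S → ℝ) :
    gp2 β ps n w η (fun _ s' => x s') = gp β ps n w η x := by
  unfold gp2
  rw [gp_const39 hw hw1]

lemma measurable_gp239 (β : ℝ) {f : Env d → S → S → ℝ}
    (hf : ∀ s s', Measurable fun η => f η s s') :
    Measurable fun η : Env d => gp2 β ps n w η (f η) := by
  unfold gp2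
  exact measurable_gp39 β (f := fun η s => gp β ps n w η fun s' => f η s s') fun s =>
    measurable_gp39 β (f := fun η s' => f η s s') fun s' => hf s s'

lemma meas_gp239 (β : ℝ) (f : S → S → ℝ) : Measurable fun η : Env d => gp2 β ps n w η f :=
  measurable_gp239 β (f := fun _ => f) fun _ _ => measurable_const

lemma integrable_gp239 {ρ : Measure ℝ} [IsProbabilityMeasure ρ] (hw : ∀ s, 0 ≤ w s)
    (hw1 : 0 < ∑ s, w s) (β : ℝ) {f : Env d → S → S → ℝ}
    (hf : ∀ s s', Measurable fun η => f η s s') {C : ℝ} (hC : ∀ η s s', |f η s s'| ≤ C) :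
    Integrable (fun η : Env d => gp2 β ps n w η (f η)) (law d ρ) := by
  refine (integrable_const C).mono' (measurable_gp239 β hf).aestronglyMeasurable
    (Eventually.of_forall fun η => ?_)
  rw [Real.norm_eq_abs]
  exact abs_gp2_le39 hw hw1 β η (hC η)

lemma integrable_gp2_fun39 {ρ : Measure ℝ} [IsProbabilityMeasure ρ] (hw : ∀ s, 0 ≤ w s)
    (hw1 : 0 < ∑ s, w s) (β : ℝ) (f : S → S → ℝ) :
    Integrable (fun η : Env d => gp2 β ps n w η f) (law d ρ) := by
  refine integrable_gp239 hw hw1 β (f := fun _ => f) (fun s s' => measurable_const)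
    (C := ∑ s, ∑ s', |f s s'|) fun _ s s' => ?_
  refine (Finset.single_le_sum (f := fun s' => |f s s'|) (fun _ _ => abs_nonneg _)
    (Finset.mem_univ s')).trans ?_
  exact Finset.single_le_sum (f := fun s => ∑ s', |f s s'|)
    (fun _ _ => Finset.sum_nonneg fun _ _ => abs_nonneg _) (Finset.mem_univ s)

/-- The second moment of the difference of two replicas. -/
lemma gp2_sq39 (hw : ∀ s, 0 ≤ w s) (hw1 : 0 < ∑ s, w s) (β : ℝ) (η : Env d) (x : S → ℝ) :
    gp2 β ps n w η (fun s s' => (x s - x s') ^ 2) =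
      2 * (gp β ps n w η (fun s => x s ^ 2) - gp β ps n w η x ^ 2) := by
  have h1 : ∀ s : S, gp β ps n w η (fun s' => (x s - x s') ^ 2) =
      x s ^ 2 - 2 * gp β ps n w η x * x s + gp β ps n w η (fun s => x s ^ 2) := by
    intro s
    have h2 : (fun s' : S => (x s - x s') ^ 2) = fun s' => (x s ^ 2 - 2 * x s * x s') + x s' ^ 2 := by
      funext s'
      ring
    rw [h2, gp_add39, gp_sub39, gp_const39 hw hw1, gp_mul39]
    ring
  unfold gp2
  simp_rw [h1]
  rw [gp_add39, gp_sub39, gp_const39 hw hw1, gp_mul39]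
  ring

/-! ### The law of the site at a time, and of the block -/

lemma meas_gQt39 (β : ℝ) (t : ℕ) (y : Site d) : Measurable (gQt β ps n w t y) := by
  unfold gQt
  exact meas_gp39 β _

lemma gQt_nonneg39 (hw : ∀ s, 0 ≤ w s) (β : ℝ) (t : ℕ) (y : Site d) (η : Env d) :
    0 ≤ gQt β ps n w t y η := by
  unfold gQt
  refine gp_nonneg39 hw β η fun s => ?_
  split_ifs <;> norm_num

lemma gQt_le_one39 (hw : ∀ s, 0 ≤ w s) (hw1 : 0 < ∑ s, w s) (β : ℝ) (t : ℕ) (y : Site d)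
    (η : Env d) : gQt β ps n w t y η ≤ 1 := by
  unfold gQt
  refine (gp_bd39 hw hw1 β η fun s => ?_).2
  split_ifs <;> constructor <;> norm_num

/-- The mean of a function of the site at the time `t` is a sum over a set which contains all these
sites. -/
lemma gp_pos39 (β : ℝ) (t : ℕ) (F : Site d → ℝ) (η : Env d) {B : Finset (Site d)}
    (hB : ∀ s, ps s t ∈ B) :
    gp β ps n w η (fun s => F (ps s t)) = ∑ y ∈ B, gQt β ps n w t y η * F y := by
  classical
  have h1 : (fun s : S => F (ps s t)) =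
      fun s => ∑ y ∈ B, F y * (if ps s t = y then (1 : ℝ) else 0) := by
    funext s
    simp only [mul_ite, mul_one, mul_zero]
    rw [Finset.sum_ite_eq, if_pos (hB s)]
  rw [h1, gp_sum39]
  refine Finset.sum_congr rfl fun y _ => ?_
  rw [gp_mul39, mul_comm]
  unfold gQt
  congr 2

lemma gQt_sum39 (hw : ∀ s, 0 ≤ w s) (hw1 : 0 < ∑ s, w s) (β : ℝ) (t : ℕ) (η : Env d)
    {B : Finset (Site d)} (hB : ∀ s, ps s t ∈ B) : ∑ y ∈ B, gQt β ps n w t y η = 1 := by
  have h1 := gp_pos39 (w := w) (n := n) β t (fun _ => (1 : ℝ)) η hB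
  rw [gp_const39 hw hw1] at h1
  rw [h1]
  exact Finset.sum_congr rfl fun y _ => (mul_one _).symm

/-- At most one in all cases. -/
lemma gQt_sum_le39 (hw : ∀ s, 0 ≤ w s) (hw1 : 0 < ∑ s, w s) (β : ℝ) (t : ℕ) (η : Env d)
    (B : Finset (Site d)) : ∑ y ∈ B, gQt β ps n w t y η ≤ 1 := by
  classical
  unfold gQt
  rw [← gp_sum39]
  refine (gp_bd39 hw hw1 β η fun s => ?_).2
  rw [Finset.sum_ite_eq]
  split_ifs <;> constructor <;> norm_num

lemma meas_gqb39 (β : ℝ) (t i : ℕ) (o b : Site d) : Measurable (gqb β ps n w t i o b) := by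
  unfold gqb
  exact meas_gp39 β _

lemma gqb_bd39 (hw : ∀ s, 0 ≤ w s) (hw1 : 0 < ∑ s, w s) (β : ℝ) (t i : ℕ) (o b : Site d)
    (η : Env d) : 0 ≤ gqb β ps n w t i o b η ∧ gqb β ps n w t i o b η ≤ 1 := by
  unfold gqb
  refine gp_bd39 hw hw1 β η fun s => ?_
  split_ifs <;> constructor <;> norm_num

lemma meas_gHi39 {ρ : Measure ℝ} [IsProbabilityMeasure ρ] (β : ℝ) (t : ℕ) (a : ℝ) (τ i : ℕ)
    (o b : Site d) : MeasurableSet {η : Env d | gHi ρ β ps n w t a τ i o b η} := by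
  unfold gHi
  refine measurableSet_le (measurable_cE ?_ _) (measurable_const.mul ?_)
  · exact (measurable_cE (meas_gqb39 β t i o b) _).sqrt
  · exact (measurable_cE (meas_gqb39 β t i o b) _).sqrt

lemma dep_gHi39 {ρ : Measure ℝ} (β : ℝ) (t : ℕ) (a : ℝ) {τ : ℕ} (i : ℕ) (o b : Site d)
    {η η' : Env d} (hη : ∀ p ∈ Pa d (τ - 1), η p = η' p) :
    gHi ρ β ps n w t a τ i o b η ↔ gHi ρ β ps n w t a τ i o b η' := by
  unfold gHi
  have h1 := cE_dep (ρ := ρ) (Pa d (τ - 1))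
    (fun ξ => Real.sqrt (gnb ρ β ps n w t τ i o b ξ)) hη
  have h2 : gnb ρ β ps n w t (τ - 1) i o b η = gnb ρ β ps n w t (τ - 1) i o b η' :=
    cE_dep (ρ := ρ) (Pa d (τ - 1)) (gqb β ps n w t i o b) hη
  rw [h1, h2]

/-! ### One site -/

open Classical in
omit [Fintype S] in
lemma gw_upd39 (β : ℝ) (η : Env d) (s : S) {τ : ℕ} (y : Site d) (r : ℝ) (hτ : 1 ≤ τ)
    (hτn : τ ≤ n) : gw β ps n w (Function.update η (τ, y) r) s =
      (if ps s τ = y then 0 else gw β ps n w (Function.update η (τ, y) 0) s) +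
      (if ps s τ = y then gw β ps n w (Function.update η (τ, y) 0) s else 0) *
        Real.exp (β * r) := by
  have h1 : ∀ i ∈ Finset.range n, Function.update η (τ, y) r (i + 1, ps s (i + 1)) =
      Function.update η (τ, y) 0 (i + 1, ps s (i + 1)) +
        (if i + 1 = τ then (if ps s τ = y then r else 0) else 0) := by
    intro i _
    by_cases hi : i + 1 = τ
    · rw [if_pos hi, hi]
      by_cases hy : ps s τ = y
      · rw [if_pos hy, hy, Function.update_self, Function.update_self, zero_add]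
      · rw [if_neg hy, add_zero, Function.update_of_ne, Function.update_of_ne]
        · intro h
          exact hy (Prod.ext_iff.1 h).2
        · intro h
          exact hy (Prod.ext_iff.1 h).2
    · rw [if_neg hi, add_zero, Function.update_of_ne, Function.update_of_ne]
      · intro h
        exact hi (Prod.ext_iff.1 h).1
      · intro h
        exact hi (Prod.ext_iff.1 h).1
  have h2 : ∑ i ∈ Finset.range n, (if i + 1 = τ then (if ps s τ = y then r else 0) else 0) =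
      if ps s τ = y then r else 0 := by
    rw [Finset.sum_eq_single (τ - 1)]
    · rw [if_pos (by omega)]
    · intro i _ hi
      rw [if_neg]
      omega
    · intro h
      exact absurd (Finset.mem_range.2 (by omega)) h
  unfold gw
  rw [Finset.sum_congr rfl h1, Finset.sum_add_distrib, h2]
  by_cases hy : ps s τ = y
  · rw [if_pos hy, if_pos hy, if_pos hy, zero_add, mul_add, Real.exp_add, mul_assoc]
  · rw [if_neg hy, if_neg hy, if_neg hy, add_zero, zero_mul, add_zero]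

end Pool.Agent.W_7d29a1_GW
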