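import Pool.Agent.W_7d29a1_GW.DefsG31

/-!
Theorem GW: the calculus of the mean over a finite path space.
-/

namespace Pool.Agent.W_7d29a1_GW

open MeasureTheory ProbabilityTheory Filter Topology Pool.Agent.W_MP_7d29a1_pr
  Pool.Agent.W_7d29a1_h46 Pool.Agent.W_7d29a1_h46u Pool.Agent.W_7d29a1_D2.B35
  Pool.Agent.W_7d29a1_Q29 Pool.Agent.W_7d29a1_S90 Pool.Agent.W_7d29a1_NS

variable {d : ℕ} {S : Type} [Fintype S]

/-- A priori weights. -/
def Wp (w : S → ℝ) : Prop := (∀ s, 0 ≤ w s) ∧ 0 < ∑ s, w s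

lemma gw_nonneg56 {w : S → ℝ} (hw : Wp w) (β : ℝ) (ps : S → ℕ → Site d) (n : ℕ) (η : Env d)
    (s : S) : 0 ≤ gw β ps n w η s := mul_nonneg (hw.1 s) (Real.exp_pos _).le

lemma gZ_pos56 {w : S → ℝ} (hw : Wp w) (β : ℝ) (ps : S → ℕ → Site d) (n : ℕ) (η : Env d) :
    0 < ∑ s, gw β ps n w η s := by
  have h1 : ∃ s, 0 < w s := by
    by_contra hh
    push Not at hh
    have h2 : ∑ s, w s ≤ 0 := Finset.sum_nonpos fun s _ => hh s
    exact absurd hw.2 (not_lt.2 h2)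
  obtain ⟨s, hs⟩ := h1
  exact Finset.sum_pos' (fun s _ => gw_nonneg56 hw β ps n η s)
    ⟨s, Finset.mem_univ s, mul_pos hs (Real.exp_pos _)⟩

lemma gw_meas56 (β : ℝ) (ps : S → ℕ → Site d) (n : ℕ) (w : S → ℝ) (s : S) :
    Measurable fun η : Env d => gw β ps n w η s := by
  unfold gw
  exact measurable_const.mul (Real.measurable_exp.comp (measurable_const.mul
    (Finset.measurable_sum _ fun i _ => measurable_pi_apply _)))

lemma gp_mono56 {w : S → ℝ} (hw : Wp w) (β : ℝ) (ps : S → ℕ → Site d) (n : ℕ) (η : Env d)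
    {f g : S → ℝ} (hfg : ∀ s, f s ≤ g s) : gp β ps n w η f ≤ gp β ps n w η g :=
  div_le_div_of_nonneg_right (Finset.sum_le_sum fun s _ =>
    mul_le_mul_of_nonneg_left (hfg s) (gw_nonneg56 hw β ps n η s)) (gZ_pos56 hw β ps n η).le

lemma gp_const56 {w : S → ℝ} (hw : Wp w) (β : ℝ) (ps : S → ℕ → Site d) (n : ℕ) (η : Env d)
    (c : ℝ) : gp β ps n w η (fun _ => c) = c := by
  unfold gp
  rw [← Finset.sum_mul, mul_comm]
  exact mul_div_cancel_right₀ c (gZ_pos56 hw β ps n η).ne'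

lemma gp_nonneg56 {w : S → ℝ} (hw : Wp w) (β : ℝ) (ps : S → ℕ → Site d) (n : ℕ) (η : Env d)
    {f : S → ℝ} (hf : ∀ s, 0 ≤ f s) : 0 ≤ gp β ps n w η f := by
  have h1 := gp_mono56 hw β ps n η hf
  rwa [gp_const56 hw] at h1

lemma gp_add56 (β : ℝ) (ps : S → ℕ → Site d) (n : ℕ) (w : S → ℝ) (η : Env d) (f g : S → ℝ) :
    gp β ps n w η (fun s => f s + g s) = gp β ps n w η f + gp β ps n w η g := by
  unfold gp
  rw [← add_div, ← Finset.sum_add_distrib]
  congr 1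
  exact Finset.sum_congr rfl fun s _ => mul_add _ _ _

lemma gp_sub56 (β : ℝ) (ps : S → ℕ → Site d) (n : ℕ) (w : S → ℝ) (η : Env d) (f g : S → ℝ) :
    gp β ps n w η (fun s => f s - g s) = gp β ps n w η f - gp β ps n w η g := by
  unfold gp
  rw [← sub_div, ← Finset.sum_sub_distrib]
  congr 1
  exact Finset.sum_congr rfl fun s _ => mul_sub _ _ _

lemma gp_mul56 (β : ℝ) (ps : S → ℕ → Site d) (n : ℕ) (w : S → ℝ) (η : Env d) (c : ℝ)
    (f : S → ℝ) : gp β ps n w η (fun s => c * f s) = c * gp β ps n w η f := by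
  unfold gp
  rw [← mul_div_assoc, Finset.mul_sum]
  congr 1
  exact Finset.sum_congr rfl fun s _ => by ring

lemma gp_sum56 {ι : Type*} (I : Finset ι) (β : ℝ) (ps : S → ℕ → Site d) (n : ℕ) (w : S → ℝ)
    (η : Env d) (f : ι → S → ℝ) :
    gp β ps n w η (fun s => ∑ i ∈ I, f i s) = ∑ i ∈ I, gp β ps n w η (f i) := by
  unfold gp
  rw [← Finset.sum_div, Finset.sum_comm]
  congr 1
  exact Finset.sum_congr rfl fun s _ => Finset.mul_sum _ _ _

lemma gp_abs56 {w : S → ℝ} (hw : Wp w) (β : ℝ) (ps : S → ℕ → Site d) (n : ℕ) (η : Env d)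
    {f : S → ℝ} {C : ℝ} (hf : ∀ s, |f s| ≤ C) : |gp β ps n w η f| ≤ C := by
  rw [abs_le]
  constructor
  · have h1 := gp_mono56 hw β ps n η (f := fun _ => -C) (g := f) fun s => (abs_le.1 (hf s)).1
    rwa [gp_const56 hw] at h1
  · have h1 := gp_mono56 hw β ps n η (f := f) (g := fun _ => C) fun s => (abs_le.1 (hf s)).2
    rwa [gp_const56 hw] at h1

lemma gp_meas56 (β : ℝ) (ps : S → ℕ → Site d) (n : ℕ) (w : S → ℝ) {f : Env d → S → ℝ}
    (hf : ∀ s, Measurable fun η => f η s) : Measurable fun η : Env d => gp β ps n w η (f η) := by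
  unfold gp
  exact (Finset.measurable_sum _ fun s _ => (gw_meas56 β ps n w s).mul (hf s)).div
    (Finset.measurable_sum _ fun s _ => gw_meas56 β ps n w s)

lemma gp_int56 {ρ : Measure ℝ} [IsProbabilityMeasure ρ] {w : S → ℝ} (hw : Wp w) (β : ℝ)
    (ps : S → ℕ → Site d) (n : ℕ) {f : Env d → S → ℝ} (hf : ∀ s, Measurable fun η => f η s)
    {C : ℝ} (hC : ∀ η s, |f η s| ≤ C) :
    Integrable (fun η : Env d => gp β ps n w η (f η)) (law d ρ) := by
  refine (integrable_const C).mono' (gp_meas56 β ps n w hf).aestronglyMeasurable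
    (Eventually.of_forall fun η => ?_)
  rw [Real.norm_eq_abs]
  exact gp_abs56 hw β ps n η (hC η)

/-- A function of the path alone. -/
lemma gp_intF56 {ρ : Measure ℝ} [IsProbabilityMeasure ρ] {w : S → ℝ} (hw : Wp w) (β : ℝ)
    (ps : S → ℕ → Site d) (n : ℕ) (f : S → ℝ) :
    Integrable (fun η : Env d => gp β ps n w η f) (law d ρ) := by
  refine gp_int56 hw β ps n (f := fun _ => f) (fun s => measurable_const)
    (C := ∑ s, |f s|) fun _ s => ?_
  exact Finset.single_le_sum (f := fun s => |f s|) (fun _ _ => abs_nonneg _) (Finset.mem_univ s)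

/-- Two replicas. -/
lemma gp2_intF56 {ρ : Measure ℝ} [IsProbabilityMeasure ρ] {w : S → ℝ} (hw : Wp w) (β : ℝ)
    (ps : S → ℕ → Site d) (n : ℕ) (f : S → S → ℝ) :
    Integrable (fun η : Env d => gp2 β ps n w η f) (law d ρ) := by
  unfold gp2
  refine gp_int56 hw β ps n (f := fun η s => gp β ps n w η fun s' => f s s')
    (fun s => gp_meas56 β ps n w (f := fun _ s' => f s s') fun _ => measurable_const)
    (C := ∑ s, ∑ s', |f s s'|) fun η s => ?_
  refine gp_abs56 hw β ps n η fun s' => ?_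
  refine (Finset.single_le_sum (f := fun s' => |f s s'|) (fun _ _ => abs_nonneg _)
    (Finset.mem_univ s')).trans ?_
  exact Finset.single_le_sum (f := fun s => ∑ s', |f s s'|)
    (fun _ _ => Finset.sum_nonneg fun _ _ => abs_nonneg _) (Finset.mem_univ s)

lemma gp2_mono56 {w : S → ℝ} (hw : Wp w) (β : ℝ) (ps : S → ℕ → Site d) (n : ℕ) (η : Env d)
    {f g : S → S → ℝ} (hfg : ∀ s s', f s s' ≤ g s s') :
    gp2 β ps n w η f ≤ gp2 β ps n w η g :=
  gp_mono56 hw β ps n η fun s => gp_mono56 hw β ps n η fun s' => hfg s s'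

lemma gp2_sub56 (β : ℝ) (ps : S → ℕ → Site d) (n : ℕ) (w : S → ℝ) (η : Env d)
    (f g : S → S → ℝ) :
    gp2 β ps n w η (fun s s' => f s s' - g s s') = gp2 β ps n w η f - gp2 β ps n w η g := by
  unfold gp2
  rw [← gp_sub56]
  congr 1
  funext s
  rw [gp_sub56]

lemma gp2_abs56 {w : S → ℝ} (hw : Wp w) (β : ℝ) (ps : S → ℕ → Site d) (n : ℕ) (η : Env d)
    {f : S → S → ℝ} {C : ℝ} (hf : ∀ s s', |f s s'| ≤ C) : |gp2 β ps n w η f| ≤ C :=
  gp_abs56 hw β ps n η fun s => gp_abs56 hw β ps n η fun s' => hf s s'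

lemma gp2_fst56 {w : S → ℝ} (hw : Wp w) (β : ℝ) (ps : S → ℕ → Site d) (n : ℕ) (η : Env d)
    (x : S → ℝ) : gp2 β ps n w η (fun s _ => x s) = gp β ps n w η x := by
  unfold gp2
  simp_rw [gp_const56 hw]

lemma gp2_snd56 {w : S → ℝ} (hw : Wp w) (β : ℝ) (ps : S → ℕ → Site d) (n : ℕ) (η : Env d)
    (x : S → ℝ) : gp2 β ps n w η (fun _ s' => x s') = gp β ps n w η x := by
  unfold gp2
  rw [gp_const56 hw]

end Pool.Agent.W_7d29a1_GW
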