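import Pool.Agent.W_7d29a1_GW.DefsM31

/-!
Theorem GW: basics of the polymer of the Gaussian walk (helper31): integrals and lintegrals,
domination by the tilted Gaussian measure.
-/

namespace Pool.Agent.W_7d29a1_GW

open MeasureTheory ProbabilityTheory Filter Topology Pool.Agent.W_MP_7d29a1_pr
  Pool.Agent.W_7d29a1_h46 Pool.Agent.W_7d29a1_h46u Pool.Agent.W_7d29a1_D2.B35
  Pool.Agent.W_7d29a1_Q29 Pool.Agent.W_7d29a1_S90 Pool.Agent.W_7d29a1_NS

variable {ρ : Measure ℝ} {β : ℝ} {n : ℕ}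

instance Qg_zp31 (β : ℝ) (n : ℕ) (v : ℝ) (u : ℕ × Fin 2 → ℝ) (η : Env 2) :
    IsZeroOrProbabilityMeasure (Qg β n v u η) := by
  unfold Qg
  infer_instance

/-- The lintegral of a function of one replica. -/
noncomputable def L1 (β : ℝ) {n : ℕ} (v : ℝ) (F : (Fin n → Fin 2 → ℝ) → ENNReal)
    (u : ℕ × Fin 2 → ℝ) (η : Env 2) : ENNReal := ∫⁻ s, F s ∂(Qg β n v u η)

/-- The lintegral of a function of two replicas. -/
noncomputable def L2 (β : ℝ) {n : ℕ} (v : ℝ)
    (F : (Fin n → Fin 2 → ℝ) → (Fin n → Fin 2 → ℝ) → ENNReal)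
    (u : ℕ × Fin 2 → ℝ) (η : Env 2) : ENNReal :=
  ∫⁻ s, ∫⁻ s', F s s' ∂(Qg β n v u η) ∂(Qg β n v u η)

lemma L2_one31 (v : ℝ) (F : (Fin n → Fin 2 → ℝ) → ENNReal) (u : ℕ × Fin 2 → ℝ) (η : Env 2) :
    L2 β v (fun s _ => F s) u η = L1 β v F u η := by
  unfold L2 L1
  rcases eq_zero_or_isProbabilityMeasure (Qg β n v u η) with h | h
  · rw [h]
    simp
  · simp

lemma meas_L2_31 (hM : MesG β) {F : (Fin n → Fin 2 → ℝ) → (Fin n → Fin 2 → ℝ) → ENNReal}
    (hF : Measurable (Function.uncurry F)) :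
    Measurable fun p : (ℕ × Fin 2 → ℝ) × Env 2 × ℝ => L2 β p.2.2 F p.1 p.2.1 := hM n F hF

lemma meas_L1_31 (hM : MesG β) {F : (Fin n → Fin 2 → ℝ) → ENNReal} (hF : Measurable F) :
    Measurable fun p : (ℕ × Fin 2 → ℝ) × Env 2 × ℝ => L1 β p.2.2 F p.1 p.2.1 := by
  have h := meas_L2_31 hM (F := fun s (_ : Fin n → Fin 2 → ℝ) => F s) (hF.comp measurable_fst)
  simpa only [L2_one31] using h

lemma meas_ue31 {G : (ℕ × Fin 2 → ℝ) → Env 2 → ENNReal} {v : ℝ}
    {H : (ℕ × Fin 2 → ℝ) × Env 2 × ℝ → ENNReal} (hH : Measurable H)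
    (h : ∀ u η, G u η = H (u, η, v)) : Measurable (Function.uncurry G) := by
  have h1 : Function.uncurry G = H ∘ fun p : (ℕ × Fin 2 → ℝ) × Env 2 => (p.1, p.2, v) := by
    funext p
    exact h p.1 p.2
  rw [h1]
  exact hH.comp (by fun_prop)

lemma meas_L2u31 (hM : MesG β) (v : ℝ)
    {F : (Fin n → Fin 2 → ℝ) → (Fin n → Fin 2 → ℝ) → ENNReal}
    (hF : Measurable (Function.uncurry F)) : Measurable (Function.uncurry (L2 β v F)) :=
  meas_ue31 (meas_L2_31 hM hF) fun _ _ => rfl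

lemma meas_L1u31 (hM : MesG β) (v : ℝ) {F : (Fin n → Fin 2 → ℝ) → ENNReal} (hF : Measurable F) :
    Measurable (Function.uncurry (L1 β v F)) :=
  meas_ue31 (meas_L1_31 hM hF) fun _ _ => rfl

/-- Outer integrals. -/
lemma outer31 [IsProbabilityMeasure ρ] {G : (ℕ × Fin 2 → ℝ) → Env 2 → ENNReal}
    (hG : Measurable (Function.uncurry G)) {K : ENNReal} (hK : K < ⊤)
    (hb : ∀ᵐ η ∂(law 2 ρ), ∀ u, G u η ≤ K) :
    ∫ u, ∫ η, (G u η).toReal ∂(law 2 ρ) ∂off = (∫⁻ u, ∫⁻ η, G u η ∂(law 2 ρ) ∂off).toReal := by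
  have h1 : ∀ u, ∫ η, (G u η).toReal ∂(law 2 ρ) = (∫⁻ η, G u η ∂(law 2 ρ)).toReal := by
    intro u
    refine integral_toReal ?_ ?_
    · exact (hG.comp (measurable_const.prodMk measurable_id)).aemeasurable
    · filter_upwards [hb] with η hη
      exact (hη u).trans_lt hK
  simp only [h1]
  refine integral_toReal ?_ ?_
  · exact (hG.lintegral_prod_right').aemeasurable
  · refine Eventually.of_forall fun u => ?_
    have h2 : ∫⁻ η, G u η ∂(law 2 ρ) ≤ ∫⁻ _, K ∂(law 2 ρ) := by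
      refine lintegral_mono_ae ?_
      filter_upwards [hb] with η hη
      exact hη u
    refine h2.trans_lt ?_
    simpa using hK

/-- Two replicas: from lintegrals to integrals. -/
lemma conv2_31 [IsProbabilityMeasure ρ] (hM : MesG β) (v : ℝ)
    {f : (Fin n → Fin 2 → ℝ) → (Fin n → Fin 2 → ℝ) → ℝ} (hf : Measurable (Function.uncurry f))
    (h0 : ∀ s s', 0 ≤ f s s') {K : ENNReal} (hK : K < ⊤)
    (hb : ∀ᵐ η ∂(law 2 ρ), ∀ u, L2 β v (fun s s' => ENNReal.ofReal (f s s')) u η ≤ K) :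
    ∫ u, ∫ η, ∫ s, ∫ s', f s s' ∂(Qg β n v u η) ∂(Qg β n v u η) ∂(law 2 ρ) ∂off =
      (∫⁻ u, ∫⁻ η, L2 β v (fun s s' => ENNReal.ofReal (f s s')) u η ∂(law 2 ρ) ∂off).toReal := by
  have hF : Measurable (Function.uncurry fun s s' => ENNReal.ofReal (f s s')) :=
    ENNReal.measurable_ofReal.comp hf
  rw [← outer31 (meas_L2u31 hM v hF) hK hb]
  have key : ∀ᵐ η ∂(law 2 ρ), ∀ u, ∫ s, ∫ s', f s s' ∂(Qg β n v u η) ∂(Qg β n v u η) =
      (L2 β v (fun s s' => ENNReal.ofReal (f s s')) u η).toReal := by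
    filter_upwards [hb] with η hη u
    have h1 : ∀ s, ∫ s', f s s' ∂(Qg β n v u η) =
        (∫⁻ s', ENNReal.ofReal (f s s') ∂(Qg β n v u η)).toReal := by
      intro s
      refine integral_eq_lintegral_of_nonneg_ae (Eventually.of_forall (h0 s)) ?_
      exact (hf.comp (measurable_const.prodMk measurable_id)).aestronglyMeasurable
    simp only [h1]
    unfold L2
    have hm : Measurable fun s => ∫⁻ s', ENNReal.ofReal (f s s') ∂(Qg β n v u η) :=
      hF.lintegral_prod_right'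
    refine integral_toReal hm.aemeasurable ?_
    exact ae_lt_top hm ((hη u).trans_lt hK).ne
  refine integral_congr_ae (Eventually.of_forall fun u => ?_)
  refine integral_congr_ae ?_
  filter_upwards [key] with η hη
  exact hη u

/-- One replica: from lintegrals to integrals. -/
lemma conv1_31 [IsProbabilityMeasure ρ] (hM : MesG β) (v : ℝ)
    {f : (Fin n → Fin 2 → ℝ) → ℝ} (hf : Measurable f)
    (h0 : ∀ s, 0 ≤ f s) {K : ENNReal} (hK : K < ⊤)
    (hb : ∀ᵐ η ∂(law 2 ρ), ∀ u, L1 β v (fun s => ENNReal.ofReal (f s)) u η ≤ K) :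
    ∫ u, ∫ η, ∫ s, f s ∂(Qg β n v u η) ∂(law 2 ρ) ∂off =
      (∫⁻ u, ∫⁻ η, L1 β v (fun s => ENNReal.ofReal (f s)) u η ∂(law 2 ρ) ∂off).toReal := by
  rw [← outer31 (meas_L1u31 hM v hf.ennreal_ofReal) hK hb]
  refine integral_congr_ae (Eventually.of_forall fun u => ?_)
  refine integral_congr_ae (Eventually.of_forall fun η => ?_)
  exact integral_eq_lintegral_of_nonneg_ae (Eventually.of_forall h0) hf.aestronglyMeasurable

lemma L2_le_one31 (v : ℝ) {F : (Fin n → Fin 2 → ℝ) → (Fin n → Fin 2 → ℝ) → ENNReal}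
    (hF : ∀ s s', F s s' ≤ 1) (u : ℕ × Fin 2 → ℝ) (η : Env 2) : L2 β v F u η ≤ 1 := by
  unfold L2
  calc ∫⁻ s, ∫⁻ s', F s s' ∂(Qg β n v u η) ∂(Qg β n v u η)
      ≤ ∫⁻ _, ∫⁻ _, 1 ∂(Qg β n v u η) ∂(Qg β n v u η) :=
        lintegral_mono fun s => lintegral_mono fun s' => hF s s'
    _ ≤ 1 := by
        rw [lintegral_const, lintegral_const, one_mul]
        exact mul_le_one' prob_le_one prob_le_one

lemma L1_le_one31 (v : ℝ) {F : (Fin n → Fin 2 → ℝ) → ENNReal}
    (hF : ∀ s, F s ≤ 1) (u : ℕ × Fin 2 → ℝ) (η : Env 2) : L1 β v F u η ≤ 1 := by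
  rw [← L2_one31]
  exact L2_le_one31 v (fun s _ => hF s) u η

/-! ### Bounded environments -/

lemma ae_bdd31 [IsProbabilityMeasure ρ] {b : ℝ} (hb : ρ (Set.Icc (-b) b)ᶜ = 0) :
    ∀ᵐ η ∂(law 2 ρ), ∀ p, |η p| ≤ b := by
  rw [ae_all_iff]
  intro p
  have h1 : (law 2 ρ).map (fun η => η p) = ρ := Measure.infinitePi_map_eval _ p
  have h2 : (law 2 ρ) {η : Env 2 | η p ∈ (Set.Icc (-b) b)ᶜ} = 0 := by
    rw [← h1, Measure.map_apply (measurable_pi_apply p) measurableSet_Icc.compl] at hb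
    exact hb
  rw [ae_iff]
  refine measure_mono_null (fun η hη => ?_) h2
  intro h
  exact hη (abs_le.2 h)

lemma meas_sp31 (t : ℕ) : Measurable (fun s : Fin n → Fin 2 → ℝ => sp s t) := by
  unfold sp
  refine (WithLp.measurable_toLp 2 _).comp (measurable_pi_lambda _ fun j => ?_)
  refine Finset.measurable_sum _ fun i _ => ?_
  split_ifs
  · exact (measurable_pi_apply j).comp (measurable_pi_apply i)
  · exact measurable_const

lemma spj31 (s : Fin n → Fin 2 → ℝ) (t : ℕ) (j : Fin 2) :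
    sp s t j = ∑ i : Fin n, if (i : ℕ) < t then s i j else 0 := rfl

lemma meas_spj31 (t : ℕ) (j : Fin 2) : Measurable (fun s : Fin n → Fin 2 → ℝ => sp s t j) := by
  simp only [spj31]
  refine Finset.measurable_sum _ fun i _ => ?_
  split_ifs
  · exact (measurable_pi_apply j).comp (measurable_pi_apply i)
  · exact measurable_const

lemma meas_cel31 (u : ℕ × Fin 2 → ℝ) (t : ℕ) :
    Measurable (fun s : Fin n → Fin 2 → ℝ => cel u s t) := by
  unfold cel
  refine measurable_pi_lambda _ fun j => ?_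
  have h : Measurable fun s : Fin n → Fin 2 → ℝ => sp s t j + u (t, j) :=
    (meas_spj31 t j).add_const _
  exact Int.measurable_floor.comp h

lemma meas_gE31 (u : ℕ × Fin 2 → ℝ) (η : Env 2) :
    Measurable (fun s : Fin n → Fin 2 → ℝ => gE u η s) := by
  unfold gE
  refine Finset.measurable_sum _ fun i _ => ?_
  have h1 : Measurable fun x : Site 2 => η ((i : ℕ) + 1, x) := measurable_of_countable _
  exact h1.comp (meas_cel31 u _)

lemma gE_bd31 {b : ℝ} (u : ℕ × Fin 2 → ℝ) {η : Env 2} (hη : ∀ p, |η p| ≤ b)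
    (s : Fin n → Fin 2 → ℝ) : |gE u η s| ≤ n * b := by
  unfold gE
  refine (Finset.abs_sum_le_sum_abs _ _).trans ?_
  refine (Finset.sum_le_sum fun i _ => hη _).trans ?_
  simp

lemma int_exp31 (n : ℕ) (v : ℝ) :
    Integrable (fun s : Fin n → Fin 2 → ℝ => Real.exp (v * sp s n 0)) (gam n) := by
  have h0 : Integrable (fun x : Fin 2 → ℝ => Real.exp (v * x 0))
      (Measure.pi fun _ : Fin 2 => gaussianReal 0 1) := by
    have h1 : ∀ j : Fin 2, Integrable (fun y : ℝ => if j = 0 then Real.exp (v * y) else 1)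
        (gaussianReal 0 1) := by
      intro j
      split_ifs
      · exact integrable_exp_mul_gaussianReal v
      · exact integrable_const _
    have h2 := Integrable.fintype_prod h1
    refine h2.congr (Eventually.of_forall fun x => ?_)
    simp
  have h3 : Integrable (fun s : Fin n → Fin 2 → ℝ => ∏ i, Real.exp (v * s i 0)) (gam n) :=
    Integrable.fintype_prod (f := fun _ (x : Fin 2 → ℝ) => Real.exp (v * x 0)) fun _ => h0
  refine h3.congr (Eventually.of_forall fun s => ?_)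
  show ∏ i, Real.exp (v * s i 0) = Real.exp (v * sp s n 0)
  rw [← Real.exp_sum, ← Finset.mul_sum]
  congr 2
  unfold sp
  simp

lemma tt31 (β : ℝ) (n : ℕ) (v : ℝ) (u : ℕ × Fin 2 → ℝ) (η : Env 2) :
    Qg β n v u η = ((gam n).tilted fun s => v * sp s n 0).tilted fun s => β * gE u η s := by
  unfold Qg
  rw [tilted_tilted (int_exp31 n v)]
  congr 1
  funext s
  simp only [Pi.add_apply]
  ring

instance prob_tl31 (n : ℕ) (v : ℝ) :
    IsProbabilityMeasure ((gam n).tilted fun s : Fin n → Fin 2 → ℝ => v * sp s n 0) :=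
  isProbabilityMeasure_tilted (int_exp31 n v)

lemma int_gE31 {μ : Measure (Fin n → Fin 2 → ℝ)} [IsProbabilityMeasure μ] {b : ℝ}
    (u : ℕ × Fin 2 → ℝ) {η : Env 2} (hη : ∀ p, |η p| ≤ b) :
    Integrable (fun s => Real.exp (β * gE u η s)) μ := by
  refine Integrable.of_bound ((Real.measurable_exp.comp
    ((meas_gE31 u η).const_mul β)).aestronglyMeasurable) (Real.exp (|β| * (n * b)))
    (Eventually.of_forall fun s => ?_)
  rw [Real.norm_eq_abs, abs_of_pos (Real.exp_pos _)]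
  apply Real.exp_le_exp.2
  refine (le_abs_self _).trans ?_
  rw [abs_mul]
  exact mul_le_mul_of_nonneg_left (gE_bd31 u hη s) (abs_nonneg β)

lemma prob_Q31 (v : ℝ) {b : ℝ} (u : ℕ × Fin 2 → ℝ) {η : Env 2} (hη : ∀ p, |η p| ≤ b) :
    IsProbabilityMeasure (Qg β n v u η) := by
  rw [tt31]
  exact isProbabilityMeasure_tilted (int_gE31 u hη)

/-- Domination by the tilted Gaussian measure. -/
lemma dom31 (v : ℝ) {b : ℝ} (u : ℕ × Fin 2 → ℝ) {η : Env 2} (hη : ∀ p, |η p| ≤ b)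
    {F : (Fin n → Fin 2 → ℝ) → ENNReal} :
    L1 β v F u η ≤ ENNReal.ofReal (Real.exp (2 * (|β| * (n * b)))) *
      ∫⁻ s, F s ∂((gam n).tilted fun s => v * sp s n 0) := by
  obtain ⟨μ, hμ⟩ : ∃ μ : Measure (Fin n → Fin 2 → ℝ),
    μ = (gam n).tilted fun s => v * sp s n 0 := ⟨_, rfl⟩
  have hp : IsProbabilityMeasure μ := by
    rw [hμ]
    exact prob_tl31 n v
  unfold L1
  rw [tt31, ← hμ, lintegral_tilted, ← lintegral_const_mul' _ _ ENNReal.ofReal_ne_top]
  refine lintegral_mono fun s => ?_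
  refine mul_le_mul_left ?_ (F s)
  apply ENNReal.ofReal_le_ofReal
  have hb : ∀ s, |β * gE u η s| ≤ |β| * (n * b) := fun s => by
    rw [abs_mul]
    exact mul_le_mul_of_nonneg_left (gE_bd31 u hη s) (abs_nonneg β)
  have hZ : Real.exp (-(|β| * (n * b))) ≤ ∫ x, Real.exp (β * gE u η x) ∂μ := by
    have h1 : ∫ _, Real.exp (-(|β| * (n * b))) ∂μ ≤ ∫ x, Real.exp (β * gE u η x) ∂μ := by
      refine integral_mono (integrable_const _) (int_gE31 u hη) fun x => ?_
      apply Real.exp_le_exp.2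
      linarith [(abs_le.1 (hb x)).1]
    simpa using h1
  have h2 : Real.exp (β * gE u η s) ≤ Real.exp (|β| * (n * b)) :=
    Real.exp_le_exp.2 (abs_le.1 (hb s)).2
  have h3 : Real.exp (2 * (|β| * (n * b))) * Real.exp (-(|β| * (n * b))) =
      Real.exp (|β| * (n * b)) := by
    rw [← Real.exp_add]
    congr 1
    ring
  rw [div_le_iff₀ (lt_of_lt_of_le (Real.exp_pos _) hZ)]
  calc Real.exp (β * gE u η s) ≤ Real.exp (2 * (|β| * (n * b))) * Real.exp (-(|β| * (n * b))) := by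
        rw [h3]
        exact h2
    _ ≤ _ := mul_le_mul_of_nonneg_left hZ (Real.exp_pos _).le

end Pool.Agent.W_7d29a1_GW
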