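import Pool.Agent.W_7d29a1_GW.DefsM31

/-!
Theorem GW, leaf MES: measurability in the offsets, the environment and the tilt.
-/

namespace Pool.Agent.W_7d29a1_GW

open MeasureTheory ProbabilityTheory Filter Topology Pool.Agent.W_MP_7d29a1_pr
  Pool.Agent.W_7d29a1_h46 Pool.Agent.W_7d29a1_h46u Pool.Agent.W_7d29a1_D2.B35
  Pool.Agent.W_7d29a1_Q29 Pool.Agent.W_7d29a1_S90 Pool.Agent.W_7d29a1_NS

lemma sp_meas24 {n : ℕ} (t : ℕ) (j : Fin 2) :
    Measurable fun s : Fin n → Fin 2 → ℝ => sp s t j := by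
  show Measurable fun s : Fin n → Fin 2 → ℝ => ∑ i : Fin n, if (i : ℕ) < t then s i j else 0
  refine Finset.measurable_fun_sum _ fun i _ => ?_
  split_ifs
  · exact (measurable_pi_apply j).comp (measurable_pi_apply i)
  · exact measurable_const

lemma cel_meas24 {n : ℕ} (t : ℕ) :
    Measurable fun p : (ℕ × Fin 2 → ℝ) × (Fin n → Fin 2 → ℝ) => cel p.1 p.2 t := by
  refine measurable_pi_iff.2 fun j => ?_
  exact Int.measurable_floor.comp (((sp_meas24 t j).comp measurable_snd).add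
    ((measurable_pi_apply (t, j)).comp measurable_fst))

lemma eval_meas24 (i : ℕ) : Measurable fun p : Env 2 × Site 2 => p.1 (i, p.2) :=
  measurable_from_prod_countable_left fun x => measurable_pi_apply (i, x)

lemma gE_meas24 {n : ℕ} : Measurable fun p : ((ℕ × Fin 2 → ℝ) × Env 2 × ℝ) ×
    (Fin n → Fin 2 → ℝ) => gE p.1.1 p.1.2.1 p.2 := by
  unfold gE
  refine Finset.measurable_fun_sum _ fun i _ => ?_
  exact (eval_meas24 ((i : ℕ) + 1)).comp ((measurable_fst.comp (measurable_snd.comp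
    measurable_fst)).prodMk ((cel_meas24 ((i : ℕ) + 1)).comp
      ((measurable_fst.comp measurable_fst).prodMk measurable_snd)))

/-- **Leaf MES.** -/
theorem mesG24 (β : ℝ) : MesG β := by
  intro n F hF
  set φ : ((ℕ × Fin 2 → ℝ) × Env 2 × ℝ) → (Fin n → Fin 2 → ℝ) → ℝ :=
    fun p s => β * gE p.1 p.2.1 s + p.2.2 * sp s n 0 with hφ
  have hφm : Measurable (Function.uncurry φ) := by
    show Measurable fun q : ((ℕ × Fin 2 → ℝ) × Env 2 × ℝ) × (Fin n → Fin 2 → ℝ) =>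
      β * gE q.1.1 q.1.2.1 q.2 + q.1.2.2 * sp q.2 n 0
    exact (measurable_const.mul gE_meas24).add
      ((measurable_snd.comp (measurable_snd.comp measurable_fst)).mul
        ((sp_meas24 n 0).comp measurable_snd))
  set Zt : ((ℕ × Fin 2 → ℝ) × Env 2 × ℝ) → ℝ := fun p => ∫ s, Real.exp (φ p s) ∂(gam n) with hZ
  have hZm : Measurable Zt := by
    have h1 : StronglyMeasurable (Function.uncurry fun p s => Real.exp (φ p s)) :=
      (Real.measurable_exp.comp hφm).stronglyMeasurable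
    exact (h1.integral_prod_right (ν := gam n)).measurable
  have hw : Measurable fun q : ((ℕ × Fin 2 → ℝ) × Env 2 × ℝ) × (Fin n → Fin 2 → ℝ) =>
      ENNReal.ofReal (Real.exp (φ q.1 q.2) / Zt q.1) :=
    ((Real.measurable_exp.comp hφm).div (hZm.comp measurable_fst)).ennreal_ofReal
  have hQ : ∀ (p : (ℕ × Fin 2 → ℝ) × Env 2 × ℝ) (g : (Fin n → Fin 2 → ℝ) → ENNReal),
      ∫⁻ s, g s ∂(Qg β n p.2.2 p.1 p.2.1) =
        ∫⁻ s, ENNReal.ofReal (Real.exp (φ p s) / Zt p) * g s ∂(gam n) := by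
    intro p g
    unfold Qg
    exact lintegral_tilted _ g
  simp only [hQ]
  have h1 : Measurable fun q : ((ℕ × Fin 2 → ℝ) × Env 2 × ℝ) × (Fin n → Fin 2 → ℝ) =>
      ∫⁻ s', ENNReal.ofReal (Real.exp (φ q.1 s') / Zt q.1) * F q.2 s' ∂(gam n) := by
    refine Measurable.lintegral_prod_right' (f := fun r : (((ℕ × Fin 2 → ℝ) × Env 2 × ℝ) ×
      (Fin n → Fin 2 → ℝ)) × (Fin n → Fin 2 → ℝ) =>
        ENNReal.ofReal (Real.exp (φ r.1.1 r.2) / Zt r.1.1) * F r.1.2 r.2) ?_
    exact (hw.comp ((measurable_fst.comp measurable_fst).prodMk measurable_snd)).mul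
      (hF.comp ((measurable_snd.comp measurable_fst).prodMk measurable_snd))
  exact Measurable.lintegral_prod_right' (f := fun q : ((ℕ × Fin 2 → ℝ) × Env 2 × ℝ) ×
    (Fin n → Fin 2 → ℝ) => ENNReal.ofReal (Real.exp (φ q.1 q.2) / Zt q.1) *
      ∫⁻ s', ENNReal.ofReal (Real.exp (φ q.1 s') / Zt q.1) * F q.2 s' ∂(gam n)) (hw.mul h1)

end Pool.Agent.W_7d29a1_GW
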