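import Pool.Agent.W_7d29a1_GW.BasW31
import Pool.Agent.W_7d29a1_GW.Mes24

/-!
Theorem GW, leaf CEL (helper88): theorem NS for the Gaussian walk, from theorem NS for random a
priori measures on the paths of sites: the a priori measure is the law of the cells.
-/

namespace Pool.Agent.W_7d29a1_GW

open MeasureTheory ProbabilityTheory Filter Topology Pool.Agent.W_MP_7d29a1_pr
  Pool.Agent.W_7d29a1_h46 Pool.Agent.W_7d29a1_h46u Pool.Agent.W_7d29a1_D2.B35
  Pool.Agent.W_7d29a1_Q29 Pool.Agent.W_7d29a1_S90 Pool.Agent.W_7d29a1_NS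

variable {ρ : Measure ℝ} {β : ℝ} {n : ℕ}

/-- The cells of the walk. -/
noncomputable def cl88 (u : ℕ × Fin 2 → ℝ) (s : Fin n → Fin 2 → ℝ) : Fin n → Site 2 :=
  fun i => cel u s ((i : ℕ) + 1)

lemma cl_meas88 (u : ℕ × Fin 2 → ℝ) : Measurable (cl88 (n := n) u) :=
  measurable_pi_lambda _ fun _ => meas_cel31 u _

lemma cl_meas2_88 : Measurable fun p : (ℕ × Fin 2 → ℝ) × (Fin n → Fin 2 → ℝ) =>
    cl88 p.1 p.2 :=
  measurable_pi_lambda _ fun _ => cel_meas24 _

/-- The law of the cells. -/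
noncomputable def P88 (n : ℕ) (u : ℕ × Fin 2 → ℝ) : Measure (Fin n → Site 2) :=
  (gam n).map (cl88 u)

instance P_prob88 (u : ℕ × Fin 2 → ℝ) : IsProbabilityMeasure (P88 n u) :=
  Measure.isProbabilityMeasure_map (cl_meas88 u).aemeasurable

lemma map_tilted88 {X Y : Type*} [MeasurableSpace X] [MeasurableSpace Y] (μ : Measure X)
    {f : X → Y} (hf : Measurable f) {g : Y → ℝ} (hg : Measurable g) :
    (μ.map f).tilted g = (μ.tilted (g ∘ f)).map f := by
  have h1 : ∫ y, Real.exp (g y) ∂(μ.map f) = ∫ x, Real.exp (g (f x)) ∂μ :=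
    integral_map hf.aemeasurable (Real.measurable_exp.comp hg).aestronglyMeasurable
  ext A hA
  rw [tilted_apply' _ _ hA, Measure.map_apply hf hA, tilted_apply' _ _ (hf hA), h1]
  exact setLIntegral_map hA
    ((Real.measurable_exp.comp hg).div_const _).ennreal_ofReal hf

lemma oP88 (β : ℝ) (η : Env 2) (u : ℕ × Fin 2 → ℝ) :
    oP β η (P88 n u) = (Qg β n 0 u η).map (cl88 u) := by
  unfold oP P88 Qg
  rw [map_tilted88 _ (cl_meas88 u) (measurable_of_countable _)]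
  congr 2
  funext s
  simp only [Function.comp_apply, gE, cl88, zero_mul, add_zero]

lemma int_oP88 (β : ℝ) (η : Env 2) (u : ℕ × Fin 2 → ℝ) (f : (Fin n → Site 2) → ℝ) :
    ∫ c, f c ∂(oP β η (P88 n u)) = ∫ s, f (cl88 u s) ∂(Qg β n 0 u η) := by
  rw [oP88]
  exact integral_map (cl_meas88 u).aemeasurable
    (measurable_of_countable f).aestronglyMeasurable

/-- Joint measurability when the function depends on the offsets and on the environment. -/
lemma mes88 (β : ℝ) (F : (ℕ × Fin 2 → ℝ) × Env 2 → (Fin n → Fin 2 → ℝ) →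
      (Fin n → Fin 2 → ℝ) → ENNReal)
    (hF : Measurable fun q : (((ℕ × Fin 2 → ℝ) × Env 2) × (Fin n → Fin 2 → ℝ)) ×
      (Fin n → Fin 2 → ℝ) => F q.1.1 q.1.2 q.2) :
    Measurable fun p : (ℕ × Fin 2 → ℝ) × Env 2 =>
      ∫⁻ s, ∫⁻ s', F p s s' ∂(Qg β n 0 p.1 p.2) ∂(Qg β n 0 p.1 p.2) := by
  obtain ⟨φ, hφ⟩ : ∃ φ : ((ℕ × Fin 2 → ℝ) × Env 2) → (Fin n → Fin 2 → ℝ) → ℝ,
      φ = fun p s => β * gE p.1 p.2 s + 0 * sp s n 0 := ⟨_, rfl⟩
  have hφm : Measurable (Function.uncurry φ) := by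
    rw [hφ]
    have h1 : Measurable fun q : ((ℕ × Fin 2 → ℝ) × Env 2) × (Fin n → Fin 2 → ℝ) =>
        gE q.1.1 q.1.2 q.2 :=
      gE_meas24.comp (((measurable_fst.comp measurable_fst).prodMk
        ((measurable_snd.comp measurable_fst).prodMk (measurable_const (a := (0 : ℝ))))).prodMk
          measurable_snd)
    exact (measurable_const.mul h1).add
      (measurable_const.mul ((sp_meas24 n 0).comp measurable_snd))
  obtain ⟨Zt, hZ⟩ : ∃ Zt : ((ℕ × Fin 2 → ℝ) × Env 2) → ℝ,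
      Zt = fun p => ∫ s, Real.exp (φ p s) ∂(gam n) := ⟨_, rfl⟩
  have hZm : Measurable Zt := by
    have h1 : StronglyMeasurable (Function.uncurry fun p s => Real.exp (φ p s)) :=
      (Real.measurable_exp.comp hφm).stronglyMeasurable
    rw [hZ]
    exact (h1.integral_prod_right (ν := gam n)).measurable
  have hw : Measurable fun q : ((ℕ × Fin 2 → ℝ) × Env 2) × (Fin n → Fin 2 → ℝ) =>
      ENNReal.ofReal (Real.exp (φ q.1 q.2) / Zt q.1) :=
    ((Real.measurable_exp.comp hφm).div (hZm.comp measurable_fst)).ennreal_ofReal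
  have hQ : ∀ (p : (ℕ × Fin 2 → ℝ) × Env 2) (g : (Fin n → Fin 2 → ℝ) → ENNReal),
      ∫⁻ s, g s ∂(Qg β n 0 p.1 p.2) =
        ∫⁻ s, ENNReal.ofReal (Real.exp (φ p s) / Zt p) * g s ∂(gam n) := by
    intro p g
    rw [hZ, hφ]
    unfold Qg
    exact lintegral_tilted _ g
  simp only [hQ]
  have h1 : Measurable fun q : ((ℕ × Fin 2 → ℝ) × Env 2) × (Fin n → Fin 2 → ℝ) =>
      ∫⁻ s', ENNReal.ofReal (Real.exp (φ q.1 s') / Zt q.1) * F q.1 q.2 s' ∂(gam n) := by
    refine Measurable.lintegral_prod_right' (f := fun r : (((ℕ × Fin 2 → ℝ) × Env 2) ×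
      (Fin n → Fin 2 → ℝ)) × (Fin n → Fin 2 → ℝ) =>
        ENNReal.ofReal (Real.exp (φ r.1.1 r.2) / Zt r.1.1) * F r.1.1 r.1.2 r.2) ?_
    exact (hw.comp ((measurable_fst.comp measurable_fst).prodMk measurable_snd)).mul hF
  exact Measurable.lintegral_prod_right' (f := fun q : ((ℕ × Fin 2 → ℝ) × Env 2) ×
    (Fin n → Fin 2 → ℝ) => ENNReal.ofReal (Real.exp (φ q.1 q.2) / Zt q.1) *
      ∫⁻ s', ENNReal.ofReal (Real.exp (φ q.1 s') / Zt q.1) * F q.1 q.2 s' ∂(gam n)) (hw.mul h1)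

/-! ### The walk and its cells -/

/-- The offsets are in `[0,1)`. -/
lemma off_ae88 : ∀ᵐ u ∂off, ∀ p, 0 ≤ u p ∧ u p < 1 := by
  rw [ae_all_iff]
  intro p
  have h1 : off.map (fun u => u p) = uni := Measure.infinitePi_map_eval _ p
  have h3 : uni (Set.Ico (0 : ℝ) 1)ᶜ = 0 := by
    unfold uni
    rw [Measure.restrict_apply measurableSet_Ico.compl]
    simp
  have h2 : off {u : ℕ × Fin 2 → ℝ | u p ∈ (Set.Ico (0 : ℝ) 1)ᶜ} = 0 := by
    rw [← h1, Measure.map_apply (measurable_pi_apply p) measurableSet_Ico.compl] at h3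
    exact h3
  rw [ae_iff]
  refine measure_mono_null (fun u hu => ?_) h2
  intro h
  exact hu ⟨h.1, h.2⟩

lemma emb_zero88 : emb (0 : Site 2) = 0 := by
  unfold emb
  ext j
  simp

lemma dev_cel88 {u : ℕ × Fin 2 → ℝ} (hu : ∀ p, 0 ≤ u p ∧ u p < 1) (s : Fin n → Fin 2 → ℝ)
    (t : ℕ) : ‖emb (cel u s t) - sp s t‖ ≤ Real.sqrt 2 := by
  rw [EuclideanSpace.norm_eq]
  apply Real.sqrt_le_sqrt
  have h1 : ∀ j : Fin 2, ‖(emb (cel u s t) - sp s t) j‖ ^ 2 ≤ 1 := by
    intro j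
    have h2 : (emb (cel u s t) - sp s t) j = (⌊sp s t j + u (t, j)⌋ : ℝ) - sp s t j := rfl
    rw [h2, Real.norm_eq_abs, sq_abs]
    have h3 := Int.floor_le (sp s t j + u (t, j))
    have h4 := Int.lt_floor_add_one (sp s t j + u (t, j))
    have h5 := hu (t, j)
    rw [sq_le_one_iff_abs_le_one, abs_le]
    constructor
    · linarith [h5.1, h5.2]
    · linarith [h5.1, h5.2]
  have h6 := Finset.sum_le_sum fun j (_ : j ∈ Finset.univ) => h1 j
  simpa using h6

/-- The position and the cell at the time `t`. -/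
lemma dev88 {u : ℕ × Fin 2 → ℝ} (hu : ∀ p, 0 ≤ u p ∧ u p < 1) (s : Fin n → Fin 2 → ℝ)
    {t : ℕ} (ht : t ≤ n) : ‖emb (cs (cl88 u s) t) - sp s t‖ ≤ Real.sqrt 2 := by
  rcases Nat.eq_zero_or_pos t with h0 | h0
  · subst h0
    have h1 : cs (cl88 u s) 0 = 0 := by
      unfold cs
      rw [dif_neg (by omega)]
    have h2 : sp s 0 = 0 := by
      ext j
      simp [spj31]
    rw [h1, h2, emb_zero88, sub_zero, norm_zero]
    exact Real.sqrt_nonneg _
  · have h1 : cs (cl88 u s) t = cel u s t := by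
      unfold cs
      rw [dif_pos ⟨h0, ht⟩]
      unfold cl88
      congr 1
      show t - 1 + 1 = t
      omega
    rw [h1]
    exact dev_cel88 hu s t

lemma coord_mem88 (i : Fin n) (j : Fin 2) :
    MemLp (fun s : Fin n → Fin 2 → ℝ => s i j) 2 (gam n) := by
  have h1 : MemLp (id : ℝ → ℝ) 2 (gaussianReal 0 1) := memLp_id_gaussianReal 2
  have h2 : MeasurePreserving (fun x : Fin 2 → ℝ => x j)
      (Measure.pi fun _ : Fin 2 => gaussianReal 0 1) (gaussianReal 0 1) :=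
    measurePreserving_eval _ j
  have h3 : MeasurePreserving (fun s : Fin n → Fin 2 → ℝ => s i) (gam n)
      (Measure.pi fun _ : Fin 2 => gaussianReal 0 1) := measurePreserving_eval _ i
  exact h1.comp_measurePreserving (h2.comp h3)

lemma sp_mem88 (t : ℕ) (j : Fin 2) :
    MemLp (fun s : Fin n → Fin 2 → ℝ => sp s t j) 2 (gam n) := by
  simp only [spj31]
  refine memLp_finsetSum _ fun i _ => ?_
  split_ifs
  · exact coord_mem88 i j
  · exact memLp_const 0

lemma win_int88 (t τ : ℕ) (m : Vec 2) :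
    Integrable (fun s : Fin n → Fin 2 → ℝ => ‖sp s t - sp s τ - m‖ ^ 2) (gam n) := by
  simp only [EuclideanSpace.norm_sq_eq]
  refine integrable_finsetSum _ fun j _ => ?_
  have h := ((sp_mem88 (n := n) t j).sub (sp_mem88 τ j)).sub (memLp_const (m j))
  refine h.integrable_sq.congr (Eventually.of_forall fun s => ?_)
  simp only [Pi.sub_apply, PiLp.sub_apply, Real.norm_eq_abs, sq_abs]

lemma win_meas88 (t τ : ℕ) (m : Vec 2) :
    Measurable (fun s : Fin n → Fin 2 → ℝ => ‖sp s t - sp s τ - m‖ ^ 2) :=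
  (((meas_sp31 t).sub (meas_sp31 τ)).sub_const m).norm.pow_const 2

lemma sqrt_two88 : Real.sqrt 2 ^ 2 = 2 := Real.sq_sqrt (by norm_num)

lemma pt_win88 {u : ℕ × Fin 2 → ℝ} (hu : ∀ p, 0 ≤ u p ∧ u p < 1) (s : Fin n → Fin 2 → ℝ)
    {t τ : ℕ} (ht : t ≤ n) (hτ : τ ≤ n) (m : Vec 2) :
    ‖emb (cs (cl88 u s) t) - emb (cs (cl88 u s) τ) - m‖ ^ 2 ≤
      2 * ‖sp s t - sp s τ - m‖ ^ 2 + 16 := by
  have h1 := dev88 hu s ht
  have h2 := dev88 hu s hτ
  obtain ⟨x, hx⟩ : ∃ x : Vec 2, x = sp s t - sp s τ - m := ⟨_, rfl⟩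
  obtain ⟨a, ha⟩ : ∃ a : Vec 2, a = emb (cs (cl88 u s) t) - sp s t := ⟨_, rfl⟩
  obtain ⟨c, hc⟩ : ∃ c : Vec 2, c = emb (cs (cl88 u s) τ) - sp s τ := ⟨_, rfl⟩
  have h3 : emb (cs (cl88 u s) t) - emb (cs (cl88 u s) τ) - m = x + (a - c) := by
    rw [hx, ha, hc]
    abel
  rw [h3, ← hx]
  rw [← ha] at h1
  rw [← hc] at h2
  have h4 : ‖x + (a - c)‖ ≤ ‖x‖ + (‖a‖ + ‖c‖) :=
    (norm_add_le _ _).trans (by linarith [norm_sub_le a c])
  have h5 : ‖a‖ + ‖c‖ ≤ 2 * Real.sqrt 2 := by linarith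
  have h6 : (‖a‖ + ‖c‖) ^ 2 ≤ 8 := by
    have h7 : (‖a‖ + ‖c‖) ^ 2 ≤ (2 * Real.sqrt 2) ^ 2 :=
      pow_le_pow_left₀ (by positivity) h5 2
    rw [mul_pow, sqrt_two88] at h7
    linarith
  have h8 : ‖x + (a - c)‖ ^ 2 ≤ (‖x‖ + (‖a‖ + ‖c‖)) ^ 2 :=
    pow_le_pow_left₀ (norm_nonneg _) h4 2
  have h9 : (‖x‖ + (‖a‖ + ‖c‖)) ^ 2 =
      2 * ‖x‖ ^ 2 + 2 * (‖a‖ + ‖c‖) ^ 2 - (‖x‖ - (‖a‖ + ‖c‖)) ^ 2 := by ring
  linarith [sq_nonneg (‖x‖ - (‖a‖ + ‖c‖))]

/-! ### Iterated integrals -/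

lemma iter_int88 [IsProbabilityMeasure ρ] {G : (ℕ × Fin 2 → ℝ) → Env 2 → ℝ}
    (hG : Measurable (Function.uncurry G)) {K : ℝ}
    (hK : ∀ᵐ η ∂(law 2 ρ), ∀ u, |G u η| ≤ K) :
    (∀ u, Integrable (G u) (law 2 ρ)) ∧ Integrable (fun u => ∫ η, G u η ∂(law 2 ρ)) off := by
  refine ⟨fun u => ?_, ?_⟩
  · refine Integrable.of_bound
      (hG.comp (measurable_const.prodMk measurable_id)).aestronglyMeasurable K ?_
    filter_upwards [hK] with η hη
    exact hη u
  · refine Integrable.of_bound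
      (hG.stronglyMeasurable.integral_prod_right (ν := law 2 ρ)).measurable.aestronglyMeasurable K
        (Eventually.of_forall fun u => ?_)
    have h1 : ∀ᵐ η ∂(law 2 ρ), ‖G u η‖ ≤ K := by
      filter_upwards [hK] with η hη
      exact hη u
    have h2 := norm_integral_le_of_norm_le_const h1
    simpa using h2

lemma iter88 [IsProbabilityMeasure ρ] {A G : (ℕ × Fin 2 → ℝ) → Env 2 → ℝ}
    (hG : Measurable (Function.uncurry G)) {K : ℝ}
    (hK : ∀ᵐ η ∂(law 2 ρ), ∀ u, |G u η| ≤ K) (hA : ∀ u η, 0 ≤ A u η)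
    (h : ∀ᵐ u ∂off, ∀ᵐ η ∂(law 2 ρ), A u η ≤ G u η) :
    ∫ u, ∫ η, A u η ∂(law 2 ρ) ∂off ≤ ∫ u, ∫ η, G u η ∂(law 2 ρ) ∂off := by
  obtain ⟨h1, h2⟩ := iter_int88 hG hK
  refine integral_mono_of_nonneg (Eventually.of_forall fun u => integral_nonneg (hA u)) h2 ?_
  filter_upwards [h] with u hu
  exact integral_mono_of_nonneg (Eventually.of_forall (hA u)) (h1 u) hu

/-- The windows of the cells. -/
lemma win88 [IsProbabilityMeasure ρ] {b : ℝ} (hb : ρ (Set.Icc (-b) b)ᶜ = 0) {t τ : ℕ}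
    (ht : t ≤ n) (hτ : τ ≤ n) (m : Vec 2) :
    ∫ u, ∫ η, ∫ c, ‖emb (cs c t) - emb (cs c τ) - m‖ ^ 2 ∂(oP β η (P88 n u)) ∂(law 2 ρ) ∂off ≤
      2 * (∫ u, ∫ η, ∫ s, ‖sp s t - sp s τ - m‖ ^ 2 ∂(Qg β n 0 u η) ∂(law 2 ρ) ∂off) + 16 := by
  simp only [int_oP88]
  obtain ⟨g, hgd⟩ : ∃ g : (Fin n → Fin 2 → ℝ) → ℝ, g = fun s => ‖sp s t - sp s τ - m‖ ^ 2 :=
    ⟨_, rfl⟩
  have hg : Measurable g := by
    rw [hgd]
    exact win_meas88 t τ m
  have hg0 : ∀ s, 0 ≤ g s := by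
    intro s
    rw [hgd]
    positivity
  have hgi : Integrable g (gam n) := by
    rw [hgd]
    exact win_int88 t τ m
  have hge : ∀ s : Fin n → Fin 2 → ℝ, ‖sp s t - sp s τ - m‖ ^ 2 = g s := fun s => by
    rw [hgd]
  simp only [hge]
  obtain ⟨F, hFd⟩ : ∃ F : (Fin n → Fin 2 → ℝ) → ENNReal, F = fun s => ENNReal.ofReal (g s) :=
    ⟨_, rfl⟩
  have hF : Measurable F := by
    rw [hFd]
    exact hg.ennreal_ofReal
  have hm : Measurable (Function.uncurry (L1 β 0 F)) := meas_L1u31 (mesG24 β) 0 hF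
  obtain ⟨K, hKd⟩ : ∃ K : ENNReal, K = ENNReal.ofReal (Real.exp (2 * (|β| * (n * b)))) *
    ∫⁻ s, F s ∂(gam n) := ⟨_, rfl⟩
  have hK : K < ⊤ := by
    rw [hKd]
    refine ENNReal.mul_lt_top ENNReal.ofReal_lt_top ?_
    rw [hFd]
    exact hgi.lintegral_lt_top
  have htl : ((gam n).tilted fun s : Fin n → Fin 2 → ℝ => 0 * sp s n 0) = gam n := by
    simp only [zero_mul]
    exact tilted_zero (gam n)
  have hbK : ∀ᵐ η ∂(law 2 ρ), ∀ u, L1 β 0 F u η ≤ K := by
    filter_upwards [ae_bdd31 hb] with η hη u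
    have h1 := dom31 (β := β) 0 u hη (F := F)
    rw [htl, ← hKd] at h1
    exact h1
  have hI : ∀ u η, ∫ s, g s ∂(Qg β n 0 u η) = (L1 β 0 F u η).toReal := by
    intro u η
    rw [hFd]
    exact integral_eq_lintegral_of_nonneg_ae (Eventually.of_forall hg0) hg.aestronglyMeasurable
  simp only [hI]
  have hLb : ∀ᵐ η ∂(law 2 ρ), ∀ u, |(L1 β 0 F u η).toReal| ≤ K.toReal := by
    filter_upwards [hbK] with η hη u
    rw [abs_of_nonneg ENNReal.toReal_nonneg]
    exact ENNReal.toReal_mono hK.ne (hη u)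
  obtain ⟨h1, h2⟩ := iter_int88 (G := fun u η => (L1 β 0 F u η).toReal) hm.ennreal_toReal hLb
  have hG : Measurable (Function.uncurry fun u η => 2 * (L1 β 0 F u η).toReal + 16) :=
    (hm.ennreal_toReal.const_mul 2).add_const 16
  have hGb : ∀ᵐ η ∂(law 2 ρ), ∀ u, |2 * (L1 β 0 F u η).toReal + 16| ≤ 2 * K.toReal + 16 := by
    filter_upwards [hLb] with η hη u
    have h3 := hη u
    have h4 : 0 ≤ (L1 β 0 F u η).toReal := ENNReal.toReal_nonneg
    rw [abs_of_nonneg h4] at h3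
    rw [abs_of_nonneg (by positivity)]
    linarith
  have hmain := iter88 (A := fun u η => ∫ s, ‖emb (cs (cl88 u s) t) - emb (cs (cl88 u s) τ) - m‖ ^ 2
    ∂(Qg β n 0 u η)) hG hGb (fun u η => integral_nonneg fun s => by positivity) ?_
  · refine hmain.trans (le_of_eq ?_)
    have h3 : ∀ u, ∫ η, (2 * (L1 β 0 F u η).toReal + 16) ∂(law 2 ρ) =
        2 * (∫ η, (L1 β 0 F u η).toReal ∂(law 2 ρ)) + 16 := by
      intro u
      rw [integral_add ((h1 u).const_mul 2) (integrable_const _), integral_const_mul]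
      simp
    simp only [h3]
    rw [integral_add (h2.const_mul 2) (integrable_const _), integral_const_mul]
    simp
  · filter_upwards [off_ae88] with u hu
    filter_upwards [hbK, ae_bdd31 hb] with η hη hηb
    have hp : IsProbabilityMeasure (Qg β n 0 u η) := prob_Q31 0 u hηb
    have hint : Integrable g (Qg β n 0 u η) := by
      rw [← lintegral_ofReal_ne_top_iff_integrable hg.aestronglyMeasurable
        (Eventually.of_forall hg0)]
      have h3 := (hη u).trans_lt hK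
      rw [hFd] at h3
      exact h3.ne
    rw [← hI]
    calc ∫ s, ‖emb (cs (cl88 u s) t) - emb (cs (cl88 u s) τ) - m‖ ^ 2 ∂(Qg β n 0 u η)
        ≤ ∫ s, (2 * g s + 16) ∂(Qg β n 0 u η) := by
          refine integral_mono_of_nonneg (Eventually.of_forall fun s => by positivity)
            ((hint.const_mul 2).add (integrable_const _)) (Eventually.of_forall fun s => ?_)
          have h3 := pt_win88 hu s ht hτ m
          rw [hge] at h3
          exact h3
      _ = 2 * (∫ s, g s ∂(Qg β n 0 u η)) + 16 := by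
          rw [integral_add (hint.const_mul 2) (integrable_const _), integral_const_mul]
          simp

/-- The second moments of the cells. -/
lemma mom88 (i : Fin n) {u : ℕ × Fin 2 → ℝ} (hu : ∀ p, 0 ≤ u p ∧ u p < 1) :
    Integrable (fun c : Fin n → Site 2 => ‖emb (c i)‖ ^ 2) (P88 n u) ∧
      ∫ c, ‖emb (c i)‖ ^ 2 ∂(P88 n u) ≤
        ∑ k : Fin n, ∫ s, (2 * ‖sp s ((k : ℕ) + 1) - sp s 0 - 0‖ ^ 2 + 16) ∂(gam n) := by
  have hi : ∀ k : Fin n, Integrable (fun s : Fin n → Fin 2 → ℝ =>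
      2 * ‖sp s ((k : ℕ) + 1) - sp s 0 - 0‖ ^ 2 + 16) (gam n) := fun k =>
    ((win_int88 _ _ _).const_mul 2).add (integrable_const _)
  have hpt : ∀ s : Fin n → Fin 2 → ℝ, ‖emb (cl88 u s i)‖ ^ 2 ≤
      2 * ‖sp s ((i : ℕ) + 1) - sp s 0 - 0‖ ^ 2 + 16 := by
    intro s
    have h1 := pt_win88 hu s (t := (i : ℕ) + 1) (τ := 0) i.2 (Nat.zero_le _) 0
    have h2 : cs (cl88 u s) ((i : ℕ) + 1) = cl88 u s i := by
      unfold cs
      rw [dif_pos ⟨by omega, i.2⟩]
      rfl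
    have h3 : cs (cl88 u s) 0 = 0 := by
      unfold cs
      rw [dif_neg (by omega)]
    rw [h2, h3, emb_zero88, sub_zero, sub_zero] at h1
    exact h1
  have hme : Measurable fun c : Fin n → Site 2 => ‖emb (c i)‖ ^ 2 := measurable_of_countable _
  refine ⟨?_, ?_⟩
  · unfold P88
    rw [integrable_map_measure hme.aestronglyMeasurable (cl_meas88 u).aemeasurable]
    refine (hi i).mono' (hme.comp (cl_meas88 u)).aestronglyMeasurable
      (Eventually.of_forall fun s => ?_)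
    simp only [Function.comp_apply]
    rw [Real.norm_eq_abs, abs_of_nonneg (by positivity)]
    exact hpt s
  · unfold P88
    rw [integral_map (cl_meas88 u).aemeasurable hme.aestronglyMeasurable]
    refine (integral_mono_of_nonneg (Eventually.of_forall fun s => by positivity) (hi i)
      (Eventually.of_forall hpt)).trans ?_
    exact Finset.single_le_sum (f := fun k : Fin n => ∫ s : Fin n → Fin 2 → ℝ,
      (2 * ‖sp s ((k : ℕ) + 1) - sp s 0 - 0‖ ^ 2 + 16) ∂(gam n))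
      (fun k _ => integral_nonneg fun s => by positivity) (Finset.mem_univ i)

lemma P_meas88 (c : Fin n → Site 2) : Measurable fun u => P88 n u {c} := by
  have h1 : MeasurableSet {p : (ℕ × Fin 2 → ℝ) × (Fin n → Fin 2 → ℝ) | cl88 p.1 p.2 = c} :=
    cl_meas2_88 (measurableSet_singleton c)
  have h2 := measurable_measure_prodMk_left (ν := gam n) h1
  have h3 : (fun u => P88 n u {c}) = fun u => gam n (Prod.mk u ⁻¹'
      {p : (ℕ × Fin 2 → ℝ) × (Fin n → Fin 2 → ℝ) | cl88 p.1 p.2 = c}) := by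
    funext u
    unfold P88
    rw [Measure.map_apply (cl_meas88 u) (measurableSet_singleton c)]
    rfl
  rw [h3]
  exact h2

open Classical in
/-- Two replicas. -/
lemma two88 [IsProbabilityMeasure ρ] {t : ℕ} (ht : t ≤ n) {r r' : ℝ}
    (hr : r + 2 * Real.sqrt 2 ≤ r') :
    ∫ u, ∫ η, ∫ s, ∫ s', (if r' < ‖sp s t - sp s' t‖ then (1 : ℝ) else 0)
      ∂(Qg β n 0 u η) ∂(Qg β n 0 u η) ∂(law 2 ρ) ∂off ≤
    ∫ u, ∫ η, ∫ c, ∫ c', (if r < ‖emb (cs c t) - emb (cs c' t)‖ then (1 : ℝ) else 0)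
      ∂(oP β η (P88 n u)) ∂(oP β η (P88 n u)) ∂(law 2 ρ) ∂off := by
  simp only [int_oP88]
  obtain ⟨Φ, hΦ⟩ : ∃ Φ : (Fin n → Site 2) → (Fin n → Site 2) → ℝ,
      Φ = fun c c' => if r < ‖emb (cs c t) - emb (cs c' t)‖ then (1 : ℝ) else 0 := ⟨_, rfl⟩
  have hΦe : ∀ c c' : Fin n → Site 2,
      (if r < ‖emb (cs c t) - emb (cs c' t)‖ then (1 : ℝ) else 0) = Φ c c' := fun c c' => by
    rw [hΦ]
  have h0 : ∀ c c', 0 ≤ Φ c c' := by
    intro c c'
    rw [hΦ]
    dsimp only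
    split_ifs <;> norm_num
  have h1 : ∀ c c', Φ c c' ≤ 1 := by
    intro c c'
    rw [hΦ]
    dsimp only
    split_ifs <;> norm_num
  simp only [hΦe]
  have hΦm : Measurable (Function.uncurry Φ) := measurable_of_countable _
  obtain ⟨L, hL⟩ : ∃ L : (ℕ × Fin 2 → ℝ) × Env 2 → ENNReal, L = fun p => ∫⁻ s, ∫⁻ s',
      ENNReal.ofReal (Φ (cl88 p.1 s) (cl88 p.1 s')) ∂(Qg β n 0 p.1 p.2) ∂(Qg β n 0 p.1 p.2) :=
    ⟨_, rfl⟩
  have hLm : Measurable L := by
    rw [hL]
    refine mes88 β (fun p s s' => ENNReal.ofReal (Φ (cl88 p.1 s) (cl88 p.1 s'))) ?_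
    have q1 : Measurable fun q : (((ℕ × Fin 2 → ℝ) × Env 2) × (Fin n → Fin 2 → ℝ)) ×
        (Fin n → Fin 2 → ℝ) => (q.1.1.1, q.1.2) := by fun_prop
    have q2 : Measurable fun q : (((ℕ × Fin 2 → ℝ) × Env 2) × (Fin n → Fin 2 → ℝ)) ×
        (Fin n → Fin 2 → ℝ) => (q.1.1.1, q.2) := by fun_prop
    have r1 := cl_meas2_88.comp q1
    have r2 := cl_meas2_88.comp q2
    have r3 := (hΦm.comp (r1.prodMk r2)).ennreal_ofReal
    simpa only [Function.comp_def, Function.uncurry_apply_pair] using r3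
  have hLone : ∀ p, L p ≤ 1 := by
    intro p
    rw [hL]
    calc ∫⁻ s, ∫⁻ s', ENNReal.ofReal (Φ (cl88 p.1 s) (cl88 p.1 s'))
          ∂(Qg β n 0 p.1 p.2) ∂(Qg β n 0 p.1 p.2)
        ≤ ∫⁻ _, ∫⁻ _, 1 ∂(Qg β n 0 p.1 p.2) ∂(Qg β n 0 p.1 p.2) :=
          lintegral_mono fun s => lintegral_mono fun s' =>
            ENNReal.ofReal_le_one.2 (h1 _ _)
      _ ≤ 1 := by
          rw [lintegral_const, lintegral_const, one_mul]
          exact mul_le_one' prob_le_one prob_le_one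
  have hIn : ∀ u η, ∀ c : Fin n → Site 2, ∫ s', Φ c (cl88 u s') ∂(Qg β n 0 u η) =
      (∫⁻ s', ENNReal.ofReal (Φ c (cl88 u s')) ∂(Qg β n 0 u η)).toReal := by
    intro u η c
    refine integral_eq_lintegral_of_nonneg_ae (Eventually.of_forall fun s' => h0 _ _) ?_
    exact ((measurable_of_countable (Φ c)).comp (cl_meas88 u)).aestronglyMeasurable
  have hJ : ∀ u η, ∫ s, ∫ s', Φ (cl88 u s) (cl88 u s') ∂(Qg β n 0 u η) ∂(Qg β n 0 u η) =
      (L (u, η)).toReal := by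
    intro u η
    rw [hL]
    simp only [hIn]
    have hm : Measurable fun c : Fin n → Site 2 =>
        ∫⁻ s', ENNReal.ofReal (Φ c (cl88 u s')) ∂(Qg β n 0 u η) := measurable_of_countable _
    refine integral_toReal (hm.comp (cl_meas88 u)).aemeasurable (Eventually.of_forall fun s => ?_)
    refine lt_of_le_of_lt (lintegral_mono (g := fun _ => 1) fun s' =>
      ENNReal.ofReal_le_one.2 (h1 _ _)) ?_
    rw [lintegral_const, one_mul]
    exact measure_lt_top _ _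
  simp only [hJ]
  refine iter88 (G := fun u η => (L (u, η)).toReal) (K := 1) ?_ ?_ ?_ ?_
  · exact hLm.ennreal_toReal
  · refine Eventually.of_forall fun η u => ?_
    rw [abs_of_nonneg ENNReal.toReal_nonneg]
    exact ENNReal.toReal_le_of_le_ofReal zero_le_one (by simpa using hLone (u, η))
  · intro u η
    refine integral_nonneg fun s => integral_nonneg fun s' => ?_
    dsimp only
    split_ifs <;> norm_num
  · filter_upwards [off_ae88] with u hu
    refine Eventually.of_forall fun η => ?_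
    rw [← hJ]
    have hpt : ∀ s s' : Fin n → Fin 2 → ℝ,
        (if r' < ‖sp s t - sp s' t‖ then (1 : ℝ) else 0) ≤ Φ (cl88 u s) (cl88 u s') := by
      intro s s'
      by_cases hc : r' < ‖sp s t - sp s' t‖
      · rw [if_pos hc, ← hΦe, if_pos]
        have h2 := dev88 hu s ht
        have h3 := dev88 hu s' ht
        have h4 : sp s t - sp s' t = (emb (cs (cl88 u s) t) - emb (cs (cl88 u s') t)) -
            (emb (cs (cl88 u s) t) - sp s t) + (emb (cs (cl88 u s') t) - sp s' t) := by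
          abel
        have h5 : ‖sp s t - sp s' t‖ ≤ ‖emb (cs (cl88 u s) t) - emb (cs (cl88 u s') t)‖ +
            ‖emb (cs (cl88 u s) t) - sp s t‖ + ‖emb (cs (cl88 u s') t) - sp s' t‖ := by
          rw [h4]
          exact (norm_add_le _ _).trans (by
            linarith [norm_sub_le (emb (cs (cl88 u s) t) - emb (cs (cl88 u s') t))
              (emb (cs (cl88 u s) t) - sp s t)])
        linarith
      · rw [if_neg hc]
        exact h0 _ _
    have hi1 : ∀ c : Fin n → Site 2, Integrable (fun s' => Φ c (cl88 u s')) (Qg β n 0 u η) := by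
      intro c
      refine Integrable.of_bound
        ((measurable_of_countable (Φ c)).comp (cl_meas88 u)).aestronglyMeasurable 1
        (Eventually.of_forall fun s' => ?_)
      rw [Real.norm_eq_abs, abs_of_nonneg (h0 _ _)]
      exact h1 _ _
    refine integral_mono_of_nonneg (Eventually.of_forall fun s => ?_) ?_
      (Eventually.of_forall fun s => ?_)
    · refine integral_nonneg fun s' => ?_
      dsimp only
      split_ifs <;> norm_num
    · have hm : Measurable fun c : Fin n → Site 2 =>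
          ∫ s', Φ c (cl88 u s') ∂(Qg β n 0 u η) := measurable_of_countable _
      refine Integrable.of_bound (hm.comp (cl_meas88 u)).aestronglyMeasurable 1
        (Eventually.of_forall fun s => ?_)
      rw [Real.norm_eq_abs, abs_of_nonneg (integral_nonneg fun s' => h0 _ _)]
      have h2 : ∫ s', Φ (cl88 u s) (cl88 u s') ∂(Qg β n 0 u η) ≤ ∫ _, 1 ∂(Qg β n 0 u η) :=
        integral_mono (hi1 _) (integrable_const _) fun s' => h1 _ _
      refine h2.trans ?_
      rw [integral_const, smul_eq_mul, mul_one]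
      exact measureReal_le_one
    · refine integral_mono_of_nonneg (Eventually.of_forall fun s' => ?_) (hi1 _)
        (Eventually.of_forall fun s' => hpt s s')
      dsimp only
      split_ifs <;> norm_num

lemma const88 {t l γ C : ℝ} (hl : 1 ≤ l) (hlt : l ≤ t) (hC : 0 < C) :
    C * Real.sqrt t * (l / t) ^ γ + 2 * Real.sqrt 2 ≤
      (C + 4) * Real.sqrt t * (l / t) ^ (min γ (1 / 2)) := by
  have ht : 0 < t := by linarith
  have hx0 : 0 < l / t := by positivity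
  have hx1 : l / t ≤ 1 := (div_le_one ht).2 hlt
  have h1 : (l / t) ^ γ ≤ (l / t) ^ (min γ (1 / 2)) :=
    Real.rpow_le_rpow_of_exponent_ge hx0 hx1 (min_le_left _ _)
  have h2 : (l / t) ^ (1 / 2 : ℝ) ≤ (l / t) ^ (min γ (1 / 2)) :=
    Real.rpow_le_rpow_of_exponent_ge hx0 hx1 (min_le_right _ _)
  have h3 : 1 ≤ Real.sqrt t * (l / t) ^ (1 / 2 : ℝ) := by
    rw [← Real.sqrt_eq_rpow, ← Real.sqrt_mul ht.le, mul_div_cancel₀ _ ht.ne']
    exact Real.one_le_sqrt.2 hl
  have h4 : Real.sqrt 2 ≤ 2 := by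
    rw [Real.sqrt_le_left (by norm_num)]
    norm_num
  have h5 : Real.sqrt t * (l / t) ^ (1 / 2 : ℝ) ≤ Real.sqrt t * (l / t) ^ (min γ (1 / 2)) :=
    mul_le_mul_of_nonneg_left h2 (Real.sqrt_nonneg _)
  have h6 : C * Real.sqrt t * (l / t) ^ γ ≤ C * Real.sqrt t * (l / t) ^ (min γ (1 / 2)) :=
    mul_le_mul_of_nonneg_left h1 (by positivity)
  have h7 : (C + 4) * Real.sqrt t * (l / t) ^ (min γ (1 / 2)) =
      C * Real.sqrt t * (l / t) ^ (min γ (1 / 2)) +
        4 * (Real.sqrt t * (l / t) ^ (min γ (1 / 2))) := by ring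
  rw [h7]
  linarith

/-- **Leaf CEL.** -/
theorem cel88 [IsProbabilityMeasure ρ] (hO : NsO ρ β) : NsW ρ β := by
  classical
  intro R κ b hκ hb
  obtain ⟨γ, C, hγ, hC, key⟩ := hO (2 * R + 16) κ b hκ hb
  refine ⟨min γ (1 / 2), C + 4, lt_min hγ (by norm_num), by linarith, ?_⟩
  intro n t l hl hlt htn hW
  have h1 := key (ℕ × Fin 2 → ℝ) off n t (P88 n)
    (∑ k : Fin n, ∫ s, (2 * ‖sp s ((k : ℕ) + 1) - sp s 0 - 0‖ ^ 2 + 16) ∂(gam n)) l
    (fun u => P_prob88 u) (fun c => P_meas88 c) ?_ hl hlt htn ?_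
  · refine le_trans ?_ h1
    exact two88 htn (const88 hl hlt hC)
  · filter_upwards [off_ae88] with u hu i
    exact mom88 i hu
  · intro τ t' h2 h3 h4
    obtain ⟨m, hm⟩ := hW τ t' h2 h3 h4
    refine ⟨m, ?_⟩
    have h5 := win88 (β := β) hb h3 (h2.le.trans h3) m
    refine h5.trans ?_
    have h6 : (2 * R + 16) * ((t' : ℝ) - τ) =
        2 * (R * ((t' : ℝ) - τ)) + 16 * ((t' : ℝ) - τ) := by ring
    rw [h6]
    linarith

end Pool.Agent.W_7d29a1_GW
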