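import Pool.Agent.W_7d29a1_GW.BasW31
import Pool.Agent.W_7d29a1_GW.Mes24

/-!
Theorem GW, leaf CEL, first part: the path of the cells, its distance to the walk, second moments.
-/

namespace Pool.Agent.W_7d29a1_GW.Cel21

open MeasureTheory ProbabilityTheory Filter Topology Pool.Agent.W_MP_7d29a1_pr
  Pool.Agent.W_7d29a1_h46 Pool.Agent.W_7d29a1_h46u Pool.Agent.W_7d29a1_D2.B35
  Pool.Agent.W_7d29a1_Q29 Pool.Agent.W_7d29a1_S90 Pool.Agent.W_7d29a1_NS

/-- The tilt of an image measure. -/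
lemma tilted_map21 {α α' : Type*} [MeasurableSpace α] [MeasurableSpace α'] (μ : Measure α)
    {Φ : α → α'} (hΦ : Measurable Φ) {f : α' → ℝ} (hf : Measurable f) :
    (μ.map Φ).tilted f = (μ.tilted fun x => f (Φ x)).map Φ := by
  have hZ : ∫ y, Real.exp (f y) ∂(μ.map Φ) = ∫ x, Real.exp (f (Φ x)) ∂μ :=
    integral_map hΦ.aemeasurable (Real.measurable_exp.comp hf).aestronglyMeasurable
  ext A hA
  rw [Measure.map_apply hΦ hA, tilted_apply' _ _ hA, tilted_apply' _ _ (hΦ hA), hZ,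
    setLIntegral_map hA ?_ hΦ]
  exact ((Real.measurable_exp.comp hf).div_const _).ennreal_ofReal

variable {n : ℕ}

/-- The path of the cells. -/
noncomputable def cels (u : ℕ × Fin 2 → ℝ) (s : Fin n → Fin 2 → ℝ) : Fin n → Site 2 :=
  fun i => cel u s (i + 1)

lemma cels_meas21 : Measurable fun p : (ℕ × Fin 2 → ℝ) × (Fin n → Fin 2 → ℝ) =>
    cels p.1 p.2 :=
  measurable_pi_lambda _ fun i => cel_meas24 ((i : ℕ) + 1)

lemma cels_meas21' (u : ℕ × Fin 2 → ℝ) : Measurable (cels u : (Fin n → Fin 2 → ℝ) → _) :=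
  cels_meas21.comp (measurable_const.prodMk measurable_id)

/-- The polymer measure on the paths of cells. -/
lemma oP_eq21 (β : ℝ) (u : ℕ × Fin 2 → ℝ) (η : Env 2) :
    oP β η ((gam n).map (cels u)) = (Qg β n 0 u η).map (cels u) := by
  unfold oP Qg
  rw [tilted_map21 _ (cels_meas21' u) (measurable_of_countable _)]
  congr 2
  funext s
  unfold gE cels
  simp

lemma cs_cels21 (u : ℕ × Fin 2 → ℝ) (s : Fin n → Fin 2 → ℝ) {t : ℕ} (h1 : 1 ≤ t) (hn : t ≤ n) :
    cs (cels u s) t = cel u s t := by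
  unfold cs cels
  rw [dif_pos ⟨h1, hn⟩]
  have h2 : (t - 1) + 1 = t := by omega
  simp only [h2]

lemma sp_zero21 (s : Fin n → Fin 2 → ℝ) : sp s 0 = 0 := by
  ext j
  rw [spj31]
  simp

/-- The cell is near the position. -/
lemma near_cel21 {u : ℕ × Fin 2 → ℝ} (hu : ∀ p, 0 ≤ u p ∧ u p < 1) (s : Fin n → Fin 2 → ℝ)
    {t : ℕ} (hn : t ≤ n) : ‖emb (cs (cels u s) t) - sp s t‖ ≤ 2 := by
  rcases Nat.eq_zero_or_pos t with h0 | h0
  · subst h0
    have h1 : cs (cels u s) 0 = 0 := by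
      unfold cs
      rw [dif_neg (by omega)]
    rw [h1, sp_zero21, sub_zero]
    have h2 : emb (0 : Site 2) = 0 := by
      ext j
      simp [emb]
    rw [h2, norm_zero]
    norm_num
  · rw [cs_cels21 u s h0 hn]
    have h1 : ∀ j, |(emb (cel u s t) - sp s t) j| ≤ 1 := by
      intro j
      have h2 : (emb (cel u s t) - sp s t) j = (⌊sp s t j + u (t, j)⌋ : ℝ) - sp s t j := rfl
      rw [h2, abs_le]
      have h3 := Int.floor_le (sp s t j + u (t, j))
      have h4 := Int.lt_floor_add_one (sp s t j + u (t, j))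
      have h5 := hu (t, j)
      constructor <;> linarith
    rw [EuclideanSpace.norm_eq, Real.sqrt_le_left (by norm_num), Fin.sum_univ_two]
    have h2 := h1 0
    have h3 := h1 1
    rw [Real.norm_eq_abs, Real.norm_eq_abs]
    nlinarith [abs_nonneg ((emb (cel u s t) - sp s t) 0), abs_nonneg ((emb (cel u s t) - sp s t) 1)]

/-- The offsets are in `[0, 1)`. -/
lemma ae_off21 : ∀ᵐ u ∂off, ∀ p, 0 ≤ u p ∧ u p < 1 := by
  rw [ae_all_iff]
  intro p
  have h1 : off.map (fun u => u p) = uni := Measure.infinitePi_map_eval _ p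
  have h2 : ∀ᵐ x ∂uni, x ∈ Set.Ico (0 : ℝ) 1 := ae_restrict_mem measurableSet_Ico
  rw [← h1] at h2
  have h3 := ae_of_ae_map (measurable_pi_apply p).aemeasurable h2
  filter_upwards [h3] with u hu
  exact hu

/-- The second moments of the coordinates. -/
lemma memLp_sp21 (t : ℕ) (j : Fin 2) :
    MemLp (fun s : Fin n → Fin 2 → ℝ => sp s t j) 2 (gam n) := by
  simp only [spj31]
  refine memLp_finset_sum _ fun i _ => ?_
  split_ifs
  · have h1 : MeasurePreserving (fun s : Fin n → Fin 2 → ℝ => s i) (gam n)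
        (Measure.pi fun _ : Fin 2 => gaussianReal 0 1) :=
      measurePreserving_eval (fun _ : Fin n => Measure.pi fun _ : Fin 2 => gaussianReal 0 1) i
    have h2 : MeasurePreserving (fun x : Fin 2 → ℝ => x j)
        (Measure.pi fun _ : Fin 2 => gaussianReal 0 1) (gaussianReal 0 1) :=
      measurePreserving_eval (fun _ : Fin 2 => gaussianReal 0 1) j
    exact (memLp_id_gaussianReal' 2 (by norm_num)).comp_measurePreserving (h2.comp h1)
  · exact MemLp.zero

lemma int_sq21 (t : ℕ) : Integrable (fun s : Fin n → Fin 2 → ℝ => ‖sp s t‖ ^ 2) (gam n) := by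
  have h1 : ∀ s : Fin n → Fin 2 → ℝ, ‖sp s t‖ ^ 2 = sp s t 0 ^ 2 + sp s t 1 ^ 2 := by
    intro s
    rw [EuclideanSpace.norm_sq_eq, Fin.sum_univ_two, Real.norm_eq_abs, Real.norm_eq_abs, sq_abs,
      sq_abs]
  simp only [h1]
  exact (memLp_sp21 t 0).integrable_sq.add (memLp_sp21 t 1).integrable_sq

end Pool.Agent.W_7d29a1_GW.Cel21
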