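import Pool.Agent.W_7d29a1_GW.CelA21

/-!
Theorem GW, leaf CEL, second part: the windows.
-/

namespace Pool.Agent.W_7d29a1_GW.Cel21

open MeasureTheory ProbabilityTheory Filter Topology Pool.Agent.W_MP_7d29a1_pr
  Pool.Agent.W_7d29a1_h46 Pool.Agent.W_7d29a1_h46u Pool.Agent.W_7d29a1_D2.B35
  Pool.Agent.W_7d29a1_Q29 Pool.Agent.W_7d29a1_S90 Pool.Agent.W_7d29a1_NS

variable {n : ℕ} {β : ℝ} {ρ : Measure ℝ}

lemma tilt0_21 : (gam n).tilted (fun s : Fin n → Fin 2 → ℝ => 0 * sp s n 0) = gam n := by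
  simp

/-- The square of the increment. -/
noncomputable def sqi (τ t : ℕ) (m : Vec 2) (s : Fin n → Fin 2 → ℝ) : ℝ :=
  ‖sp s t - sp s τ - m‖ ^ 2

lemma sqi_meas21 (τ t : ℕ) (m : Vec 2) : Measurable (sqi (n := n) τ t m) := by
  unfold sqi
  exact (((meas_sp31 t).sub (meas_sp31 τ)).sub_const m).norm.pow_const 2

lemma sqi_nonneg21 (τ t : ℕ) (m : Vec 2) (s : Fin n → Fin 2 → ℝ) : 0 ≤ sqi τ t m s :=
  sq_nonneg _

lemma sqi_int21 (τ t : ℕ) (m : Vec 2) : Integrable (sqi (n := n) τ t m) (gam n) := by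
  refine (((int_sq21 t).const_mul 3).add (((int_sq21 τ).const_mul 3).add
    (integrable_const (3 * ‖m‖ ^ 2)))).mono' (sqi_meas21 τ t m).aestronglyMeasurable
    (Eventually.of_forall fun s => ?_)
  rw [Real.norm_eq_abs, abs_of_nonneg (sqi_nonneg21 τ t m s)]
  simp only [Pi.add_apply]
  unfold sqi
  have h1 : ‖sp s t - sp s τ - m‖ ≤ ‖sp s t‖ + ‖sp s τ‖ + ‖m‖ := by
    refine (norm_sub_le _ _).trans ?_
    have := norm_sub_le (sp s t) (sp s τ)
    linarith
  have h2 : ‖sp s t - sp s τ - m‖ ^ 2 ≤ (‖sp s t‖ + ‖sp s τ‖ + ‖m‖) ^ 2 :=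
    pow_le_pow_left₀ (norm_nonneg _) h1 2
  nlinarith [sq_nonneg (‖sp s t‖ - ‖sp s τ‖), sq_nonneg (‖sp s τ‖ - ‖m‖),
    sq_nonneg (‖sp s t‖ - ‖m‖)]

/-- A bound of the second moments. -/
noncomputable def Kb (β b : ℝ) (n τ t : ℕ) (m : Vec 2) : ENNReal :=
  ENNReal.ofReal (Real.exp (2 * (|β| * (n * b)))) *
    ∫⁻ s, ENNReal.ofReal (sqi (n := n) τ t m s) ∂(gam n)

lemma Kb_lt21 (β b : ℝ) (n τ t : ℕ) (m : Vec 2) : Kb β b n τ t m < ⊤ := by
  refine ENNReal.mul_lt_top ENNReal.ofReal_lt_top ?_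
  have h := (sqi_int21 (n := n) τ t m).lintegral_lt_top
  exact h

lemma L1_le21 (β : ℝ) {b : ℝ} {η : Env 2} (hη : ∀ p, |η p| ≤ b) (u : ℕ × Fin 2 → ℝ) (τ t : ℕ)
    (m : Vec 2) :
    L1 β 0 (fun s : Fin n → Fin 2 → ℝ => ENNReal.ofReal (sqi τ t m s)) u η ≤ Kb β b n τ t m := by
  refine (dom31 0 u hη).trans ?_
  rw [tilt0_21]
  exact le_rfl

lemma sqi_intQ21 (β : ℝ) {b : ℝ} {η : Env 2} (hη : ∀ p, |η p| ≤ b) (u : ℕ × Fin 2 → ℝ)
    (τ t : ℕ) (m : Vec 2) : Integrable (sqi (n := n) τ t m) (Qg β n 0 u η) := by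
  refine ⟨(sqi_meas21 τ t m).aestronglyMeasurable, ?_⟩
  rw [hasFiniteIntegral_iff_ofReal (Eventually.of_forall (sqi_nonneg21 τ t m))]
  exact (L1_le21 β hη u τ t m).trans_lt (Kb_lt21 β b n τ t m)

/-- The windows of the cells. -/
theorem win21 [IsProbabilityMeasure ρ] {b : ℝ} (hb : ρ (Set.Icc (-b) b)ᶜ = 0) {τ t : ℕ}
    (hτ : τ ≤ n) (ht : t ≤ n) (m : Vec 2) :
    ∫ u, ∫ η, ∫ c, ‖emb (cs c t) - emb (cs c τ) - m‖ ^ 2
        ∂(oP β η ((gam n).map (cels u))) ∂(law 2 ρ) ∂off ≤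
      2 * (∫ u, ∫ η, ∫ s, ‖sp s t - sp s τ - m‖ ^ 2 ∂(Qg β n 0 u η) ∂(law 2 ρ) ∂off) + 32 := by
  have hbd := ae_bdd31 hb
  obtain ⟨B, hB⟩ : ∃ B : (ℕ × Fin 2 → ℝ) → Env 2 → ℝ, B = fun u η =>
    ∫ s, sqi (n := n) τ t m s ∂(Qg β n 0 u η) := ⟨_, rfl⟩
  have hBL : ∀ u η, B u η = (L1 β 0 (fun s : Fin n → Fin 2 → ℝ =>
      ENNReal.ofReal (sqi τ t m s)) u η).toReal := by
    intro u η
    rw [hB]
    exact integral_eq_lintegral_of_nonneg_ae (Eventually.of_forall (sqi_nonneg21 τ t m))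
      (sqi_meas21 τ t m).aestronglyMeasurable
  have hBm : Measurable (Function.uncurry B) := by
    have h1 := meas_L1u31 (mesG24 β) 0 (n := n) (F := fun s => ENNReal.ofReal (sqi τ t m s))
      (sqi_meas21 τ t m).ennreal_ofReal
    have h2 : Function.uncurry B = fun p => (Function.uncurry (L1 β 0
        (fun s : Fin n → Fin 2 → ℝ => ENNReal.ofReal (sqi τ t m s))) p).toReal := by
      funext p
      exact hBL p.1 p.2
    rw [h2]
    exact h1.ennreal_toReal
  obtain ⟨K, hK⟩ : ∃ K : ℝ, K = (Kb β b n τ t m).toReal := ⟨_, rfl⟩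
  have hB0 : ∀ u η, 0 ≤ B u η := fun u η => by
    rw [hBL]
    exact ENNReal.toReal_nonneg
  have hBK : ∀ η : Env 2, (∀ p, |η p| ≤ b) → ∀ u, B u η ≤ K := by
    intro η hη u
    rw [hBL, hK]
    exact ENNReal.toReal_mono (Kb_lt21 β b n τ t m).ne (L1_le21 β hη u τ t m)
  have hi1 : ∀ u, Integrable (B u) (law 2 ρ) := by
    intro u
    refine Integrable.of_bound (hBm.comp (measurable_const.prodMk
      measurable_id)).aestronglyMeasurable K ?_
    filter_upwards [hbd] with η hη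
    rw [Real.norm_eq_abs]
    show |B u η| ≤ K
    rw [abs_of_nonneg (hB0 u η)]
    exact hBK η hη u
  have hi2 : Integrable (fun u => ∫ η, B u η ∂(law 2 ρ)) off := by
    have h1 : StronglyMeasurable fun u => ∫ η, B u η ∂(law 2 ρ) :=
      hBm.stronglyMeasurable.integral_prod_right
    refine Integrable.of_bound h1.aestronglyMeasurable K (Eventually.of_forall fun u => ?_)
    rw [Real.norm_eq_abs, abs_of_nonneg (integral_nonneg (hB0 u))]
    have h2 : ∫ η, B u η ∂(law 2 ρ) ≤ ∫ _, K ∂(law 2 ρ) := by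
      refine integral_mono_ae (hi1 u) (integrable_const _) ?_
      filter_upwards [hbd] with η hη
      exact hBK η hη u
    simpa using h2
  have key : ∀ᵐ u ∂off, ∀ᵐ η ∂(law 2 ρ), ∫ c, ‖emb (cs c t) - emb (cs c τ) - m‖ ^ 2
      ∂(oP β η ((gam n).map (cels u))) ≤ 2 * B u η + 32 := by
    filter_upwards [ae_off21] with u hu
    filter_upwards [hbd] with η hη
    have hP := prob_Q31 (β := β) (n := n) 0 u hη
    rw [oP_eq21, integral_map (cels_meas21' u).aemeasurable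
      (measurable_of_countable _).aestronglyMeasurable]
    have h1 : ∫ s, ‖emb (cs (cels u s) t) - emb (cs (cels u s) τ) - m‖ ^ 2
        ∂(Qg β n 0 u η) ≤ ∫ s, (2 * sqi τ t m s + 32) ∂(Qg β n 0 u η) := by
      refine integral_mono_of_nonneg (Eventually.of_forall fun s => sq_nonneg _)
        (((sqi_intQ21 β hη u τ t m).const_mul 2).add (integrable_const _))
        (Eventually.of_forall fun s => ?_)
      simp only
      unfold sqi
      have h2 := near_cel21 hu s ht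
      have h3 := near_cel21 hu s hτ
      have h4 : emb (cs (cels u s) t) - emb (cs (cels u s) τ) - m =
          (sp s t - sp s τ - m) + ((emb (cs (cels u s) t) - sp s t) -
            (emb (cs (cels u s) τ) - sp s τ)) := by abel
      have h5 : ‖(emb (cs (cels u s) t) - sp s t) - (emb (cs (cels u s) τ) - sp s τ)‖ ≤ 4 := by
        refine (norm_sub_le _ _).trans ?_
        linarith
      have h6 : ‖emb (cs (cels u s) t) - emb (cs (cels u s) τ) - m‖ ≤
          ‖sp s t - sp s τ - m‖ + 4 := by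
        rw [h4]
        refine (norm_add_le _ _).trans ?_
        linarith
      have h7 : ‖emb (cs (cels u s) t) - emb (cs (cels u s) τ) - m‖ ^ 2 ≤
          (‖sp s t - sp s τ - m‖ + 4) ^ 2 := pow_le_pow_left₀ (norm_nonneg _) h6 2
      nlinarith [sq_nonneg (‖sp s t - sp s τ - m‖ - 4)]
    refine h1.trans (le_of_eq ?_)
    rw [integral_add ((sqi_intQ21 β hη u τ t m).const_mul 2) (integrable_const _),
      integral_const_mul, hB]
    simp
  have h2 : ∫ u, ∫ η, ∫ c, ‖emb (cs c t) - emb (cs c τ) - m‖ ^ 2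
      ∂(oP β η ((gam n).map (cels u))) ∂(law 2 ρ) ∂off ≤
      ∫ u, (2 * (∫ η, B u η ∂(law 2 ρ)) + 32) ∂off := by
    refine integral_mono_of_nonneg (Eventually.of_forall fun u => integral_nonneg fun η =>
      integral_nonneg fun c => sq_nonneg _) ((hi2.const_mul 2).add (integrable_const _)) ?_
    filter_upwards [key] with u hu
    have h3 : ∫ η, ∫ c, ‖emb (cs c t) - emb (cs c τ) - m‖ ^ 2
        ∂(oP β η ((gam n).map (cels u))) ∂(law 2 ρ) ≤ ∫ η, (2 * B u η + 32) ∂(law 2 ρ) :=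
      integral_mono_of_nonneg (Eventually.of_forall fun η => integral_nonneg fun c =>
        sq_nonneg _) (((hi1 u).const_mul 2).add (integrable_const _)) hu
    refine h3.trans (le_of_eq ?_)
    rw [integral_add ((hi1 u).const_mul 2) (integrable_const _), integral_const_mul]
    simp
  refine h2.trans (le_of_eq ?_)
  rw [integral_add (hi2.const_mul 2) (integrable_const _), integral_const_mul, hB]
  simp [sqi]

end Pool.Agent.W_7d29a1_GW.Cel21
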