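import Pool.Agent.W_7d29a1_GW.CelB21

/-!
Theorem GW, leaf CEL, last part: the replicas; theorem NS for the Gaussian walk.
-/

namespace Pool.Agent.W_7d29a1_GW.Cel21

open MeasureTheory ProbabilityTheory Filter Topology Pool.Agent.W_MP_7d29a1_pr
  Pool.Agent.W_7d29a1_h46 Pool.Agent.W_7d29a1_h46u Pool.Agent.W_7d29a1_D2.B35
  Pool.Agent.W_7d29a1_Q29 Pool.Agent.W_7d29a1_S90 Pool.Agent.W_7d29a1_NS

variable {n : ℕ} {β : ℝ} {ρ : Measure ℝ}

/-- Joint measurability, the function may see the offsets. -/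
theorem meas2_21 (β : ℝ)
    (F : (ℕ × Fin 2 → ℝ) → (Fin n → Fin 2 → ℝ) → (Fin n → Fin 2 → ℝ) → ENNReal)
    (hF : Measurable fun q : (ℕ × Fin 2 → ℝ) × (Fin n → Fin 2 → ℝ) × (Fin n → Fin 2 → ℝ) =>
      F q.1 q.2.1 q.2.2) :
    Measurable (Function.uncurry fun (u : ℕ × Fin 2 → ℝ) (η : Env 2) =>
      ∫⁻ s, ∫⁻ s', F u s s' ∂(Qg β n 0 u η) ∂(Qg β n 0 u η)) := by
  obtain ⟨φ, hφ⟩ : ∃ φ : ((ℕ × Fin 2 → ℝ) × Env 2) → (Fin n → Fin 2 → ℝ) → ℝ,
      φ = fun p s => β * gE p.1 p.2 s + 0 * sp s n 0 := ⟨_, rfl⟩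
  have hφm : Measurable (Function.uncurry φ) := by
    rw [hφ]
    show Measurable fun q : ((ℕ × Fin 2 → ℝ) × Env 2) × (Fin n → Fin 2 → ℝ) =>
      β * gE q.1.1 q.1.2 q.2 + 0 * sp q.2 n 0
    have h1 : Measurable fun q : ((ℕ × Fin 2 → ℝ) × Env 2) × (Fin n → Fin 2 → ℝ) =>
        gE q.1.1 q.1.2 q.2 := by
      have h2 := (gE_meas24 (n := n)).comp (show Measurable fun q : ((ℕ × Fin 2 → ℝ) × Env 2) ×
        (Fin n → Fin 2 → ℝ) => ((q.1.1, q.1.2, (0 : ℝ)), q.2) by fun_prop)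
      exact h2
    exact (h1.const_mul β).add (((sp_meas24 n 0).comp measurable_snd).const_mul 0)
  obtain ⟨Zt, hZ⟩ : ∃ Zt : ((ℕ × Fin 2 → ℝ) × Env 2) → ℝ,
      Zt = fun p => ∫ s, Real.exp (φ p s) ∂(gam n) := ⟨_, rfl⟩
  have hZm : Measurable Zt := by
    have h1 : StronglyMeasurable (Function.uncurry fun p s => Real.exp (φ p s)) :=
      (Real.measurable_exp.comp hφm).stronglyMeasurable
    rw [hZ]
    exact (h1.integral_prod_right (ν := gam n)).measurable
  have hw : Measurable fun q : ((ℕ × Fin 2 → ℝ) × Env 2) × (Fin n → Fin 2 → ℝ) =>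
      ENNReal.ofReal (Real.exp (φ q.1 q.2) / Zt q.1) :=
    ((Real.measurable_exp.comp hφm).div (hZm.comp measurable_fst)).ennreal_ofReal
  have hQ : ∀ (p : (ℕ × Fin 2 → ℝ) × Env 2) (g : (Fin n → Fin 2 → ℝ) → ENNReal),
      ∫⁻ s, g s ∂(Qg β n 0 p.1 p.2) =
        ∫⁻ s, ENNReal.ofReal (Real.exp (φ p s) / Zt p) * g s ∂(gam n) := by
    intro p g
    unfold Qg
    rw [hZ, hφ]
    exact lintegral_tilted _ g
  have h0 : (Function.uncurry fun (u : ℕ × Fin 2 → ℝ) (η : Env 2) =>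
      ∫⁻ s, ∫⁻ s', F u s s' ∂(Qg β n 0 u η) ∂(Qg β n 0 u η)) = fun p =>
      ∫⁻ s, ENNReal.ofReal (Real.exp (φ p s) / Zt p) *
        ∫⁻ s', ENNReal.ofReal (Real.exp (φ p s') / Zt p) * F p.1 s s' ∂(gam n) ∂(gam n) := by
    funext p
    show ∫⁻ s, ∫⁻ s', F p.1 s s' ∂(Qg β n 0 p.1 p.2) ∂(Qg β n 0 p.1 p.2) = _
    simp only [hQ]
  rw [h0]
  have h1 : Measurable fun q : ((ℕ × Fin 2 → ℝ) × Env 2) × (Fin n → Fin 2 → ℝ) =>
      ∫⁻ s', ENNReal.ofReal (Real.exp (φ q.1 s') / Zt q.1) * F q.1.1 q.2 s' ∂(gam n) := by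
    refine Measurable.lintegral_prod_right' (f := fun r : (((ℕ × Fin 2 → ℝ) × Env 2) ×
      (Fin n → Fin 2 → ℝ)) × (Fin n → Fin 2 → ℝ) =>
        ENNReal.ofReal (Real.exp (φ r.1.1 r.2) / Zt r.1.1) * F r.1.1.1 r.1.2 r.2) ?_
    refine (hw.comp ((measurable_fst.comp measurable_fst).prodMk measurable_snd)).mul ?_
    exact hF.comp (show Measurable fun r : (((ℕ × Fin 2 → ℝ) × Env 2) ×
      (Fin n → Fin 2 → ℝ)) × (Fin n → Fin 2 → ℝ) => (r.1.1.1, r.1.2, r.2) by fun_prop)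
  exact Measurable.lintegral_prod_right' (f := fun q : ((ℕ × Fin 2 → ℝ) × Env 2) ×
    (Fin n → Fin 2 → ℝ) => ENNReal.ofReal (Real.exp (φ q.1 q.2) / Zt q.1) *
      ∫⁻ s', ENNReal.ofReal (Real.exp (φ q.1 s') / Zt q.1) * F q.1.1 q.2 s' ∂(gam n))
      (hw.mul h1)

open Classical in
/-- The replicas at the distance `r`, by the cells. -/
noncomputable def fc (r : ℝ) (t : ℕ) (c c' : Fin n → Site 2) : ℝ :=
  if r < ‖emb (cs c t) - emb (cs c' t)‖ then (1 : ℝ) else 0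

lemma fc_nonneg21 (r : ℝ) (t : ℕ) (c c' : Fin n → Site 2) : 0 ≤ fc r t c c' := by
  unfold fc
  split_ifs <;> norm_num

lemma fc_le21 (r : ℝ) (t : ℕ) (c c' : Fin n → Site 2) : fc r t c c' ≤ 1 := by
  unfold fc
  split_ifs <;> norm_num

/-- The replica integral of the cells. -/
noncomputable def Dc (β : ℝ) (n : ℕ) (r : ℝ) (t : ℕ) (u : ℕ × Fin 2 → ℝ) (η : Env 2) : ENNReal :=
  ∫⁻ s, ∫⁻ s', ENNReal.ofReal (fc (n := n) r t (cels u s) (cels u s')) ∂(Qg β n 0 u η)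
    ∂(Qg β n 0 u η)

lemma Fc_meas21 (r : ℝ) (t : ℕ) :
    Measurable fun q : (ℕ × Fin 2 → ℝ) × (Fin n → Fin 2 → ℝ) × (Fin n → Fin 2 → ℝ) =>
      ENNReal.ofReal (fc (n := n) r t (cels q.1 q.2.1) (cels q.1 q.2.2)) := by
  have h1 : Measurable fun q : (Fin n → Site 2) × (Fin n → Site 2) =>
      ENNReal.ofReal (fc r t q.1 q.2) := measurable_of_countable _
  have g2 : Measurable fun q : (ℕ × Fin 2 → ℝ) × (Fin n → Fin 2 → ℝ) × (Fin n → Fin 2 → ℝ) =>
      (q.1, q.2.1) := measurable_fst.prodMk (measurable_fst.comp measurable_snd)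
  have g3 : Measurable fun q : (ℕ × Fin 2 → ℝ) × (Fin n → Fin 2 → ℝ) × (Fin n → Fin 2 → ℝ) =>
      (q.1, q.2.2) := measurable_fst.prodMk (measurable_snd.comp measurable_snd)
  have h2 : Measurable fun q : (ℕ × Fin 2 → ℝ) × (Fin n → Fin 2 → ℝ) × (Fin n → Fin 2 → ℝ) =>
      cels q.1 q.2.1 :=
    Measurable.comp (g := fun p : (ℕ × Fin 2 → ℝ) × (Fin n → Fin 2 → ℝ) => cels p.1 p.2)
      (f := fun q : (ℕ × Fin 2 → ℝ) × (Fin n → Fin 2 → ℝ) × (Fin n → Fin 2 → ℝ) => (q.1, q.2.1))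
      cels_meas21 g2
  have h3 : Measurable fun q : (ℕ × Fin 2 → ℝ) × (Fin n → Fin 2 → ℝ) × (Fin n → Fin 2 → ℝ) =>
      cels q.1 q.2.2 :=
    Measurable.comp (g := fun p : (ℕ × Fin 2 → ℝ) × (Fin n → Fin 2 → ℝ) => cels p.1 p.2)
      (f := fun q : (ℕ × Fin 2 → ℝ) × (Fin n → Fin 2 → ℝ) × (Fin n → Fin 2 → ℝ) => (q.1, q.2.2))
      cels_meas21 g3
  have h4 := h2.prodMk h3
  have h5 := h1.comp h4
  exact h5

lemma Dc_meas21 (β : ℝ) (r : ℝ) (t : ℕ) : Measurable (Function.uncurry (Dc β n r t)) :=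
  meas2_21 β (fun u s s' => ENNReal.ofReal (fc (n := n) r t (cels u s) (cels u s')))
    (Fc_meas21 r t)

lemma Dc_le21 (β : ℝ) (r : ℝ) (t : ℕ) (u : ℕ × Fin 2 → ℝ) (η : Env 2) : Dc β n r t u η ≤ 1 := by
  unfold Dc
  calc ∫⁻ s, ∫⁻ s', ENNReal.ofReal (fc (n := n) r t (cels u s) (cels u s')) ∂(Qg β n 0 u η)
        ∂(Qg β n 0 u η) ≤ ∫⁻ _, ∫⁻ _, 1 ∂(Qg β n 0 u η) ∂(Qg β n 0 u η) := by
        refine lintegral_mono fun s => lintegral_mono fun s' => ?_
        rw [← ENNReal.ofReal_one]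
        exact ENNReal.ofReal_le_ofReal (fc_le21 _ _ _ _)
    _ ≤ 1 := by
        rw [lintegral_const, lintegral_const, one_mul]
        exact mul_le_one' prob_le_one prob_le_one

/-- The replica integral of the cells under the image measure. -/
lemma Dc_eq21 (β : ℝ) (r : ℝ) (t : ℕ) (u : ℕ × Fin 2 → ℝ) (η : Env 2) :
    ∫ c, ∫ c', fc (n := n) r t c c' ∂(oP β η ((gam n).map (cels u)))
      ∂(oP β η ((gam n).map (cels u))) = (Dc β n r t u η).toReal := by
  rw [oP_eq21]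
  have hm := cels_meas21' (n := n) u
  have h1 : ∀ c, ∫ c', fc (n := n) r t c c' ∂((Qg β n 0 u η).map (cels u)) =
      (∫⁻ s', ENNReal.ofReal (fc (n := n) r t c (cels u s')) ∂(Qg β n 0 u η)).toReal := by
    intro c
    rw [integral_map hm.aemeasurable (measurable_of_countable _).aestronglyMeasurable]
    refine integral_eq_lintegral_of_nonneg_ae (Eventually.of_forall fun s => fc_nonneg21 _ _ _ _)
      ?_
    exact ((measurable_of_countable fun c' => fc r t c c').comp hm).aestronglyMeasurable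
  simp only [h1]
  rw [integral_map hm.aemeasurable (measurable_of_countable _).aestronglyMeasurable]
  unfold Dc
  have h2 : Measurable fun c : Fin n → Site 2 =>
      ∫⁻ s', ENNReal.ofReal (fc (n := n) r t c (cels u s')) ∂(Qg β n 0 u η) :=
    measurable_of_countable _
  refine integral_toReal (h2.comp hm).aemeasurable (Eventually.of_forall fun s => ?_)
  have h3 : ∫⁻ s', ENNReal.ofReal (fc (n := n) r t (cels u s) (cels u s')) ∂(Qg β n 0 u η) ≤ 1 := by
    calc ∫⁻ s', ENNReal.ofReal (fc (n := n) r t (cels u s) (cels u s')) ∂(Qg β n 0 u η)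
        ≤ ∫⁻ _, 1 ∂(Qg β n 0 u η) := by
          refine lintegral_mono fun s' => ?_
          rw [← ENNReal.ofReal_one]
          exact ENNReal.ofReal_le_ofReal (fc_le21 _ _ _ _)
      _ ≤ 1 := by
          rw [lintegral_const, one_mul]
          exact prob_le_one
  exact h3.trans_lt ENNReal.one_lt_top

open Classical in
/-- **Leaf CEL.** -/
theorem cel21 [IsProbabilityMeasure ρ] (hN : NsO ρ β) : NsW ρ β := by
  intro R κ b hκ hb
  obtain ⟨γ', C', hγ', hC', hN⟩ := hN (2 * R + 32) κ b hκ hb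
  refine ⟨min γ' (1 / 2), C' + 4, lt_min hγ' (by norm_num), by linarith, ?_⟩
  intro n t l hl hlt htn hW
  have hl0 : (0 : ℝ) < l := by linarith
  have ht0 : (0 : ℝ) < t := by linarith
  obtain ⟨B, hB⟩ : ∃ B : ℝ, B = ∑ i : Fin n, (2 * (∫ s, ‖sp (n := n) s ((i : ℕ) + 1)‖ ^ 2
    ∂(gam n)) + 8) := ⟨_, rfl⟩
  have hN1 := hN (ℕ × Fin 2 → ℝ) off n t (fun u => (gam n).map (cels u)) B l
    (fun u => Measure.isProbabilityMeasure_map (cels_meas21' u).aemeasurable)
    (fun c => by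
      have h1 : ∀ u, ((gam n).map (cels u)) {c} =
          (gam n) (Prod.mk u ⁻¹' {p : (ℕ × Fin 2 → ℝ) × (Fin n → Fin 2 → ℝ) |
            cels p.1 p.2 = c}) := by
        intro u
        rw [Measure.map_apply (cels_meas21' u) (measurableSet_singleton c)]
        rfl
      simp only [h1]
      exact measurable_measure_prodMk_left (cels_meas21 (measurableSet_singleton c)))
    (by
      filter_upwards [ae_off21] with u hu i
      have hm := cels_meas21' (n := n) u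
      have hi : ((i : ℕ) + 1) ≤ n := i.2
      have h1 : ∀ s : Fin n → Fin 2 → ℝ, ‖emb (cels u s i)‖ ^ 2 ≤
          2 * ‖sp s ((i : ℕ) + 1)‖ ^ 2 + 8 := by
        intro s
        have h2 := near_cel21 hu s hi
        rw [cs_cels21 u s (by omega) hi] at h2
        have h3 : ‖emb (cels u s i)‖ ≤ ‖sp s ((i : ℕ) + 1)‖ + 2 := by
          have h4 : emb (cels u s i) = sp s ((i : ℕ) + 1) +
              (emb (cel u s ((i : ℕ) + 1)) - sp s ((i : ℕ) + 1)) := by
            unfold cels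
            abel
          rw [h4]
          refine (norm_add_le _ _).trans ?_
          linarith
        have h5 : ‖emb (cels u s i)‖ ^ 2 ≤ (‖sp s ((i : ℕ) + 1)‖ + 2) ^ 2 :=
          pow_le_pow_left₀ (norm_nonneg _) h3 2
        nlinarith [sq_nonneg (‖sp s ((i : ℕ) + 1)‖ - 2)]
      have hg : Integrable (fun s : Fin n → Fin 2 → ℝ => 2 * ‖sp s ((i : ℕ) + 1)‖ ^ 2 + 8)
          (gam n) := ((int_sq21 _).const_mul 2).add (integrable_const _)
      have hf : Measurable fun c : Fin n → Site 2 => ‖emb (c i)‖ ^ 2 := measurable_of_countable _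
      have hI : Integrable (fun s : Fin n → Fin 2 → ℝ => ‖emb (cels u s i)‖ ^ 2) (gam n) := by
        refine hg.mono' (hf.comp hm).aestronglyMeasurable (Eventually.of_forall fun s => ?_)
        rw [Real.norm_eq_abs, abs_of_nonneg (sq_nonneg _)]
        exact h1 s
      refine ⟨(integrable_map_measure hf.aestronglyMeasurable hm.aemeasurable).2 hI, ?_⟩
      rw [integral_map hm.aemeasurable hf.aestronglyMeasurable]
      refine (integral_mono hI hg h1).trans ?_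
      rw [integral_add ((int_sq21 _).const_mul 2) (integrable_const _), integral_const_mul, hB]
      have h2 : ∀ j ∈ (Finset.univ : Finset (Fin n)), 0 ≤ 2 * (∫ s, ‖sp (n := n) s ((j : ℕ) + 1)‖ ^ 2
          ∂(gam n)) + 8 := by
        intro j _
        have : 0 ≤ ∫ s, ‖sp (n := n) s ((j : ℕ) + 1)‖ ^ 2 ∂(gam n) :=
          integral_nonneg fun s => sq_nonneg _
        linarith
      have h3 := Finset.single_le_sum h2 (Finset.mem_univ i)
      simpa using h3)
    hl hlt htn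
    (fun τ t' hτ ht' hlen => by
      obtain ⟨m, hm⟩ := hW τ t' hτ ht' hlen
      refine ⟨m, (win21 hb (by omega) ht' m).trans ?_⟩
      have h1 : (1 : ℝ) ≤ (t' : ℝ) - τ := hl.trans hlen
      have h2 : (2 * R + 32) * ((t' : ℝ) - τ) = 2 * (R * ((t' : ℝ) - τ)) +
        32 * ((t' : ℝ) - τ) := by ring
      rw [h2]
      linarith)
  -- the radii
  obtain ⟨r', hr'⟩ : ∃ r' : ℝ, r' = C' * Real.sqrt t * (l / t) ^ γ' := ⟨_, rfl⟩
  obtain ⟨r, hr⟩ : ∃ r : ℝ, r = (C' + 4) * Real.sqrt t * (l / t) ^ (min γ' (1 / 2)) := ⟨_, rfl⟩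
  have hrr : r' + 4 ≤ r := by
    have hq0 : 0 < l / t := by positivity
    have hq1 : l / t ≤ 1 := (div_le_one ht0).2 hlt
    have hs0 : 0 < Real.sqrt t := Real.sqrt_pos.2 ht0
    have g1 : (l / t) ^ γ' ≤ (l / t) ^ (min γ' (1 / 2)) :=
      Real.rpow_le_rpow_of_exponent_ge hq0 hq1 (min_le_left _ _)
    have g2 : (l / t) ^ ((1 : ℝ) / 2) ≤ (l / t) ^ (min γ' (1 / 2)) :=
      Real.rpow_le_rpow_of_exponent_ge hq0 hq1 (min_le_right _ _)
    have g3 : Real.sqrt t * (l / t) ^ ((1 : ℝ) / 2) = Real.sqrt l := by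
      rw [← Real.sqrt_eq_rpow, ← Real.sqrt_mul ht0.le]
      congr 1
      field_simp
    have g4 : 1 ≤ Real.sqrt l := Real.one_le_sqrt.2 hl
    have g5 : C' * Real.sqrt t * (l / t) ^ γ' ≤ C' * Real.sqrt t *
        (l / t) ^ (min γ' (1 / 2)) := mul_le_mul_of_nonneg_left g1 (by positivity)
    have g6 : 4 * 1 ≤ 4 * (Real.sqrt t * (l / t) ^ (min γ' (1 / 2))) := by
      have : Real.sqrt t * (l / t) ^ ((1 : ℝ) / 2) ≤ Real.sqrt t *
          (l / t) ^ (min γ' (1 / 2)) := mul_le_mul_of_nonneg_left g2 hs0.le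
      linarith
    have g7 : (C' + 4) * Real.sqrt t * (l / t) ^ (min γ' (1 / 2)) =
        C' * Real.sqrt t * (l / t) ^ (min γ' (1 / 2)) +
          4 * (Real.sqrt t * (l / t) ^ (min γ' (1 / 2))) := by ring
    rw [hr', hr, g7]
    linarith
  rw [← hr'] at hN1
  rw [← hr]
  -- the cells
  have hD1 : ∫ u, ∫ η, (Dc β n r' t u η).toReal ∂(law 2 ρ) ∂off ≤ κ := by
    refine le_trans (le_of_eq ?_) hN1
    refine integral_congr_ae (Eventually.of_forall fun u => ?_)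
    refine integral_congr_ae (Eventually.of_forall fun η => ?_)
    exact (Dc_eq21 β r' t u η).symm
  rw [outer31 (Dc_meas21 β r' t) ENNReal.one_lt_top (Eventually.of_forall fun η u =>
    Dc_le21 β r' t u η)] at hD1
  -- the positions
  obtain ⟨f, hf⟩ : ∃ f : (Fin n → Fin 2 → ℝ) → (Fin n → Fin 2 → ℝ) → ℝ,
      f = fun s s' => if r < ‖sp s t - sp s' t‖ then (1 : ℝ) else 0 := ⟨_, rfl⟩
  have hfm : Measurable (Function.uncurry f) := by
    rw [hf]
    refine Measurable.ite ?_ measurable_const measurable_const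
    exact measurableSet_lt measurable_const
      (((meas_sp31 t).comp measurable_fst).sub ((meas_sp31 t).comp measurable_snd)).norm
  have hf0 : ∀ s s', 0 ≤ f s s' := by
    intro s s'
    rw [hf]
    simp only
    split_ifs <;> norm_num
  have hf1 : ∀ s s', ENNReal.ofReal (f s s') ≤ 1 := by
    intro s s'
    rw [← ENNReal.ofReal_one]
    refine ENNReal.ofReal_le_ofReal ?_
    rw [hf]
    simp only
    split_ifs <;> norm_num
  have hgoal := conv2_31 (ρ := ρ) (mesG24 β) 0 hfm hf0 ENNReal.one_lt_top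
    (Eventually.of_forall fun η u => L2_le_one31 0 hf1 u η)
  have hcmp : ∫⁻ u, ∫⁻ η, L2 β 0 (fun s s' => ENNReal.ofReal (f s s')) u η ∂(law 2 ρ) ∂off ≤
      ∫⁻ u, ∫⁻ η, Dc β n r' t u η ∂(law 2 ρ) ∂off := by
    refine lintegral_mono_ae ?_
    filter_upwards [ae_off21] with u hu
    refine lintegral_mono fun η => ?_
    unfold L2 Dc
    refine lintegral_mono fun s => lintegral_mono fun s' => ?_
    refine ENNReal.ofReal_le_ofReal ?_
    rw [hf]
    unfold fc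
    simp only
    split_ifs with h1 h2
    · exact le_rfl
    · exfalso
      refine h2 ?_
      have g1 := near_cel21 hu s htn
      have g2 := near_cel21 hu s' htn
      have g3 : sp s t - sp s' t = (emb (cs (cels u s) t) - emb (cs (cels u s') t)) -
          ((emb (cs (cels u s) t) - sp s t) - (emb (cs (cels u s') t) - sp s' t)) := by abel
      have g4 : ‖(emb (cs (cels u s) t) - sp s t) - (emb (cs (cels u s') t) - sp s' t)‖ ≤ 4 := by
        refine (norm_sub_le _ _).trans ?_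
        linarith
      have g5 : ‖sp s t - sp s' t‖ ≤ ‖emb (cs (cels u s) t) - emb (cs (cels u s') t)‖ + 4 := by
        rw [g3]
        refine (norm_sub_le _ _).trans ?_
        linarith
      linarith
    · norm_num
    · exact le_rfl
  have hfin : ∫⁻ u, ∫⁻ η, Dc β n r' t u η ∂(law 2 ρ) ∂off ≠ ⊤ := by
    refine ne_of_lt (lt_of_le_of_lt ?_ ENNReal.one_lt_top)
    calc ∫⁻ u, ∫⁻ η, Dc β n r' t u η ∂(law 2 ρ) ∂off ≤ ∫⁻ _, ∫⁻ _, 1 ∂(law 2 ρ) ∂off :=
          lintegral_mono fun u => lintegral_mono fun η => Dc_le21 β r' t u η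
      _ = 1 := by simp
  have hfinal := (ENNReal.toReal_mono hfin hcmp).trans hD1
  rw [← hgoal, hf] at hfinal
  exact hfinal

end Pool.Agent.W_7d29a1_GW.Cel21
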