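import Pool.Agent.W_7d29a1_GW.DefsG31
import Pool.Agent.W_7d29a1_NS.Chn24

/-!
Theorem GW, leaf CHN: the chain of the blocks, for a finite a priori path space.
-/

namespace Pool.Agent.W_7d29a1_GW

open MeasureTheory ProbabilityTheory Filter Topology Pool.Agent.W_MP_7d29a1_pr
  Pool.Agent.W_7d29a1_h46 Pool.Agent.W_7d29a1_h46u Pool.Agent.W_7d29a1_D2.B35
  Pool.Agent.W_7d29a1_Q29 Pool.Agent.W_7d29a1_S90 Pool.Agent.W_7d29a1_NS

variable {d : ℕ} {ρ : Measure ℝ} {S : Type} [Fintype S]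

section Basics

omit [Fintype S] in
lemma gw_nonneg24 (β : ℝ) (ps : S → ℕ → Site d) (n : ℕ) {w : S → ℝ} (hw : ∀ s, 0 ≤ w s)
    (η : Env d) (s : S) : 0 ≤ gw β ps n w η s := mul_nonneg (hw s) (Real.exp_nonneg _)

lemma gZ_pos24 (β : ℝ) (ps : S → ℕ → Site d) (n : ℕ) {w : S → ℝ} (hw : ∀ s, 0 ≤ w s)
    (hw1 : 0 < ∑ s, w s) (η : Env d) : 0 < ∑ s, gw β ps n w η s := by
  obtain ⟨s, _, hs⟩ := Finset.exists_lt_of_sum_lt (s := Finset.univ) (f := fun _ : S => (0 : ℝ))
    (g := w) (by simpa using hw1)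
  refine lt_of_lt_of_le (mul_pos hs (Real.exp_pos _)) (Finset.single_le_sum
    (f := fun s => gw β ps n w η s) (fun s _ => gw_nonneg24 β ps n hw η s) (Finset.mem_univ s))

omit [Fintype S] in
lemma gw_meas24 (β : ℝ) (ps : S → ℕ → Site d) (n : ℕ) (w : S → ℝ) (s : S) :
    Measurable fun η : Env d => gw β ps n w η s := by
  unfold gw
  refine measurable_const.mul (Real.measurable_exp.comp (measurable_const.mul ?_))
  exact Finset.measurable_fun_sum _ fun i _ => measurable_pi_apply _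

lemma gp_meas24 (β : ℝ) (ps : S → ℕ → Site d) (n : ℕ) (w : S → ℝ) (f : S → ℝ) :
    Measurable fun η : Env d => gp β ps n w η f := by
  unfold gp
  exact (Finset.measurable_fun_sum _ fun s _ => (gw_meas24 β ps n w s).mul_const _).div
    (Finset.measurable_fun_sum _ fun s _ => gw_meas24 β ps n w s)

lemma gp_mono24 (β : ℝ) (ps : S → ℕ → Site d) (n : ℕ) {w : S → ℝ} (hw : ∀ s, 0 ≤ w s)
    (hw1 : 0 < ∑ s, w s) (η : Env d) {f g : S → ℝ} (hfg : ∀ s, f s ≤ g s) :
    gp β ps n w η f ≤ gp β ps n w η g := by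
  unfold gp
  refine div_le_div_of_nonneg_right (Finset.sum_le_sum fun s _ =>
    mul_le_mul_of_nonneg_left (hfg s) (gw_nonneg24 β ps n hw η s)) (gZ_pos24 β ps n hw hw1 η).le

lemma gp_const24 (β : ℝ) (ps : S → ℕ → Site d) (n : ℕ) {w : S → ℝ} (hw : ∀ s, 0 ≤ w s)
    (hw1 : 0 < ∑ s, w s) (η : Env d) (c : ℝ) : gp β ps n w η (fun _ => c) = c := by
  unfold gp
  rw [← Finset.sum_mul, mul_div_assoc, mul_comm, div_mul_cancel₀ _ (gZ_pos24 β ps n hw hw1 η).ne']

lemma gp_bd24 (β : ℝ) (ps : S → ℕ → Site d) (n : ℕ) {w : S → ℝ} (hw : ∀ s, 0 ≤ w s)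
    (hw1 : 0 < ∑ s, w s) (η : Env d) {f : S → ℝ} (hf : ∀ s, 0 ≤ f s ∧ f s ≤ 1) :
    0 ≤ gp β ps n w η f ∧ gp β ps n w η f ≤ 1 := by
  constructor
  · rw [← gp_const24 β ps n hw hw1 η 0]
    exact gp_mono24 β ps n hw hw1 η fun s => (hf s).1
  · rw [← gp_const24 β ps n hw hw1 η 1]
    exact gp_mono24 β ps n hw hw1 η fun s => (hf s).2

lemma gp_sum24 {ι : Type*} (I : Finset ι) (β : ℝ) (ps : S → ℕ → Site d) (n : ℕ) (w : S → ℝ)
    (η : Env d) (f : ι → S → ℝ) :
    gp β ps n w η (fun s => ∑ i ∈ I, f i s) = ∑ i ∈ I, gp β ps n w η (f i) := by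
  unfold gp
  rw [← Finset.sum_div, Finset.sum_comm]
  congr 1
  exact Finset.sum_congr rfl fun s _ => Finset.mul_sum _ _ _

lemma gQt_meas24 (β : ℝ) (ps : S → ℕ → Site d) (n : ℕ) (w : S → ℝ) (t : ℕ) (x : Site d) :
    Measurable (gQt β ps n w t x) := gp_meas24 β ps n w _

lemma gQt_bd24 (β : ℝ) (ps : S → ℕ → Site d) (n : ℕ) {w : S → ℝ} (hw : ∀ s, 0 ≤ w s)
    (hw1 : 0 < ∑ s, w s) (t : ℕ) (x : Site d) (η : Env d) :
    0 ≤ gQt β ps n w t x η ∧ gQt β ps n w t x η ≤ 1 :=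
  gp_bd24 β ps n hw hw1 η fun s => by split_ifs <;> norm_num

end Basics

open Classical in
/-- The probability that the label of `S_t` is `b`. -/
noncomputable def gl (β : ℝ) (ps : S → ℕ → Site d) (n : ℕ) (w : S → ℝ) (t : ℕ) {κ : Type*} (F : Site d → κ) (b : κ)
    (η : Env d) : ℝ :=
  gp β ps n w η (fun s => if F (ps s t) = b then (1 : ℝ) else 0)

lemma gql_meas24 (β : ℝ) (ps : S → ℕ → Site d) (n : ℕ) (w : S → ℝ) (t : ℕ) {κ : Type*} (F : Site d → κ) (b : κ) :
    Measurable (gl β ps n w t F b) := gp_meas24 β ps n w _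

lemma gql_bd24 (β : ℝ) (ps : S → ℕ → Site d) (n : ℕ) (w : S → ℝ) (hw : ∀ s, 0 ≤ w s)
    (hw1 : 0 < ∑ s, w s) (t : ℕ) {κ : Type*} (F : Site d → κ) (b : κ)
    (η : Env d) : 0 ≤ gl β ps n w t F b η ∧ gl β ps n w t F b η ≤ 1 :=
  gp_bd24 β ps n hw hw1 η fun s => by split_ifs <;> norm_num

lemma gql_abs24 (β : ℝ) (ps : S → ℕ → Site d) (n : ℕ) (w : S → ℝ) (hw : ∀ s, 0 ≤ w s)
    (hw1 : 0 < ∑ s, w s) (t : ℕ) {κ : Type*} (F : Site d → κ) (b : κ)
    (η : Env d) : |gl β ps n w t F b η| ≤ 1 := by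
  rw [abs_of_nonneg (gql_bd24 β ps n w hw hw1 t F b η).1]
  exact (gql_bd24 β ps n w hw hw1 t F b η).2

lemma gqb_eq24 (β : ℝ) (ps : S → ℕ → Site d) (n : ℕ) (w : S → ℝ) (t i : ℕ) (o b : Site d) :
    gqb β ps n w t i o b = gl β ps n w t (blk i o) b := by
  funext η
  unfold gqb gl
  congr 1
  funext s
  split_ifs <;> rfl

lemma gql_site24 (β : ℝ) (ps : S → ℕ → Site d) (n : ℕ) (w : S → ℝ) (t : ℕ) (x : Site d) :
    gQt β ps n w t x = gl β ps n w t id x := by
  funext η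
  unfold gl gQt
  congr 1
  funext s
  simp only [id]
  split_ifs <;> rfl

/-- The labels: the fine ones are contained in the coarse one. -/
lemma gsumq24 [IsProbabilityMeasure ρ] (β : ℝ) (ps : S → ℕ → Site d) (n : ℕ) (w : S → ℝ)
    (hw : ∀ s, 0 ≤ w s) (hw1 : 0 < ∑ s, w s) (t : ℕ)
    {κ κ' : Type*} [DecidableEq κ] (Q : Set (ℕ × Site d)) (F : Site d → κ) (K : Site d → κ')
    (hFK : ∀ x z, F x = F z → K x = K z) (V : Finset (Site d)) (B : κ') (hV : ∀ z ∈ V, K z = B)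
    (η : Env d) :
    ∑ b ∈ V.image F, cE ρ Q (gl β ps n w t F b) η ≤ cE ρ Q (gl β ps n w t K B) η := by
  classical
  have hi : ∀ b ∈ V.image F, Integrable (fun ξ => gl β ps n w t F b (spl Q η ξ)) (law d ρ) :=
    fun b _ => integrable_spl (gql_meas24 β ps n w t F b) (gql_abs24 β ps n w hw hw1 t F b) Q η
  rw [← cE_sum _ η hi]
  refine cE_mono Q (fun ξ => ?_) η (integrable_finsetSum _ hi)
    (integrable_spl (gql_meas24 β ps n w t K B) (gql_abs24 β ps n w hw hw1 t K B) Q η)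
  unfold gl
  rw [← gp_sum24]
  refine gp_mono24 β ps n hw hw1 ξ fun s => ?_
  by_cases hs : F (ps s t) ∈ V.image F
  · obtain ⟨z, hz, hzF⟩ := Finset.mem_image.1 hs
    have h1 : K (ps s t) = B := (hFK _ _ hzF.symm).trans (hV z hz)
    refine (Finset.sum_eq_single_of_mem (F (ps s t)) hs ?_).le.trans ?_
    · intro b _ hb
      exact if_neg fun h2 => hb h2.symm
    · rw [if_pos h1, if_pos rfl]
  · refine (Finset.sum_eq_zero ?_).le.trans ?_
    · intro b hb
      exact if_neg fun h2 => hs (by rw [h2]; exact hb)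
    · split_ifs <;> norm_num

section Chain

variable (ρ) (β : ℝ) (ps : S → ℕ → Site d) (n : ℕ) (w : S → ℝ) (t : ℕ) (a : ℕ → ℝ) (lev : ℕ → ℕ) (o : Site d)

lemma gnb_eq24 (τ i : ℕ) (b : Site d) :
    gnb ρ β ps n w t τ i o b = cE ρ (Pa d τ) (gl β ps n w t (blk i o) b) := by
  funext η
  unfold gnb
  rw [gqb_eq24]

lemma gnb_dep24 (τ i : ℕ) (b : Site d) : DependsOn (gnb ρ β ps n w t τ i o b) (Pa d τ) := by
  rw [gnb_eq24]
  exact cE_dep _ _

variable [IsProbabilityMeasure ρ]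

lemma gnb_meas24 (τ i : ℕ) (b : Site d) : Measurable (gnb ρ β ps n w t τ i o b) := by
  rw [gnb_eq24]
  exact measurable_cE (gql_meas24 _ _ _ _ _ _ _) _

omit [IsProbabilityMeasure ρ] in
lemma gnb_nonneg24 (hw : ∀ s, 0 ≤ w s) (hw1 : 0 < ∑ s, w s) (τ i : ℕ) (b : Site d) (η : Env d) :
    0 ≤ gnb ρ β ps n w t τ i o b η := by
  rw [gnb_eq24]
  exact cE_nonneg (fun ξ => (gql_bd24 β ps n w hw hw1 t _ _ ξ).1) _ _

lemma gnb_le24 (hw : ∀ s, 0 ≤ w s) (hw1 : 0 < ∑ s, w s) (τ i : ℕ) (b : Site d) (η : Env d) :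
    gnb ρ β ps n w t τ i o b η ≤ 1 := by
  rw [gnb_eq24]
  exact cE_le (gql_meas24 _ _ _ _ _ _ _) (fun ξ => (gql_bd24 β ps n w hw hw1 t _ _ ξ).1)
    (fun ξ => (gql_bd24 β ps n w hw hw1 t _ _ ξ).2) _ _

lemma gHi_meas24 (a : ℝ) (τ i : ℕ) (b : Site d) :
    MeasurableSet {η | gHi ρ β ps n w t a τ i o b η} := by
  unfold gHi
  exact measurableSet_le (measurable_cE (gnb_meas24 ρ β ps n w t o τ i b).sqrt _)
    (measurable_const.mul (gnb_meas24 ρ β ps n w t o (τ - 1) i b).sqrt)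

omit [IsProbabilityMeasure ρ] in
lemma gHi_dep24 (a : ℝ) (τ i : ℕ) (b : Site d) {η η' : Env d}
    (hη : ∀ p ∈ Pa d (τ - 1), η p = η' p) :
    gHi ρ β ps n w t a τ i o b η ↔ gHi ρ β ps n w t a τ i o b η' := by
  unfold gHi
  rw [cE_dep (Pa d (τ - 1)) (fun ξ => Real.sqrt (gnb ρ β ps n w t τ i o b ξ)) hη,
    gnb_dep24 ρ β ps n w t o (τ - 1) i b hη]

omit [IsProbabilityMeasure ρ] in
lemma gNh_succ24 {τ₀ k : ℕ} (hk : τ₀ ≤ k) (x : Site d) (η : Env d) :
    gNh ρ β ps n w t a lev o τ₀ (k + 1) x η = gNh ρ β ps n w t a lev o τ₀ k x η +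
      (open Classical in
        if gHi ρ β ps n w t (a (k + 1)) (k + 1) (lev (k + 1)) o (blk (lev (k + 1)) o x) η
          then a (k + 1) else 0) := by
  unfold gNh
  rw [Finset.sum_Ioc_succ_top hk]

lemma gNh_meas24 (τ₀ τ : ℕ) (x : Site d) : Measurable (gNh ρ β ps n w t a lev o τ₀ τ x) := by
  unfold gNh
  refine Finset.measurable_fun_sum _ fun σ _ => ?_
  exact Measurable.ite (gHi_meas24 ρ β ps n w t o (a σ) σ _ _) measurable_const measurable_const

omit [IsProbabilityMeasure ρ] in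
lemma gNh_dep24 {τ₀ τ k : ℕ} (hk : τ ≤ k + 1) (x : Site d) :
    DependsOn (gNh ρ β ps n w t a lev o τ₀ τ x) (Pa d k) := by
  intro η η' hη
  unfold gNh
  refine Finset.sum_congr rfl fun σ hσ => ?_
  have h1 : σ ≤ τ := (Finset.mem_Ioc.1 hσ).2
  have h2 := gHi_dep24 ρ β ps n w t o (a σ) σ (lev σ) (blk (lev σ) o x) (η := η) (η' := η')
    fun p hp => hη p (Pa_mono24 (by omega) hp)
  by_cases h3 : gHi ρ β ps n w t (a σ) σ (lev σ) o (blk (lev σ) o x) η
  · rw [if_pos h3, if_pos (h2.1 h3)]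
  · rw [if_neg h3, if_neg fun h4 => h3 (h2.2 h4)]

omit [IsProbabilityMeasure ρ] in
lemma gNh_abs24 (ha : ∀ σ, 0 ≤ a σ) (τ₀ τ : ℕ) (x : Site d) (η : Env d) :
    gNh ρ β ps n w t a lev o τ₀ τ x η ≤ ∑ σ ∈ Finset.Ioc τ₀ τ, a σ := by
  unfold gNh
  refine Finset.sum_le_sum fun σ _ => ?_
  split_ifs
  · exact le_rfl
  · exact ha σ

omit [IsProbabilityMeasure ρ] in
/-- `gNh` is constant on the blocks. -/
lemma gNh_blk24 (hlev : Antitone lev) {τ₀ τ i : ℕ} (hi : i ≤ lev τ) {x z : Site d}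
    (hxz : blk i o x = blk i o z) (η : Env d) :
    gNh ρ β ps n w t a lev o τ₀ τ x η = gNh ρ β ps n w t a lev o τ₀ τ z η := by
  unfold gNh
  refine Finset.sum_congr rfl fun σ hσ => ?_
  have h1 : i ≤ lev σ := hi.trans (hlev (Finset.mem_Ioc.1 hσ).2)
  rw [blk_blk24 h1 o hxz]

lemma gint24 (hw : ∀ s, 0 ≤ w s) (hw1 : 0 < ∑ s, w s) (ha : ∀ σ, 0 ≤ a σ) (τ₀ u v i : ℕ) (b x : Site d) :
    Integrable (fun η => Real.sqrt (gnb ρ β ps n w t u i o b η) *
      Real.exp (gNh ρ β ps n w t a lev o τ₀ v x η)) (law d ρ) := by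
  refine Integrable.mono' (integrable_const (Real.exp (∑ σ ∈ Finset.Ioc τ₀ v, a σ)))
    (((gnb_meas24 ρ β ps n w t o u i b).sqrt).mul
      (gNh_meas24 ρ β ps n w t a lev o τ₀ v x).exp).aestronglyMeasurable
    (Eventually.of_forall fun η => ?_)
  rw [Real.norm_eq_abs, abs_of_nonneg (mul_nonneg (Real.sqrt_nonneg _) (Real.exp_nonneg _))]
  calc _ ≤ 1 * Real.exp (∑ σ ∈ Finset.Ioc τ₀ v, a σ) := by
          refine mul_le_mul ?_ (Real.exp_le_exp.2 (gNh_abs24 ρ β ps n w t a lev o ha τ₀ v x η))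
            (Real.exp_nonneg _) zero_le_one
          rw [← Real.sqrt_one]
          exact Real.sqrt_le_sqrt (gnb_le24 ρ β ps n w t o hw hw1 u i b η)
    _ = _ := one_mul _

/-- One row. -/
lemma grow24 (hw : ∀ s, 0 ≤ w s) (hw1 : 0 < ∑ s, w s) (ha : ∀ σ, 0 ≤ a σ) {τ₀ k : ℕ} (hk : τ₀ ≤ k) (x : Site d) :
    ∫ η, Real.sqrt (gnb ρ β ps n w t (k + 1) (lev (k + 1)) o (blk (lev (k + 1)) o x) η) *
        Real.exp (gNh ρ β ps n w t a lev o τ₀ (k + 1) x η) ∂(law d ρ) ≤
      ∫ η, Real.sqrt (gnb ρ β ps n w t k (lev (k + 1)) o (blk (lev (k + 1)) o x) η) *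
        Real.exp (gNh ρ β ps n w t a lev o τ₀ k x η) ∂(law d ρ) := by
  classical
  set i := lev (k + 1) with hi
  set b := blk i o x with hb
  have hint : ∀ (u v : ℕ), Integrable (fun η => Real.sqrt (gnb ρ β ps n w t u i o b η) *
      Real.exp (gNh ρ β ps n w t a lev o τ₀ v x η)) (law d ρ) := fun u v =>
    gint24 ρ β ps n w t a lev o hw hw1 ha τ₀ u v i b x
  have hdep : DependsOn (fun η => Real.exp (gNh ρ β ps n w t a lev o τ₀ (k + 1) x η)) (Pa d k) := by
    intro η η' hη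
    show Real.exp _ = Real.exp _
    rw [gNh_dep24 ρ β ps n w t a lev o (le_refl (k + 1)) x hη]
  rw [int_mul_cE (Pa d k) (hint (k + 1) (k + 1)) hdep]
  have hs1 : ∀ η, cE ρ (Pa d k) (fun η => Real.sqrt (gnb ρ β ps n w t (k + 1) i o b η)) η ≤ 1 :=
    fun η => cE_le (gnb_meas24 ρ β ps n w t o (k + 1) i b).sqrt (fun _ => Real.sqrt_nonneg _)
      (fun ξ => by
        rw [← Real.sqrt_one]
        exact Real.sqrt_le_sqrt (gnb_le24 ρ β ps n w t o hw hw1 (k + 1) i b ξ)) _ η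
  have hs0 : ∀ η, 0 ≤ cE ρ (Pa d k) (fun η => Real.sqrt (gnb ρ β ps n w t (k + 1) i o b η)) η :=
    fun η => cE_nonneg (fun _ => Real.sqrt_nonneg _) _ η
  refine integral_mono ?_ (hint k k) fun η => ?_
  · refine Integrable.mono' (integrable_const (Real.exp (∑ σ ∈ Finset.Ioc τ₀ (k + 1), a σ)))
      ((measurable_cE (gnb_meas24 ρ β ps n w t o (k + 1) i b).sqrt _).mul
        (gNh_meas24 ρ β ps n w t a lev o τ₀ (k + 1) x).exp).aestronglyMeasurable
      (Eventually.of_forall fun η => ?_)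
    rw [Real.norm_eq_abs, abs_of_nonneg (mul_nonneg (hs0 η) (Real.exp_nonneg _))]
    calc _ ≤ 1 * Real.exp (∑ σ ∈ Finset.Ioc τ₀ (k + 1), a σ) :=
            mul_le_mul (hs1 η) (Real.exp_le_exp.2 (gNh_abs24 ρ β ps n w t a lev o ha τ₀ (k + 1) x η))
              (Real.exp_nonneg _) zero_le_one
      _ = _ := one_mul _
  · show cE ρ (Pa d k) (fun η => Real.sqrt (gnb ρ β ps n w t (k + 1) i o b η)) η *
      Real.exp (gNh ρ β ps n w t a lev o τ₀ (k + 1) x η) ≤ _
    rw [gNh_succ24 ρ β ps n w t a lev o hk x η]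
    by_cases hH : gHi ρ β ps n w t (a (k + 1)) (k + 1) i o b η
    · rw [if_pos hH, Real.exp_add]
      unfold gHi at hH
      rw [Nat.add_sub_cancel] at hH
      calc _ ≤ (Real.exp (-a (k + 1)) * Real.sqrt (gnb ρ β ps n w t k i o b η)) *
            (Real.exp (gNh ρ β ps n w t a lev o τ₀ k x η) * Real.exp (a (k + 1))) :=
            mul_le_mul_of_nonneg_right hH (by positivity)
        _ = (Real.exp (-a (k + 1)) * Real.exp (a (k + 1))) *
            (Real.sqrt (gnb ρ β ps n w t k i o b η) *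
              Real.exp (gNh ρ β ps n w t a lev o τ₀ k x η)) := by ring
        _ = _ := by rw [← Real.exp_add, neg_add_cancel, Real.exp_zero, one_mul]
    · rw [if_neg hH, add_zero]
      refine mul_le_mul_of_nonneg_right ?_ (Real.exp_nonneg _)
      refine (cE_sqrt24 (gnb_meas24 ρ β ps n w t o (k + 1) i b)
        (gnb_nonneg24 ρ β ps n w t o hw hw1 (k + 1) i b) (gnb_le24 ρ β ps n w t o hw hw1 (k + 1) i b) _ η).trans
        (le_of_eq ?_)
      congr 1
      rw [gnb_eq24, gnb_eq24]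
      exact cE_cE24 (gql_meas24 _ _ _ _ _ _ _) (gql_abs24 β ps n w hw hw1 t _ _)
        (Pa_mono24 (Nat.le_succ k)) η

end Chain

/-- **Leaf CHN.** -/
theorem chnG24 [IsProbabilityMeasure ρ] (β : ℝ) : ChnG d ρ β := by
  intro S _ ps n w hw hw1 t τ₀ hτ htn a lev o U ha hlev _
  classical
  set c : ℕ → Site d → ℝ := fun i x =>
    ((U.filter (fun z => blk i o z = blk i o x)).card : ℝ) with hc
  set g : ℕ → ℕ → Site d → Env d → ℝ := fun k i x η =>
    (Real.sqrt (c i x))⁻¹ * (Real.sqrt (gnb ρ β ps n w t k i o (blk i o x) η) *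
      Real.exp (gNh ρ β ps n w t a lev o τ₀ k x η)) with hg
  have hgi : ∀ k i x, Integrable (g k i x) (law d ρ) := fun k i x =>
    (gint24 ρ β ps n w t a lev o hw hw1 ha τ₀ k k i (blk i o x) x).const_mul _
  have hge : ∀ k i x η, g k i x η =
      Real.sqrt (gnb ρ β ps n w t k i o (blk i o x) η / c i x) *
        Real.exp (gNh ρ β ps n w t a lev o τ₀ k x η) := by
    intro k i x η
    rw [Real.sqrt_div (gnb_nonneg24 ρ β ps n w t o hw hw1 k i _ η)]
    simp only [hg]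
    ring
  set Ψ : ℕ → ℕ → ℝ := fun k i => ∫ η, ∑ x ∈ U, g k i x η ∂(law d ρ) with hΨ
  -- one row
  have hrow : ∀ k, τ₀ ≤ k → Ψ (k + 1) (lev (k + 1)) ≤ Ψ k (lev (k + 1)) := by
    intro k hk
    simp only [hΨ]
    rw [integral_finsetSum _ fun x _ => hgi _ _ x, integral_finsetSum _ fun x _ => hgi _ _ x]
    refine Finset.sum_le_sum fun x _ => ?_
    simp only [hg]
    rw [integral_const_mul, integral_const_mul]
    exact mul_le_mul_of_nonneg_left (grow24 ρ β ps n w t a lev o hw hw1 ha hk x)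
      (inv_nonneg.2 (Real.sqrt_nonneg _))
  -- from the level `i` to the level `j`
  have hco : ∀ k i j, i ≤ j → j ≤ lev k → Ψ k i ≤ Ψ k j := by
    intro k i j hij hj
    refine integral_mono (integrable_finsetSum _ fun x _ => hgi _ _ x)
      (integrable_finsetSum _ fun x _ => hgi _ _ x) fun η => ?_
    simp only [hge]
    refine coarse24 U (blk i o) (blk j o) (fun x z hxz => blk_blk24 hij o hxz)
      (fun b => gnb ρ β ps n w t k i o b η) (fun b => gnb_nonneg24 ρ β ps n w t o hw hw1 k i b η)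
      (fun b => gnb ρ β ps n w t k j o b η) ?_
      (fun x => Real.exp (gNh ρ β ps n w t a lev o τ₀ k x η)) (fun x => Real.exp_nonneg _)
      (fun x z hxz => by
        show Real.exp _ = Real.exp _
        rw [gNh_blk24 ρ β ps n w t a lev o hlev hj hxz η])
    intro x _
    have h1 := gsumq24 (ρ := ρ) β ps n w hw hw1 t (Pa d k) (blk i o) (blk j o)
      (fun x z hxz => blk_blk24 hij o hxz) (U.filter (fun z => blk j o z = blk j o x))
      (blk j o x) (fun z hz => (Finset.mem_filter.1 hz).2) η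
    simp only [gnb_eq24]
    exact h1
  -- the start
  have hst : ∀ (κ : Type) (_ : DecidableEq κ) (F : Site d → κ) (Q : Set (ℕ × Site d))
      (η : Env d),
      ∑ x ∈ U, Real.sqrt (cE ρ Q (gl β ps n w t F (F x)) η /
        ((U.filter (fun z => F z = F x)).card : ℝ)) ≤ Real.sqrt U.card := by
    intro κ _ F Q η
    have h1 := coarse24 U F (fun _ => ()) (fun _ _ _ => rfl)
      (fun b => cE ρ Q (gl β ps n w t F b) η)
      (fun b => cE_nonneg (fun ξ => (gql_bd24 β ps n w hw hw1 t F b ξ).1) _ _)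
      (fun _ => (1 : ℝ)) ?_ (fun _ => 1) (fun _ => zero_le_one) (fun _ _ _ => rfl)
    · simp only [mul_one, Finset.filter_true_of_mem, implies_true, Finset.sum_const,
        nsmul_eq_mul] at h1
      refine h1.trans (le_of_eq ?_)
      rw [one_div, Real.sqrt_inv]
      rcases (Nat.cast_nonneg (α := ℝ) U.card).eq_or_lt with h2 | h2
      · rw [← h2]; simp
      · have h3 : 0 < Real.sqrt (U.card : ℝ) := Real.sqrt_pos.2 h2
        rw [← div_eq_mul_inv, div_eq_iff h3.ne', Real.mul_self_sqrt h2.le]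
    · intro x _
      refine (gsumq24 (ρ := ρ) β ps n w hw hw1 t Q F (fun _ => ()) (fun _ _ _ => rfl) _ ()
        (fun _ _ => rfl) η).trans ?_
      exact cE_le (gql_meas24 _ _ _ _ _ _ _) (fun ξ => (gql_bd24 β ps n w hw hw1 t _ _ ξ).1)
        (fun ξ => (gql_bd24 β ps n w hw hw1 t _ _ ξ).2) _ _
  have hN0 : ∀ x η, gNh ρ β ps n w t a lev o τ₀ τ₀ x η = 0 := by
    intro x η
    unfold gNh
    simp
  have h0 : Ψ τ₀ (lev (τ₀ + 1)) ≤ Real.sqrt U.card := by
    have h1 : ∀ η, ∑ x ∈ U, g τ₀ (lev (τ₀ + 1)) x η ≤ Real.sqrt U.card := by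
      intro η
      refine (le_of_eq ?_).trans (hst (Site d) inferInstance (blk (lev (τ₀ + 1)) o) (Pa d τ₀) η)
      refine Finset.sum_congr rfl fun x _ => ?_
      rw [hge, hN0, Real.exp_zero, mul_one, gnb_eq24]
    have h2 := integral_mono (integrable_finsetSum U fun x _ => hgi τ₀ (lev (τ₀ + 1)) x)
      (integrable_const (Real.sqrt U.card)) h1
    simpa using h2
  have hind : ∀ m, Ψ (τ₀ + m) (lev (τ₀ + m + 1)) ≤ Real.sqrt U.card := by
    intro m
    induction m with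
    | zero => exact h0
    | succ m ih =>
      refine (hco _ _ _ (hlev (Nat.le_succ _)) le_rfl).trans ((hrow (τ₀ + m) (by omega)).trans ih)
  -- the end
  have hfin : ∀ x, Integrable (fun η => Real.sqrt (cE ρ (Pa d (t - 1)) (gQt β ps n w t x) η) *
      Real.exp (gNh ρ β ps n w t a lev o τ₀ (t - 1) x η)) (law d ρ) := by
    intro x
    have hm : Measurable (cE ρ (Pa d (t - 1)) (gQt β ps n w t x)) :=
      measurable_cE (gQt_meas24 β ps n w t x) _
    refine Integrable.mono' (integrable_const (Real.exp (∑ σ ∈ Finset.Ioc τ₀ (t - 1), a σ)))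
      (hm.sqrt.mul (gNh_meas24 ρ β ps n w t a lev o τ₀ (t - 1) x).exp).aestronglyMeasurable
      (Eventually.of_forall fun η => ?_)
    rw [Real.norm_eq_abs, abs_of_nonneg (mul_nonneg (Real.sqrt_nonneg _) (Real.exp_nonneg _))]
    calc _ ≤ 1 * Real.exp (∑ σ ∈ Finset.Ioc τ₀ (t - 1), a σ) := by
            refine mul_le_mul ?_ (Real.exp_le_exp.2
              (gNh_abs24 ρ β ps n w t a lev o ha τ₀ (t - 1) x η)) (Real.exp_nonneg _) zero_le_one
            rw [← Real.sqrt_one]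
            exact Real.sqrt_le_sqrt (cE_le (gQt_meas24 β ps n w t x)
              (fun ξ => (gQt_bd24 β ps n hw hw1 t x ξ).1)
              (fun ξ => (gQt_bd24 β ps n hw hw1 t x ξ).2) _ η)
      _ = _ := one_mul _
  have hone : ∀ x ∈ U, ((U.filter (fun z => id z = id x)).card : ℝ) = 1 := by
    intro x hx
    simp only [id]
    rw [Finset.filter_eq' U x, if_pos hx, Finset.card_singleton, Nat.cast_one]
  rcases Nat.lt_or_ge τ₀ (t - 1) with h1 | h1
  · obtain ⟨m, hm⟩ : ∃ m, t - 1 = τ₀ + m + 1 := ⟨t - 1 - τ₀ - 1, by omega⟩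
    have h2 : ∫ η, ∑ x ∈ U, Real.sqrt (cE ρ (Pa d (t - 1)) (gQt β ps n w t x) η) *
        Real.exp (gNh ρ β ps n w t a lev o τ₀ (t - 1) x η) ∂(law d ρ) ≤ Ψ (t - 1) (lev (t - 1)) := by
      refine integral_mono (integrable_finsetSum _ fun x _ => hfin x)
        (integrable_finsetSum _ fun x _ => hgi _ _ x) fun η => ?_
      simp only [hge]
      have h3 := coarse24 U (id : Site d → Site d) (blk (lev (t - 1)) o)
        (fun x z hxz => by rw [show x = z from hxz])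
        (fun b => cE ρ (Pa d (t - 1)) (gl β ps n w t id b) η)
        (fun b => cE_nonneg (fun ξ => (gql_bd24 β ps n w hw hw1 t _ b ξ).1) _ _)
        (fun b => gnb ρ β ps n w t (t - 1) (lev (t - 1)) o b η)
        (fun x _ => by
          simp only [gnb_eq24]
          exact gsumq24 (ρ := ρ) β ps n w hw hw1 t (Pa d (t - 1)) id (blk (lev (t - 1)) o)
            (fun x z hxz => by rw [show x = z from hxz]) _ _
            (fun z hz => (Finset.mem_filter.1 hz).2) η)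
        (fun x => Real.exp (gNh ρ β ps n w t a lev o τ₀ (t - 1) x η)) (fun x => Real.exp_nonneg _)
        (fun x z hxz => by
          show Real.exp _ = Real.exp _
          rw [gNh_blk24 ρ β ps n w t a lev o hlev le_rfl hxz η])
      refine (le_of_eq ?_).trans h3
      refine Finset.sum_congr rfl fun x hx => ?_
      rw [hone x hx, div_one, gql_site24 β ps n w t x]
      rfl
    refine h2.trans ?_
    rw [hm]
    exact (hrow (τ₀ + m) (by omega)).trans (hind m)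
  · have h2 : t - 1 = τ₀ := by omega
    have h3 : ∀ η, ∑ x ∈ U, Real.sqrt (cE ρ (Pa d (t - 1)) (gQt β ps n w t x) η) *
        Real.exp (gNh ρ β ps n w t a lev o τ₀ (t - 1) x η) ≤ Real.sqrt U.card := by
      intro η
      refine (le_of_eq ?_).trans (hst (Site d) inferInstance id (Pa d (t - 1)) η)
      refine Finset.sum_congr rfl fun x hx => ?_
      rw [hone x hx, div_one, gql_site24 β ps n w t x, h2, hN0, Real.exp_zero, mul_one]
      rfl
    have h4 := integral_mono (integrable_finsetSum U fun x _ => hfin x)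
      (integrable_const (Real.sqrt U.card)) h3
    simpa using h4

end Pool.Agent.W_7d29a1_GW
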