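import Mathlib

/-!
The Cameron Martin formula for a finite family of independent standard Gaussian variables.
-/

namespace Pool.Agent.W_7d29a1_GW.Cm21

open MeasureTheory ProbabilityTheory

/-- The standard Gaussian law on the line with the density of the shift by `v`. -/
lemma withDensity21 (v : ℝ) :
    (gaussianReal 0 1).withDensity (fun x => ENNReal.ofReal (Real.exp (v * x - v ^ 2 / 2))) =
      gaussianReal v 1 := by
  rw [gaussianReal_of_var_ne_zero 0 one_ne_zero, gaussianReal_of_var_ne_zero v one_ne_zero,
    ← withDensity_mul _ (measurable_gaussianPDF 0 1) (by fun_prop)]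
  congr 1
  ext x
  simp only [Pi.mul_apply, gaussianPDF]
  rw [← ENNReal.ofReal_mul (gaussianPDFReal_nonneg _ _ _)]
  congr 1
  simp only [gaussianPDFReal, NNReal.coe_one]
  rw [mul_assoc, ← Real.exp_add]
  congr 2
  ring

lemma integrable21 (v : ℝ) :
    Integrable (fun x => Real.exp (v * x - v ^ 2 / 2)) (gaussianReal 0 1) := by
  have h := integrable_exp_mul_gaussianReal (μ := 0) (v := 1) v
  have h2 := h.mul_const (Real.exp (-(v ^ 2 / 2)))
  refine h2.congr (Filter.Eventually.of_forall fun x => ?_)
  show Real.exp (v * x) * Real.exp (-(v ^ 2 / 2)) = _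
  rw [← Real.exp_add]
  congr 1

variable {ι : Type*} [Fintype ι]

/-- The density of the shift by `v`. -/
noncomputable def dens21 (v : ι → ℝ) (x : ι → ℝ) : ℝ := Real.exp (∑ i, (v i * x i - v i ^ 2 / 2))

lemma dens21_pos (v x : ι → ℝ) : 0 < dens21 v x := Real.exp_pos _

lemma dens21_meas (v : ι → ℝ) : Measurable (dens21 v) := by
  unfold dens21
  fun_prop

lemma dens21_eq (v x : ι → ℝ) : dens21 v x = ∏ i, Real.exp (v i * x i - v i ^ 2 / 2) := by
  unfold dens21
  rw [Real.exp_sum]

/-- The law of a standard Gaussian vector. -/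
noncomputable def gpi21 (ι : Type*) [Fintype ι] : Measure (ι → ℝ) :=
  Measure.pi fun _ => gaussianReal 0 1

instance : IsProbabilityMeasure (gpi21 ι) := by
  unfold gpi21
  infer_instance

lemma dens21_int (v : ι → ℝ) : Integrable (dens21 v) (gpi21 ι) := by
  have h := Integrable.fintype_prod (μ := fun _ : ι => gaussianReal 0 1)
    (f := fun i x => Real.exp (v i * x - v i ^ 2 / 2)) (fun i => integrable21 (v i))
  refine h.congr (Filter.Eventually.of_forall fun x => ?_)
  exact (dens21_eq v x).symm

/-- The Cameron Martin formula, as an equality of measures. -/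
theorem map21 (v : ι → ℝ) :
    (gpi21 ι).map (fun x i => x i + v i) =
      (gpi21 ι).withDensity (fun x => ENNReal.ofReal (dens21 v x)) := by
  have h1 : (gpi21 ι).map (fun x i => x i + v i) = Measure.pi fun i => gaussianReal (v i) 1 := by
    unfold gpi21
    rw [Measure.pi_map_pi (f := fun i x => x + v i) (fun i => by fun_prop)]
    congr 1
    ext1 i
    rw [gaussianReal_map_add_const, zero_add]
  rw [h1]
  refine Measure.pi_eq fun s hs => ?_
  rw [withDensity_apply _ (MeasurableSet.univ_pi hs)]
  rw [← ofReal_integral_eq_lintegral_ofReal (dens21_int v).integrableOn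
    (Filter.Eventually.of_forall fun x => (dens21_pos v x).le)]
  rw [← integral_indicator (MeasurableSet.univ_pi hs)]
  have h2 : ∀ x : ι → ℝ, (Set.univ.pi s).indicator (dens21 v) x =
      ∏ i, (s i).indicator (fun x => Real.exp (v i * x - v i ^ 2 / 2)) (x i) := by
    intro x
    by_cases hx : x ∈ Set.univ.pi s
    · rw [Set.indicator_of_mem hx, dens21_eq]
      refine Finset.prod_congr rfl fun i _ => ?_
      rw [Set.indicator_of_mem (hx i (Set.mem_univ i))]
    · rw [Set.indicator_of_notMem hx]
      have : ∃ i, x i ∉ s i := by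
        by_contra hcon
        push Not at hcon
        exact hx fun i _ => hcon i
      obtain ⟨i, hi⟩ := this
      refine (Finset.prod_eq_zero (Finset.mem_univ i) ?_).symm
      rw [Set.indicator_of_notMem hi]
  have h3 : ∫ x, (Set.univ.pi s).indicator (dens21 v) x ∂(gpi21 ι) =
      ∏ i, ∫ x, (s i).indicator (fun x => Real.exp (v i * x - v i ^ 2 / 2)) x
        ∂(gaussianReal 0 1) := by
    unfold gpi21
    rw [← integral_fintype_prod_eq_prod
      (f := fun i => (s i).indicator (fun x => Real.exp (v i * x - v i ^ 2 / 2)))]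
    exact integral_congr_ae (Filter.Eventually.of_forall h2)
  rw [h3, ENNReal.ofReal_prod_of_nonneg]
  · refine Finset.prod_congr rfl fun i _ => ?_
    rw [integral_indicator (hs i), ofReal_integral_eq_lintegral_ofReal
      (integrable21 (v i)).integrableOn
      (Filter.Eventually.of_forall fun x => (Real.exp_pos _).le),
      ← withDensity_apply _ (hs i), withDensity21]
  · intro i _
    exact integral_nonneg fun x => Set.indicator_nonneg (fun x _ => (Real.exp_pos _).le) x

/-- The Cameron Martin formula. -/
theorem cm21 (v : ι → ℝ) (f : (ι → ℝ) → ℝ) (hf : Measurable f) :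
    ∫ x, f (fun i => x i + v i) ∂(gpi21 ι) = ∫ x, dens21 v x * f x ∂(gpi21 ι) := by
  have h1 : ∫ x, f (fun i => x i + v i) ∂(gpi21 ι) =
      ∫ x, f x ∂((gpi21 ι).map (fun x i => x i + v i)) := by
    have hm : Measurable (fun (x : ι → ℝ) (i : ι) => x i + v i) := by fun_prop
    rw [integral_map hm.aemeasurable hf.aestronglyMeasurable]
  rw [h1, map21, integral_withDensity_eq_integral_toReal_smul]
  · refine integral_congr_ae (Filter.Eventually.of_forall fun x => ?_)
    show (ENNReal.ofReal (dens21 v x)).toReal • f x = dens21 v x * f x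
    rw [ENNReal.toReal_ofReal (dens21_pos v x).le, smul_eq_mul]
  · exact (dens21_meas v).ennreal_ofReal
  · exact Filter.Eventually.of_forall fun x => ENNReal.ofReal_lt_top

/-- The Cameron Martin formula for the Gaussian walk in `κ` dimensions with `n` steps and a shift
of one coordinate: `x i j` is the `j`-th coordinate of the `i`-th step. -/
theorem walk21 {n : ℕ} {κ : Type*} [Fintype κ] [DecidableEq κ] (j : κ) (v : ℝ)
    (f : (Fin n × κ → ℝ) → ℝ) (hf : Measurable f) :
    ∫ x, f (fun i => x i + if i.2 = j then v else 0) ∂(gpi21 (Fin n × κ)) =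
      ∫ x, Real.exp (v * (∑ i, x (i, j)) - n * (v ^ 2 / 2)) * f x ∂(gpi21 (Fin n × κ)) := by
  rw [cm21 (fun i : Fin n × κ => if i.2 = j then v else 0) f hf]
  refine integral_congr_ae (Filter.Eventually.of_forall fun x => ?_)
  show dens21 _ x * f x = _
  congr 1
  unfold dens21
  congr 1
  rw [Fintype.sum_prod_type]
  have h1 : ∀ i : Fin n, ∑ k : κ, ((if k = j then v else 0) * x (i, k) -
      (if k = j then v else 0) ^ 2 / 2) = v * x (i, j) - v ^ 2 / 2 := by
    intro i
    rw [Finset.sum_eq_single j]
    · simp
    · intro k _ hk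
      simp [hk]
    · intro h
      exact absurd (Finset.mem_univ j) h
  simp only [h1]
  rw [Finset.sum_sub_distrib, ← Finset.mul_sum]
  simp

end Pool.Agent.W_7d29a1_GW.Cm21
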