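import Pool.Agent.W_7d29a1_GW.Row63

/-!
Theorem NS for families of finite path spaces, from the leaves TYP, VAR, AVG.
-/

namespace Pool.Agent.W_7d29a1_GW

open MeasureTheory ProbabilityTheory Filter Topology Pool.Agent.W_MP_7d29a1_pr
  Pool.Agent.W_7d29a1_h46 Pool.Agent.W_7d29a1_h46u Pool.Agent.W_7d29a1_D2.B35
  Pool.Agent.W_7d29a1_Q29 Pool.Agent.W_7d29a1_Q29.D85 Pool.Agent.W_7d29a1_S90
  Pool.Agent.W_7d29a1_NS

variable {ρ : Measure ℝ} [IsProbabilityMeasure ρ]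

open Classical in
/-- The general form with a free distance. -/
theorem coreG63 {β : ℝ} (hT : TypF ρ β) (hV : VarG 2 ρ β) (hA : AvgG ρ β) (R κ : ℝ)
    (hκ : 0 < κ) : ∃ c : ℝ, 0 < c ∧ c ≤ 1 ∧ ∀ (A S : Type) [Fintype A] [Fintype S]
      (ps : S → ℕ → Site 2) (n t : ℕ) (π : A → ℝ) (w : A → S → ℝ) (l D : ℝ),
      IsFam π w → (∀ s, ps s 0 = 0) → t ≤ n → 1 ≤ l →
      0 < D → D ^ 2 ≤ t → l ≤ c * D ^ 2 * (D ^ 2 / t) ^ (1 / c) → gW ρ β ps n π w l R →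
      av π w (fun w' => gRp ρ β ps n w' t D) < κ := by
  -- constants
  obtain ⟨κ₁, hκ1, hκ11, hκ1κ⟩ : ∃ κ₁ : ℝ, 0 < κ₁ ∧ κ₁ ≤ 1 ∧ κ₁ ≤ κ :=
    ⟨min κ 1, lt_min hκ one_pos, min_le_right _ _, min_le_left _ _⟩
  obtain ⟨R₁, hR1, hRR1⟩ : ∃ R₁ : ℝ, 1 ≤ R₁ ∧ R ≤ R₁ :=
    ⟨max R 1, le_max_right _ _, le_max_left _ _⟩
  obtain ⟨c0, hc0, hc01, hvar⟩ := hV
  obtain ⟨c1, C1, hc1, hc11, hC1, htyp⟩ := hT R₁ (κ₁ / 16) hR1 (by positivity)
  have hR10 : 0 < R₁ := by linarith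
  have hC10 : 0 < C1 := by linarith
  obtain ⟨δ, hδ⟩ : ∃ δ : ℝ, δ = c0 * κ₁ / 1024 := ⟨_, rfl⟩
  have hδ0 : 0 < δ := by rw [hδ]; positivity
  have hδκ : δ ≤ κ₁ / 1024 := by
    rw [hδ]
    have : c0 * κ₁ ≤ 1 * κ₁ := mul_le_mul_of_nonneg_right hc01 hκ1.le
    linarith
  have hδ1 : δ ≤ 1 / 1024 := by linarith
  have hδ2 : δ ^ 2 ≤ κ₁ / 1024 / 1024 := by
    have : δ * δ ≤ κ₁ / 1024 * (1 / 1024) := mul_le_mul hδκ hδ1 hδ0.le (by positivity)
    nlinarith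
  obtain ⟨θ, hθ⟩ : ∃ θ : ℝ, θ = δ ^ 2 / R₁ := ⟨_, rfl⟩
  have hθ0 : 0 < θ := by rw [hθ]; positivity
  have hθR : R₁ * θ = δ ^ 2 := by rw [hθ]; field_simp
  have hθ1 : θ ≤ 1 / 2 := by
    have h1 : θ * 1 ≤ θ * R₁ := mul_le_mul_of_nonneg_left hR1 hθ0.le
    nlinarith
  obtain ⟨CK, hCK⟩ : ∃ CK : ℝ, CK = 2 * (1 / 8 + 8 * Real.sqrt (R₁ / κ₁)) + 3 := ⟨_, rfl⟩
  have hCK0 : 0 < CK := by rw [hCK]; positivity
  obtain ⟨L, hL⟩ : ∃ L : ℝ, L = 131072 * CK ^ 2 / (θ * (c0 * κ₁) ^ 2) := ⟨_, rfl⟩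
  have hL0 : 0 < L := by rw [hL]; positivity
  obtain ⟨z, hz⟩ : ∃ z : ℝ, z = κ₁ / (16 * (C1 * Real.sqrt L)) := ⟨_, rfl⟩
  have hsL : 0 < Real.sqrt L := Real.sqrt_pos.2 hL0
  have hz0 : 0 < z := by rw [hz]; positivity
  refine ⟨min c1 (min (1 / (4 * C1)) (min (θ / 4) (min (δ ^ 2) (z ^ (1 / c1) / 4)))),
    by positivity, (min_le_left _ _).trans hc11, ?_⟩
  set c : ℝ := min c1 (min (1 / (4 * C1)) (min (θ / 4) (min (δ ^ 2) (z ^ (1 / c1) / 4)))) with hc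
  have hcc1 : c ≤ c1 := min_le_left _ _
  have hcC1 : c ≤ 1 / (4 * C1) := (min_le_right _ _).trans (min_le_left _ _)
  have hcθ : c ≤ θ / 4 := (min_le_right _ _).trans ((min_le_right _ _).trans (min_le_left _ _))
  have hcδ : c ≤ δ ^ 2 := (min_le_right _ _).trans ((min_le_right _ _).trans
    ((min_le_right _ _).trans (min_le_left _ _)))
  have hcz : c ≤ z ^ (1 / c1) / 4 := (min_le_right _ _).trans ((min_le_right _ _).trans
    ((min_le_right _ _).trans (min_le_right _ _)))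
  have hc0' : 0 < c := by positivity
  clear_value c
  intro AA S _ _ ps n t π w l D hF hps htn hl hD hDt hlc hW
  obtain ⟨hπ0, hπ1, hws⟩ := hF
  by_contra hcon
  push Not at hcon
  have hRp : κ₁ ≤ av π w (fun w' => gRp ρ β ps n w' t D) := hκ1κ.trans hcon
  have hW1 : gW ρ β ps n π w l R₁ := by
    intro τ t' hτ ht' hlen
    obtain ⟨m', hm'⟩ := hW τ t' hτ ht' hlen
    refine ⟨m', hm'.trans (mul_le_mul_of_nonneg_right hRR1 ?_)⟩
    have : (τ : ℝ) ≤ t' := by exact_mod_cast hτ.le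
    linarith
  have hD2 : 0 < D ^ 2 := by positivity
  have ht0' : (0 : ℝ) < t := lt_of_lt_of_le hD2 hDt
  have ht0 : 0 < t := by exact_mod_cast ht0'
  set x : ℝ := D ^ 2 / t with hx
  have hx0 : 0 < x := by positivity
  have hx1 : x ≤ 1 := by rw [hx, div_le_one ht0']; exact hDt
  have hxc : x ^ (1 / c) ≤ 1 := Real.rpow_le_one hx0.le hx1 (by positivity)
  have hlD : l ≤ c * D ^ 2 := by
    refine hlc.trans ?_
    calc c * D ^ 2 * x ^ (1 / c) ≤ c * D ^ 2 * 1 :=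
          mul_le_mul_of_nonneg_left hxc (by positivity)
      _ = c * D ^ 2 := mul_one _
  have h1D : 1 ≤ δ ^ 2 * D ^ 2 := by
    have := mul_le_mul_of_nonneg_right hcδ hD2.le
    linarith
  have hδD : 1 ≤ δ * D := by
    by_contra h1
    push Not at h1
    have h2 : (δ * D) ^ 2 < 1 := by
      have : 0 ≤ δ * D := by positivity
      nlinarith
    rw [mul_pow] at h2
    linarith
  have hD1024 : 1024 ≤ D := by nlinarith
  have hθD : 4 ≤ θ * D ^ 2 := by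
    have := mul_le_mul_of_nonneg_right hcθ hD2.le
    linarith
  -- the rows
  obtain ⟨hcard, hrows⟩ := rowsT63 (t := t) (x := θ * D ^ 2) hθD (by nlinarith)
  set T : Finset ℕ := Finset.Icc (t - ⌊θ * D ^ 2⌋₊) (t - ⌈θ * D ^ 2 / 2⌉₊) with hTdef
  have hTl : ∀ τ ∈ T, l ≤ (t : ℝ) - τ := by
    intro τ hτ
    have h1 := (hrows τ hτ).2.2.2.1
    have := mul_le_mul_of_nonneg_right hcθ hD2.le
    linarith
  -- the sites
  set B : Finset (Site 2) := T.biUnion fun τ => Finset.univ.image fun s => ps s τ with hBdef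
  have hB : ∀ τ ∈ T, ∀ s, ps s τ ∈ B := fun τ hτ s =>
    Finset.mem_biUnion.2 ⟨τ, hτ, Finset.mem_image_of_mem _ (Finset.mem_univ s)⟩
  -- the centres
  obtain ⟨M, hM⟩ : ∃ M : Vec 2, av π w (fun w' => ∫ η, gp β ps n w' η
      (fun s => gi ps 0 t M s ^ 2) ∂(law 2 ρ)) ≤ R₁ * t := by
    obtain ⟨M, hM⟩ := hW1 0 t ht0 htn (by
      have h1 := mul_le_mul_of_nonneg_right hcθ hD2.le
      have h2 : θ * D ^ 2 ≤ 1 / 2 * D ^ 2 := mul_le_mul_of_nonneg_right hθ1 hD2.le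
      push_cast
      linarith)
    exact ⟨M, by simpa using hM⟩
  have hmex : ∀ τ : ℕ, ∃ m : Vec 2, τ ∈ T →
      av π w (fun w' => ∫ η, gp β ps n w' η (fun s => gi ps τ t m s ^ 2) ∂(law 2 ρ)) ≤
        (δ * D) ^ 2 := by
    intro τ
    by_cases hτ : τ ∈ T
    · obtain ⟨m, hm⟩ := hW1 τ t (hrows τ hτ).2.1 htn (hTl τ hτ)
      refine ⟨m, fun _ => hm.trans ?_⟩
      have h1 := mul_le_mul_of_nonneg_left (hrows τ hτ).2.2.1 hR10.le
      calc R₁ * ((t : ℝ) - τ) ≤ R₁ * (θ * D ^ 2) := h1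
        _ = (δ * D) ^ 2 := by rw [← mul_assoc, hθR, mul_pow]
    · exact ⟨0, fun h1 => absurd h1 hτ⟩
  choose m hm using hmex
  -- the threshold of the mass
  set Λ : ℝ := L * (t / D ^ 2) ^ 2 with hΛ
  have hΛ0 : 0 < Λ := by positivity
  have hsΛ : Real.sqrt Λ = Real.sqrt L * (t / D ^ 2) := by
    rw [hΛ, Real.sqrt_mul hL0.le, Real.sqrt_sq (by positivity)]
  have hty : ∀ τ ∈ T, av π w (fun w' => gTy ρ β ps n w' τ (D / 2) (Λ / τ)) ≤ κ₁ / 8 := by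
    intro τ hτ
    obtain ⟨r1, r2, r3, r4, r5⟩ := hrows τ hτ
    have e1 := htyp AA S ps n τ π w l (D / 2) Λ ⟨hπ0, hπ1, hws⟩ hps hl (by omega) (by positivity)
      (by
        have h1 := mul_le_mul_of_nonneg_right hcC1 hD2.le
        have h2 : C1 * l ≤ C1 * (1 / (4 * C1) * D ^ 2) :=
          mul_le_mul_of_nonneg_left (hlD.trans h1) hC10.le
        have h3 : C1 * (1 / (4 * C1) * D ^ 2) = (D / 2) ^ 2 := by
          field_simp
          norm_num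
        linarith)
      (by nlinarith) hΛ0 hW1
    refine le_trans e1 ?_
    have e2 : l / (D / 2) ^ 2 ≤ 4 * c * x ^ (1 / c) := by
      rw [div_le_iff₀ (by positivity)]
      calc l ≤ c * D ^ 2 * x ^ (1 / c) := hlc
        _ = 4 * c * x ^ (1 / c) * (D / 2) ^ 2 := by ring
    have e3 : (l / (D / 2) ^ 2) ^ c1 ≤ z * x := by
      calc (l / (D / 2) ^ 2) ^ c1 ≤ (4 * c * x ^ (1 / c)) ^ c1 :=
            Real.rpow_le_rpow (by positivity) e2 hc1.le
        _ = (4 * c) ^ c1 * (x ^ (1 / c)) ^ c1 := Real.mul_rpow (by positivity) (by positivity)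
        _ ≤ z * x := by
            refine mul_le_mul ?_ ?_ (by positivity) hz0.le
            · have f1 : 4 * c ≤ z ^ (1 / c1) := by linarith
              refine (Real.rpow_le_rpow (by positivity) f1 hc1.le).trans (le_of_eq ?_)
              rw [← Real.rpow_mul hz0.le, one_div, inv_mul_cancel₀ hc1.ne', Real.rpow_one]
            · rw [← Real.rpow_mul hx0.le]
              have f2 : 1 ≤ 1 / c * c1 := by
                rw [one_div, inv_mul_eq_div, one_le_div hc0']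
                exact hcc1
              calc x ^ (1 / c * c1) ≤ x ^ (1 : ℝ) :=
                    Real.rpow_le_rpow_of_exponent_ge hx0 hx1 f2
                _ = x := Real.rpow_one _
    have e4 : C1 * Real.sqrt Λ * (l / (D / 2) ^ 2) ^ c1 ≤ κ₁ / 16 := by
      calc C1 * Real.sqrt Λ * (l / (D / 2) ^ 2) ^ c1 ≤ C1 * Real.sqrt Λ * (z * x) :=
            mul_le_mul_of_nonneg_left e3 (by positivity)
        _ = κ₁ / 16 := by
            rw [hsΛ, hz, hx]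
            field_simp
    linarith
  -- one row
  set K : ℝ := D / 8 + 8 * Real.sqrt (R₁ * t / κ₁) with hK
  have hK0 : 0 ≤ K := by positivity
  set P : ℕ → (S → ℝ) → ℝ := fun τ w' => ∑ j : Fin 2, ∑ u ∈ Finset.Icc ⌊M j - K⌋ ⌈M j + K⌉,
      (c0 * (∫ η, gp2 β ps n w' η (fun s s' =>
        if ¬ ((u : ℝ) ≤ (ps s τ j : ℝ) + m τ j ↔ u ≤ ps s' t j)
          then gG ρ β ps n w' B (Λ / τ) τ (ps s τ) η else 0) ∂(law 2 ρ)) -
      2 * ∫ η, gp β ps n w' η (fun s =>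
        if ¬ ((u : ℝ) ≤ (ps s τ j : ℝ) + m τ j ↔ u ≤ ps s t j) then (1 : ℝ) else 0)
          ∂(law 2 ρ)) with hP
  have hrow : ∀ τ ∈ T, c0 * κ₁ * D / 64 ≤ av π w (P τ) := by
    intro τ hτ
    have g1 := av_mono63 (π := π) (w := w) hπ0 (F := fun w' =>
      c0 * ((D / 8 - 1) * (gRp ρ β ps n w' t D + -1 * gTy ρ β ps n w' τ (D / 2) (Λ / τ) +
        -(160 / D ^ 2) *
          (∫ η, gp β ps n w' η (fun s => gi ps τ t (m τ) s ^ 2) ∂(law 2 ρ)) +
        -(κ₁ / (32 * (R₁ * t))) *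
          (∫ η, gp β ps n w' η (fun s => gi ps 0 t M s ^ 2) ∂(law 2 ρ)))) +
      -4 * ((2 * (δ * D))⁻¹ *
        (∫ η, gp β ps n w' η (fun s => gi ps τ t (m τ) s ^ 2) ∂(law 2 ρ)) +
        ((δ * D) / 2 + 1))) (G := P τ) fun a =>
      rowG63 hA hκ1 hR10 hc0 (by positivity : 0 < δ * D) (hws a).1 (hws a).2 hps t τ htn
        (hrows τ hτ).2.1.le ht0 B (hB τ hτ) D (Λ / τ) (by linarith) (m τ) M
    rw [av_add63, av_mul63, av_mul63, av_add63, av_add63, av_add63, av_mul63, av_mul63, av_mul63,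
      av_mul63, av_add63, av_mul63, av_const63 hπ1] at g1
    refine le_trans ?_ g1
    set X : ℝ := av π w (fun w' => ∫ η, gp β ps n w' η
      (fun s => gi ps τ t (m τ) s ^ 2) ∂(law 2 ρ)) with hX
    set Y : ℝ := av π w (fun w' => ∫ η, gp β ps n w' η
      (fun s => gi ps 0 t M s ^ 2) ∂(law 2 ρ)) with hY
    set Ty : ℝ := av π w (fun w' => gTy ρ β ps n w' τ (D / 2) (Λ / τ)) with hTy
    set Rr : ℝ := av π w (fun w' => gRp ρ β ps n w' t D) with hRr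
    have q1 : X ≤ (δ * D) ^ 2 := hm τ hτ
    have q2 : Y ≤ R₁ * t := hM
    have q3 : Ty ≤ κ₁ / 8 := hty τ hτ
    have q4 : 160 / D ^ 2 * X ≤ 160 * δ ^ 2 := by
      calc 160 / D ^ 2 * X ≤ 160 / D ^ 2 * (δ * D) ^ 2 :=
            mul_le_mul_of_nonneg_left q1 (by positivity)
        _ = 160 * δ ^ 2 := by field_simp
    have q5 : κ₁ / (32 * (R₁ * t)) * Y ≤ κ₁ / 32 := by
      calc κ₁ / (32 * (R₁ * t)) * Y ≤ κ₁ / (32 * (R₁ * t)) * (R₁ * t) :=
            mul_le_mul_of_nonneg_left q2 (by positivity)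
        _ = κ₁ / 32 := by field_simp
    have q6 : (2 * (δ * D))⁻¹ * X ≤ (δ * D) / 2 := by
      calc (2 * (δ * D))⁻¹ * X ≤ (2 * (δ * D))⁻¹ * (δ * D) ^ 2 :=
            mul_le_mul_of_nonneg_left q1 (by positivity)
        _ = (δ * D) / 2 := by field_simp
    have q7 : κ₁ / 2 ≤ Rr + -1 * Ty + -(160 / D ^ 2) * X + -(κ₁ / (32 * (R₁ * t))) * Y := by
      have n2 : -(160 / D ^ 2) * X = -(160 / D ^ 2 * X) := by ring
      have n3 : -(κ₁ / (32 * (R₁ * t))) * Y = -(κ₁ / (32 * (R₁ * t)) * Y) := by ring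
      rw [n2, n3]
      linarith
    have n2 : D / 16 ≤ D / 8 - 1 := by linarith
    have n3 : D / 16 * (κ₁ / 2) ≤ (D / 8 - 1) *
        (Rr + -1 * Ty + -(160 / D ^ 2) * X + -(κ₁ / (32 * (R₁ * t))) * Y) :=
      mul_le_mul n2 q7 (by positivity) (by linarith)
    have n4 := mul_le_mul_of_nonneg_left n3 hc0.le
    have n5 : δ * D = c0 * κ₁ * D / 1024 := by rw [hδ]; ring
    nlinarith
  -- the sum of the rows
  have hcol : ∀ a, ∑ τ ∈ T, P τ (w a) ≤ 2 * (2 * K + 3) * Real.sqrt (T.card * (t / Λ)) := by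
    intro a
    obtain ⟨hwa, hsa⟩ := hws a
    simp only [hP]
    rw [Finset.sum_comm]
    have f2 : ∀ j : Fin 2, ∑ τ ∈ T, ∑ u ∈ Finset.Icc ⌊M j - K⌋ ⌈M j + K⌉,
        (c0 * (∫ η, gp2 β ps n (w a) η (fun s s' =>
          if ¬ ((u : ℝ) ≤ (ps s τ j : ℝ) + m τ j ↔ u ≤ ps s' t j)
            then gG ρ β ps n (w a) B (Λ / τ) τ (ps s τ) η else 0) ∂(law 2 ρ)) -
        2 * ∫ η, gp β ps n (w a) η (fun s =>
          if ¬ ((u : ℝ) ≤ (ps s τ j : ℝ) + m τ j ↔ u ≤ ps s t j) then (1 : ℝ) else 0)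
            ∂(law 2 ρ)) ≤ (2 * K + 3) * Real.sqrt (T.card * (t / Λ)) := by
      intro j
      rw [Finset.sum_comm]
      have f1 : ∀ u ∈ Finset.Icc ⌊M j - K⌋ ⌈M j + K⌉, ∑ τ ∈ T,
          (c0 * (∫ η, gp2 β ps n (w a) η (fun s s' =>
            if ¬ ((u : ℝ) ≤ (ps s τ j : ℝ) + m τ j ↔ u ≤ ps s' t j)
              then gG ρ β ps n (w a) B (Λ / τ) τ (ps s τ) η else 0) ∂(law 2 ρ)) -
          2 * ∫ η, gp β ps n (w a) η (fun s =>
            if ¬ ((u : ℝ) ≤ (ps s τ j : ℝ) + m τ j ↔ u ≤ ps s t j) then (1 : ℝ) else 0)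
              ∂(law 2 ρ)) ≤ Real.sqrt (T.card * (t / Λ)) := by
        intro u _
        have f0 := hvar S ps n (w a) hwa hsa t T htn (fun τ hτ => Finset.mem_Icc.2
          ⟨(hrows τ hτ).1, (hrows τ hτ).2.1.le.trans htn⟩) B
          (fun τ y => gG ρ β ps n (w a) B (Λ / τ) τ y)
          (fun τ y => (u : ℝ) ≤ (y j : ℝ) + m τ j) (fun y => u ≤ y j)
          (fun τ y => gG_meas63 B _ τ y) (fun τ y η => gG_bd63 B _ τ y η)
          (fun τ y hy η => gG_out63 B _ τ y hy η) (fun τ y => gG_dep63 B _ τ y)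
        refine le_trans (le_of_eq ?_) (f0.trans (Real.sqrt_le_sqrt ?_))
        · congr!
        rw [← nsmul_eq_mul, ← Finset.sum_const]
        refine Finset.sum_le_sum fun τ hτ => ?_
        obtain ⟨r1, r2, r3, r4, r5⟩ := hrows τ hτ
        have hτ0 : (0 : ℝ) < τ := by exact_mod_cast r1
        refine (gG_sum63 hwa hsa B τ (by positivity)).trans ?_
        rw [one_div, inv_div]
        have : (τ : ℝ) ≤ t := by exact_mod_cast r2.le
        exact div_le_div_of_nonneg_right this hΛ0.le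
      refine (Finset.sum_le_sum f1).trans ?_
      rw [Finset.sum_const, nsmul_eq_mul]
      exact mul_le_mul_of_nonneg_right (cardU63 _ _ hK0) (Real.sqrt_nonneg _)
    rw [Fin.sum_univ_two]
    have g0 := add_le_add (f2 0) (f2 1)
    refine g0.trans (le_of_eq ?_)
    ring
  have hall : (T.card : ℝ) * (c0 * κ₁ * D / 64) ≤
      2 * (2 * K + 3) * Real.sqrt (T.card * (t / Λ)) := by
    have h1 := Finset.sum_le_sum hrow
    rw [Finset.sum_const, nsmul_eq_mul, ← av_sum63] at h1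
    refine h1.trans ?_
    have h2 := av_mono63 (π := π) (w := w) hπ0 (F := fun w' => ∑ τ ∈ T, P τ w')
      (G := fun _ => 2 * (2 * K + 3) * Real.sqrt (T.card * (t / Λ))) hcol
    rwa [av_const63 hπ1] at h2
  -- the numbers
  have hst : 0 < Real.sqrt t := Real.sqrt_pos.2 ht0'
  have hst1 : 1 ≤ Real.sqrt t := by
    rw [Real.one_le_sqrt]
    exact_mod_cast ht0
  have hDst : D ≤ Real.sqrt t := Real.le_sqrt_of_sq_le hDt
  have hKb : 2 * K + 3 ≤ CK * Real.sqrt t := by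
    rw [hK, hCK]
    have e1 : Real.sqrt (R₁ * t / κ₁) = Real.sqrt (R₁ / κ₁) * Real.sqrt t := by
      rw [← Real.sqrt_mul (by positivity)]
      congr 1
      ring
    rw [e1]
    nlinarith
  set N : ℝ := (T.card : ℝ) with hN
  have hN0 : 0 < N := lt_of_lt_of_le (by positivity) hcard
  set SS : ℝ := Real.sqrt (N * (t / Λ)) with hS
  have hS0 : 0 ≤ SS := Real.sqrt_nonneg _
  have hS2 : SS ^ 2 = N * (t / Λ) := Real.sq_sqrt (by positivity)
  have g1 : N * (c0 * κ₁ * D / 64) ≤ 2 * (CK * Real.sqrt t) * SS := by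
    refine hall.trans ?_
    have := mul_le_mul_of_nonneg_right hKb hS0
    linarith
  have g2 : (N * (c0 * κ₁ * D / 64)) ^ 2 ≤ (2 * (CK * Real.sqrt t) * SS) ^ 2 :=
    pow_le_pow_left₀ (by positivity) g1 2
  have g3 : (2 * (CK * Real.sqrt t) * SS) ^ 2 = N * (4 * CK ^ 2 * (t * (t / Λ))) := by
    rw [mul_pow, hS2, mul_pow, mul_pow, Real.sq_sqrt ht0'.le]
    ring
  have g4 : t * (t / Λ) = D ^ 4 * (θ * (c0 * κ₁) ^ 2) / (131072 * CK ^ 2) := by
    rw [hΛ, hL]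
    field_simp
  have g5 : N * (4 * CK ^ 2 * (t * (t / Λ))) = N * (D ^ 4 * (θ * (c0 * κ₁) ^ 2) / 32768) := by
    rw [g4]
    field_simp
    norm_num
  have g6 : (N * (c0 * κ₁ * D / 64)) ^ 2 = N * (N * (c0 * κ₁ * D / 64) ^ 2) := by ring
  rw [g3, g5, g6] at g2
  have g7 := le_of_mul_le_mul_left g2 hN0
  have g8 : θ * D ^ 2 / 4 * (c0 * κ₁ * D / 64) ^ 2 ≤ N * (c0 * κ₁ * D / 64) ^ 2 :=
    mul_le_mul_of_nonneg_right hcard (sq_nonneg _)
  have g9 : θ * D ^ 2 / 4 * (c0 * κ₁ * D / 64) ^ 2 = 2 * (D ^ 4 * (θ * (c0 * κ₁) ^ 2) / 32768) := by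
    ring
  have g10 : 0 < D ^ 4 * (θ * (c0 * κ₁) ^ 2) / 32768 := by positivity
  linarith

end Pool.Agent.W_7d29a1_GW
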