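import Pool.Agent.W_7d29a1_NS.DefsN72

/-!
Theorem GW: the Gaussian walk polymer in dimension two is not diffusive. Definitions and frozen
statements of the leaves. Part 1: theorem NS for a finite a priori path space; `S` is the type of
the paths, `ps s t` the site of the path `s` at the time `t`, `w s ≥ 0` its a priori weight.
-/

namespace Pool.Agent.W_7d29a1_GW

open MeasureTheory ProbabilityTheory Filter Topology Pool.Agent.W_MP_7d29a1_pr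
  Pool.Agent.W_7d29a1_h46 Pool.Agent.W_7d29a1_h46u Pool.Agent.W_7d29a1_D2.B35
  Pool.Agent.W_7d29a1_Q29 Pool.Agent.W_7d29a1_S90 Pool.Agent.W_7d29a1_NS

section Defs

variable {d : ℕ} {S : Type} [Fintype S]

/-- The weight of the path `s`. -/
noncomputable def gw (β : ℝ) (ps : S → ℕ → Site d) (n : ℕ) (w : S → ℝ) (η : Env d) (s : S) : ℝ :=
  w s * Real.exp (β * ∑ i ∈ Finset.range n, η (i + 1, ps s (i + 1)))

/-- The mean of `f` under the polymer measure of length `n`. -/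
noncomputable def gp (β : ℝ) (ps : S → ℕ → Site d) (n : ℕ) (w : S → ℝ) (η : Env d)
    (f : S → ℝ) : ℝ :=
  (∑ s, gw β ps n w η s * f s) / ∑ s, gw β ps n w η s

/-- The mean of `f` for two independent paths in the same environment. -/
noncomputable def gp2 (β : ℝ) (ps : S → ℕ → Site d) (n : ℕ) (w : S → ℝ) (η : Env d)
    (f : S → S → ℝ) : ℝ :=
  gp β ps n w η fun s => gp β ps n w η fun s' => f s s'

/-- `‖S_t - S_τ - m‖`. -/
noncomputable def gi (ps : S → ℕ → Site d) (τ t : ℕ) (m : Vec d) (s : S) : ℝ :=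
  ‖emb (ps s t) - emb (ps s τ) - m‖

open Classical in
/-- The probability that `‖S_t - S_τ - m‖ > r`. -/
noncomputable def gTl (ρ : Measure ℝ) (β : ℝ) (ps : S → ℕ → Site d) (n : ℕ) (w : S → ℝ)
    (τ t : ℕ) (m : Vec d) (r : ℝ) : ℝ :=
  ∫ η, gp β ps n w η (fun s => if r < gi ps τ t m s then (1 : ℝ) else 0) ∂(law d ρ)

open Classical in
/-- The probability that two replicas are at distance `> r` at the time `t`. -/
noncomputable def gRp (ρ : Measure ℝ) (β : ℝ) (ps : S → ℕ → Site d) (n : ℕ) (w : S → ℝ)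
    (t : ℕ) (r : ℝ) : ℝ :=
  ∫ η, gp2 β ps n w η (fun s s' => if r < ‖emb (ps s t) - emb (ps s' t)‖ then (1 : ℝ) else 0)
    ∂(law d ρ)

open Classical in
/-- The probability that `S_t` is in the block `b`. -/
noncomputable def gqb (β : ℝ) (ps : S → ℕ → Site d) (n : ℕ) (w : S → ℝ) (t i : ℕ)
    (o b : Site d) (η : Env d) : ℝ :=
  gp β ps n w η (fun s => if blk i o (ps s t) = b then (1 : ℝ) else 0)

/-- The same given the rows `≤ τ`. -/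
noncomputable def gnb (ρ : Measure ℝ) (β : ℝ) (ps : S → ℕ → Site d) (n : ℕ) (w : S → ℝ)
    (t τ i : ℕ) (o b : Site d) (η : Env d) : ℝ := cE ρ (Pa d τ) (gqb β ps n w t i o b) η

/-- The row `τ` is high for the block `b` (a function of the rows `< τ`). -/
def gHi (ρ : Measure ℝ) (β : ℝ) (ps : S → ℕ → Site d) (n : ℕ) (w : S → ℝ) (t : ℕ) (a : ℝ)
    (τ i : ℕ) (o b : Site d) (η : Env d) : Prop :=
  cE ρ (Pa d (τ - 1)) (fun ξ => Real.sqrt (gnb ρ β ps n w t τ i o b ξ)) η ≤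
    Real.exp (-a) * Real.sqrt (gnb ρ β ps n w t (τ - 1) i o b η)

open Classical in
/-- The weighted number of the rows in `(τ₀, τ]` which are high for the block of `x`. -/
noncomputable def gNh (ρ : Measure ℝ) (β : ℝ) (ps : S → ℕ → Site d) (n : ℕ) (w : S → ℝ)
    (t : ℕ) (a : ℕ → ℝ) (lev : ℕ → ℕ) (o : Site d) (τ₀ τ : ℕ) (x : Site d) (η : Env d) : ℝ :=
  ∑ σ ∈ Finset.Ioc τ₀ τ,
    if gHi ρ β ps n w t (a σ) σ (lev σ) o (blk (lev σ) o x) η then a σ else 0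

open Classical in
/-- The probability that the row `τ` is low for the block of `S_t` and that the other replica is in
another block. -/
noncomputable def gLo (ρ : Measure ℝ) (β : ℝ) (ps : S → ℕ → Site d) (n : ℕ) (w : S → ℝ)
    (t : ℕ) (a : ℝ) (τ i : ℕ) (o : Site d) : ℝ :=
  ∫ η, gp2 β ps n w η (fun s s' =>
    if ¬ gHi ρ β ps n w t a τ i o (blk i o (ps s t)) η ∧ blk i o (ps s' t) ≠ blk i o (ps s t)
      then (1 : ℝ) else 0) ∂(law d ρ)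

open Classical in
/-- The probability that `S_t` is at distance at most `r` from the complement of its block. -/
noncomputable def gNb (ρ : Measure ℝ) (β : ℝ) (ps : S → ℕ → Site d) (n : ℕ) (w : S → ℝ)
    (t i : ℕ) (o : Site d) (r : ℝ) : ℝ :=
  ∫ η, gp β ps n w η (fun s =>
    if ∃ z : Site d, blk i o z ≠ blk i o (ps s t) ∧ ‖emb z - emb (ps s t)‖ ≤ r
      then (1 : ℝ) else 0) ∂(law d ρ)

open Classical in
/-- The probability that `S_t = y`. -/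
noncomputable def gQt (β : ℝ) (ps : S → ℕ → Site d) (n : ℕ) (w : S → ℝ) (t : ℕ) (y : Site d)
    (η : Env d) : ℝ := gp β ps n w η (fun s => if ps s t = y then (1 : ℝ) else 0)

open Classical in
/-- Replicas at distance `> r` at the time `t`, and `S_t` at a site of conditional probability
(given the rows `< t`) less than `ε`. -/
noncomputable def gTy (ρ : Measure ℝ) (β : ℝ) (ps : S → ℕ → Site d) (n : ℕ) (w : S → ℝ)
    (t : ℕ) (r ε : ℝ) : ℝ :=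
  ∫ η, gp2 β ps n w η (fun s s' =>
    if r < ‖emb (ps s t) - emb (ps s' t)‖ ∧
        cE ρ (Pa d (t - 1)) (gQt β ps n w t (ps s t)) η < ε
      then (1 : ℝ) else 0) ∂(law d ρ)

end Defs

section Leaves

variable (d : ℕ) (ρ : Measure ℝ) (β : ℝ)

open Classical in
/-- Leaf SIB. -/
def SibG : Prop := ∃ q c : ℝ, 0 < c ∧ c ≤ 1 ∧ ∀ (S : Type) [Fintype S] (ps : S → ℕ → Site d)
  (n : ℕ) (w : S → ℝ), (∀ s, 0 ≤ w s) → 0 < ∑ s, w s → ∀ τ : ℕ, 1 ≤ τ → τ ≤ n →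
  ∀ (y : Site d) (Fr : S → Prop) (χ : Env d → ℝ), Measurable χ →
    (∀ η, 0 ≤ χ η ∧ χ η ≤ 1) → DependsOn χ ({(τ, y)}ᶜ : Set (ℕ × Site d)) →
    c * (∫ η, χ η * gp2 β ps n w η (fun s s' =>
        if ps s τ = y ∧ ps s' τ ≠ y ∧ Fr s' then (1 : ℝ) else 0) ∂(law d ρ)) -
      (∫ η, χ η * gp β ps n w η (fun s =>
        if ps s τ = y ∧ Fr s then (1 : ℝ) else 0) ∂(law d ρ)) ≤
    ∫ η, χ η * (zt ρ q (η (τ, y)) * gp β ps n w η (fun s =>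
      if ¬ Fr s then (1 : ℝ) else 0)) ∂(law d ρ)

open Classical in
/-- Leaf LOA. -/
def LoaG : Prop := ∀ (S : Type) [Fintype S] (ps : S → ℕ → Site d) (n : ℕ) (w : S → ℝ),
  (∀ s, 0 ≤ w s) → 0 < ∑ s, w s → ∀ (q : ℝ) (τ t : ℕ), 1 ≤ τ → τ < t → t ≤ n →
  ∀ (g a : ℝ) (i : ℕ) (o b : Site d) (Y : Finset (Site d)), 0 ≤ g → g * Y.card ≤ 1 / 2 → 0 ≤ a →
    g * (∫ η, (if gHi ρ β ps n w t a τ i o b η then (0 : ℝ) else 1) *
      ((∑ y ∈ Y, zt ρ q (η (τ, y))) * gqb β ps n w t i o b η) ∂(law d ρ)) ≤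
    2 * (a + g ^ 2 * Y.card) *
      ∫ η, (if gHi ρ β ps n w t a τ i o b η then (0 : ℝ) else 1) * gqb β ps n w t i o b η
        ∂(law d ρ)

/-- Leaf LOW (from `SibG`, `LoaG`). -/
def LowG : Prop := ∃ c : ℝ, 0 < c ∧ c ≤ 1 ∧ ∀ (S : Type) [Fintype S] (ps : S → ℕ → Site d)
  (n : ℕ) (w : S → ℝ), (∀ s, 0 ≤ w s) → 0 < ∑ s, w s → ∀ τ t : ℕ, 1 ≤ τ → τ < t → t ≤ n →
  ∀ (m : Vec d) (r g a : ℝ) (i : ℕ) (o : Site d), (d : ℝ) ≤ r → 0 ≤ g →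
    g * 2 ^ (d * i) ≤ 1 / 2 → 0 ≤ a →
    g * (c * (gLo ρ β ps n w t a τ i o - 2 * gTl ρ β ps n w τ t m r -
      gNb ρ β ps n w t i o (2 * r)) - gTl ρ β ps n w τ t m r) ≤ 2 * (a + g ^ 2 * 2 ^ (d * i))

/-- Leaf CHN. -/
def ChnG : Prop := ∀ (S : Type) [Fintype S] (ps : S → ℕ → Site d) (n : ℕ) (w : S → ℝ),
  (∀ s, 0 ≤ w s) → 0 < ∑ s, w s → ∀ t τ₀ : ℕ, τ₀ < t → t ≤ n →
  ∀ (a : ℕ → ℝ) (lev : ℕ → ℕ) (o : Site d) (U : Finset (Site d)), (∀ σ, 0 ≤ a σ) →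
    Antitone lev →
    (∀ x ∈ U, ∀ z : Site d, blk (lev (τ₀ + 1)) o z = blk (lev (τ₀ + 1)) o x → z ∈ U) →
    ∫ η, ∑ x ∈ U, Real.sqrt (cE ρ (Pa d (t - 1)) (gQt β ps n w t x) η) *
      Real.exp (gNh ρ β ps n w t a lev o τ₀ (t - 1) x η) ∂(law d ρ) ≤ Real.sqrt U.card

open Classical in
/-- Leaf TYA (from `ChnG`). -/
def TyaG : Prop := ∀ (S : Type) [Fintype S] (ps : S → ℕ → Site d) (n : ℕ) (w : S → ℝ),
  (∀ s, 0 ≤ w s) → 0 < ∑ s, w s → ∀ t τ₀ : ℕ, τ₀ < t → t ≤ n →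
  ∀ (a : ℕ → ℝ) (lev : ℕ → ℕ) (o : Site d) (U : Finset (Site d)) (D ε : ℝ), (∀ σ, 0 ≤ a σ) →
    Antitone lev →
    (∀ x ∈ U, ∀ z : Site d, blk (lev (τ₀ + 1)) o z = blk (lev (τ₀ + 1)) o x → z ∈ U) →
    (∀ σ ∈ Finset.Ioc τ₀ (t - 1), 0 < a σ → ∀ x z : Site d,
      blk (lev σ) o x = blk (lev σ) o z → ‖emb x - emb z‖ ≤ D) →
    0 < ∑ σ ∈ Finset.Ioc τ₀ (t - 1), a σ → 0 ≤ ε →
    gTy ρ β ps n w t D ε ≤
      (∫ η, gp β ps n w η (fun s => if ps s t ∉ U then (1 : ℝ) else 0) ∂(law d ρ)) +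
      2 / (∑ σ ∈ Finset.Ioc τ₀ (t - 1), a σ) *
        (∑ σ ∈ Finset.Ioc τ₀ (t - 1), a σ * gLo ρ β ps n w t (a σ) σ (lev σ) o) +
      Real.sqrt ε * Real.exp (-((∑ σ ∈ Finset.Ioc τ₀ (t - 1), a σ) / 2)) * Real.sqrt U.card

open Classical in
/-- Leaf VAR (from `SibG`); the weights `G t y` are zero for `y` outside `B`. -/
def VarG : Prop := ∃ c : ℝ, 0 < c ∧ c ≤ 1 ∧ ∀ (S : Type) [Fintype S] (ps : S → ℕ → Site d)
  (n : ℕ) (w : S → ℝ), (∀ s, 0 ≤ w s) → 0 < ∑ s, w s → ∀ (e : ℕ) (T : Finset ℕ), e ≤ n →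
  T ⊆ Finset.Icc 1 n → ∀ (B : Finset (Site d)) (G : ℕ → Site d → Env d → ℝ)
    (sd : ℕ → Site d → Prop) (A : Site d → Prop), (∀ t y, Measurable (G t y)) →
    (∀ t y η, 0 ≤ G t y η ∧ G t y η ≤ 1) → (∀ t y, y ∉ B → ∀ η, G t y η = 0) →
    (∀ t y, DependsOn (G t y) (Pa d (t - 1))) →
    ∑ t ∈ T, (c * (∫ η, gp2 β ps n w η (fun s s' =>
        if ¬ (sd t (ps s t) ↔ A (ps s' e)) then G t (ps s t) η else 0) ∂(law d ρ)) -
      2 * ∫ η, gp β ps n w η (fun s =>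
        if ¬ (sd t (ps s t) ↔ A (ps s e)) then (1 : ℝ) else 0) ∂(law d ρ)) ≤
    Real.sqrt (∑ t ∈ T, ∫ η, ∑ y ∈ B, G t y η ∂(law d ρ))

end Leaves

section Avg

variable (ρ : Measure ℝ) (β : ℝ)

open Classical in
/-- Leaf AVG: the half planes `{x | u ≤ x j}`, `u` an integer. -/
def AvgG : Prop := ∀ (S : Type) [Fintype S] (ps : S → ℕ → Site 2) (n : ℕ) (w : S → ℝ),
  (∀ s, 0 ≤ w s) → 0 < ∑ s, w s → ∀ (τ t : ℕ) (j : Fin 2) (m M : Vec 2) (K lam : ℝ)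
  (G : Site 2 → Env 2 → ℝ), τ ≤ t → t ≤ n → 1 ≤ lam → lam ≤ K → (∀ y, Measurable (G y)) →
  (∀ y η, 0 ≤ G y η ∧ G y η ≤ 1) →
  (lam - 1) * ((∫ η, gp2 β ps n w η (fun s s' =>
        if 2 * lam ≤ |(ps s τ j : ℝ) - (ps s' τ j : ℝ)| then G (ps s τ) η else 0)
          ∂(law 2 ρ)) - gTl ρ β ps n w τ t m lam -
      ∫ η, gp β ps n w η (fun s =>
        if K - lam < ‖emb (ps s t) - M‖ then (1 : ℝ) else 0) ∂(law 2 ρ)) ≤
    ∑ u ∈ Finset.Icc ⌊M j - K⌋ ⌈M j + K⌉, ∫ η, gp2 β ps n w η (fun s s' =>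
      if ¬ ((u : ℝ) ≤ (ps s τ j : ℝ) + m j ↔ u ≤ ps s' t j) then G (ps s τ) η else 0)
        ∂(law 2 ρ) ∧
  ∑ u ∈ Finset.Icc ⌊M j - K⌋ ⌈M j + K⌉, ∫ η, gp β ps n w η (fun s =>
      if ¬ ((u : ℝ) ≤ (ps s τ j : ℝ) + m j ↔ u ≤ ps s t j) then (1 : ℝ) else 0) ∂(law 2 ρ) ≤
    (∫ η, gp β ps n w η (fun s => gi ps τ t m s) ∂(law 2 ρ)) + 1

end Avg

section Families

variable (ρ : Measure ℝ) (β : ℝ)

/-- The mean over a finite family of a priori weights `w a` with probabilities `π a`. -/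
noncomputable def av {A S : Type} [Fintype A] (π : A → ℝ) (w : A → S → ℝ)
    (F : (S → ℝ) → ℝ) : ℝ := ∑ a, π a * F (w a)

/-- A family of a priori weights. -/
def IsFam {A S : Type} [Fintype A] [Fintype S] (π : A → ℝ) (w : A → S → ℝ) : Prop :=
  (∀ a, 0 ≤ π a) ∧ ∑ a, π a = 1 ∧ ∀ a, (∀ s, 0 ≤ w a s) ∧ 0 < ∑ s, w a s

/-- The windows of length at least `l` are diffusive. -/
def gW {A S : Type} [Fintype A] [Fintype S] (ps : S → ℕ → Site 2) (n : ℕ) (π : A → ℝ)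
    (w : A → S → ℝ) (l R : ℝ) : Prop :=
  ∀ τ t : ℕ, τ < t → t ≤ n → l ≤ (t : ℝ) - τ → ∃ m : Vec 2,
    av π w (fun w' => ∫ η, gp β ps n w' η (fun s => gi ps τ t m s ^ 2) ∂(law 2 ρ)) ≤
      R * ((t : ℝ) - τ)

/-- Leaf OFF: the offset (every dimension, here two). -/
def OffF : Prop := ∀ (A S : Type) [Fintype A] [Fintype S] (ps : S → ℕ → Site 2) (n t : ℕ)
  (π : A → ℝ) (w : A → S → ℝ), IsFam π w → ∀ (Q : Finset ℕ) (lev : ℕ → ℕ) (b r : ℕ → ℝ),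
  (∀ s ∈ Q, 0 ≤ b s) → (∀ s ∈ Q, 0 ≤ r s) → ∃ o : Site 2,
    ∑ s ∈ Q, b s * av π w (fun w' => gNb ρ β ps n w' t (lev s) o (r s)) ≤
      ∑ s ∈ Q, b s * (4 * r s / 2 ^ lev s)

/-- Leaf TYP (from `LowG 2`, `TyaG 2`, `OffF`): typical concentration. -/
def TypF : Prop := ∀ R κ : ℝ, 1 ≤ R → 0 < κ → ∃ c C : ℝ, 0 < c ∧ c ≤ 1 ∧ 1 ≤ C ∧
  ∀ (A S : Type) [Fintype A] [Fintype S] (ps : S → ℕ → Site 2) (n t : ℕ) (π : A → ℝ)
    (w : A → S → ℝ) (l D Λ : ℝ), IsFam π w → (∀ s, ps s 0 = 0) → 1 ≤ l → t ≤ n → 0 < D →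
    C * l ≤ D ^ 2 → D ^ 2 ≤ t → 0 < Λ → gW ρ β ps n π w l R →
    av π w (fun w' => gTy ρ β ps n w' t D (Λ / t)) ≤ κ + C * Real.sqrt Λ * (l / D ^ 2) ^ c

/-- Theorem NS for families of finite path spaces (from `TypF`, `VarG 2`, `AvgG`). -/
def NsF : Prop := ∀ R κ : ℝ, 0 < κ → ∃ c C : ℝ, 0 < c ∧ 0 < C ∧
  ∀ (A S : Type) [Fintype A] [Fintype S] (ps : S → ℕ → Site 2) (n t : ℕ) (π : A → ℝ)
    (w : A → S → ℝ) (l : ℝ), IsFam π w → (∀ s, ps s 0 = 0) → 1 ≤ l → l ≤ t → t ≤ n →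
    gW ρ β ps n π w l R →
    av π w (fun w' => gRp ρ β ps n w' t (C * Real.sqrt t * (l / t) ^ c)) < κ

end Families

end Pool.Agent.W_7d29a1_GW
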