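import Pool.Agent.W_7d29a1_GW.DefsG31

/-!
Theorem GW, part 2: random a priori path measures on a countable space, the polymer of the Gaussian
walk, separation of the replicas, the theorem.
-/

namespace Pool.Agent.W_7d29a1_GW

open MeasureTheory ProbabilityTheory Filter Topology Pool.Agent.W_MP_7d29a1_pr
  Pool.Agent.W_7d29a1_h46 Pool.Agent.W_7d29a1_h46u Pool.Agent.W_7d29a1_D2.B35
  Pool.Agent.W_7d29a1_Q29 Pool.Agent.W_7d29a1_S90 Pool.Agent.W_7d29a1_NS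

section Limits

variable (ρ : Measure ℝ) (β : ℝ)

/-- Leaf LIS (from `NsF`): a finite path space with random a priori weights. -/
def NsI : Prop := ∀ R κ : ℝ, 0 < κ → ∃ γ C : ℝ, 0 < γ ∧ 0 < C ∧
  ∀ (V : Type) [MeasurableSpace V] (ν : Measure V) [IsProbabilityMeasure ν] (S : Type)
    [Fintype S] (ps : S → ℕ → Site 2) (n t : ℕ) (w : V → S → ℝ) (l : ℝ),
    (∀ s, Measurable fun u => w u s) → (∀ u, (∀ s, 0 ≤ w u s) ∧ ∑ s, w u s = 1) →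
    (∀ s, ps s 0 = 0) → 1 ≤ l → l ≤ t → t ≤ n →
    (∀ τ t' : ℕ, τ < t' → t' ≤ n → l ≤ (t' : ℝ) - τ → ∃ m : Vec 2,
      ∫ u, ∫ η, gp β ps n (w u) η (fun s => gi ps τ t' m s ^ 2) ∂(law 2 ρ) ∂ν ≤
        R * ((t' : ℝ) - τ)) →
    ∫ u, gRp ρ β ps n (w u) t (C * Real.sqrt t * (l / t) ^ γ) ∂ν ≤ κ

/-- The site at the time `t` of a path of sites (the origin at the time `0`). -/
def cs {n : ℕ} (c : Fin n → Site 2) (t : ℕ) : Site 2 :=
  if h : 1 ≤ t ∧ t ≤ n then c ⟨t - 1, by omega⟩ else 0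

/-- The polymer measure with the a priori measure `P` on the paths of sites. -/
noncomputable def oP {n : ℕ} (β : ℝ) (η : Env 2) (P : Measure (Fin n → Site 2)) :
    Measure (Fin n → Site 2) :=
  P.tilted fun c => β * ∑ i : Fin n, η ((i : ℕ) + 1, c i)

open Classical in
/-- Leaf LIK (from `NsI`): theorem NS for random a priori measures on the paths of sites. -/
def NsO : Prop := ∀ R κ b : ℝ, 0 < κ → ρ (Set.Icc (-b) b)ᶜ = 0 → ∃ γ C : ℝ, 0 < γ ∧ 0 < C ∧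
  ∀ (V : Type) [MeasurableSpace V] (ν : Measure V) [IsProbabilityMeasure ν] (n t : ℕ)
    (P : V → Measure (Fin n → Site 2)) (B l : ℝ), (∀ u, IsProbabilityMeasure (P u)) →
    (∀ c, Measurable fun u => P u {c}) →
    (∀ᵐ u ∂ν, ∀ i : Fin n, Integrable (fun c : Fin n → Site 2 => ‖emb (c i)‖ ^ 2) (P u) ∧
      ∫ c, ‖emb (c i)‖ ^ 2 ∂(P u) ≤ B) → 1 ≤ l → l ≤ t → t ≤ n →
    (∀ τ t' : ℕ, τ < t' → t' ≤ n → l ≤ (t' : ℝ) - τ → ∃ m : Vec 2,
      ∫ u, ∫ η, ∫ c, ‖emb (cs c t') - emb (cs c τ) - m‖ ^ 2 ∂(oP β η (P u)) ∂(law 2 ρ) ∂ν ≤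
        R * ((t' : ℝ) - τ)) →
    ∫ u, ∫ η, ∫ c, ∫ c', (if C * Real.sqrt t * (l / t) ^ γ < ‖emb (cs c t) - emb (cs c' t)‖
      then (1 : ℝ) else 0) ∂(oP β η (P u)) ∂(oP β η (P u)) ∂(law 2 ρ) ∂ν ≤ κ

end Limits

/-! ### The polymer of the Gaussian walk -/

/-- The uniform law on `[0,1)`. -/
noncomputable def uni : Measure ℝ := volume.restrict (Set.Ico (0 : ℝ) 1)

instance : IsProbabilityMeasure uni := ⟨by simp [uni]⟩

/-- The offsets of the rows: independent and uniform in `[0,1)^2`. -/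
noncomputable def off : Measure (ℕ × Fin 2 → ℝ) := Measure.infinitePi fun _ => uni

instance : IsProbabilityMeasure off := by
  unfold off
  infer_instance

/-- `n` independent standard Gaussian vectors of `ℝ^2`, the steps. -/
noncomputable def gam (n : ℕ) : Measure (Fin n → Fin 2 → ℝ) :=
  Measure.pi fun _ => Measure.pi fun _ => gaussianReal 0 1

instance (n : ℕ) : IsProbabilityMeasure (gam n) := by
  unfold gam
  infer_instance

/-- The position at the time `t`. -/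
noncomputable def sp {n : ℕ} (s : Fin n → Fin 2 → ℝ) (t : ℕ) : Vec 2 :=
  WithLp.toLp 2 fun j => ∑ i : Fin n, if (i : ℕ) < t then s i j else 0

/-- The cell of the row `t` in which the walk is at the time `t`. -/
noncomputable def cel {n : ℕ} (u : ℕ × Fin 2 → ℝ) (s : Fin n → Fin 2 → ℝ) (t : ℕ) : Site 2 :=
  fun j => ⌊sp s t j + u (t, j)⌋

/-- The energy. -/
noncomputable def gE {n : ℕ} (u : ℕ × Fin 2 → ℝ) (η : Env 2) (s : Fin n → Fin 2 → ℝ) : ℝ :=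
  ∑ i : Fin n, η ((i : ℕ) + 1, cel u s (i + 1))

/-- The polymer measure of the Gaussian walk of length `n`, with a tilt `v` of the first coordinate
of the end point. -/
noncomputable def Qg (β : ℝ) (n : ℕ) (v : ℝ) (u : ℕ × Fin 2 → ℝ) (η : Env 2) :
    Measure (Fin n → Fin 2 → ℝ) :=
  (gam n).tilted fun s => β * gE u η s + v * sp s n 0

/-- Every step of the walk is moved by `v` in the first coordinate. -/
def shf {n : ℕ} (v : ℝ) (s : Fin n → Fin 2 → ℝ) : Fin n → Fin 2 → ℝ :=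
  fun i j => if j = 0 then s i j + v else s i j

section Model

variable (ρ : Measure ℝ) (β : ℝ)

open Classical in
/-- Leaf CEL (from `NsO`): theorem NS for the Gaussian walk. -/
def NsW : Prop := ∀ R κ b : ℝ, 0 < κ → ρ (Set.Icc (-b) b)ᶜ = 0 → ∃ γ C : ℝ, 0 < γ ∧ 0 < C ∧
  ∀ (n t : ℕ) (l : ℝ), 1 ≤ l → l ≤ t → t ≤ n →
    (∀ τ t' : ℕ, τ < t' → t' ≤ n → l ≤ (t' : ℝ) - τ → ∃ m : Vec 2,
      ∫ u, ∫ η, ∫ s, ‖sp s t' - sp s τ - m‖ ^ 2 ∂(Qg β n 0 u η) ∂(law 2 ρ) ∂off ≤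
        R * ((t' : ℝ) - τ)) →
    ∫ u, ∫ η, ∫ s, ∫ s', (if C * Real.sqrt t * (l / t) ^ γ < ‖sp s t - sp s' t‖ then (1 : ℝ)
      else 0) ∂(Qg β n 0 u η) ∂(Qg β n 0 u η) ∂(law 2 ρ) ∂off ≤ κ

/-- Leaf SHP: the tilt is a shift of the walk, of the offsets and of the environment. -/
def ShpG : Prop := ∀ (n : ℕ) (v : ℝ) (u : ℕ × Fin 2 → ℝ) (η : Env 2),
  Qg β n v u η = (Qg β n 0 (fun p => if p.2 = 0 then Int.fract (u p + v * p.1) else u p)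
    (fun p => η (p.1, fun j => if j = 0 then p.2 j + ⌊u (p.1, 0) + v * p.1⌋ else p.2 j))).map
      (shf v)

/-- Leaf MES: measurability in the offsets, the environment and the tilt. -/
def MesG : Prop := ∀ (n : ℕ)
  (F : (Fin n → Fin 2 → ℝ) → (Fin n → Fin 2 → ℝ) → ENNReal), Measurable (Function.uncurry F) →
  Measurable fun p : (ℕ × Fin 2 → ℝ) × Env 2 × ℝ =>
    ∫⁻ s, ∫⁻ s', F s s' ∂(Qg β n p.2.2 p.1 p.2.1) ∂(Qg β n p.2.2 p.1 p.2.1)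

/-- Leaf SHR (from `ShpG`, `MesG`): exact shear invariance. -/
def ShrG : Prop := ∀ (n : ℕ) (v : ℝ)
  (F : (Fin n → Fin 2 → ℝ) → (Fin n → Fin 2 → ℝ) → ENNReal), Measurable (Function.uncurry F) →
  ∫⁻ u, ∫⁻ η, ∫⁻ s, ∫⁻ s', F s s' ∂(Qg β n v u η) ∂(Qg β n v u η) ∂(law 2 ρ) ∂off =
    ∫⁻ u, ∫⁻ η, ∫⁻ s, ∫⁻ s', F (shf v s) (shf v s') ∂(Qg β n 0 u η) ∂(Qg β n 0 u η)
      ∂(law 2 ρ) ∂off

open Classical in
/-- Leaf SEP (from `ShrG`, `DerG`, `MesG`): the replicas are separated. -/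
def SepG : Prop := ∀ b R : ℝ, ρ (Set.Icc (-b) b)ᶜ = 0 → 0 < R → ∀ n : ℕ, 1 ≤ n →
  (∃ m : Vec 2, ∫ u, ∫ η, ∫ s, ‖sp s n - m‖ ^ 2 ∂(Qg β n 0 u η) ∂(law 2 ρ) ∂off ≤ R * n) →
    1 / (256 * R ^ 2) ≤ ∫ u, ∫ η, ∫ s, ∫ s', (if Real.sqrt n / 2 < ‖sp s n - sp s' n‖
      then (1 : ℝ) else 0) ∂(Qg β n 0 u η) ∂(Qg β n 0 u η) ∂(law 2 ρ) ∂off

/-- **Theorem GW** (from `NsW`, `SepG`): in dimension two, at zero tilt, for every `R` and all
large `n` the mean square displacement of some macroscopic window is more than `R` times its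
length. -/
def MainG : Prop := ∀ b R : ℝ, ρ (Set.Icc (-b) b)ᶜ = 0 → ∃ ε : ℝ, 0 < ε ∧ ∃ N₀ : ℕ, ∀ n : ℕ,
  N₀ ≤ n → ∃ τ t : ℕ, τ < t ∧ t ≤ n ∧ ε * n ≤ (t : ℝ) - τ ∧ ∀ m : Vec 2,
    R * ((t : ℝ) - τ) <
      ∫ u, ∫ η, ∫ s, ‖sp s t - sp s τ - m‖ ^ 2 ∂(Qg β n 0 u η) ∂(law 2 ρ) ∂off

end Model

/-- Leaf DER (abstract): the derivative of the mean of a bounded function in the tilt. -/
def DerG : Prop := ∀ (Ω : Type) [MeasurableSpace Ω] (μ : Measure Ω) [IsProbabilityMeasure μ]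
  (X φ : Ω → ℝ) (K v₀ : ℝ), Measurable X → Measurable φ → (∀ x, |φ x| ≤ K) →
  (∀ v : ℝ, Integrable (fun x => Real.exp (v * X x)) μ) → 0 ≤ v₀ →
    IntervalIntegrable (fun v => ∫ x, ∫ y, (φ x - φ y) * (X x - X y)
      ∂(μ.tilted fun z => v * X z) ∂(μ.tilted fun z => v * X z)) volume (-v₀) v₀ ∧
    (∫ x, φ x ∂(μ.tilted fun z => v₀ * X z)) - ∫ x, φ x ∂(μ.tilted fun z => -v₀ * X z) =
      ∫ v in (-v₀)..v₀, (1 / 2) * ∫ x, ∫ y, (φ x - φ y) * (X x - X y)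
        ∂(μ.tilted fun z => v * X z) ∂(μ.tilted fun z => v * X z)

end Pool.Agent.W_7d29a1_GW
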