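import Mathlib

/-!
Separation of the replicas by an exact shear invariance, abstract part: the family of the tilted
measures of a fixed environment.
-/

set_option autoImplicit false

namespace Pool.Agent.W_7d29a1_GW.S62

open MeasureTheory Filter Topology

/-- The quenched mean with the energy `h`. -/
noncomputable def q1 {Ω : Type*} [MeasurableSpace Ω] (P : Measure Ω) (h f : Ω → ℝ) : ℝ :=
  (∫ ω, f ω * Real.exp (h ω) ∂P) / ∫ ω, Real.exp (h ω) ∂P

/-- The quenched mean over two replicas. -/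
noncomputable def q2 {Ω : Type*} [MeasurableSpace Ω] (P : Measure Ω) (h : Ω → ℝ)
    (F : Ω × Ω → ℝ) : ℝ :=
  (∫ z, F z * (Real.exp (h z.1) * Real.exp (h z.2)) ∂(P.prod P)) / (∫ ω, Real.exp (h ω) ∂P) ^ 2

section Fix

variable {Ω : Type*} [MeasurableSpace Ω] {P : Measure Ω} [IsProbabilityMeasure P] {X : Ω → ℝ}

omit [IsProbabilityMeasure P] in
lemma int_abs (hX : Measurable X) (hE : ∀ v : ℝ, Integrable (fun ω => Real.exp (v * X ω)) P)
    (k : ℝ) : Integrable (fun ω => Real.exp (k * |X ω|)) P := by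
  refine ((hE k).add (hE (-k))).mono (by fun_prop) (Eventually.of_forall fun w => ?_)
  rw [Real.norm_eq_abs, abs_of_pos (Real.exp_pos _), Real.norm_eq_abs]
  refine le_trans ?_ (le_abs_self _)
  show Real.exp (k * |X w|) ≤ Real.exp (k * X w) + Real.exp (-k * X w)
  rcases le_total 0 (X w) with h | h
  · rw [abs_of_nonneg h]
    linarith [Real.exp_pos (-k * X w)]
  · rw [abs_of_nonpos h, show k * -X w = -k * X w by ring]
    linarith [Real.exp_pos (k * X w)]

omit [IsProbabilityMeasure P] in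
/-- Everything dominated by an exponential of `|X|` is integrable. -/
lemma int_dom (hX : Measurable X) (hE : ∀ v : ℝ, Integrable (fun ω => Real.exp (v * X ω)) P)
    {g : Ω → ℝ} (hg : Measurable g) {a k : ℝ} (hb : ∀ ω, |g ω| ≤ a * Real.exp (k * |X ω|)) :
    Integrable g P := by
  refine ((int_abs hX hE k).const_mul a).mono hg.aestronglyMeasurable
    (Eventually.of_forall fun w => ?_)
  rw [Real.norm_eq_abs, Real.norm_eq_abs]
  exact (hb w).trans (le_abs_self _)

lemma mul_exp_le {x v : ℝ} : Real.exp (v * x) ≤ Real.exp (|v| * |x|) := by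
  rw [Real.exp_le_exp, ← abs_mul]
  exact le_abs_self _

omit [IsProbabilityMeasure P] in
lemma int_exp (hX : Measurable X) (hE : ∀ v : ℝ, Integrable (fun ω => Real.exp (v * X ω)) P)
    {g : Ω → ℝ} (hg : Measurable g) {a k : ℝ} (hb : ∀ ω, |g ω| ≤ a * Real.exp (k * |X ω|))
    (v : ℝ) : Integrable (fun ω => g ω * Real.exp (v * X ω)) P := by
  refine int_dom hX hE (hg.mul (by fun_prop)) (a := a) (k := k + |v|) fun ω => ?_
  rw [abs_mul, abs_of_pos (Real.exp_pos _), add_mul, Real.exp_add, ← mul_assoc]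
  exact mul_le_mul (hb ω) mul_exp_le (Real.exp_pos _).le ((abs_nonneg _).trans (hb ω))

omit [MeasurableSpace Ω] in
lemma dom_mul {g : Ω → ℝ} {a k : ℝ} (hb : ∀ ω, |g ω| ≤ a * Real.exp (k * |X ω|)) :
    ∀ ω, |g ω * X ω| ≤ a * Real.exp ((k + 1) * |X ω|) := by
  intro ω
  rw [abs_mul, add_mul, one_mul, Real.exp_add, ← mul_assoc]
  refine mul_le_mul (hb ω) ?_ (abs_nonneg _) ((abs_nonneg _).trans (hb ω))
  linarith [Real.add_one_le_exp |X ω|]

/-- The derivative of the integral. -/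
lemma deriv_int (hX : Measurable X) (hE : ∀ v : ℝ, Integrable (fun ω => Real.exp (v * X ω)) P)
    {g : Ω → ℝ} (hg : Measurable g) {a k : ℝ} (hb : ∀ ω, |g ω| ≤ a * Real.exp (k * |X ω|))
    (v : ℝ) : HasDerivAt (fun v : ℝ => ∫ ω, g ω * Real.exp (v * X ω) ∂P)
      (∫ ω, g ω * X ω * Real.exp (v * X ω) ∂P) v := by
  have hs : Metric.ball v 1 ∈ 𝓝 v := Metric.ball_mem_nhds v one_pos
  refine (hasDerivAt_integral_of_dominated_loc_of_deriv_le (F := fun (v : ℝ) ω =>
    g ω * Real.exp (v * X ω)) (F' := fun (v : ℝ) ω => g ω * X ω * Real.exp (v * X ω))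
    (bound := fun ω => a * Real.exp ((k + 1 + (|v| + 1)) * |X ω|)) hs ?_
    (int_exp hX hE hg hb v) ?_ ?_ ?_ ?_).2
  · exact Eventually.of_forall fun v => (hg.mul (by fun_prop)).aestronglyMeasurable
  · exact ((hg.mul hX).mul (by fun_prop)).aestronglyMeasurable
  · refine Eventually.of_forall fun ω u hu => ?_
    rw [Real.norm_eq_abs, abs_mul, abs_of_pos (Real.exp_pos _), add_mul, Real.exp_add, ← mul_assoc]
    refine mul_le_mul (dom_mul hb ω) ?_ (Real.exp_pos _).le ((abs_nonneg _).trans (dom_mul hb ω))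
    refine mul_exp_le.trans ?_
    rw [Real.exp_le_exp]
    have h1 : |u| ≤ |v| + 1 := by
      have h2 : |u - v| < 1 := by simpa [Real.dist_eq] using hu
      have h3 := abs_sub_abs_le_abs_sub u v
      linarith
    exact mul_le_mul_of_nonneg_right h1 (abs_nonneg _)
  · exact (int_abs hX hE _).const_mul a
  · refine Eventually.of_forall fun ω u _ => ?_
    have h1 : HasDerivAt (fun u : ℝ => u * X ω) (X ω) u := by
      simpa using (hasDerivAt_id u).mul_const (X ω)
    have h2 := (h1.exp).const_mul (g ω)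
    have h3 : g ω * (Real.exp (u * X ω) * X ω) = g ω * X ω * Real.exp (u * X ω) := by ring
    rwa [h3] at h2

lemma cont_int (hX : Measurable X) (hE : ∀ v : ℝ, Integrable (fun ω => Real.exp (v * X ω)) P)
    {g : Ω → ℝ} (hg : Measurable g) {a k : ℝ} (hb : ∀ ω, |g ω| ≤ a * Real.exp (k * |X ω|)) :
    Continuous (fun v : ℝ => ∫ ω, g ω * Real.exp (v * X ω) ∂P) :=
  continuous_iff_continuousAt.2 fun v => (deriv_int hX hE hg hb v).continuousAt

/-- The covariance. -/
noncomputable def qc (P : Measure Ω) (h f g : Ω → ℝ) : ℝ :=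
  q1 P h (fun ω => f ω * g ω) - q1 P h f * q1 P h g

lemma Z_pos {h : Ω → ℝ} (hi : Integrable (fun ω => Real.exp (h ω)) P) :
    0 < ∫ ω, Real.exp (h ω) ∂P := integral_exp_pos hi

/-- The increment of the tilted mean is the integral of the covariances. -/
lemma ftc (hX : Measurable X) (hE : ∀ v : ℝ, Integrable (fun ω => Real.exp (v * X ω)) P)
    {h φ : Ω → ℝ} (hh : Measurable h) {M : ℝ} (hM : ∀ ω, |h ω| ≤ M) (hφ : Measurable φ) {a : ℝ}
    (ha : ∀ ω, |φ ω| ≤ a) :
    Continuous (fun v : ℝ => qc P (fun ω => h ω + v * X ω) φ X) ∧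
    ∀ u v : ℝ, ∫ t in u..v, qc P (fun ω => h ω + t * X ω) φ X =
      q1 P (fun ω => h ω + v * X ω) φ - q1 P (fun ω => h ω + u * X ω) φ := by
  -- the four integrals
  set g0 : Ω → ℝ := fun ω => Real.exp (h ω) with hg0
  set g1 : Ω → ℝ := fun ω => φ ω * Real.exp (h ω) with hg1
  have m0 : Measurable g0 := Real.measurable_exp.comp hh
  have m1 : Measurable g1 := hφ.mul m0
  have b0 : ∀ ω, |g0 ω| ≤ Real.exp M * Real.exp (0 * |X ω|) := by
    intro ω
    rw [zero_mul, Real.exp_zero, mul_one, abs_of_pos (Real.exp_pos _), Real.exp_le_exp]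
    exact (le_abs_self _).trans (hM ω)
  have b1 : ∀ ω, |g1 ω| ≤ (a * Real.exp M) * Real.exp (0 * |X ω|) := by
    intro ω
    have h1 := b0 ω
    rw [zero_mul, Real.exp_zero, mul_one] at h1 ⊢
    show |φ ω * Real.exp (h ω)| ≤ _
    rw [abs_mul]
    exact mul_le_mul (ha ω) h1 (abs_nonneg _) ((abs_nonneg _).trans (ha ω))
  have eZ : ∀ v : ℝ, ∫ ω, Real.exp (h ω + v * X ω) ∂P = ∫ ω, g0 ω * Real.exp (v * X ω) ∂P := by
    intro v
    simp only [hg0, Real.exp_add]
  have eN : ∀ v : ℝ, ∫ ω, φ ω * Real.exp (h ω + v * X ω) ∂P =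
      ∫ ω, g1 ω * Real.exp (v * X ω) ∂P := by
    intro v
    simp only [hg1, Real.exp_add, mul_assoc]
  have eZ' : ∀ v : ℝ, ∫ ω, X ω * Real.exp (h ω + v * X ω) ∂P =
      ∫ ω, g0 ω * X ω * Real.exp (v * X ω) ∂P := by
    intro v
    refine integral_congr_ae (Eventually.of_forall fun ω => ?_)
    simp only [hg0, Real.exp_add]
    ring
  have eN' : ∀ v : ℝ, ∫ ω, φ ω * X ω * Real.exp (h ω + v * X ω) ∂P =
      ∫ ω, g1 ω * X ω * Real.exp (v * X ω) ∂P := by
    intro v
    refine integral_congr_ae (Eventually.of_forall fun ω => ?_)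
    simp only [hg1, Real.exp_add]
    ring
  have Zp : ∀ v : ℝ, 0 < ∫ ω, g0 ω * Real.exp (v * X ω) ∂P := by
    intro v
    rw [← eZ v]
    refine Z_pos ?_
    have := int_exp hX hE m0 b0 v
    simpa only [hg0, ← Real.exp_add] using this
  have cZ := cont_int hX hE m0 b0
  have cN := cont_int hX hE m1 b1
  have cZ' := cont_int hX hE (m0.mul hX) (dom_mul b0)
  have cN' := cont_int hX hE (m1.mul hX) (dom_mul b1)
  have eqc : ∀ v : ℝ, qc P (fun ω => h ω + v * X ω) φ X =
      (∫ ω, g1 ω * X ω * Real.exp (v * X ω) ∂P) / (∫ ω, g0 ω * Real.exp (v * X ω) ∂P) -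
      (∫ ω, g1 ω * Real.exp (v * X ω) ∂P) / (∫ ω, g0 ω * Real.exp (v * X ω) ∂P) *
        ((∫ ω, g0 ω * X ω * Real.exp (v * X ω) ∂P) / (∫ ω, g0 ω * Real.exp (v * X ω) ∂P)) := by
    intro v
    unfold qc q1
    rw [eZ, eN, eZ', eN']
  have hcont : Continuous (fun v : ℝ => qc P (fun ω => h ω + v * X ω) φ X) := by
    simp only [eqc]
    exact (cN'.div cZ fun v => (Zp v).ne').sub
      ((cN.div cZ fun v => (Zp v).ne').mul (cZ'.div cZ fun v => (Zp v).ne'))
  refine ⟨hcont, fun u v => ?_⟩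
  have hder : ∀ t : ℝ, HasDerivAt (fun t : ℝ => q1 P (fun ω => h ω + t * X ω) φ)
      (qc P (fun ω => h ω + t * X ω) φ X) t := by
    intro t
    have h1 := (deriv_int hX hE m1 b1 t).div (deriv_int hX hE m0 b0 t) (Zp t).ne'
    have h2 : (fun t : ℝ => q1 P (fun ω => h ω + t * X ω) φ) = fun t : ℝ =>
        (∫ ω, g1 ω * Real.exp (t * X ω) ∂P) / (∫ ω, g0 ω * Real.exp (t * X ω) ∂P) := by
      funext t
      unfold q1
      rw [eZ, eN]
    rw [h2, eqc]
    have key : ∀ N' N Z' Z : ℝ, Z ≠ 0 → (N' * Z - N * Z') / Z ^ 2 = N' / Z - N / Z * (Z' / Z) := by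
      intro N' N Z' Z hZ
      field_simp
    exact h1.congr_deriv (key _ _ _ _ (Zp t).ne')
  exact intervalIntegral.integral_eq_sub_of_hasDerivAt (fun t _ => hder t)
    (hcont.intervalIntegrable _ _)

end Fix

end Pool.Agent.W_7d29a1_GW.S62
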