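import Pool.Agent.W_7d29a1_GW.DefsM31
import Pool.Agent.W_7d29a1_GW.SepA62

/-!
Leaf DER: the derivative of the mean of a bounded function in the tilt.
-/

set_option autoImplicit false

namespace Pool.Agent.W_7d29a1_GW.S62

open MeasureTheory Filter Topology

section Fix

variable {Ω : Type*} [MeasurableSpace Ω] {P : Measure Ω} [IsProbabilityMeasure P] {X : Ω → ℝ}

omit [IsProbabilityMeasure P] in
lemma tilt_q1 (h f : Ω → ℝ) : ∫ x, f x ∂(P.tilted h) = q1 P h f := by
  rw [integral_tilted]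
  unfold q1
  rw [← integral_div]
  refine integral_congr_ae (Eventually.of_forall fun x => ?_)
  show (Real.exp (h x) / ∫ y, Real.exp (h y) ∂P) • f x = _
  rw [smul_eq_mul]
  ring

lemma dbl {ν : Measure Ω} [IsProbabilityMeasure ν] {φ Y : Ω → ℝ} (h1 : Integrable φ ν)
    (h2 : Integrable Y ν) (h3 : Integrable (fun x => φ x * Y x) ν) :
    ∫ x, ∫ y, (φ x - φ y) * (Y x - Y y) ∂ν ∂ν =
      2 * (∫ x, φ x * Y x ∂ν - (∫ x, φ x ∂ν) * ∫ x, Y x ∂ν) := by
  have e1 : ∀ x, ∫ y, (φ x - φ y) * (Y x - Y y) ∂ν =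
      φ x * Y x - φ x * (∫ y, Y y ∂ν) - Y x * (∫ y, φ y ∂ν) + ∫ y, φ y * Y y ∂ν := by
    intro x
    have e2 : ∀ y, (φ x - φ y) * (Y x - Y y) =
        φ x * Y x - φ x * Y y - Y x * φ y + φ y * Y y := by
      intro y
      ring
    simp only [e2]
    have j1 : Integrable (fun _ : Ω => φ x * Y x) ν := integrable_const _
    have j2 : Integrable (fun y => φ x * Y y) ν := h2.const_mul _
    have j3 : Integrable (fun y => Y x * φ y) ν := h1.const_mul _
    have j12 : Integrable (fun y => φ x * Y x - φ x * Y y) ν := j1.sub j2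
    have j123 : Integrable (fun y => φ x * Y x - φ x * Y y - Y x * φ y) ν := j12.sub j3
    have k3 : ∫ y, Y x * φ y ∂ν = Y x * ∫ y, φ y ∂ν := integral_const_mul _ _
    have k2 : ∫ y, φ x * Y y ∂ν = φ x * ∫ y, Y y ∂ν := integral_const_mul _ _
    rw [integral_add j123 h3, integral_sub j12 j3, integral_sub j1 j2, k2, k3]
    simp
  simp only [e1]
  have j2 : Integrable (fun x => φ x * (∫ y, Y y ∂ν)) ν := h1.mul_const _
  have j3 : Integrable (fun x => Y x * (∫ y, φ y ∂ν)) ν := h2.mul_const _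
  have j12 : Integrable (fun x => φ x * Y x - φ x * (∫ y, Y y ∂ν)) ν := h3.sub j2
  have j123 : Integrable (fun x => φ x * Y x - φ x * (∫ y, Y y ∂ν) - Y x * (∫ y, φ y ∂ν)) ν :=
    j12.sub j3
  rw [integral_add j123 (integrable_const _), integral_sub j12 j3, integral_sub h3 j2,
    integral_mul_const, integral_mul_const]
  simp
  ring

end Fix

end Pool.Agent.W_7d29a1_GW.S62

namespace Pool.Agent.W_7d29a1_GW

open MeasureTheory Filter Topology

theorem derG62 : DerG := by
  intro Ω _ μ _ X φ K v₀ hX hφ hK hE h0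
  have hM : ∀ ω : Ω, |(fun _ : Ω => (0 : ℝ)) ω| ≤ 0 := fun ω => by simp
  obtain ⟨hc, hf⟩ := S62.ftc (P := μ) hX hE (h := fun _ => (0 : ℝ)) measurable_const hM hφ hK
  have hm0 : ∀ v : ℝ, (fun ω => (0 : ℝ) + v * X ω) = fun ω => v * X ω := by
    intro v
    funext ω
    rw [zero_add]
  simp only [hm0] at hc hf
  have hd : ∀ ω, |X ω| ≤ 1 * Real.exp (1 * |X ω|) := by
    intro ω
    rw [one_mul, one_mul]
    linarith [Real.add_one_le_exp |X ω|]
  have hp : ∀ v : ℝ, IsProbabilityMeasure (μ.tilted fun z => v * X z) := fun v =>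
    isProbabilityMeasure_tilted (hE v)
  -- integrability under the tilted measure
  have hi : ∀ (v : ℝ) {g : Ω → ℝ}, Measurable g → ∀ {a k : ℝ},
      (∀ ω, |g ω| ≤ a * Real.exp (k * |X ω|)) → Integrable g (μ.tilted fun z => v * X z) := by
    intro v g hg a k hb
    have h1 := S62.int_exp hX hE hg hb v
    rw [integrable_tilted_iff (hE v)]
    refine h1.congr (Eventually.of_forall fun ω => ?_)
    show g ω * Real.exp (v * X ω) = Real.exp (v * X ω) • g ω
    rw [smul_eq_mul, mul_comm]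
  have key : ∀ v : ℝ, ∫ x, ∫ y, (φ x - φ y) * (X x - X y)
      ∂(μ.tilted fun z => v * X z) ∂(μ.tilted fun z => v * X z) =
      2 * S62.qc μ (fun z => v * X z) φ X := by
    intro v
    have := hp v
    have b1 : ∀ ω, |φ ω| ≤ K * Real.exp (0 * |X ω|) := by
      intro ω
      rw [zero_mul, Real.exp_zero, mul_one]
      exact hK ω
    have h3 : ∀ ω, |φ ω * X ω| ≤ K * Real.exp ((0 + 1) * |X ω|) := S62.dom_mul b1
    rw [S62.dbl (hi v hφ b1) (hi v hX hd) (hi v (hφ.mul hX) h3)]
    unfold S62.qc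
    rw [S62.tilt_q1, S62.tilt_q1, S62.tilt_q1]
  constructor
  · simp only [key]
    exact (hc.const_mul 2).intervalIntegrable _ _
  · simp only [key]
    rw [S62.tilt_q1, S62.tilt_q1, ← hf (-v₀) v₀]
    refine intervalIntegral.integral_congr fun v _ => ?_
    ring

end Pool.Agent.W_7d29a1_GW
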