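import Pool.Agent.W_7d29a1_GW.Core63

/-!
Theorem NS for families of finite path spaces, final form.
-/

namespace Pool.Agent.W_7d29a1_GW

open MeasureTheory ProbabilityTheory Filter Topology Pool.Agent.W_MP_7d29a1_pr
  Pool.Agent.W_7d29a1_h46 Pool.Agent.W_7d29a1_h46u Pool.Agent.W_7d29a1_D2.B35
  Pool.Agent.W_7d29a1_Q29 Pool.Agent.W_7d29a1_Q29.D85 Pool.Agent.W_7d29a1_S90
  Pool.Agent.W_7d29a1_NS

section Ends

variable {d : ℕ} {S : Type} [Fintype S] {β : ℝ} {ps : S → ℕ → Site d} {n : ℕ} {w : S → ℝ}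
  {ρ : Measure ℝ} [IsProbabilityMeasure ρ]

open Classical in
lemma gRp_anti63 (hw : ∀ s, 0 ≤ w s) (hs : 0 < ∑ s, w s) (t : ℕ) {r r' : ℝ} (hr : r ≤ r') :
    gRp ρ β ps n w t r' ≤ gRp ρ β ps n w t r := by
  have i1 : ∀ F : S → S → ℝ, (∀ s s', 0 ≤ F s s' ∧ F s s' ≤ 1) →
      Integrable (fun η : Env d => gp2 β ps n w η F) (law d ρ) := fun F hF =>
    int_gp2_63 hw hs (f := fun _ => F) (fun _ _ => measurable_const) fun _ => hF
  unfold gRp
  refine integral_mono (i1 _ fun s s' => by split_ifs <;> norm_num)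
    (i1 _ fun s s' => by split_ifs <;> norm_num) fun η => ?_
  refine gp2_mono63 hw hs η fun s s' => ?_
  by_cases h1 : r' < ‖emb (ps s t) - emb (ps s' t)‖
  · rw [if_pos h1, if_pos (lt_of_le_of_lt hr h1)]
  · rw [if_neg h1]
    split_ifs <;> norm_num

open Classical in
lemma gRp_zero63 (hw : ∀ s, 0 ≤ w s) (hs : 0 < ∑ s, w s) (hps : ∀ s, ps s 0 = 0) :
    gRp ρ β ps n w 0 0 = 0 := by
  unfold gRp
  have h1 : ∀ η : Env d, gp2 β ps n w η (fun s s' =>
      if 0 < ‖emb (ps s 0) - emb (ps s' 0)‖ then (1 : ℝ) else 0) = 0 := by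
    intro η
    have h2 : (fun s s' : S =>
        if 0 < ‖emb (ps s 0) - emb (ps s' 0)‖ then (1 : ℝ) else 0) = fun _ _ => 0 := by
      funext s s'
      rw [hps, hps, sub_self, norm_zero]
      simp
    rw [h2]
    unfold gp2
    rw [gp_const63 hw hs, gp_const63 hw hs]
  simp only [h1, integral_zero]

/-- Chebyshev for two replicas. -/
lemma gRp_cheb63 (hw : ∀ s, 0 ≤ w s) (hs : 0 < ∑ s, w s) (hps : ∀ s, ps s 0 = 0) (t : ℕ)
    (M : Vec d) {r : ℝ} (hr : 0 < r) : gRp ρ β ps n w t r ≤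
      8 / r ^ 2 * ∫ η, gp β ps n w η (fun s => gi ps 0 t M s ^ 2) ∂(law d ρ) := by
  have h1 := rpqG63 (ρ := ρ) (β := β) (ps := ps) (n := n) hw hs 0 t M r (r / 2)
  have h2 := tlqG63 (ρ := ρ) (β := β) (ps := ps) (n := n) hw hs 0 t M (a := r / 2) (by positivity)
  have e1 : r - 2 * (r / 2) = 0 := by ring
  rw [e1, gRp_zero63 hw hs hps] at h1
  set Y : ℝ := ∫ η, gp β ps n w η (fun s => gi ps 0 t M s ^ 2) ∂(law d ρ) with hY
  have e2 : Y / (r / 2) ^ 2 = 4 / r ^ 2 * Y := by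
    field_simp
    norm_num
  rw [e2] at h2
  have e3 : 8 / r ^ 2 * Y = 2 * (4 / r ^ 2 * Y) := by ring
  linarith

end Ends

variable {ρ : Measure ℝ} [IsProbabilityMeasure ρ]

/-- **Theorem NS for families of finite path spaces, from the leaves.** -/
theorem nsF63 {β : ℝ} (hT : TypF ρ β) (hV : VarG 2 ρ β) (hA : AvgG ρ β) : NsF ρ β := by
  intro R κ hκ
  obtain ⟨c, hc0, hc1, hcore⟩ := coreG63 hT hV hA R κ hκ
  obtain ⟨R₁, hR1, hRR1⟩ : ∃ R₁ : ℝ, 1 ≤ R₁ ∧ R ≤ R₁ :=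
    ⟨max R 1, le_max_right _ _, le_max_left _ _⟩
  obtain ⟨a, ha⟩ : ∃ a : ℝ, a = c / (2 * (1 + c)) := ⟨_, rfl⟩
  have ha0 : 0 < a := by rw [ha]; positivity
  have ha2 : 2 * a * (1 + 1 / c) = 1 := by
    rw [ha]
    field_simp
    ring
  obtain ⟨K, hK⟩ : ∃ K : ℝ, K = 4 * Real.sqrt (R₁ / κ) := ⟨_, rfl⟩
  have hK0 : 0 < K := by rw [hK]; positivity
  refine ⟨a, (K + 1) * (1 / c) ^ a, ha0, by positivity,
    fun AA S _ _ ps n t π w l hF hps hl hlt htn hW => ?_⟩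
  have ht0' : (0 : ℝ) < t := by linarith
  have ht0 : 0 < t := by exact_mod_cast ht0'
  set y : ℝ := l / t with hy
  have hy0 : 0 < y := by positivity
  set D : ℝ := Real.sqrt t * (y / c) ^ a with hD
  have hD0 : 0 < D := by positivity
  have hr : (K + 1) * (1 / c) ^ a * Real.sqrt t * y ^ a = (K + 1) * D := by
    rw [hD, div_eq_mul_one_div y c, Real.mul_rpow hy0.le (by positivity)]
    ring
  rw [hr]
  have hD2 : D ^ 2 = t * (y / c) ^ (2 * a) := by
    rw [hD, mul_pow, Real.sq_sqrt ht0'.le, two_mul, Real.rpow_add (by positivity), sq]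
  by_cases hDt : D ^ 2 ≤ t
  · refine lt_of_le_of_lt (av_mono63 hF.1 (G := fun w' => gRp ρ β ps n w' t D) fun b =>
      gRp_anti63 (hF.2.2 b).1 (hF.2.2 b).2 t (by nlinarith)) ?_
    refine hcore AA S ps n t π w l D hF hps htn hl hD0 hDt (le_of_eq ?_) hW
    have e1 : D ^ 2 / t = (y / c) ^ (2 * a) := by
      rw [hD2]
      field_simp
    rw [e1, hD2]
    have e2 : (y / c) ^ (2 * a) * ((y / c) ^ (2 * a)) ^ (1 / c) = y / c := by
      rw [← Real.rpow_mul (by positivity), ← Real.rpow_add (by positivity)]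
      have e3 : 2 * a + 2 * a * (1 / c) = 1 := by
        calc 2 * a + 2 * a * (1 / c) = 2 * a * (1 + 1 / c) := by ring
          _ = 1 := ha2
      rw [e3, Real.rpow_one]
    calc l = c * t * (y / c) := by
          rw [hy]
          field_simp
      _ = c * t * ((y / c) ^ (2 * a) * ((y / c) ^ (2 * a)) ^ (1 / c)) := by rw [e2]
      _ = c * (t * (y / c) ^ (2 * a)) * ((y / c) ^ (2 * a)) ^ (1 / c) := by ring
  · push Not at hDt
    obtain ⟨M, hM⟩ := hW 0 t ht0 htn (by push_cast; linarith)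
    have hM' : av π w (fun w' => ∫ η, gp β ps n w' η (fun s => gi ps 0 t M s ^ 2)
        ∂(law 2 ρ)) ≤ R₁ * t := by
      refine hM.trans ?_
      push_cast
      rw [sub_zero]
      exact mul_le_mul_of_nonneg_right hRR1 ht0'.le
    have h1 := av_mono63 (π := π) (w := w) hF.1
      (F := fun w' => gRp ρ β ps n w' t ((K + 1) * D))
      (G := fun w' => 8 / ((K + 1) * D) ^ 2 *
        ∫ η, gp β ps n w' η (fun s => gi ps 0 t M s ^ 2) ∂(law 2 ρ)) fun b =>
      gRp_cheb63 (hF.2.2 b).1 (hF.2.2 b).2 hps t M (by positivity)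
    rw [av_mul63] at h1
    refine lt_of_le_of_lt h1 ?_
    have h2 := mul_le_mul_of_nonneg_left hM' (by positivity : 0 ≤ 8 / ((K + 1) * D) ^ 2)
    refine lt_of_le_of_lt h2 ?_
    rw [div_mul_eq_mul_div, div_lt_iff₀ (by positivity)]
    have hK2 : K ^ 2 = 16 * (R₁ / κ) := by
      rw [hK, mul_pow, Real.sq_sqrt (by positivity)]
      norm_num
    have e4 : κ * (K ^ 2 * D ^ 2) = 16 * R₁ * D ^ 2 := by
      rw [hK2]
      field_simp
    have e5 : K ^ 2 * D ^ 2 ≤ ((K + 1) * D) ^ 2 := by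
      have e9 : K ^ 2 ≤ (K + 1) ^ 2 := pow_le_pow_left₀ hK0.le (by linarith) 2
      have e10 : ((K + 1) * D) ^ 2 = (K + 1) ^ 2 * D ^ 2 := mul_pow _ _ _
      rw [e10]
      exact mul_le_mul_of_nonneg_right e9 (sq_nonneg _)
    have e6 := mul_le_mul_of_nonneg_left e5 hκ.le
    have hR10 : 0 < R₁ := by linarith
    have e7 : R₁ * t < R₁ * D ^ 2 := mul_lt_mul_of_pos_left hDt hR10
    have e8 : 0 < R₁ * t := by positivity
    linarith

end Pool.Agent.W_7d29a1_GW
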