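import Pool.Agent.W_7d29a1_GW.LikA48
import Pool.Agent.W_7d29a1_GW.BasG56

/-!
Theorem GW, leaf LIK (helper48): theorem NS for random a priori measures on the paths of sites.
-/

namespace Pool.Agent.W_7d29a1_GW

open MeasureTheory ProbabilityTheory Filter Topology Pool.Agent.W_MP_7d29a1_pr
  Pool.Agent.W_7d29a1_h46 Pool.Agent.W_7d29a1_h46u Pool.Agent.W_7d29a1_D2.B35
  Pool.Agent.W_7d29a1_Q29 Pool.Agent.W_7d29a1_S90 Pool.Agent.W_7d29a1_NS

namespace K48

variable {ρ : Measure ℝ} {β : ℝ} {n : ℕ} {V : Type} [MeasurableSpace V]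

/-- Joint measurability of the mean. -/
lemma gp_joint {P : V → Measure (Fin n → Site 2)} (hP : ∀ c, Measurable fun u => P u {c}) (K : ℕ)
    {F : V × Env 2 → ↥(bx n K) → ℝ} (hF : ∀ s, Measurable fun p => F p s) :
    Measurable fun p : V × Env 2 => gp β (pk n K) n (wk (P p.1) K) p.2 (F p) := by
  have h1 : ∀ s, Measurable fun p : V × Env 2 => gw β (pk n K) n (wk (P p.1) K) p.2 s := by
    intro s
    have h2 : Measurable fun p : V × Env 2 =>
        ∑ i ∈ Finset.range n, p.2 (i + 1, pk n K s (i + 1)) :=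
      Finset.measurable_sum _ fun i _ =>
        (measurable_pi_apply (i + 1, pk n K s (i + 1))).comp measurable_snd
    unfold gw
    exact ((wk_meas hP K s).comp measurable_fst).mul (Real.measurable_exp.comp
      (h2.const_mul β))
  unfold gp
  exact (Finset.measurable_sum _ fun s _ => (h1 s).mul (hF s)).div
    (Finset.measurable_sum _ fun s _ => h1 s)

lemma gp2_joint {P : V → Measure (Fin n → Site 2)} (hP : ∀ c, Measurable fun u => P u {c}) (K : ℕ)
    (f : ↥(bx n K) → ↥(bx n K) → ℝ) :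
    Measurable fun p : V × Env 2 => gp2 β (pk n K) n (wk (P p.1) K) p.2 f := by
  unfold gp2
  exact gp_joint hP K (F := fun p s => gp β (pk n K) n (wk (P p.1) K) p.2 fun s' => f s s')
    fun s => gp_joint hP K (F := fun _ s' => f s s') fun _ => measurable_const

/-- The square of a windowed increment. -/
noncomputable def gq (τ t : ℕ) (m : Vec 2) (c : Fin n → Site 2) : ℝ :=
  ‖emb (cs c t) - emb (cs c τ) - m‖ ^ 2

lemma cs_sq {P : Measure (Fin n → Site 2)} [IsProbabilityMeasure P] {B : ℝ}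
    (hP : ∀ i : Fin n, Integrable (fun c : Fin n → Site 2 => ‖emb (c i)‖ ^ 2) P ∧
      ∫ c, ‖emb (c i)‖ ^ 2 ∂P ≤ B) (t : ℕ) :
    Integrable (fun c : Fin n → Site 2 => ‖emb (cs c t)‖ ^ 2) P ∧
      ∫ c, ‖emb (cs c t)‖ ^ 2 ∂P ≤ max B 0 := by
  by_cases h : 1 ≤ t ∧ t ≤ n
  · have e : ∀ c : Fin n → Site 2, cs c t = c ⟨t - 1, by omega⟩ := fun c => by
      unfold cs
      rw [dif_pos h]
    simp only [e]
    exact ⟨(hP _).1, (hP _).2.trans (le_max_left _ _)⟩
  · have e : ∀ c : Fin n → Site 2, cs c t = 0 := fun c => by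
      unfold cs
      rw [dif_neg h]
    have e0 : ‖emb (0 : Site 2)‖ = 0 := by
      have : emb (0 : Site 2) = 0 := by
        ext j
        simp [emb]
      rw [this, norm_zero]
    simp only [e, e0]
    refine ⟨by simp, by simp⟩

/-- The dominating function. -/
lemma gq_dom {P : Measure (Fin n → Site 2)} [IsProbabilityMeasure P] {B : ℝ}
    (hP : ∀ i : Fin n, Integrable (fun c : Fin n → Site 2 => ‖emb (c i)‖ ^ 2) P ∧
      ∫ c, ‖emb (c i)‖ ^ 2 ∂P ≤ B) (τ t : ℕ) (m : Vec 2) :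
    ∃ G : (Fin n → Site 2) → ℝ, Integrable G P ∧ (∀ K c, gq τ t m (pj n K c).1 ≤ G c) ∧
      ∫ c, G c ∂P ≤ 6 * max B 0 + 4 * ‖m‖ ^ 2 := by
  have h3 : ∀ c : Fin n → Site 2, gq τ t m c ≤
      3 * ‖emb (cs c t)‖ ^ 2 + 3 * ‖emb (cs c τ)‖ ^ 2 + 3 * ‖m‖ ^ 2 := by
    intro c
    unfold gq
    have h1 : ‖emb (cs c t) - emb (cs c τ) - m‖ ≤
        ‖emb (cs c t)‖ + ‖emb (cs c τ)‖ + ‖m‖ :=
      (norm_sub_le _ _).trans (add_le_add_left (norm_sub_le _ _) _)
    have h0 := norm_nonneg (emb (cs c t) - emb (cs c τ) - m)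
    have h2 : ‖emb (cs c t) - emb (cs c τ) - m‖ ^ 2 ≤
        (‖emb (cs c t)‖ + ‖emb (cs c τ)‖ + ‖m‖) ^ 2 := pow_le_pow_left₀ h0 h1 2
    nlinarith [sq_nonneg (‖emb (cs c t)‖ - ‖emb (cs c τ)‖), sq_nonneg (‖emb (cs c t)‖ - ‖m‖),
      sq_nonneg (‖emb (cs c τ)‖ - ‖m‖)]
  have hz : gq τ t m (0 : Fin n → Site 2) = ‖m‖ ^ 2 := by
    have e1 : ∀ s : ℕ, emb (cs (0 : Fin n → Site 2) s) = 0 := by
      intro s
      have e2 : cs (0 : Fin n → Site 2) s = 0 := by
        unfold cs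
        split_ifs <;> rfl
      rw [e2]
      ext j
      simp [emb]
    unfold gq
    rw [e1, e1, sub_zero, zero_sub, norm_neg]
  have a1 := cs_sq hP t
  have a2 := cs_sq hP τ
  have i1 : Integrable (fun c : Fin n → Site 2 => 3 * ‖emb (cs c t)‖ ^ 2 +
      3 * ‖emb (cs c τ)‖ ^ 2 + 4 * ‖m‖ ^ 2) P :=
    ((a1.1.const_mul 3).add (a2.1.const_mul 3)).add (integrable_const _)
  refine ⟨fun c => 3 * ‖emb (cs c t)‖ ^ 2 + 3 * ‖emb (cs c τ)‖ ^ 2 + 4 * ‖m‖ ^ 2, i1,
    fun K c => ?_, ?_⟩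
  · rcases pj_cases K c with h | h
    · rw [h]
      linarith [h3 c, sq_nonneg ‖m‖]
    · rw [h, hz]
      have := sq_nonneg ‖emb (cs c t)‖
      have := sq_nonneg ‖emb (cs c τ)‖
      have := sq_nonneg ‖m‖
      linarith
  · have e : ∫ c : Fin n → Site 2, (3 * ‖emb (cs c t)‖ ^ 2 + 3 * ‖emb (cs c τ)‖ ^ 2 +
        4 * ‖m‖ ^ 2) ∂P = 3 * (∫ c, ‖emb (cs c t)‖ ^ 2 ∂P) + 3 * (∫ c, ‖emb (cs c τ)‖ ^ 2 ∂P) +
          4 * ‖m‖ ^ 2 := by
      have i2 : Integrable (fun c : Fin n → Site 2 => 3 * ‖emb (cs c t)‖ ^ 2 +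
          3 * ‖emb (cs c τ)‖ ^ 2) P := (a1.1.const_mul 3).add (a2.1.const_mul 3)
      rw [integral_add i2 (integrable_const _),
        integral_add (a1.1.const_mul 3) (a2.1.const_mul 3), integral_const_mul,
        integral_const_mul]
      simp
    rw [e]
    linarith [a1.2, a2.2]

lemma gq_nonneg (τ t : ℕ) (m : Vec 2) (c : Fin n → Site 2) : 0 ≤ gq τ t m c := sq_nonneg _

/-- The window means converge. -/
lemma win_tend [IsProbabilityMeasure ρ] {b : ℝ} (hae : ∀ᵐ η ∂(law 2 ρ), ∀ p, |η p| ≤ b)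
    {ν : Measure V} [IsProbabilityMeasure ν] {P : V → Measure (Fin n → Site 2)}
    (hP : ∀ u, IsProbabilityMeasure (P u)) (hPm : ∀ c, Measurable fun u => P u {c}) {B : ℝ}
    (hPi : ∀ᵐ u ∂ν, ∀ i : Fin n, Integrable (fun c : Fin n → Site 2 => ‖emb (c i)‖ ^ 2) (P u) ∧
      ∫ c, ‖emb (c i)‖ ^ 2 ∂(P u) ≤ B) (τ t : ℕ) (m : Vec 2) :
    Tendsto (fun K => ∫ u, ∫ η, gp β (pk n K) n (wk (P u) K) η (fun s => gq τ t m s.1)
      ∂(law 2 ρ) ∂ν) atTop
      (𝓝 (∫ u, ∫ η, ∫ c, gq τ t m c ∂(oP β η (P u)) ∂(law 2 ρ) ∂ν)) := by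
  set D : ℝ := Real.exp (|β| * (n * b)) * Real.exp (|β| * (n * b)) *
    (6 * max B 0 + 4 * ‖m‖ ^ 2) with hD
  have hbd : ∀ᵐ u ∂ν, ∀ K, ∀ᵐ η ∂(law 2 ρ),
      ‖gp β (pk n K) n (wk (P u) K) η (fun s => gq τ t m s.1)‖ ≤ D := by
    filter_upwards [hPi] with u hu
    intro K
    have := hP u
    obtain ⟨G, hG, hG2, hG3⟩ := gq_dom hu τ t m
    filter_upwards [hae] with η hη
    rw [Real.norm_eq_abs]
    refine (one_bd (P u) β hη hG (gq_nonneg τ t m) (hG2 K)).trans ?_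
    exact mul_le_mul_of_nonneg_left hG3 (by positivity)
  refine tendsto_integral_of_dominated_convergence (fun _ => D) (fun K => ?_)
    (integrable_const _) (fun K => ?_) ?_
  · have h1 := (gp_joint (β := β) hPm K (F := fun _ s => gq τ t m s.1)
      fun _ => measurable_const).stronglyMeasurable
    exact (h1.integral_prod_right' (ν := law 2 ρ)).aestronglyMeasurable
  · filter_upwards [hbd] with u hu
    have h1 := norm_integral_le_of_norm_le_const (μ := law 2 ρ) (hu K)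
    simpa using h1
  · filter_upwards [hPi, hbd] with u hu hu2
    have := hP u
    obtain ⟨G, hG, hG2, hG3⟩ := gq_dom hu τ t m
    refine tendsto_integral_of_dominated_convergence (fun _ => D) (fun K => ?_)
      (integrable_const _) (fun K => hu2 K) ?_
    · exact (gp_meas56 β (pk n K) n (wk (P u) K) (f := fun _ s => gq τ t m s.1)
        fun _ => measurable_const).aestronglyMeasurable
    · filter_upwards [hae] with η hη
      refine one_tend (P u) β hη hG fun K c => ?_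
      rw [abs_of_nonneg (gq_nonneg _ _ _ _)]
      exact hG2 K c

/-- The two replica probabilities converge. -/
lemma rep_tend [IsProbabilityMeasure ρ] {b : ℝ} (hae : ∀ᵐ η ∂(law 2 ρ), ∀ p, |η p| ≤ b)
    {ν : Measure V} [IsProbabilityMeasure ν] {P : V → Measure (Fin n → Site 2)}
    (hP : ∀ u, IsProbabilityMeasure (P u)) (hPm : ∀ c, Measurable fun u => P u {c})
    {k : (Fin n → Site 2) → (Fin n → Site 2) → ℝ} (hk : ∀ c c', |k c c'| ≤ 1) :
    Tendsto (fun K => ∫ u, ∫ η, gp2 β (pk n K) n (wk (P u) K) η (fun s s' => k s.1 s'.1)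
      ∂(law 2 ρ) ∂ν) atTop
      (𝓝 (∫ u, ∫ η, ∫ c, ∫ c', k c c' ∂(oP β η (P u)) ∂(oP β η (P u)) ∂(law 2 ρ) ∂ν)) := by
  have hbd : ∀ (u : V) (K : ℕ) (η : Env 2),
      ‖gp2 β (pk n K) n (wk (P u) K) η (fun s s' => k s.1 s'.1)‖ ≤ 1 := by
    intro u K η
    have := hP u
    rw [Real.norm_eq_abs]
    exact gp2_abs56 (wk_Wp (P u) K) β (pk n K) n η fun s s' => hk _ _
  refine tendsto_integral_of_dominated_convergence (fun _ => (1 : ℝ)) (fun K => ?_)
    (integrable_const _) (fun K => Eventually.of_forall fun u => ?_)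
    (Eventually.of_forall fun u => ?_)
  · have h1 := (gp2_joint (β := β) hPm K fun s s' => k s.1 s'.1).stronglyMeasurable
    exact (h1.integral_prod_right' (ν := law 2 ρ)).aestronglyMeasurable
  · have h1 := norm_integral_le_of_norm_le_const (μ := law 2 ρ)
      (Eventually.of_forall fun η => hbd u K η)
    simpa using h1
  · have := hP u
    refine tendsto_integral_of_dominated_convergence (fun _ => (1 : ℝ)) (fun K => ?_)
      (integrable_const _) (fun K => Eventually.of_forall fun η => hbd u K η) ?_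
    · exact (gp2_intF56 (ρ := ρ) (wk_Wp (P u) K) β (pk n K) n
        fun s s' => k s.1 s'.1).aestronglyMeasurable
    · filter_upwards [hae] with η hη
      exact two_tend (P u) β hη hk

end K48

open K48

open Classical in
/-- Leaf LIK. -/
theorem likG48 {ρ : Measure ℝ} [IsProbabilityMeasure ρ] {β : ℝ} (hN : NsI ρ β) : NsO ρ β := by
  intro R κ b hκ hb
  obtain ⟨γ, C, hγ, hC, h⟩ := hN (R + 1) κ hκ
  refine ⟨γ, C, hγ, hC, ?_⟩
  intro V _ ν _ n t P B l hP hPm hPi hl hlt htn hW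
  have hae := ae_bdd31 (ρ := ρ) hb
  have hrep := rep_tend (ρ := ρ) (β := β) hae (ν := ν) hP hPm
    (k := fun c c' => if C * Real.sqrt t * (l / t) ^ γ < ‖emb (cs c t) - emb (cs c' t)‖
      then (1 : ℝ) else 0) (fun c c' => by
        split_ifs <;> simp)
  have hwin : ∀ᶠ K : ℕ in atTop, ∀ τ ∈ Finset.range (n + 1), ∀ t' ∈ Finset.range (n + 1),
      (τ < t' → l ≤ (t' : ℝ) - τ → ∃ m : Vec 2,
        ∫ u, ∫ η, gp β (pk n K) n (wk (P u) K) η (fun s => gq τ t' m s.1) ∂(law 2 ρ) ∂ν ≤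
          (R + 1) * ((t' : ℝ) - τ)) := by
    rw [eventually_all_finset]
    intro τ _
    rw [eventually_all_finset]
    intro t' ht'
    by_cases hc : τ < t' ∧ l ≤ (t' : ℝ) - τ
    · have htn' : t' ≤ n := by
        have := Finset.mem_range.1 ht'
        omega
      obtain ⟨m, hm⟩ := hW τ t' hc.1 htn' hc.2
      have h1 := win_tend (ρ := ρ) (β := β) hae hP hPm hPi τ t' m
      have h2 : (0 : ℝ) < (t' : ℝ) - τ := by
        have : (τ : ℝ) < t' := by exact_mod_cast hc.1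
        linarith
      have h3 : ∫ u, ∫ η, ∫ c, gq τ t' m c ∂(oP β η (P u)) ∂(law 2 ρ) ∂ν <
          (R + 1) * ((t' : ℝ) - τ) := lt_of_le_of_lt hm (by linarith)
      filter_upwards [h1.eventually_lt_const h3] with K hK _ _
      exact ⟨m, hK.le⟩
    · refine Eventually.of_forall fun K h1 h2 => absurd ⟨h1, h2⟩ hc
  refine le_of_tendsto hrep ?_
  filter_upwards [hwin] with K hK
  refine h V ν (↥(bx n K)) (pk n K) n t (fun u => wk (P u) K) l (fun s => wk_meas hPm K s)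
    (fun u => ?_) (fun s => cs_zero s.1) hl hlt htn ?_
  · have := hP u
    exact ⟨fun s => wk_nonneg (P u) K s, wk_sum (P u) K⟩
  · intro τ t' h1 h2 h3
    exact hK τ (Finset.mem_range.2 (by omega)) t' (Finset.mem_range.2 (by omega)) h1 h3

end Pool.Agent.W_7d29a1_GW
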