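import Pool.Agent.W_7d29a1_GW.BasW31

/-!
Theorem GW: the theorem from `NsW` and `SepG` (helper31).
-/

namespace Pool.Agent.W_7d29a1_GW

open MeasureTheory ProbabilityTheory Filter Topology Pool.Agent.W_MP_7d29a1_pr
  Pool.Agent.W_7d29a1_h46 Pool.Agent.W_7d29a1_h46u Pool.Agent.W_7d29a1_D2.B35
  Pool.Agent.W_7d29a1_Q29 Pool.Agent.W_7d29a1_S90 Pool.Agent.W_7d29a1_NS

variable {ρ : Measure ℝ} {β : ℝ} {n : ℕ}

open Classical in
/-- The probability of separated replicas decreases with the distance. -/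
lemma rp_anti31 [IsProbabilityMeasure ρ] (hM : MesG β) {r r' : ℝ} (h : r ≤ r') (t : ℕ) :
    ∫ u, ∫ η, ∫ s, ∫ s', (if r' < ‖sp s t - sp s' t‖ then (1 : ℝ) else 0)
      ∂(Qg β n 0 u η) ∂(Qg β n 0 u η) ∂(law 2 ρ) ∂off ≤
    ∫ u, ∫ η, ∫ s, ∫ s', (if r < ‖sp s t - sp s' t‖ then (1 : ℝ) else 0)
      ∂(Qg β n 0 u η) ∂(Qg β n 0 u η) ∂(law 2 ρ) ∂off := by
  have hms : ∀ r : ℝ, Measurable (Function.uncurry fun s s' : Fin n → Fin 2 → ℝ =>
      if r < ‖sp s t - sp s' t‖ then (1 : ℝ) else 0) := by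
    intro r
    refine Measurable.ite ?_ measurable_const measurable_const
    refine measurableSet_lt measurable_const ?_
    exact (((meas_sp31 t).comp measurable_fst).sub ((meas_sp31 t).comp measurable_snd)).norm
  have h0 : ∀ (r : ℝ) (s s' : Fin n → Fin 2 → ℝ),
      (0 : ℝ) ≤ if r < ‖sp s t - sp s' t‖ then (1 : ℝ) else 0 := by
    intro r s s'
    split_ifs <;> norm_num
  have h1 : ∀ (r : ℝ) (s s' : Fin n → Fin 2 → ℝ),
      ENNReal.ofReal (if r < ‖sp s t - sp s' t‖ then (1 : ℝ) else 0) ≤ 1 := by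
    intro r s s'
    split_ifs <;> simp
  rw [conv2_31 hM 0 (hms r') (h0 r') ENNReal.one_lt_top
      (Eventually.of_forall fun η u => L2_le_one31 0 (h1 r') u η),
    conv2_31 hM 0 (hms r) (h0 r) ENNReal.one_lt_top
      (Eventually.of_forall fun η u => L2_le_one31 0 (h1 r) u η)]
  refine ENNReal.toReal_mono ?_ ?_
  · have h2 : ∫⁻ u, ∫⁻ η, L2 β 0 (fun s s' : Fin n → Fin 2 → ℝ => ENNReal.ofReal
        (if r < ‖sp s t - sp s' t‖ then (1 : ℝ) else 0)) u η ∂(law 2 ρ) ∂off ≤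
        ∫⁻ _, ∫⁻ _, 1 ∂(law 2 ρ) ∂off :=
      lintegral_mono fun u => lintegral_mono fun η => L2_le_one31 0 (h1 r) u η
    refine (h2.trans_lt ?_).ne
    simp
  · refine lintegral_mono fun u => lintegral_mono fun η => ?_
    unfold L2
    refine lintegral_mono fun s => lintegral_mono fun s' => ?_
    apply ENNReal.ofReal_le_ofReal
    by_cases hc : r' < ‖sp s t - sp s' t‖
    · rw [if_pos hc, if_pos (lt_of_le_of_lt h hc)]
    · rw [if_neg hc]
      exact h0 r s s'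

/-- **Theorem GW.** -/
theorem main31 [IsProbabilityMeasure ρ] (hM : MesG β) (hN : NsW ρ β) (hS : SepG ρ β) :
    MainG ρ β := by
  classical
  intro b R₀ hb
  obtain ⟨R, hR⟩ : ∃ R : ℝ, R = max R₀ 1 := ⟨_, rfl⟩
  have hR0 : R₀ ≤ R := by rw [hR]; exact le_max_left _ _
  have hR1 : 1 ≤ R := by rw [hR]; exact le_max_right _ _
  have hRp : 0 < R := by linarith
  obtain ⟨γ, C, hγ, hC, hmain⟩ := hN R (1 / (512 * R ^ 2)) b (by positivity) hb
  obtain ⟨ε, hε⟩ : ∃ ε : ℝ, ε = min 1 ((1 / (2 * C)) ^ (1 / γ)) := ⟨_, rfl⟩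
  have hε0 : 0 < ε := by
    rw [hε]
    exact lt_min one_pos (Real.rpow_pos_of_pos (by positivity) _)
  have hε1 : ε ≤ 1 := by rw [hε]; exact min_le_left _ _
  have hεγ : ε ^ γ ≤ 1 / (2 * C) := by
    have h1 : ε ≤ (1 / (2 * C)) ^ (1 / γ) := by rw [hε]; exact min_le_right _ _
    calc ε ^ γ ≤ ((1 / (2 * C)) ^ (1 / γ)) ^ γ := Real.rpow_le_rpow hε0.le h1 hγ.le
      _ = 1 / (2 * C) := by
          rw [← Real.rpow_mul (by positivity), one_div_mul_cancel hγ.ne', Real.rpow_one]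
  refine ⟨ε, hε0, ⌈1 / ε⌉₊, fun n hn => ?_⟩
  have hn1 : 1 / ε ≤ n := (Nat.le_ceil _).trans (by exact_mod_cast hn)
  have hn2 : 1 ≤ ε * n := by
    rw [div_le_iff₀ hε0] at hn1
    linarith
  have hn0 : (0 : ℝ) < n := by
    rcases Nat.eq_zero_or_pos n with h | h
    · rw [h] at hn2
      simp at hn2
      linarith
    · exact_mod_cast h
  have hnN : 1 ≤ n := by exact_mod_cast hn0
  by_contra hcon
  push Not at hcon
  have hwin : ∀ τ t' : ℕ, τ < t' → t' ≤ n → ε * n ≤ (t' : ℝ) - τ → ∃ m : Vec 2,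
      ∫ u, ∫ η, ∫ s, ‖sp s t' - sp s τ - m‖ ^ 2 ∂(Qg β n 0 u η) ∂(law 2 ρ) ∂off ≤
        R * ((t' : ℝ) - τ) := by
    intro τ t' h1 h2 h3
    obtain ⟨m, hm⟩ := hcon τ t' h1 h2 h3
    refine ⟨m, hm.trans ?_⟩
    refine mul_le_mul_of_nonneg_right hR0 ?_
    have : (τ : ℝ) < t' := by exact_mod_cast h1
    linarith
  have h1 := hmain n n (ε * n) hn2 (by nlinarith) le_rfl hwin
  obtain ⟨m, hm⟩ := hwin 0 n hnN le_rfl (by
    push_cast
    nlinarith)
  have hsp0 : ∀ s : Fin n → Fin 2 → ℝ, sp s 0 = 0 := by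
    intro s
    ext j
    rw [spj31]
    simp
  have h2 := hS b R hb hRp n hnN ⟨m, by
    simp only [hsp0, sub_zero] at hm
    push_cast at hm
    simpa using hm⟩
  have hD : C * Real.sqrt n * (ε * n / n) ^ γ ≤ Real.sqrt n / 2 := by
    have e1 : ε * n / n = ε := by field_simp
    rw [e1]
    calc C * Real.sqrt n * ε ^ γ ≤ C * Real.sqrt n * (1 / (2 * C)) :=
          mul_le_mul_of_nonneg_left hεγ (by positivity)
      _ = Real.sqrt n / 2 := by field_simp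
  have h3 := rp_anti31 (ρ := ρ) (n := n) hM hD n
  have h4 : 1 / (512 * R ^ 2) < 1 / (256 * R ^ 2) := by
    apply one_div_lt_one_div_of_lt (by positivity)
    nlinarith [sq_nonneg R, sq_pos_of_pos hRp]
  linarith

end Pool.Agent.W_7d29a1_GW
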