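import Pool.Agent.W_7d29a1_GW.SepB35
import Pool.Agent.W_7d29a1_GW.BasW31

/-!
Theorem GW, leaf SEP: the replicas are separated (helper35).
-/

set_option autoImplicit false

namespace Pool.Agent.W_7d29a1_GW

open MeasureTheory ProbabilityTheory Filter Topology Pool.Agent.W_MP_7d29a1_pr
  Pool.Agent.W_7d29a1_h46 Pool.Agent.W_7d29a1_h46u

namespace Sep35

/-- The gap of the clamp. -/
lemma cl_gap {K m x t r : ℝ} (hr : 0 < r) (ht : 0 ≤ t) (hK : r + t ≤ K) :
    2 * t * (1 - (x - m) ^ 2 / r ^ 2) ≤ cl K m (x + t) - cl K m (x - t) := by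
  by_cases h : |x - m| ≤ r
  · rw [abs_le] at h
    rw [cl_eq (by rw [abs_le]; constructor <;> linarith),
      cl_eq (by rw [abs_le]; constructor <;> linarith)]
    have h1 : 0 ≤ (x - m) ^ 2 / r ^ 2 := by positivity
    have h2 := mul_nonneg (mul_nonneg (by norm_num : (0 : ℝ) ≤ 2) ht) h1
    linarith
  · push Not at h
    have h1 : 1 ≤ (x - m) ^ 2 / r ^ 2 := by
      rw [le_div_iff₀ (by positivity), one_mul, ← sq_abs (x - m)]
      exact pow_le_pow_left₀ hr.le h.le 2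
    have h2 := cl_mono K m (x := x - t) (y := x + t) (by linarith)
    have h3 : 2 * t * (1 - (x - m) ^ 2 / r ^ 2) ≤ 0 :=
      mul_nonpos_of_nonneg_of_nonpos (by linarith) (by linarith)
    linarith

/-- The integrand of the derivative, bounded. -/
lemma der_bd {K m x y t a lam : ℝ} (hK : 0 < K) (ha : 0 ≤ a) (hl : 0 < lam) :
    (cl K m (x + t) - cl K m (y + t)) * (x - y) ≤ a ^ 2 +
      2 * K * lam * ((x - m) ^ 2 + (y - m) ^ 2) + K / lam * (if a < |x - y| then 1 else 0) := by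
  have h1 : (cl K m (x + t) - cl K m (y + t)) * (x - y) ≤
      |cl K m (x + t) - cl K m (y + t)| * |x - y| := by
    rw [← abs_mul]
    exact le_abs_self _
  have h2 : |cl K m (x + t) - cl K m (y + t)| ≤ |x - y| := by
    rcases le_total x y with h | h
    · have e1 := cl_mono K m (x := x + t) (y := y + t) (by linarith)
      have e2 := cl_lip K m (x := x + t) (y := y + t) (by linarith)
      rw [abs_of_nonpos (by linarith), abs_of_nonpos (by linarith)]
      linarith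
    · have e1 := cl_mono K m (x := y + t) (y := x + t) (by linarith)
      have e2 := cl_lip K m (x := y + t) (y := x + t) (by linarith)
      rw [abs_of_nonneg (by linarith), abs_of_nonneg (by linarith)]
      linarith
  have h3 : |cl K m (x + t) - cl K m (y + t)| ≤ 2 * K := by
    refine (abs_sub _ _).trans ?_
    linarith [cl_abs hK.le m (x + t), cl_abs hK.le m (y + t)]
  have h4 : |x - y| ^ 2 ≤ 2 * ((x - m) ^ 2 + (y - m) ^ 2) := by
    rw [sq_abs]
    nlinarith [sq_nonneg ((x - m) + (y - m))]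
  have h5 := abs_nonneg (x - y)
  have h6 : 0 ≤ 2 * K * lam * ((x - m) ^ 2 + (y - m) ^ 2) := by positivity
  by_cases h : a < |x - y|
  · rw [if_pos h, mul_one]
    have e1 : |cl K m (x + t) - cl K m (y + t)| * |x - y| ≤ 2 * K * |x - y| :=
      mul_le_mul_of_nonneg_right h3 h5
    have e2 : 2 * |x - y| ≤ lam * |x - y| ^ 2 + 1 / lam := by
      have e3 : 0 ≤ (lam * |x - y| - 1) ^ 2 / lam := by positivity
      have e4 : (lam * |x - y| - 1) ^ 2 / lam = lam * |x - y| ^ 2 - 2 * |x - y| + 1 / lam := by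
        field_simp
        ring
      linarith
    have e5 := mul_le_mul_of_nonneg_left e2 hK.le
    have e6 := mul_le_mul_of_nonneg_left h4 (by positivity : 0 ≤ K * lam)
    have e7 : K * (lam * |x - y| ^ 2 + 1 / lam) = K * lam * |x - y| ^ 2 + K / lam := by ring
    nlinarith [sq_nonneg a]
  · rw [if_neg h, mul_zero, add_zero]
    push Not at h
    have e1 : |cl K m (x + t) - cl K m (y + t)| * |x - y| ≤ a * a :=
      mul_le_mul (h2.trans h) h h5 ha
    nlinarith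

/-- The numbers. -/
lemma numbers {n R V1 V2 p v K lam A B : ℝ} (hn : 0 < n) (hR : 0 < R) (hv : 0 < v)
    (hK : K = 3 * Real.sqrt (R * n))
    (hlam : lam = 5 / (32 * R * K)) (hV1 : V1 ≤ R * n) (hV2 : V2 ≤ R * n)
    (hAB : A ≤ B + v * (n / 4 + 2 * K * lam * (V1 + V2) + K / lam * p))
    (hgap : 2 * (n * v) * (1 - V1 / (2 * Real.sqrt (R * n)) ^ 2) ≤ A - B) :
    1 / (256 * R ^ 2) ≤ p := by
  have hs : 0 < Real.sqrt (R * n) := Real.sqrt_pos.2 (by positivity)
  have hsq : Real.sqrt (R * n) ^ 2 = R * n := Real.sq_sqrt (by positivity)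
  have hK0 : 0 < K := by rw [hK]; positivity
  have hl0 : 0 < lam := by rw [hlam]; positivity
  have hKl : K * lam = 5 / (32 * R) := by
    rw [hlam]
    field_simp
  have hKdl : K / lam = 32 * R * K ^ 2 / 5 := by
    rw [hlam]
    field_simp
  have hK2 : K ^ 2 = 9 * (R * n) := by rw [hK, mul_pow, hsq]; ring
  have h1 : V1 / (2 * Real.sqrt (R * n)) ^ 2 ≤ 1 / 4 := by
    rw [mul_pow, hsq, div_le_iff₀ (by positivity)]
    linarith
  have h2 : 2 * (n * v) * (3 / 4) ≤ A - B := by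
    refine le_trans ?_ hgap
    exact mul_le_mul_of_nonneg_left (by linarith) (by positivity)
  have h3 : v * (3 / 2 * n) ≤ v * (n / 4 + 2 * K * lam * (V1 + V2) + K / lam * p) := by linarith
  have h4 := le_of_mul_le_mul_left h3 hv
  have h5 : 2 * K * lam * (V1 + V2) ≤ 5 / 8 * n := by
    have e1 : 2 * K * lam * (V1 + V2) = 2 * (5 / (32 * R)) * (V1 + V2) := by rw [← hKl]; ring
    have e2 : 2 * (5 / (32 * R)) * (V1 + V2) ≤ 2 * (5 / (32 * R)) * (2 * (R * n)) :=
      mul_le_mul_of_nonneg_left (by linarith) (by positivity)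
    have e3 : 2 * (5 / (32 * R)) * (2 * (R * n)) = 5 / 8 * n := by
      field_simp
      ring
    linarith
  have h6 : 5 / 8 * n ≤ K / lam * p := by linarith
  rw [hKdl, hK2] at h6
  have h7 : 32 * R * (9 * (R * n)) / 5 * p = n * (288 / 5 * R ^ 2 * p) := by ring
  rw [h7] at h6
  have h8 : n * (5 / 8) ≤ n * (288 / 5 * R ^ 2 * p) := by linarith
  have h9 := le_of_mul_le_mul_left h8 hn
  rw [div_le_iff₀ (by positivity)]
  nlinarith

end Sep35

open Sep35 in
open Classical in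
/-- SEP. -/
theorem sep35 {ρ : Measure ℝ} [IsProbabilityMeasure ρ] {β : ℝ} (hM : MesG β) (hS : ShrG ρ β)
    (hD : DerG) : SepG ρ β := by
  intro b R hb0 hR n hn hm
  obtain ⟨m, hm⟩ := hm
  have hb := ae_bdd31 hb0
  obtain ⟨P, hP⟩ : ∃ P, P = MM ρ β n 0 := ⟨_, rfl⟩
  have hPp : IsProbabilityMeasure P := by rw [hP]; exact MM_prob hM hb 0
  have hn0 : (0 : ℝ) < n := by exact_mod_cast hn
  -- the second moments
  have mN : Measurable fun s : Fin n → Fin 2 → ℝ => ‖sp s n - m‖ ^ 2 :=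
    ((sp_measV n).sub_const m).norm.pow_const 2
  obtain ⟨Kb, hKb⟩ : ∃ Kb : ENNReal, Kb =
      ENNReal.ofReal (Real.exp (|β| * (n * b)) / Real.exp (-(|β| * (n * b)))) *
        ∫⁻ s, ENNReal.ofReal (‖sp s n - m‖ ^ 2) ∂(gam n) := ⟨_, rfl⟩
  have hKt : Kb < ⊤ := by
    rw [hKb]
    refine ENNReal.mul_lt_top ENNReal.ofReal_lt_top ?_
    have := (sq_int n m).lintegral_lt_top
    exact this
  have hc1 := conv1_31 (ρ := ρ) hM 0 mN (fun s => by positivity) hKt (by
    filter_upwards [hb] with η hη u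
    rw [hKb]
    exact lint_le u hη _)
  rw [hc1] at hm
  have hL1 : ∫⁻ u, ∫⁻ η, L1 β 0 (fun s : Fin n → Fin 2 → ℝ => ENNReal.ofReal (‖sp s n - m‖ ^ 2))
      u η ∂(law 2 ρ) ∂off ≤ Kb := by
    have h1 : ∫⁻ u, ∫⁻ η, L1 β 0 (fun s : Fin n → Fin 2 → ℝ => ENNReal.ofReal (‖sp s n - m‖ ^ 2))
        u η ∂(law 2 ρ) ∂off ≤ ∫⁻ _, Kb ∂off := by
      refine lintegral_mono fun u => ?_
      have h2 : ∫⁻ η, L1 β 0 (fun s : Fin n → Fin 2 → ℝ => ENNReal.ofReal (‖sp s n - m‖ ^ 2))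
          u η ∂(law 2 ρ) ≤ ∫⁻ _, Kb ∂(law 2 ρ) := by
        refine lintegral_mono_ae ?_
        filter_upwards [hb] with η hη
        rw [hKb]
        exact lint_le u hη _
      simpa using h2
    simpa using h1
  have hL2 : ∫⁻ u, ∫⁻ η, L1 β 0 (fun s : Fin n → Fin 2 → ℝ => ENNReal.ofReal (‖sp s n - m‖ ^ 2))
      u η ∂(law 2 ρ) ∂off ≤ ENNReal.ofReal (R * n) := by
    rw [← ENNReal.toReal_le_toReal (hL1.trans_lt hKt).ne ENNReal.ofReal_ne_top,
      ENNReal.toReal_ofReal (by positivity)]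
    exact hm
  have hfst := MM_fst (ρ := ρ) (n := n) hM hb 0 (mN.ennreal_ofReal)
  have hpu : ∫⁻ p, ∫⁻ s : Fin n → Fin 2 → ℝ, ENNReal.ofReal (‖sp s n - m‖ ^ 2)
      ∂(Qg β n 0 p.1 p.2) ∂(off.prod (law 2 ρ)) ≤ ENNReal.ofReal (R * n) := by
    refine le_trans (le_of_eq ?_) hL2
    exact lintegral_prod (μ := off) (ν := law 2 ρ) (Function.uncurry (L1 β 0
      fun s : Fin n → Fin 2 → ℝ => ENNReal.ofReal (‖sp s n - m‖ ^ 2)))
      (meas_L1u31 hM 0 mN.ennreal_ofReal).aemeasurable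
  rw [← hP] at hfst
  -- real integrals
  have mX1 := X1_meas n
  have mX2 := X2_meas n
  have hXn : ∀ s : Fin n → Fin 2 → ℝ, (Sep35.X n s - m 0) ^ 2 ≤ ‖sp s n - m‖ ^ 2 := by
    intro s
    rw [EuclideanSpace.norm_sq_eq, Fin.sum_univ_two]
    simp only [PiLp.sub_apply, Real.norm_eq_abs, sq_abs, Sep35.X]
    nlinarith [sq_nonneg (sp s n 1 - m 1)]
  have hV : ∀ f : (Fin n → Fin 2 → ℝ) × (Fin n → Fin 2 → ℝ) → ℝ, Measurable f →
      (∀ z, 0 ≤ f z) → ∫⁻ z, ENNReal.ofReal (f z) ∂P ≤ ENNReal.ofReal (R * n) →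
      Integrable f P ∧ ∫ z, f z ∂P ≤ R * n := by
    intro f hf h0 hle
    have hi : Integrable f P := by
      refine ⟨hf.aestronglyMeasurable, ?_⟩
      rw [hasFiniteIntegral_iff_ofReal (Eventually.of_forall h0)]
      exact hle.trans_lt ENNReal.ofReal_lt_top
    refine ⟨hi, ?_⟩
    rw [← ofReal_integral_eq_lintegral_ofReal hi (Eventually.of_forall h0)] at hle
    exact (ENNReal.ofReal_le_ofReal_iff (by positivity)).1 hle
  obtain ⟨i1, V1le⟩ := hV (fun z => (Sep35.X n z.1 - m 0) ^ 2) ((mX1.sub_const _).pow_const 2)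
    (fun z => sq_nonneg _) (by
      refine le_trans (lintegral_mono fun z => ENNReal.ofReal_le_ofReal (hXn z.1)) ?_
      rw [hfst.1]
      exact hpu)
  obtain ⟨i2, V2le⟩ := hV (fun z => (Sep35.X n z.2 - m 0) ^ 2) ((mX2.sub_const _).pow_const 2)
    (fun z => sq_nonneg _) (by
      refine le_trans (lintegral_mono fun z => ENNReal.ofReal_le_ofReal (hXn z.2)) ?_
      rw [hfst.2]
      exact hpu)
  obtain ⟨V1, hV1⟩ : ∃ V1, V1 = ∫ z, (Sep35.X n z.1 - m 0) ^ 2 ∂P := ⟨_, rfl⟩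
  obtain ⟨V2, hV2⟩ : ∃ V2, V2 = ∫ z, (Sep35.X n z.2 - m 0) ^ 2 ∂P := ⟨_, rfl⟩
  -- the event
  obtain ⟨I, hI⟩ : ∃ I : (Fin n → Fin 2 → ℝ) → (Fin n → Fin 2 → ℝ) → ℝ, I = fun s s' =>
    if Real.sqrt n / 2 < ‖sp s n - sp s' n‖ then (1 : ℝ) else 0 := ⟨_, rfl⟩
  have mI : Measurable (Function.uncurry I) := by
    rw [hI]
    refine Measurable.ite ?_ measurable_const measurable_const
    exact measurableSet_lt measurable_const
      (((sp_measV n).comp measurable_fst).sub ((sp_measV n).comp measurable_snd)).norm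
  have I0 : ∀ s s', 0 ≤ I s s' := fun s s' => by rw [hI]; simp only; split_ifs <;> norm_num
  have I1 : ∀ s s', I s s' ≤ 1 := fun s s' => by rw [hI]; simp only; split_ifs <;> norm_num
  have hc2 := conv2_31 (ρ := ρ) hM 0 mI I0 ENNReal.one_lt_top (by
    refine Eventually.of_forall fun η u => ?_
    refine L2_le_one31 0 (fun s s' => ?_) u η
    rw [← ENNReal.ofReal_one]
    exact ENNReal.ofReal_le_ofReal (I1 s s'))
  have mI' : Measurable fun z : (Fin n → Fin 2 → ℝ) × (Fin n → Fin 2 → ℝ) => I z.1 z.2 := mI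
  have hc3 := MM_lint4 (ρ := ρ) hM 0 mI'.ennreal_ofReal
  rw [← hP] at hc3
  have iI : Integrable (fun z : (Fin n → Fin 2 → ℝ) × (Fin n → Fin 2 → ℝ) => I z.1 z.2) P :=
    Integrable.of_bound mI'.aestronglyMeasurable 1 (Eventually.of_forall fun z => by
      rw [Real.norm_of_nonneg (I0 _ _)]; exact I1 _ _)
  have hp : ∫ z, I z.1 z.2 ∂P =
      ∫ u, ∫ η, ∫ s, ∫ s', I s s' ∂(Qg β n 0 u η) ∂(Qg β n 0 u η) ∂(law 2 ρ) ∂off := by
    rw [hc2, integral_eq_lintegral_of_nonneg_ae (Eventually.of_forall fun z => I0 _ _)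
      mI'.aestronglyMeasurable, hc3]
    rfl
  have hgoal : (∫ u, ∫ η, ∫ s, ∫ s', (if Real.sqrt n / 2 < ‖sp s n - sp s' n‖
      then (1 : ℝ) else 0) ∂(Qg β n 0 u η) ∂(Qg β n 0 u η) ∂(law 2 ρ) ∂off) =
      ∫ z, I z.1 z.2 ∂P := by
    rw [hp, hI]
  rw [hgoal]
  obtain ⟨p, hpd⟩ : ∃ p, p = ∫ z, I z.1 z.2 ∂P := ⟨_, rfl⟩
  rw [← hpd]
  -- the choices
  obtain ⟨v, hv⟩ : ∃ v : ℝ, v = Real.sqrt (R * n) / n := ⟨_, rfl⟩
  obtain ⟨K, hK⟩ : ∃ K : ℝ, K = 3 * Real.sqrt (R * n) := ⟨_, rfl⟩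
  obtain ⟨lam, hlam⟩ : ∃ lam : ℝ, lam = 5 / (32 * R * K) := ⟨_, rfl⟩
  have hsp : 0 < Real.sqrt (R * n) := Real.sqrt_pos.2 (by positivity)
  have hv0 : 0 < v := by rw [hv]; positivity
  have hK0 : 0 < K := by rw [hK]; positivity
  have hl0 : 0 < lam := by rw [hlam]; positivity
  have hnv : n * v = Real.sqrt (R * n) := by rw [hv]; field_simp
  obtain ⟨W, hW⟩ : ∃ W : (Fin n → Fin 2 → ℝ) × (Fin n → Fin 2 → ℝ) → ℝ, W = fun z =>
    n / 4 + 2 * K * lam * ((Sep35.X n z.1 - m 0) ^ 2 + (Sep35.X n z.2 - m 0) ^ 2) + K / lam * I z.1 z.2 :=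
    ⟨_, rfl⟩
  have iW1 : Integrable (fun z : (Fin n → Fin 2 → ℝ) × (Fin n → Fin 2 → ℝ) => 2 * K * lam *
      ((Sep35.X n z.1 - m 0) ^ 2 + (Sep35.X n z.2 - m 0) ^ 2)) P := (i1.add i2).const_mul _
  have iW2 : Integrable (fun z : (Fin n → Fin 2 → ℝ) × (Fin n → Fin 2 → ℝ) =>
      n / 4 + 2 * K * lam * ((Sep35.X n z.1 - m 0) ^ 2 + (Sep35.X n z.2 - m 0) ^ 2)) P :=
    (integrable_const _).add iW1
  have iW : Integrable W P := by
    rw [hW]
    exact iW2.add (iI.const_mul _)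
  have hWI : ∫ z, W z ∂P = n / 4 + 2 * K * lam * (V1 + V2) + K / lam * p := by
    rw [hW]
    simp only
    rw [integral_add iW2 (iI.const_mul _), integral_add (integrable_const _) iW1,
      integral_const_mul, integral_const_mul, integral_add i1 i2, ← hV1, ← hV2, ← hpd]
    simp
  have hW0 : ∀ z, 0 ≤ W z := fun z => by
    rw [hW]
    have := I0 z.1 z.2
    simp only
    positivity
  have hFW : ∀ t, ∫⁻ z, Fz K (m 0) n z ∂(MM ρ β n t) ≤ ENNReal.ofReal (∫ z, W z ∂P) := by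
    intro t
    rw [(terms (n := n) hM hS K (m 0) t).2, ← hP, ofReal_integral_eq_lintegral_ofReal iW
      (Eventually.of_forall hW0)]
    refine lintegral_mono fun z => ENNReal.ofReal_le_ofReal ?_
    refine (der_bd (a := Real.sqrt n / 2) (lam := lam) hK0 (by positivity) hl0).trans ?_
    rw [hW]
    simp only
    have e1 : (Real.sqrt n / 2) ^ 2 = n / 4 := by
      rw [div_pow, Real.sq_sqrt hn0.le]
      norm_num
    rw [e1]
    refine add_le_add le_rfl (mul_le_mul_of_nonneg_left ?_ (by positivity))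
    by_cases h : Real.sqrt n / 2 < |Sep35.X n z.1 - Sep35.X n z.2|
    · rw [if_pos h, hI]
      simp only
      rw [if_pos]
      refine h.trans_le ?_
      have e2 := PiLp.norm_apply_le (sp z.1 n - sp z.2 n) 0
      rw [Real.norm_eq_abs] at e2
      exact e2
    · rw [if_neg h]
      exact I0 _ _
  -- the increment
  have ht := tonelli (ρ := ρ) (n := n) (b := b) hD hM hb (K := K) (m := m 0) hK0.le hv0.le
  rw [(terms (n := n) hM hS K (m 0) v).1, (terms (n := n) hM hS K (m 0) (-v)).1, ← hP] at ht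
  have hcm : ∀ t : ℝ, Measurable fun z : (Fin n → Fin 2 → ℝ) × (Fin n → Fin 2 → ℝ) =>
      cl K (m 0) (Sep35.X n z.1 + n * t) := fun t => (cl_meas K (m 0)).comp (mX1.add_const _)
  have hci : ∀ t : ℝ, Integrable (fun z : (Fin n → Fin 2 → ℝ) × (Fin n → Fin 2 → ℝ) =>
      cl K (m 0) (Sep35.X n z.1 + n * t)) P := fun t =>
    Integrable.of_bound (hcm t).aestronglyMeasurable K (Eventually.of_forall fun z => by
      rw [Real.norm_eq_abs]; exact cl_abs hK0.le _ _)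
  have hce : ∀ t : ℝ, ∫⁻ z, ENNReal.ofReal (cl K (m 0) (Sep35.X n z.1 + n * t) + K) ∂P =
      ENNReal.ofReal (∫ z, cl K (m 0) (Sep35.X n z.1 + n * t) ∂P + K) := by
    intro t
    have i5 : Integrable (fun z : (Fin n → Fin 2 → ℝ) × (Fin n → Fin 2 → ℝ) =>
        cl K (m 0) (Sep35.X n z.1 + n * t) + K) P := (hci t).add (integrable_const K)
    rw [← ofReal_integral_eq_lintegral_ofReal i5 (Eventually.of_forall fun z => by
        have := (abs_le.1 (cl_abs hK0.le (m 0) (Sep35.X n z.1 + n * t))).1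
        show 0 ≤ cl K (m 0) (Sep35.X n z.1 + n * t) + K
        linarith)]
    rw [integral_add (hci t) (integrable_const K)]
    simp
  rw [hce, hce] at ht
  have hJ : ∫⁻ t in Set.Ioc (-v) v, ENNReal.ofReal (1 / 2) *
      ∫⁻ z, Fz K (m 0) n z ∂(MM ρ β n t) ≤ ENNReal.ofReal (v * ∫ z, W z ∂P) := by
    have e1 : ∫⁻ t in Set.Ioc (-v) v, ENNReal.ofReal (1 / 2) *
        ∫⁻ z, Fz K (m 0) n z ∂(MM ρ β n t) ≤ ∫⁻ _t in Set.Ioc (-v) v, ENNReal.ofReal (1 / 2) *
          ENNReal.ofReal (∫ z, W z ∂P) :=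
      lintegral_mono fun t => mul_le_mul_right (hFW t) _
    refine e1.trans ?_
    rw [lintegral_const, Measure.restrict_apply_univ, Real.volume_Ioc,
      ← ENNReal.ofReal_mul (by norm_num), ← ENNReal.ofReal_mul (by
        have e0 : 0 ≤ ∫ z, W z ∂P := integral_nonneg hW0
        positivity)]
    refine ENNReal.ofReal_le_ofReal (le_of_eq ?_)
    ring
  have hA0 : ∀ t : ℝ, 0 ≤ ∫ z, cl K (m 0) (Sep35.X n z.1 + n * t) ∂P + K := by
    intro t
    have e1 : ∫ _z : (Fin n → Fin 2 → ℝ) × (Fin n → Fin 2 → ℝ), -K ∂P ≤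
        ∫ z, cl K (m 0) (Sep35.X n z.1 + n * t) ∂P :=
      integral_mono (integrable_const _) (hci t) fun z => (abs_le.1 (cl_abs hK0.le _ _)).1
    simp at e1
    linarith
  have hAB : ∫ z, cl K (m 0) (Sep35.X n z.1 + n * v) ∂P ≤ ∫ z, cl K (m 0) (Sep35.X n z.1 + n * -v) ∂P +
      v * (n / 4 + 2 * K * lam * (V1 + V2) + K / lam * p) := by
    rw [← hWI]
    have e0 : 0 ≤ v * ∫ z, W z ∂P := mul_nonneg hv0.le (integral_nonneg hW0)
    have e1 := ht.trans (add_le_add_right hJ _)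
    rw [← ENNReal.ofReal_add (hA0 _) e0, ENNReal.ofReal_le_ofReal_iff (by
      linarith [hA0 (-v)])] at e1
    linarith
  have hgap : 2 * (n * v) * (1 - V1 / (2 * Real.sqrt (R * n)) ^ 2) ≤
      ∫ z, cl K (m 0) (Sep35.X n z.1 + n * v) ∂P - ∫ z, cl K (m 0) (Sep35.X n z.1 + n * -v) ∂P := by
    rw [← integral_sub (hci v) (hci (-v))]
    have e1 : ∫ z, 2 * (n * v) * (1 - (Sep35.X n z.1 - m 0) ^ 2 / (2 * Real.sqrt (R * n)) ^ 2) ∂P =
        2 * (n * v) * (1 - V1 / (2 * Real.sqrt (R * n)) ^ 2) := by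
      rw [integral_const_mul, integral_sub (integrable_const _) (i1.div_const _), integral_div,
        ← hV1]
      simp
    rw [← e1]
    refine integral_mono (((integrable_const _).sub (i1.div_const _)).const_mul _)
      ((hci v).sub (hci (-v))) fun z => ?_
    have e2 := cl_gap (K := K) (m := m 0) (x := Sep35.X n z.1) (t := n * v)
      (r := 2 * Real.sqrt (R * n)) (by positivity) (by positivity) (by rw [hnv, hK]; linarith)
    have e3 : Sep35.X n z.1 + n * -v = Sep35.X n z.1 - n * v := by ring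
    simp only
    rw [e3]
    exact e2
  rw [← hV1] at V1le
  rw [← hV2] at V2le
  exact numbers hn0 hR hv0 hK hlam V1le V2le hAB hgap

end Pool.Agent.W_7d29a1_GW
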