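import Pool.Agent.W_7d29a1_GW.GamCM21

/-!
Theorem GW, leaf SHP: the tilt is a shift of the walk, of the offsets and of the environment, from
the Cameron Martin formula (helper42).
-/

namespace Pool.Agent.W_7d29a1_GW

open MeasureTheory ProbabilityTheory Filter Topology Pool.Agent.W_MP_7d29a1_pr
  Pool.Agent.W_7d29a1_h46 Pool.Agent.W_7d29a1_h46u Pool.Agent.W_7d29a1_D2.B35
  Pool.Agent.W_7d29a1_Q29 Pool.Agent.W_7d29a1_S90 Pool.Agent.W_7d29a1_NS

/-- A tilted image measure. -/
lemma map_tilted42 {α δ : Type*} [MeasurableSpace α] [MeasurableSpace δ] (μ : Measure α)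
    (e : α ≃ᵐ δ) (f : δ → ℝ) : (μ.map e).tilted f = (μ.tilted fun x => f (e x)).map e := by
  ext s hs
  rw [tilted_apply' _ _ hs, e.map_apply, tilted_apply' _ _ (e.measurable hs),
    e.measurableEmbedding.restrict_map, e.measurableEmbedding.lintegral_map,
    e.measurableEmbedding.integral_map]

lemma measurable_shf42 {n : ℕ} (v : ℝ) :
    Measurable (shf v : (Fin n → Fin 2 → ℝ) → Fin n → Fin 2 → ℝ) := by
  refine measurable_pi_lambda _ fun i => measurable_pi_lambda _ fun j => ?_
  unfold shf
  by_cases h : j = 0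
  · simp only [h, if_true]
    fun_prop
  · simp only [h, if_false]
    fun_prop

lemma shf_shf42 {n : ℕ} (v w : ℝ) (s : Fin n → Fin 2 → ℝ) : shf v (shf w s) = shf (w + v) s := by
  funext i j
  unfold shf
  by_cases h : j = 0
  · simp only [h, if_true]
    ring
  · simp only [h, if_false]

lemma shf_zero42 {n : ℕ} (s : Fin n → Fin 2 → ℝ) : shf 0 s = s := by
  funext i j
  unfold shf
  by_cases h : j = 0
  · simp only [h, if_true, add_zero]
  · simp only [h, if_false]

/-- The shift of the steps. -/
def shfE42 (n : ℕ) (v : ℝ) : (Fin n → Fin 2 → ℝ) ≃ᵐ (Fin n → Fin 2 → ℝ) where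
  toFun := shf v
  invFun := shf (-v)
  left_inv s := by rw [shf_shf42, add_neg_cancel, shf_zero42]
  right_inv s := by rw [shf_shf42, neg_add_cancel, shf_zero42]
  measurable_toFun := measurable_shf42 v
  measurable_invFun := measurable_shf42 (-v)

/-- The position after the shift of the steps. -/
lemma sp_shf42 {n : ℕ} (v : ℝ) (s : Fin n → Fin 2 → ℝ) {t : ℕ} (ht : t ≤ n) (j : Fin 2) :
    sp (shf v s) t j = if j = 0 then sp s t j + v * t else sp s t j := by
  unfold sp
  simp only
  by_cases h : j = 0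
  · rw [if_pos h]
    have h1 : ∀ i : Fin n, (if (i : ℕ) < t then shf v s i j else 0) =
        (if (i : ℕ) < t then s i j else 0) + if (i : ℕ) < t then v else 0 := by
      intro i
      unfold shf
      split_ifs <;> simp
    rw [Finset.sum_congr rfl fun i _ => h1 i, Finset.sum_add_distrib]
    congr 1
    rw [← Finset.sum_filter, Finset.sum_const, nsmul_eq_mul, mul_comm]
    congr 2
    have h2 : (Finset.univ.filter fun i : Fin n => (i : ℕ) < t).card = t := by
      rw [Fin.card_filter_val_lt]
      exact min_eq_right ht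
    exact_mod_cast h2
  · rw [if_neg h]
    refine Finset.sum_congr rfl fun i _ => ?_
    unfold shf
    rw [if_neg h]

/-- The energy after the shift of the steps. -/
lemma gE_shf42 {n : ℕ} (v : ℝ) (u : ℕ × Fin 2 → ℝ) (η : Env 2) (s : Fin n → Fin 2 → ℝ) :
    gE (fun p => if p.2 = 0 then Int.fract (u p + v * p.1) else u p)
      (fun p => η (p.1, fun j => if j = 0 then p.2 j + ⌊u (p.1, 0) + v * p.1⌋ else p.2 j)) s =
      gE u η (shf v s) := by
  unfold gE
  refine Finset.sum_congr rfl fun i _ => ?_
  simp only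
  congr 2
  funext j
  have hi : (i : ℕ) + 1 ≤ n := i.2
  unfold cel
  simp only
  rw [sp_shf42 v s hi j]
  by_cases h : j = 0
  · subst h
    simp only [if_true]
    rw [← Int.floor_add_intCast]
    congr 1
    have h1 := Int.fract_add_floor (u ((i : ℕ) + 1, 0) + v * (((i : ℕ) + 1 : ℕ) : ℝ))
    rw [add_assoc, h1]
    ring
  · simp only [h, if_false]

/-- Leaf SHP, from the Cameron Martin formula. -/
theorem shpC42 (β : ℝ) (hCM : ∀ (n : ℕ) (v : ℝ),
    (gam n).tilted (fun s => v * sp s n 0) = (gam n).map (shf v)) : ShpG β := by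
  intro n v u η
  have hint : Integrable (fun s : Fin n → Fin 2 → ℝ => Real.exp (v * sp s n 0)) (gam n) := by
    by_contra hcon
    have h1 := tilted_of_not_integrable hcon
    rw [hCM n v] at h1
    have h2 : ((gam n).map (shf v)) Set.univ = 1 := by
      rw [Measure.map_apply (measurable_shf42 v) MeasurableSet.univ, Set.preimage_univ]
      exact measure_univ
    rw [h1] at h2
    simp at h2
  unfold Qg
  have h1 : (fun s : Fin n → Fin 2 → ℝ => β * gE u η s + v * sp s n 0) =
      (fun s => v * sp s n 0) + fun s => β * gE u η s := by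
    funext s
    rw [Pi.add_apply]
    ring
  have h2 := map_tilted42 (gam n) (shfE42 n v) (fun s => β * gE u η s)
  rw [h1, ← tilted_tilted hint, hCM n v]
  refine h2.trans ?_
  have h3 : ∀ s : Fin n → Fin 2 → ℝ, (shfE42 n v) s = shf v s := fun s => rfl
  have h4 : (⇑(shfE42 n v) : (Fin n → Fin 2 → ℝ) → Fin n → Fin 2 → ℝ) = shf v := rfl
  rw [h4]
  congr 2
  funext s
  rw [gE_shf42]
  ring

/-- **Leaf SHP.** -/
theorem shpG42 (β : ℝ) : ShpG β := shpC42 β fun n v => Cm21.gamCM21 n v

end Pool.Agent.W_7d29a1_GW
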