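import Pool.Agent.W_7d29a1_GW.Mes24

/-!
Theorem GW, leaf SHR: exact shear invariance of the polymer of the Gaussian walk.
-/

namespace Pool.Agent.W_7d29a1_GW

open MeasureTheory ProbabilityTheory Filter Topology Pool.Agent.W_MP_7d29a1_pr
  Pool.Agent.W_7d29a1_h46 Pool.Agent.W_7d29a1_h46u Pool.Agent.W_7d29a1_D2.B35
  Pool.Agent.W_7d29a1_Q29 Pool.Agent.W_7d29a1_S90 Pool.Agent.W_7d29a1_NS

/-- The measure of a set as an interval integral. -/
lemma uni_real24 {B : Set ℝ} (hB : MeasurableSet B) :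
    uni.real B = ∫ x in (0 : ℝ)..1, B.indicator (fun _ => (1 : ℝ)) x := by
  have h1 : uni.real B = ∫ x, B.indicator (fun _ => (1 : ℝ)) x ∂uni := by
    rw [integral_indicator_const _ hB, smul_eq_mul, mul_one]
  rw [h1, intervalIntegral.integral_of_le zero_le_one, ← integral_Ico_eq_integral_Ioc]
  rfl

/-- The uniform law on the circle is invariant. -/
lemma fract_mp24 (a : ℝ) : MeasurePreserving (fun x : ℝ => Int.fract (x + a)) uni uni := by
  have hm : Measurable fun x : ℝ => Int.fract (x + a) :=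
    measurable_fract.comp (measurable_id.add_const a)
  refine ⟨hm, ?_⟩
  ext A hA
  rw [Measure.map_apply hm hA]
  have h0 : uni.real ((fun x : ℝ => Int.fract (x + a)) ⁻¹' A) = uni.real A := by
    set f : ℝ → ℝ := fun x => A.indicator (fun _ => (1 : ℝ)) (Int.fract x) with hf
    have hper : Function.Periodic f 1 := by
      intro x
      simp only [hf]
      rw [Int.fract_add_one]
    rw [uni_real24 (hm hA), uni_real24 hA]
    have h1 : ∫ x in (0 : ℝ)..1, ((fun x : ℝ => Int.fract (x + a)) ⁻¹' A).indicator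
        (fun _ => (1 : ℝ)) x = ∫ x in (0 : ℝ)..1, f (x + a) := by
      refine intervalIntegral.integral_congr fun x _ => ?_
      rfl
    have h2 : ∫ x in (0 : ℝ)..1, A.indicator (fun _ => (1 : ℝ)) x = ∫ x in (0 : ℝ)..1, f x := by
      rw [intervalIntegral.integral_of_le zero_le_one, intervalIntegral.integral_of_le zero_le_one,
        ← integral_Ico_eq_integral_Ioc, ← integral_Ico_eq_integral_Ioc]
      refine setIntegral_congr_fun measurableSet_Ico fun x hx => ?_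
      simp only [hf]
      rw [Int.fract_eq_self.2 ⟨hx.1, hx.2⟩]
    rw [h1, h2, intervalIntegral.integral_comp_add_right (fun x => f x) a]
    have h3 := hper.intervalIntegral_add_eq a 0
    rw [zero_add] at h3 ⊢
    rw [add_comm a 1] at h3
    exact h3
  exact (ENNReal.toReal_eq_toReal_iff' (measure_ne_top _ _) (measure_ne_top _ _)).1 h0

/-- The moved offsets. -/
noncomputable def mo24 (v : ℝ) (u : ℕ × Fin 2 → ℝ) : ℕ × Fin 2 → ℝ :=
  fun p => if p.2 = 0 then Int.fract (u p + v * p.1) else u p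

lemma mo_mp24 (v : ℝ) : MeasurePreserving (mo24 v) off off := by
  have h : ∀ p : ℕ × Fin 2, MeasurePreserving
      (fun x : ℝ => if p.2 = 0 then Int.fract (x + v * p.1) else x) uni uni := by
    intro p
    split_ifs
    · exact fract_mp24 _
    · exact MeasurePreserving.id _
  refine ⟨measurable_pi_iff.2 fun p => (h p).measurable.comp (measurable_pi_apply p), ?_⟩
  have h1 := Measure.infinitePi_map_pi (μ := fun _ : ℕ × Fin 2 => uni)
    (f := fun p x => if p.2 = 0 then Int.fract (x + v * p.1) else x) fun p => (h p).measurable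
  simp only [(h _).map_eq] at h1
  exact h1

/-- The moved environment. -/
def me24 (k : ℕ → ℤ) (η : Env 2) : Env 2 :=
  fun p => η (p.1, fun j => if j = 0 then p.2 j + k p.1 else p.2 j)

lemma me_mp24 {ρ : Measure ℝ} [IsProbabilityMeasure ρ] (k : ℕ → ℤ) :
    MeasurePreserving (me24 k) (law 2 ρ) (law 2 ρ) := by
  refine LawU_reindex (f := fun p : ℕ × Site 2 =>
    (p.1, fun j => if j = 0 then p.2 j + k p.1 else p.2 j)) ?_
  rintro ⟨i, y⟩ ⟨j, z⟩ h
  simp only [Prod.mk.injEq] at h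
  obtain ⟨h1, h2⟩ := h
  subst h1
  refine Prod.ext rfl (funext fun l => ?_)
  have h3 : (if l = 0 then y l + k i else y l) = if l = 0 then z l + k i else z l :=
    congrFun h2 l
  by_cases hl : l = 0
  · rw [if_pos hl, if_pos hl] at h3
    show y l = z l
    linarith
  · rw [if_neg hl, if_neg hl] at h3
    exact h3

lemma shf_meas24 {n : ℕ} (v : ℝ) : Measurable (shf v : (Fin n → Fin 2 → ℝ) → _) := by
  refine measurable_pi_iff.2 fun i => measurable_pi_iff.2 fun j => ?_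
  have h1 : Measurable fun s : Fin n → Fin 2 → ℝ => s i j :=
    (measurable_pi_apply j).comp (measurable_pi_apply i)
  unfold shf
  split_ifs
  · exact h1.add_const v
  · exact h1

lemma dbl_map24 {n : ℕ} (v : ℝ) (F : (Fin n → Fin 2 → ℝ) → (Fin n → Fin 2 → ℝ) → ENNReal)
    (hF : Measurable (Function.uncurry F)) (Q : Measure (Fin n → Fin 2 → ℝ)) [SFinite Q] :
    ∫⁻ s, ∫⁻ s', F s s' ∂(Q.map (shf v)) ∂(Q.map (shf v)) =
      ∫⁻ s, ∫⁻ s', F (shf v s) (shf v s') ∂Q ∂Q := by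
  have h1 : Measurable fun s => ∫⁻ s', F s s' ∂(Q.map (shf v)) := hF.lintegral_prod_right'
  rw [lintegral_map h1 (shf_meas24 v)]
  refine lintegral_congr fun s => ?_
  exact lintegral_map (hF.comp (measurable_const.prodMk measurable_id)) (shf_meas24 v)

lemma shp_eq24 {β : ℝ} (hS : ShpG β) (n : ℕ) (v : ℝ) (u : ℕ × Fin 2 → ℝ) (η : Env 2) :
    Qg β n v u η = (Qg β n 0 (mo24 v u) (me24 (fun t => ⌊u (t, 0) + v * t⌋) η)).map (shf v) :=
  hS n v u η

lemma zp24 (β : ℝ) (n : ℕ) (v : ℝ) (u : ℕ × Fin 2 → ℝ) (η : Env 2) :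
    IsZeroOrProbabilityMeasure (Qg β n v u η) := by
  unfold Qg
  infer_instance

lemma shear24 {β : ℝ} (hS : ShpG β) (n : ℕ) (v : ℝ)
    (F : (Fin n → Fin 2 → ℝ) → (Fin n → Fin 2 → ℝ) → ENNReal)
    (hF : Measurable (Function.uncurry F)) (u : ℕ × Fin 2 → ℝ) (η : Env 2) :
    ∫⁻ s, ∫⁻ s', F s s' ∂(Qg β n v u η) ∂(Qg β n v u η) =
      ∫⁻ s, ∫⁻ s', F (shf v s) (shf v s')
        ∂(Qg β n 0 (mo24 v u) (me24 (fun t => ⌊u (t, 0) + v * t⌋) η))
        ∂(Qg β n 0 (mo24 v u) (me24 (fun t => ⌊u (t, 0) + v * t⌋) η)) := by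
  rw [shp_eq24 hS]
  have := zp24 β n 0 (mo24 v u) (me24 (fun t => ⌊u (t, 0) + v * t⌋) η)
  exact dbl_map24 v F hF _

lemma G_meas24 {β : ℝ} (hM : MesG β) (n : ℕ)
    (F : (Fin n → Fin 2 → ℝ) → (Fin n → Fin 2 → ℝ) → ENNReal)
    (hF : Measurable (Function.uncurry F)) :
    Measurable fun p : (ℕ × Fin 2 → ℝ) × Env 2 =>
      ∫⁻ s, ∫⁻ s', F s s' ∂(Qg β n 0 p.1 p.2) ∂(Qg β n 0 p.1 p.2) := by
  have h2 : Measurable fun p : (ℕ × Fin 2 → ℝ) × Env 2 => (p.1, p.2, (0 : ℝ)) :=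
    measurable_fst.prodMk (measurable_snd.prodMk measurable_const)
  have h3 := (hM n F hF).comp h2
  simp only [Function.comp_def] at h3
  exact h3

lemma twist24 {ρ : Measure ℝ} [IsProbabilityMeasure ρ] (v : ℝ)
    (G : (ℕ × Fin 2 → ℝ) → Env 2 → ENNReal) (hG : Measurable (Function.uncurry G)) :
    ∫⁻ u, ∫⁻ η, G (mo24 v u) (me24 (fun t => ⌊u (t, 0) + v * t⌋) η) ∂(law 2 ρ) ∂off =
      ∫⁻ u, ∫⁻ η, G u η ∂(law 2 ρ) ∂off := by
  have h2 : ∀ u : ℕ × Fin 2 → ℝ, ∫⁻ η, G (mo24 v u) (me24 (fun t => ⌊u (t, 0) + v * t⌋) η)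
      ∂(law 2 ρ) = ∫⁻ η, G (mo24 v u) η ∂(law 2 ρ) := fun u =>
    (me_mp24 (ρ := ρ) _).lintegral_comp (hG.comp (measurable_const.prodMk measurable_id))
  rw [lintegral_congr h2]
  have h3 : Measurable fun u => ∫⁻ η, G u η ∂(law 2 ρ) := hG.lintegral_prod_right'
  exact (mo_mp24 v).lintegral_comp h3

/-- **Leaf SHR.** -/
theorem shrG24 {ρ : Measure ℝ} [IsProbabilityMeasure ρ] {β : ℝ} (hS : ShpG β) (hM : MesG β) :
    ShrG ρ β := by
  intro n v F hF
  have hF'm : Measurable (Function.uncurry fun s s' => F (shf v s) (shf v s')) :=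
    hF.comp (((shf_meas24 v).comp measurable_fst).prodMk ((shf_meas24 v).comp measurable_snd))
  have h1 := twist24 (ρ := ρ) v (fun u η => ∫⁻ s, ∫⁻ s', F (shf v s) (shf v s')
    ∂(Qg β n 0 u η) ∂(Qg β n 0 u η)) (G_meas24 hM n _ hF'm)
  rw [← h1]
  refine lintegral_congr fun u => lintegral_congr fun η => ?_
  exact shear24 hS n v F hF u η

end Pool.Agent.W_7d29a1_GW
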