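import Pool.Agent.W_7d29a1_GW.Model31
import Pool.Agent.W_7d29a1_GW.BasW31
import Pool.Agent.W_7d29a1_S90.TopP17

/-!
Theorem GW: transfer to an arbitrary probability space (helper31).
-/

namespace Pool.Agent.W_7d29a1_GW

open MeasureTheory ProbabilityTheory Filter Topology Pool.Agent.W_MP_7d29a1_pr
  Pool.Agent.W_7d29a1_h46 Pool.Agent.W_7d29a1_h46u Pool.Agent.W_7d29a1_D2.B35
  Pool.Agent.W_7d29a1_Q29 Pool.Agent.W_7d29a1_S90 Pool.Agent.W_7d29a1_NS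

variable {Ω : Type*} [MeasurableSpace Ω] {μ : Measure Ω} [IsProbabilityMeasure μ] {d : ℕ}
  {ρ : Measure ℝ} [IsProbabilityMeasure ρ] {ω : ℕ × Site d → Ω → ℝ} {β : ℝ}

lemma pol_eq31 (β : ℝ) (n : ℕ) (u : ℕ × Fin 2 → ℝ) (η : Env 2) :
    gaussPol β n u η = Qg β n 0 u η := by
  unfold gaussPol Qg gam
  congr 1
  funext s
  rw [zero_mul, add_zero]
  rfl

lemma mean_eq31 {ω : ℕ × Site 2 → Ω → ℝ} (hω : IID μ ρ ω) (hM : MesG β) {n : ℕ}
    {f : (Fin n → Fin 2 → ℝ) → ℝ} (hf : Measurable f) (h0 : ∀ s, 0 ≤ f s) :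
    gaussMean μ ω β n f = ∫ u, ∫ η, ∫ s, f s ∂(Qg β n 0 u η) ∂(law 2 ρ) ∂off := by
  have hmp := mp_env hω
  unfold gaussMean
  simp only [pol_eq31]
  refine integral_congr_ae (ae_of_all _ fun u => ?_)
  have h1 : ∀ η : Env 2, ∫ s, f s ∂(Qg β n 0 u η) =
      (L1 β 0 (fun s => ENNReal.ofReal (f s)) u η).toReal := fun η =>
    integral_eq_lintegral_of_nonneg_ae (ae_of_all _ h0) hf.aestronglyMeasurable
  have hm : Measurable fun η : Env 2 => ∫ s, f s ∂(Qg β n 0 u η) := by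
    simp only [h1]
    exact ((meas_L1u31 hM 0 hf.ennreal_ofReal).comp
      (measurable_const.prodMk measurable_id)).ennreal_toReal
  show ∫ x, ∫ s, f s ∂(Qg β n 0 u fun p => ω p x) ∂μ = ∫ η, ∫ s, f s ∂(Qg β n 0 u η) ∂(law 2 ρ)
  rw [← hmp.map_eq, integral_map hmp.measurable.aemeasurable hm.aestronglyMeasurable]

/-- Theorem GW in an arbitrary probability space. -/
theorem transG31 (hω : IID μ ρ ω) (hd : d = 2) (hM : MesG β) (hG : MainG ρ β) {b : ℝ}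
    (hb : ∀ᵐ x ∂μ, |ω (0, 0) x| ≤ b) (R : ℝ) :
    ∃ ε : ℝ, 0 < ε ∧ ∀ᶠ n : ℕ in atTop, ∃ τ t : ℕ, τ < t ∧ t ≤ n ∧ ε * n ≤ (t : ℝ) - τ ∧
      ∀ m : Vec d, R * ((t : ℝ) - τ) <
        gaussMean μ ω β n fun s => ‖gaussPos s t - gaussPos s τ - m‖ ^ 2 := by
  subst hd
  have hb' : ρ (Set.Icc (-b) b)ᶜ = 0 := by
    rw [← hω.law (0, 0), Measure.map_apply (hω.meas _) measurableSet_Icc.compl]
    rw [ae_iff] at hb
    refine measure_mono_null (fun x hx => ?_) hb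
    intro h
    exact hx (abs_le.1 h)
  obtain ⟨ε, hε, N₀, hN⟩ := hG b R hb'
  refine ⟨ε, hε, ?_⟩
  filter_upwards [eventually_ge_atTop N₀] with n hn
  obtain ⟨τ, t, h1, h2, h3, h4⟩ := hN n hn
  refine ⟨τ, t, h1, h2, h3, fun m => (h4 m).trans_le (le_of_eq ?_)⟩
  refine (mean_eq31 hω hM (f := fun s => ‖sp s t - sp s τ - m‖ ^ 2) ?_ fun s => by positivity).symm
  exact (((meas_sp31 t).sub (meas_sp31 τ)).sub measurable_const).norm.pow_const 2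

end Pool.Agent.W_7d29a1_GW
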