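import Pool.Agent.W_7d29a1_GW.GlueA31
import Pool.Agent.W_7d29a1_GW.LikG48
import Pool.Agent.W_7d29a1_GW.Mes24
import Pool.Agent.W_7d29a1_GW.Shp42
import Pool.Agent.W_7d29a1_GW.Der62
import Pool.Agent.W_7d29a1_GW.Main31
import Pool.Agent.W_7d29a1_GW.Cel88
import Pool.Agent.W_7d29a1_GW.Shr24
import Pool.Agent.W_7d29a1_GW.Sep35
import Pool.Agent.W_7d29a1_GW.Trans31

/-!
Theorem GW: the polymer of the Gaussian walk in dimension two is never diffusive.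
-/

namespace Pool.Agent.W_7d29a1_GW

open MeasureTheory ProbabilityTheory Filter Topology Pool.Agent.W_MP_7d29a1_pr
  Pool.Agent.W_7d29a1_h46 Pool.Agent.W_7d29a1_h46u Pool.Agent.W_7d29a1_D2.B35
  Pool.Agent.W_7d29a1_Q29 Pool.Agent.W_7d29a1_S90 Pool.Agent.W_7d29a1_NS

/-- Theorem GW at the level of the law. -/
theorem gw31 {ρ : Measure ℝ} [IsProbabilityMeasure ρ] (hρ : EM ρ)
    (hnc : ∀ c : ℝ, ρ {c} ≠ 1) {β : ℝ} (hβ : 0 < β) : MainG ρ β :=
  main31 (mesG24 β) (cel88 (likG48 (nsI31 hρ hnc hβ)))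
    (sep35 (mesG24 β) (shrG24 (shpG42 β) (mesG24 β)) derG62)

variable {Ω : Type*} [MeasurableSpace Ω] {μ : Measure Ω} [IsProbabilityMeasure μ] {d : ℕ}
  {ρ : Measure ℝ} [IsProbabilityMeasure ρ] {ω : ℕ × Site d → Ω → ℝ} {β : ℝ}

/-- **Theorem GW**: in dimension two, for bounded disorder and every `β > 0`, the polymer of the
Gaussian walk is never diffusive: for every `R` and all large `n` some window `(τ, t]` of length at
least `ε n` has a mean square displacement, around every centre `m`, of more than `R (t - τ)`. -/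
theorem clauseG31 (hω : IID μ ρ ω) (hρ : EM ρ) (hnc : ∀ c : ℝ, ρ {c} ≠ 1) (hβ : 0 < β) :
    d = 2 → ∀ b R : ℝ, (∀ᵐ x ∂μ, |ω (0, 0) x| ≤ b) →
      ∃ ε : ℝ, 0 < ε ∧ ∀ᶠ n : ℕ in atTop, ∃ τ t : ℕ, τ < t ∧ t ≤ n ∧ ε * n ≤ (t : ℝ) - τ ∧
        ∀ m : Vec d, R * ((t : ℝ) - τ) <
          gaussMean μ ω β n fun s => ‖gaussPos s t - gaussPos s τ - m‖ ^ 2 :=
  fun hd _ R hb => transG31 hω hd (mesG24 β) (gw31 hρ hnc hβ) hb R

end Pool.Agent.W_7d29a1_GW
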