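import Pool.Agent.W_7d29a1_GW.DefsM31
import Pool.Agent.W_7d29a1_GW.Cm21

/-!
The Cameron Martin formula for the Gaussian walk.
-/

namespace Pool.Agent.W_7d29a1_GW.Cm21

open MeasureTheory ProbabilityTheory

/-- Product form: if each factor is moved into itself with a density, so is the product. -/
theorem pi_map21 {ι : Type*} [Fintype ι] {E : ι → Type*} [∀ i, MeasurableSpace (E i)]
    (μ : ∀ i, Measure (E i)) [∀ i, IsProbabilityMeasure (μ i)] (T : ∀ i, E i → E i)
    (D : ∀ i, E i → ℝ) (hT : ∀ i, Measurable (T i)) (hD0 : ∀ i x, 0 < D i x)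
    (hD : ∀ i, Integrable (D i) (μ i))
    (hm : ∀ i, (μ i).map (T i) = (μ i).withDensity fun x => ENNReal.ofReal (D i x)) :
    (Measure.pi μ).map (fun x i => T i (x i)) =
      (Measure.pi μ).withDensity fun x => ENNReal.ofReal (∏ i, D i (x i)) := by
  have hP : ∀ i, IsProbabilityMeasure ((μ i).map (T i)) := fun i =>
    Measure.isProbabilityMeasure_map (hT i).aemeasurable
  have h1 : (Measure.pi μ).map (fun x i => T i (x i)) = Measure.pi fun i => (μ i).map (T i) :=
    Measure.pi_map_pi (f := T) (fun i => (hT i).aemeasurable)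
  have hDi : Integrable (fun x : ∀ i, E i => ∏ i, D i (x i)) (Measure.pi μ) :=
    Integrable.fintype_prod_dep hD
  rw [h1]
  refine Measure.pi_eq fun s hs => ?_
  rw [withDensity_apply _ (MeasurableSet.univ_pi hs)]
  rw [← ofReal_integral_eq_lintegral_ofReal hDi.integrableOn
    (Filter.Eventually.of_forall fun x => Finset.prod_nonneg fun i _ => (hD0 i (x i)).le)]
  rw [← integral_indicator (MeasurableSet.univ_pi hs)]
  have h2 : ∀ x : ∀ i, E i, (Set.univ.pi s).indicator (fun x => ∏ i, D i (x i)) x =
      ∏ i, (s i).indicator (D i) (x i) := by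
    intro x
    by_cases hx : x ∈ Set.univ.pi s
    · rw [Set.indicator_of_mem hx]
      refine Finset.prod_congr rfl fun i _ => ?_
      rw [Set.indicator_of_mem (hx i (Set.mem_univ i))]
    · rw [Set.indicator_of_notMem hx]
      have : ∃ i, x i ∉ s i := by
        by_contra hcon
        push Not at hcon
        exact hx fun i _ => hcon i
      obtain ⟨i, hi⟩ := this
      refine (Finset.prod_eq_zero (Finset.mem_univ i) ?_).symm
      rw [Set.indicator_of_notMem hi]
  have h3 : ∫ x, (Set.univ.pi s).indicator (fun x => ∏ i, D i (x i)) x ∂(Measure.pi μ) =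
      ∏ i, ∫ x, (s i).indicator (D i) x ∂(μ i) := by
    rw [← integral_fintype_prod_eq_prod (f := fun i => (s i).indicator (D i))]
    exact integral_congr_ae (Filter.Eventually.of_forall h2)
  rw [h3, ENNReal.ofReal_prod_of_nonneg]
  · refine Finset.prod_congr rfl fun i _ => ?_
    rw [integral_indicator (hs i), ofReal_integral_eq_lintegral_ofReal (hD i).integrableOn
      (Filter.Eventually.of_forall fun x => (hD0 i x).le), ← withDensity_apply _ (hs i), hm i]
  · intro i _
    exact integral_nonneg fun x => Set.indicator_nonneg (fun x _ => (hD0 i x).le) x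

/-- One step. -/
lemma step21 (v : ℝ) :
    (Measure.pi fun _ : Fin 2 => gaussianReal 0 1).map (fun x j => if j = 0 then x j + v else x j) =
      (Measure.pi fun _ : Fin 2 => gaussianReal 0 1).withDensity fun x =>
        ENNReal.ofReal (Real.exp (v * x 0 - v ^ 2 / 2)) := by
  have h := pi_map21 (fun _ : Fin 2 => gaussianReal 0 1)
    (fun j x => if j = 0 then x + v else x)
    (fun j x => if j = 0 then Real.exp (v * x - v ^ 2 / 2) else 1)
    (fun j => by by_cases hj : j = 0 <;> simp [hj] <;> fun_prop)
    (fun j x => by by_cases hj : j = 0 <;> simp [hj, Real.exp_pos])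
    (fun j => by
      by_cases hj : j = 0
      · simpa [hj] using integrable21 v
      · simp [hj])
    (fun j => by
      by_cases hj : j = 0
      · simp only [hj, if_true]
        rw [gaussianReal_map_add_const, zero_add, withDensity21]
      · simp only [hj, if_false, ENNReal.ofReal_one]
        rw [Measure.map_id', withDensity_const, one_smul])
  rw [h]
  congr 1
  ext x
  rw [Fin.prod_univ_two]
  simp

lemma step_int21 (v : ℝ) : Integrable (fun x : Fin 2 → ℝ => Real.exp (v * x 0 - v ^ 2 / 2))
    (Measure.pi fun _ : Fin 2 => gaussianReal 0 1) := by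
  have h := Integrable.fintype_prod (μ := fun _ : Fin 2 => gaussianReal 0 1)
    (f := fun j x => if j = 0 then Real.exp (v * x - v ^ 2 / 2) else 1) (fun j => by
      by_cases hj : j = 0
      · simpa [hj] using integrable21 v
      · simp [hj])
  refine h.congr (Filter.Eventually.of_forall fun x => ?_)
  simp [Fin.prod_univ_two]

lemma sp_last21 {n : ℕ} (s : Fin n → Fin 2 → ℝ) (j : Fin 2) : sp s n j = ∑ i, s i j := by
  simp [sp]

lemma shf_meas21 (n : ℕ) (v : ℝ) : Measurable (shf v : (Fin n → Fin 2 → ℝ) → _) := by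
  unfold shf
  refine measurable_pi_lambda _ fun i => measurable_pi_lambda _ fun j => ?_
  by_cases hj : j = 0 <;> simp only [hj, if_true, if_false] <;> fun_prop

/-- The law of the shifted walk. -/
theorem gam_map21 (n : ℕ) (v : ℝ) : (gam n).map (shf v) =
    (gam n).withDensity fun s => ENNReal.ofReal (Real.exp (v * sp s n 0 - n * (v ^ 2 / 2))) := by
  have h := pi_map21 (fun _ : Fin n => Measure.pi fun _ : Fin 2 => gaussianReal 0 1)
    (fun _ x j => if j = 0 then x j + v else x j)
    (fun _ x => Real.exp (v * x 0 - v ^ 2 / 2))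
    (fun _ => by
      refine measurable_pi_lambda _ fun j => ?_
      by_cases hj : j = 0 <;> simp only [hj, if_true, if_false] <;> fun_prop)
    (fun _ _ => Real.exp_pos _) (fun _ => step_int21 v) (fun _ => step21 v)
  show (Measure.pi fun _ : Fin n => Measure.pi fun _ : Fin 2 => gaussianReal 0 1).map
    (fun x i j => if j = 0 then x i j + v else x i j) = _
  rw [h]
  unfold gam
  congr 1
  ext s
  congr 1
  rw [← Real.exp_sum, sp_last21, Finset.sum_sub_distrib, ← Finset.mul_sum]
  simp

lemma gam_int21 (n : ℕ) (v : ℝ) :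
    Integrable (fun s : Fin n → Fin 2 → ℝ => Real.exp (v * sp s n 0)) (gam n) := by
  have h := Integrable.fintype_prod_dep (μ := fun _ : Fin n => Measure.pi fun _ : Fin 2 =>
    gaussianReal 0 1) (f := fun _ x => Real.exp (v * x 0 - v ^ 2 / 2)) (fun _ => step_int21 v)
  have h2 := h.mul_const (Real.exp (n * (v ^ 2 / 2)))
  refine h2.congr (Filter.Eventually.of_forall fun s => ?_)
  show (∏ i, Real.exp (v * s i 0 - v ^ 2 / 2)) * Real.exp (n * (v ^ 2 / 2)) =
    Real.exp (v * sp s n 0)
  rw [← Real.exp_sum, ← Real.exp_add, sp_last21, Finset.sum_sub_distrib, ← Finset.mul_sum]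
  simp

/-- The exponential moment of the end point. -/
theorem gam_mgf21 (n : ℕ) (v : ℝ) :
    ∫ s, Real.exp (v * sp s n 0) ∂(gam n) = Real.exp (n * (v ^ 2 / 2)) := by
  have h0 : ((gam n).map (shf v)) Set.univ = 1 := by
    rw [Measure.map_apply (shf_meas21 n v) MeasurableSet.univ, Set.preimage_univ, measure_univ]
  have hI : Integrable (fun s : Fin n → Fin 2 → ℝ =>
      Real.exp (v * sp s n 0 - n * (v ^ 2 / 2))) (gam n) := by
    refine ((gam_int21 n v).mul_const (Real.exp (-(n * (v ^ 2 / 2))))).congr
      (Filter.Eventually.of_forall fun s => ?_)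
    show Real.exp (v * sp s n 0) * Real.exp (-(n * (v ^ 2 / 2))) =
      Real.exp (v * sp s n 0 - n * (v ^ 2 / 2))
    rw [← Real.exp_add]
    rfl
  rw [gam_map21, withDensity_apply _ MeasurableSet.univ, Measure.restrict_univ,
    ← ofReal_integral_eq_lintegral_ofReal hI
      (Filter.Eventually.of_forall fun s => (Real.exp_pos _).le)] at h0
  have h1 : ∫ s, Real.exp (v * sp s n 0 - n * (v ^ 2 / 2)) ∂(gam n) = 1 := by
    have h2 := congrArg ENNReal.toReal h0
    rw [ENNReal.toReal_ofReal (integral_nonneg fun s => (Real.exp_pos _).le),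
      ENNReal.toReal_one] at h2
    exact h2
  have h3 : ∀ s : Fin n → Fin 2 → ℝ, Real.exp (v * sp s n 0) =
      Real.exp (v * sp s n 0 - n * (v ^ 2 / 2)) * Real.exp (n * (v ^ 2 / 2)) := by
    intro s
    rw [← Real.exp_add]
    congr 1
    ring
  simp_rw [h3]
  rw [integral_mul_const, h1, one_mul]

/-- The Cameron Martin formula for the walk: the tilt of the end point is the shift. -/
theorem gamCM21 (n : ℕ) (v : ℝ) :
    (gam n).tilted (fun s => v * sp s n 0) = (gam n).map (shf v) := by
  rw [gam_map21, Measure.tilted, gam_mgf21]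
  congr 1
  ext s
  rw [← Real.exp_sub]

end Pool.Agent.W_7d29a1_GW.Cm21
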