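import Pool.Agent.W_7d29a1_GW.DefsM31
import Pool.Agent.W_7d29a1_GW.BasG56

/-!
Theorem GW, leaf LIS: from finite families of a priori weights to random a priori weights.
-/

namespace Pool.Agent.W_7d29a1_GW

open MeasureTheory ProbabilityTheory Filter Topology Pool.Agent.W_MP_7d29a1_pr
  Pool.Agent.W_7d29a1_h46 Pool.Agent.W_7d29a1_h46u Pool.Agent.W_7d29a1_D2.B35
  Pool.Agent.W_7d29a1_Q29 Pool.Agent.W_7d29a1_S90 Pool.Agent.W_7d29a1_NS

section Cont

variable {d : ℕ} {S : Type} [Fintype S]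

/-- The mean depends continuously on the a priori weights and on the function. -/
lemma gp_tend45 (β : ℝ) (ps : S → ℕ → Site d) (n : ℕ) (η : Env d) {w : ℕ → S → ℝ} {w₀ : S → ℝ}
    (hw : Wp w₀) (h : Tendsto w atTop (𝓝 w₀)) {f : ℕ → S → ℝ} {f₀ : S → ℝ}
    (hf : ∀ s, Tendsto (fun k => f k s) atTop (𝓝 (f₀ s))) :
    Tendsto (fun k => gp β ps n (w k) η (f k)) atTop (𝓝 (gp β ps n w₀ η f₀)) := by
  have h1 : ∀ s, Tendsto (fun k => gw β ps n (w k) η s) atTop (𝓝 (gw β ps n w₀ η s)) := fun s =>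
    ((tendsto_pi_nhds.1 h) s).mul_const _
  exact (tendsto_finsetSum _ fun s _ => (h1 s).mul (hf s)).div
    (tendsto_finsetSum _ fun s _ => h1 s) (gZ_pos56 hw β ps n η).ne'

/-- A weight of the simplex is an a priori weight. -/
lemma wp_simplex45 {w : S → ℝ} (hw : w ∈ stdSimplex ℝ S) : Wp w :=
  ⟨hw.1, by rw [hw.2]; norm_num⟩

/-- A bounded continuous function on the simplex. -/
def Bc45 (F : (S → ℝ) → ℝ) : Prop := (∃ C : ℝ, ∀ w ∈ stdSimplex ℝ S, |F w| ≤ C) ∧
  ∀ (w : ℕ → S → ℝ) (w₀ : S → ℝ), (∀ k, w k ∈ stdSimplex ℝ S) → w₀ ∈ stdSimplex ℝ S →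
    Tendsto w atTop (𝓝 w₀) → Tendsto (fun k => F (w k)) atTop (𝓝 (F w₀))

lemma bc_int45 {ρ : Measure ℝ} [IsProbabilityMeasure ρ] (Φ : (S → ℝ) → Env d → ℝ) (C : ℝ)
    (h1 : ∀ w ∈ stdSimplex ℝ S, ∀ η, |Φ w η| ≤ C) (h2 : ∀ w, Measurable (Φ w))
    (h3 : ∀ (w : ℕ → S → ℝ) (w₀ : S → ℝ), w₀ ∈ stdSimplex ℝ S →
      Tendsto w atTop (𝓝 w₀) → ∀ η, Tendsto (fun k => Φ (w k) η) atTop (𝓝 (Φ w₀ η))) :
    Bc45 fun w => ∫ η, Φ w η ∂(law d ρ) := by
  refine ⟨⟨C, fun w hw => ?_⟩, fun w w₀ hw hw₀ h => ?_⟩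
  · have h4 : ‖∫ η, Φ w η ∂(law d ρ)‖ ≤ C * (law d ρ).real Set.univ :=
      norm_integral_le_of_norm_le_const (Eventually.of_forall fun η => h1 w hw η)
    simpa using h4
  · exact tendsto_integral_of_dominated_convergence (fun _ => C)
      (fun k => (h2 (w k)).aestronglyMeasurable) (integrable_const C)
      (fun k => Eventually.of_forall fun η => h1 (w k) (hw k) η)
      (Eventually.of_forall fun η => h3 w w₀ hw₀ h η)

/-- The averaged mean of a function of the path. -/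
lemma bc_one45 {ρ : Measure ℝ} [IsProbabilityMeasure ρ] (β : ℝ) (ps : S → ℕ → Site d) (n : ℕ)
    (f : S → ℝ) : Bc45 fun w => ∫ η, gp β ps n w η f ∂(law d ρ) := by
  refine bc_int45 (fun w η => gp β ps n w η f) (∑ s, |f s|) (fun w hw η => ?_) (fun w => ?_)
    fun w w₀ hw₀ h η => ?_
  · exact gp_abs56 (wp_simplex45 hw) β ps n η fun s =>
      Finset.single_le_sum (f := fun s => |f s|) (fun _ _ => abs_nonneg _) (Finset.mem_univ s)
  · exact gp_meas56 β ps n w (f := fun _ => f) fun _ => measurable_const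
  · exact gp_tend45 β ps n η (wp_simplex45 hw₀) h fun s => tendsto_const_nhds

/-- The averaged mean of a bounded function of two paths. -/
lemma bc_two45 {ρ : Measure ℝ} [IsProbabilityMeasure ρ] (β : ℝ) (ps : S → ℕ → Site d) (n : ℕ)
    (f : S → S → ℝ) (hf : ∀ s s', |f s s'| ≤ 1) :
    Bc45 fun w => ∫ η, gp2 β ps n w η f ∂(law d ρ) := by
  refine bc_int45 (fun w η => gp2 β ps n w η f) 1 (fun w hw η => ?_) (fun w => ?_)
    fun w w₀ hw₀ h η => ?_
  · exact gp2_abs56 (wp_simplex45 hw) β ps n η hf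
  · exact gp_meas56 β ps n w (f := fun η s => gp β ps n w η fun s' => f s s') fun s =>
      gp_meas56 β ps n w (f := fun _ s' => f s s') fun _ => measurable_const
  · exact gp_tend45 β ps n η (wp_simplex45 hw₀) h fun s =>
      gp_tend45 β ps n η (wp_simplex45 hw₀) h fun s' => tendsto_const_nhds

/-- Simple approximations in the simplex. -/
lemma simple45 {V : Type} [MeasurableSpace V] {ν : Measure V} [IsProbabilityMeasure ν]
    {w : V → S → ℝ} (hm : Measurable w) (hs : ∀ u, w u ∈ stdSimplex ℝ S) :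
    ∃ W : ℕ → SimpleFunc V (S → ℝ), (∀ k u, W k u ∈ stdSimplex ℝ S) ∧
      ∀ F : (S → ℝ) → ℝ, Bc45 F →
        Tendsto (fun k => ∫ u, F (W k u) ∂ν) atTop (𝓝 (∫ u, F (w u) ∂ν)) := by
  obtain ⟨u₀⟩ : Nonempty V := nonempty_of_isProbabilityMeasure ν
  refine ⟨fun k => SimpleFunc.approxOn w hm (stdSimplex ℝ S) (w u₀) (hs u₀) k,
    fun k u => SimpleFunc.approxOn_mem hm (hs u₀) k u, fun F hF => ?_⟩
  obtain ⟨C, hC⟩ := hF.1
  refine tendsto_integral_of_dominated_convergence (fun _ => C) (fun k => ?_)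
    (integrable_const C) (fun k => Eventually.of_forall fun u => ?_)
    (Eventually.of_forall fun u => ?_)
  · exact (SimpleFunc.map F (SimpleFunc.approxOn w hm (stdSimplex ℝ S) (w u₀)
      (hs u₀) k)).aestronglyMeasurable
  · exact hC _ (SimpleFunc.approxOn_mem hm (hs u₀) k u)
  · exact hF.2 _ _ (fun k => SimpleFunc.approxOn_mem hm (hs u₀) k u) (hs u)
      (SimpleFunc.tendsto_approxOn hm (hs u₀) (subset_closure (hs u)))

end Cont

/-- The integral of a function of a simple function. -/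
lemma int_simple45 {V E : Type*} [MeasurableSpace V] (ν : Measure V) [IsProbabilityMeasure ν]
    (W : SimpleFunc V E) (F : E → ℝ) :
    ∫ u, F (W u) ∂ν = ∑ a ∈ W.range, ν.real (W ⁻¹' {a}) * F a := by
  classical
  have h1 : ∀ u, F (W u) = ∑ a ∈ W.range, (W ⁻¹' {a}).indicator (fun _ => F a) u := by
    intro u
    rw [Finset.sum_eq_single (W u)]
    · rw [Set.indicator_of_mem]
      rfl
    · intro a _ ha
      rw [Set.indicator_of_notMem]
      intro h2
      exact ha h2.symm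
    · intro h
      exact absurd (W.mem_range_self u) h
  simp_rw [h1]
  rw [integral_finsetSum _ fun a _ => (integrable_const (F a)).indicator (W.measurableSet_fiber a)]
  refine Finset.sum_congr rfl fun a _ => ?_
  rw [integral_indicator_const _ (W.measurableSet_fiber a), smul_eq_mul]

/-- **Leaf LIS.** -/
theorem lisG45 {ρ : Measure ℝ} [IsProbabilityMeasure ρ] {β : ℝ} (hN : NsF ρ β) : NsI ρ β := by
  classical
  intro R κ hκ
  obtain ⟨γ, C, hγ, hC, h⟩ := hN (R + 1) κ hκ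
  refine ⟨γ, C, hγ, hC, ?_⟩
  intro V _ ν _ S _ ps n t w l hm hs h0 hl hlt htn hW
  obtain ⟨W, hW1, hW2⟩ := simple45 (ν := ν) (measurable_pi_iff.2 hm) hs
  choose! m hm1 using hW
  have h5 : ∀ᶠ k in atTop, ∀ p ∈ (Finset.range (n + 1)) ×ˢ (Finset.range (n + 1)), p.1 < p.2 →
      p.2 ≤ n → l ≤ (p.2 : ℝ) - p.1 →
      ∫ u, ∫ η, gp β ps n (W k u) η (fun s => gi ps p.1 p.2 (m p.1 p.2) s ^ 2) ∂(law 2 ρ) ∂ν ≤
        (R + 1) * ((p.2 : ℝ) - p.1) := by
    refine (Filter.eventually_all_finset _).2 fun p _ => ?_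
    by_cases hp : p.1 < p.2 ∧ p.2 ≤ n ∧ l ≤ (p.2 : ℝ) - p.1
    · have h6 := hm1 p.1 p.2 hp.1 hp.2.1 hp.2.2
      have h7 := hW2 _ (bc_one45 (ρ := ρ) β ps n fun s => gi ps p.1 p.2 (m p.1 p.2) s ^ 2)
      have h8 : R * ((p.2 : ℝ) - p.1) < (R + 1) * ((p.2 : ℝ) - p.1) := by linarith [hp.2.2]
      filter_upwards [h7.eventually_lt_const (lt_of_le_of_lt h6 h8)] with k hk _ _ _
      exact hk.le
    · filter_upwards with k h1 h2 h3
      exact absurd ⟨h1, h2, h3⟩ hp
  refine le_of_tendsto (hW2 _ (bc_two45 (ρ := ρ) β ps n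
    (fun s s' => if C * Real.sqrt t * (l / t) ^ γ < ‖emb (ps s t) - emb (ps s' t)‖ then (1 : ℝ)
      else 0) fun s s' => ?_)) ?_
  · split_ifs <;> simp
  filter_upwards [h5] with k hk
  have hav : ∀ F : (S → ℝ) → ℝ, av (fun a : (W k).range => ν.real (W k ⁻¹' {(a : S → ℝ)}))
      (fun a : (W k).range => (a : S → ℝ)) F = ∫ u, F (W k u) ∂ν := by
    intro F
    rw [int_simple45 ν (W k) F]
    exact Finset.sum_coe_sort (W k).range fun a => ν.real (W k ⁻¹' {a}) * F a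
  have hfam : IsFam (fun a : (W k).range => ν.real (W k ⁻¹' {(a : S → ℝ)}))
      (fun a : (W k).range => (a : S → ℝ)) := by
    refine ⟨fun a => measureReal_nonneg, ?_, fun a => ?_⟩
    · have h9 := hav fun _ => 1
      unfold av at h9
      simpa using h9
    · obtain ⟨u, hu⟩ := (W k).mem_range.1 a.2
      have h9 := wp_simplex45 (hW1 k u)
      rw [hu] at h9
      exact h9
  have h10 := h (W k).range S ps n t _ _ l hfam h0 hl hlt htn (by
    intro τ t' h1 h2 h3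
    refine ⟨m τ t', ?_⟩
    rw [hav]
    exact hk (τ, t') (Finset.mem_product.2 ⟨Finset.mem_range.2 (by omega),
      Finset.mem_range.2 (by omega)⟩) h1 h2 h3)
  rw [hav] at h10
  exact h10.le

end Pool.Agent.W_7d29a1_GW
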