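import Pool.Agent.W_7d29a1_GW.BasG39
import Pool.Agent.W_7d29a1_NS.LoA99

/-!
Theorem GW, leaf LOA (`LoaG`): port of helper99's `loa99` to a finite a priori path space.
-/

namespace Pool.Agent.W_7d29a1_GW

open MeasureTheory ProbabilityTheory Filter Topology Pool.Agent.W_MP_7d29a1_pr
  Pool.Agent.W_7d29a1_h46 Pool.Agent.W_7d29a1_h46u Pool.Agent.W_7d29a1_D2.B35
  Pool.Agent.W_7d29a1_Q29 Pool.Agent.W_7d29a1_S90 Pool.Agent.W_7d29a1_NS

variable {d : ℕ} {ρ : Measure ℝ}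

open Classical in
/-- Leaf LOA. -/
theorem loaG31 [IsProbabilityMeasure ρ] (β : ℝ) : LoaG d ρ β := by
  intro S _ ps n w hw hw1 q τ t hτ hτt htn g a i o b Y hg hgY ha
  set G : Env d → ℝ := gqb β ps n w t i o b with hG
  have hGm : Measurable G := meas_gqb39 β t i o b
  have hG0 : ∀ η, 0 ≤ G η := fun η => (gqb_bd39 hw hw1 β t i o b η).1
  have hG1 : ∀ η, G η ≤ 1 := fun η => (gqb_bd39 hw hw1 β t i o b η).2
  set f : Env d → ℝ := fa99 ρ q g τ Y with hfd
  have hfm : Measurable f := fa_meas99 q g τ Y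
  have hf : ∀ η, |f η| ≤ 1 / 2 := by
    intro η
    rw [hfd]
    unfold fa99
    rw [abs_mul, abs_of_nonneg hg]
    refine (mul_le_mul_of_nonneg_left (Finset.abs_sum_le_sum_abs _ _) hg).trans ?_
    refine (mul_le_mul_of_nonneg_left (Finset.sum_le_sum fun y _ => zt_abs99 q _) hg).trans ?_
    simpa using hgY
  have hS : Pa d (τ - 1) ⊆ Pa d τ := fun p hp => by
    have : p.1 ≤ τ - 1 := hp
    show p.1 ≤ τ
    omega
  have hfdep : DependsOn f (Pa d τ) := fun η η' he =>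
    fa_dep99 q g τ Y fun p hp => he p (show p.1 ≤ τ from le_of_eq hp)
  have hfdep' : DependsOn f (Pa d (τ - 1))ᶜ := fun η η' he =>
    fa_dep99 q g τ Y fun p hp => he p (fun h2 => by
      have h3 : p.1 ≤ τ - 1 := h2
      have h4 : p.1 = τ := hp
      omega)
  have hf0 : ∀ η, cE ρ (Pa d (τ - 1)) f η = 0 := fun η => by
    rw [cE_of_indep (Pa d (τ - 1)) hfdep' η, hfd, fa_int99]
  have hf2 : ∀ η, cE ρ (Pa d (τ - 1)) (fun ξ => f ξ ^ 2) η ≤ g ^ 2 * Y.card := fun η => by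
    rw [cE_of_indep (Pa d (τ - 1)) (H := fun ξ => f ξ ^ 2) (fun x y he => by
      show f x ^ 2 = f y ^ 2
      rw [hfdep' he]) η, hfd]
    exact fa_sq99 q g τ Y
  -- the weight
  set k : Env d → ℝ := fun η => if gHi ρ β ps n w t a τ i o b η then (0 : ℝ) else 1 with hk
  have hnbm : ∀ σ, Measurable (gnb ρ β ps n w t σ i o b) := fun σ => measurable_cE hGm (Pa d σ)
  have hcm : Measurable (cE ρ (Pa d (τ - 1)) (fun ξ => Real.sqrt (gnb ρ β ps n w t τ i o b ξ))) :=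
    measurable_cE (hnbm τ).sqrt _
  have hHm : MeasurableSet {η : Env d | gHi ρ β ps n w t a τ i o b η} :=
    measurableSet_le hcm ((hnbm (τ - 1)).sqrt.const_mul _)
  have hkm : Measurable k := Measurable.ite hHm measurable_const measurable_const
  have hk01 : ∀ η, 0 ≤ k η ∧ k η ≤ 1 := by
    intro η
    rw [hk]
    simp only
    split_ifs <;> constructor <;> norm_num
  have hkd : DependsOn k (Pa d (τ - 1)) := by
    intro η η' he
    have h1 : gnb ρ β ps n w t (τ - 1) i o b η = gnb ρ β ps n w t (τ - 1) i o b η' :=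
      cE_dep (Pa d (τ - 1)) _ he
    have h2 : cE ρ (Pa d (τ - 1)) (fun ξ => Real.sqrt (gnb ρ β ps n w t τ i o b ξ)) η =
        cE ρ (Pa d (τ - 1)) (fun ξ => Real.sqrt (gnb ρ β ps n w t τ i o b ξ)) η' :=
      cE_dep (Pa d (τ - 1)) _ he
    show (if gHi ρ β ps n w t a τ i o b η then (0 : ℝ) else 1) =
      if gHi ρ β ps n w t a τ i o b η' then (0 : ℝ) else 1
    have h3 : gHi ρ β ps n w t a τ i o b η ↔ gHi ρ β ps n w t a τ i o b η' := by
      unfold gHi
      rw [h1, h2]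
    by_cases h4 : gHi ρ β ps n w t a τ i o b η
    · rw [if_pos h4, if_pos (h3.1 h4)]
    · rw [if_neg h4, if_neg fun h5 => h4 (h3.2 h5)]
  have key : ∀ (F : Env d → ℝ) (_ : Measurable F) (_ : ∀ ξ, |F ξ| ≤ 1),
      ∫ η, k η * F η ∂(law d ρ) = ∫ η, k η * cE ρ (Pa d (τ - 1)) F η ∂(law d ρ) := by
    intro F hFm hF1
    have hi : Integrable (fun η => F η * k η) (law d ρ) :=
      Integrable.mono' (integrable_const 1) (hFm.mul hkm).aestronglyMeasurable
        (Eventually.of_forall fun η => by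
          rw [Real.norm_eq_abs, abs_mul, abs_of_nonneg (hk01 η).1]
          calc _ ≤ 1 * 1 := mul_le_mul (hF1 η) (hk01 η).2 (hk01 η).1 zero_le_one
            _ = 1 := one_mul 1)
    have h1 := int_mul_cE (ρ := ρ) (Pa d (τ - 1)) hi hkd
    simp only [mul_comm (k _)]
    exact h1
  have hki : ∀ (F : Env d → ℝ) (_ : Measurable F) (_ : ∀ ξ, |F ξ| ≤ 1),
      Integrable (fun η => k η * cE ρ (Pa d (τ - 1)) F η) (law d ρ) := by
    intro F hFm hF1
    refine Integrable.mono' (integrable_const 1)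
      (hkm.mul (measurable_cE hFm _)).aestronglyMeasurable (Eventually.of_forall fun η => ?_)
    rw [Real.norm_eq_abs, abs_mul, abs_of_nonneg (hk01 η).1]
    calc _ ≤ 1 * 1 := mul_le_mul (hk01 η).2 (cE_abs_le hF1 _ η) (abs_nonneg _) zero_le_one
      _ = 1 := one_mul 1
  have hGf : ∀ ξ, |G ξ * f ξ| ≤ 1 := fun ξ => by
    rw [abs_mul, abs_of_nonneg (hG0 ξ)]
    calc _ ≤ 1 * (1 / 2) := mul_le_mul (hG1 ξ) (hf ξ) (abs_nonneg _) zero_le_one
      _ ≤ 1 := by norm_num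
  have hGa : ∀ ξ, |G ξ| ≤ 1 := fun ξ => by rw [abs_of_nonneg (hG0 ξ)]; exact hG1 ξ
  have m1 : Measurable fun ξ => G ξ * f ξ := hGm.mul hfm
  have k1 := key (fun ξ => G ξ * f ξ) m1 hGf
  have k2 := key G hGm hGa
  have hlhs : g * (∫ η, (if gHi ρ β ps n w t a τ i o b η then (0 : ℝ) else 1) *
      ((∑ y ∈ Y, zt ρ q (η (τ, y))) * gqb β ps n w t i o b η) ∂(law d ρ)) =
      ∫ η, k η * (G η * f η) ∂(law d ρ) := by
    rw [← integral_const_mul]
    refine integral_congr_ae (Eventually.of_forall fun η => ?_)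
    show g * (k η * ((∑ y ∈ Y, zt ρ q (η (τ, y))) * G η)) =
      k η * (G η * (g * ∑ y ∈ Y, zt ρ q (η (τ, y))))
    ring
  have hrhs : ∫ η, (if gHi ρ β ps n w t a τ i o b η then (0 : ℝ) else 1) *
      gqb β ps n w t i o b η ∂(law d ρ) = ∫ η, k η * G η ∂(law d ρ) := rfl
  rw [hlhs, hrhs, k1, k2, ← integral_const_mul]
  refine integral_mono (hki _ m1 hGf) ((hki G hGm hGa).const_mul _) fun η => ?_
  show k η * cE ρ (Pa d (τ - 1)) (fun ξ => G ξ * f ξ) η ≤
    2 * (a + g ^ 2 * Y.card) * (k η * cE ρ (Pa d (τ - 1)) G η)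
  by_cases hH : gHi ρ β ps n w t a τ i o b η
  · have hk0 : k η = 0 := if_pos hH
    rw [hk0]
    simp
  · have hk1 : k η = 1 := if_neg hH
    rw [hk1, one_mul, one_mul]
    exact loaP99 hGm hG0 hG1 hS hfm hf hfdep ha (by positivity) η (hf0 η) (hf2 η)
      (not_le.1 hH)

end Pool.Agent.W_7d29a1_GW
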