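import Pool.Agent.W_7d29a1_GW.DefsG31
import Pool.Agent.W_7d29a1_NS.Off44

/-!
Theorem GW, leaf OFF: a random offset of the grid, for families of finite path spaces (helper44).
-/

set_option autoImplicit false

namespace Pool.Agent.W_7d29a1_GW

open MeasureTheory ProbabilityTheory Filter Topology Pool.Agent.W_MP_7d29a1_pr
  Pool.Agent.W_7d29a1_h46 Pool.Agent.W_7d29a1_h46u Pool.Agent.W_7d29a1_D2.B35
  Pool.Agent.W_7d29a1_Q29 Pool.Agent.W_7d29a1_S90 Pool.Agent.W_7d29a1_NS

variable {d : ℕ} {S : Type} [Fintype S] {β : ℝ} {ps : S → ℕ → Site d} {n : ℕ} {w : S → ℝ}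

lemma gw_nonneg44 (hw : ∀ s, 0 ≤ w s) (η : Env d) (s : S) : 0 ≤ gw β ps n w η s :=
  mul_nonneg (hw s) (Real.exp_pos _).le

lemma gZ_pos44 (hw : ∀ s, 0 ≤ w s) (hs : 0 < ∑ s, w s) (η : Env d) :
    0 < ∑ s, gw β ps n w η s := by
  obtain ⟨s, -, h⟩ := Finset.exists_lt_of_sum_lt (s := Finset.univ) (f := fun _ : S => (0 : ℝ))
    (g := w) (by simpa using hs)
  exact Finset.sum_pos' (fun s _ => gw_nonneg44 hw η s)
    ⟨s, Finset.mem_univ s, mul_pos h (Real.exp_pos _)⟩

lemma gw_meas44 (s : S) : Measurable fun η : Env d => gw β ps n w η s := by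
  unfold gw
  refine measurable_const.mul (Real.measurable_exp.comp (measurable_const.mul ?_))
  exact Finset.measurable_sum _ fun i _ => measurable_pi_apply _

lemma gp_meas44 (f : S → ℝ) : Measurable fun η : Env d => gp β ps n w η f := by
  unfold gp
  exact (Finset.measurable_sum _ fun s _ => (gw_meas44 s).mul_const _).div
    (Finset.measurable_sum _ fun s _ => gw_meas44 s)

lemma gp_mono44 (hw : ∀ s, 0 ≤ w s) (hs : 0 < ∑ s, w s) (η : Env d) {f g : S → ℝ}
    (h : ∀ s, f s ≤ g s) : gp β ps n w η f ≤ gp β ps n w η g :=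
  div_le_div_of_nonneg_right
    (Finset.sum_le_sum fun s _ => mul_le_mul_of_nonneg_left (h s) (gw_nonneg44 hw η s))
    (gZ_pos44 hw hs η).le

lemma gp_const44 (hw : ∀ s, 0 ≤ w s) (hs : 0 < ∑ s, w s) (η : Env d) (c : ℝ) :
    gp β ps n w η (fun _ => c) = c := by
  unfold gp
  rw [← Finset.sum_mul, mul_comm, mul_div_assoc, div_self (gZ_pos44 hw hs η).ne', mul_one]

lemma gp_sum44 {ι : Type*} (A : Finset ι) (η : Env d) (f : ι → S → ℝ) :
    gp β ps n w η (fun s => ∑ o ∈ A, f o s) = ∑ o ∈ A, gp β ps n w η (f o) := by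
  unfold gp
  rw [← Finset.sum_div]
  congr 1
  simp_rw [Finset.mul_sum]
  exact Finset.sum_comm

lemma gp_int44 {ρ : Measure ℝ} [IsProbabilityMeasure ρ] (hw : ∀ s, 0 ≤ w s)
    (hs : 0 < ∑ s, w s) (f : S → ℝ) : Integrable (fun η => gp β ps n w η f) (law d ρ) := by
  have hb : ∀ s, |f s| ≤ ∑ s, |f s| := fun s =>
    Finset.single_le_sum (f := fun s => |f s|) (fun s _ => abs_nonneg _) (Finset.mem_univ s)
  refine Integrable.of_bound (gp_meas44 f).aestronglyMeasurable (∑ s, |f s|)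
    (Eventually.of_forall fun η => ?_)
  rw [Real.norm_eq_abs, abs_le]
  constructor
  · have := gp_mono44 (β := β) (ps := ps) (n := n) hw hs η (f := fun _ => -∑ s, |f s|) (g := f)
      fun s => by linarith [neg_abs_le (f s), hb s]
    rwa [gp_const44 hw hs] at this
  · have := gp_mono44 (β := β) (ps := ps) (n := n) hw hs η (f := f) (g := fun _ => ∑ s, |f s|)
      fun s => by linarith [le_abs_self (f s), hb s]
    rwa [gp_const44 hw hs] at this

open Classical in
/-- The offset, every dimension. -/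
theorem offG44 {ρ : Measure ℝ} [IsProbabilityMeasure ρ] {A : Type} [Fintype A] {t : ℕ}
    {π : A → ℝ} {w : A → S → ℝ} (hF : IsFam π w) (Q : Finset ℕ) (lev : ℕ → ℕ) (b r : ℕ → ℝ)
    (hb : ∀ s ∈ Q, 0 ≤ b s) (hr : ∀ s ∈ Q, 0 ≤ r s) : ∃ o : Site d,
    ∑ s ∈ Q, b s * av π w (fun w' => gNb ρ β ps n w' t (lev s) o (r s)) ≤
      ∑ s ∈ Q, b s * (2 * d * r s / 2 ^ lev s) := by
  obtain ⟨hπ0, hπ1, hw⟩ := hF
  set M := Q.sup lev with hM
  have key : ∀ s ∈ Q, ∀ a : A, ∑ o ∈ off44 d M, gNb ρ β ps n (w a) t (lev s) o (r s) ≤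
      (off44 d M).card * (2 * d * r s / 2 ^ lev s) := by
    intro s hs a
    have hi : lev s ≤ M := Finset.le_sup hs
    have hw0 := (hw a).1
    have hw1 := (hw a).2
    unfold gNb
    rw [← integral_finsetSum _ fun o _ => gp_int44 hw0 hw1 _]
    have h1 : ∀ η : Env d, ∑ o ∈ off44 d M, gp β ps n (w a) η (fun s' =>
        if ∃ z : Site d, blk (lev s) o z ≠ blk (lev s) o (ps s' t) ∧
          ‖emb z - emb (ps s' t)‖ ≤ r s then (1 : ℝ) else 0) ≤
        (off44 d M).card * (2 * d * r s / 2 ^ lev s) := by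
      intro η
      rw [← gp_sum44]
      have h2 := gp_mono44 (β := β) (ps := ps) (n := n) hw0 hw1 η
        (f := fun s' : S => ∑ o ∈ off44 d M,
          if ∃ z : Site d, blk (lev s) o z ≠ blk (lev s) o (ps s' t) ∧
            ‖emb z - emb (ps s' t)‖ ≤ r s then (1 : ℝ) else 0)
        (g := fun _ => (off44 d M).card * (2 * d * r s / 2 ^ lev s))
        fun s' => avg44 hi (hr s hs) (ps s' t)
      rwa [gp_const44 hw0 hw1] at h2
    refine (integral_mono (integrable_finsetSum _ fun o _ => gp_int44 hw0 hw1 _)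
      (integrable_const _) h1).trans ?_
    rw [integral_const, probReal_univ, one_smul]
  have h1 : ∑ o ∈ off44 d M, ∑ s ∈ Q,
      b s * av π w (fun w' => gNb ρ β ps n w' t (lev s) o (r s)) ≤
      ∑ _o ∈ off44 d M, ∑ s ∈ Q, b s * (2 * d * r s / 2 ^ lev s) := by
    rw [Finset.sum_comm, Finset.sum_const, nsmul_eq_mul, Finset.mul_sum]
    refine Finset.sum_le_sum fun s hs => ?_
    rw [← Finset.mul_sum]
    have h2 : ∑ o ∈ off44 d M, av π w (fun w' => gNb ρ β ps n w' t (lev s) o (r s)) ≤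
        (off44 d M).card * (2 * d * r s / 2 ^ lev s) := by
      unfold av
      rw [Finset.sum_comm]
      have h3 : ∀ a ∈ (Finset.univ : Finset A), ∑ o ∈ off44 d M,
          π a * gNb ρ β ps n (w a) t (lev s) o (r s) ≤
          π a * ((off44 d M).card * (2 * d * r s / 2 ^ lev s)) := by
        intro a _
        rw [← Finset.mul_sum]
        exact mul_le_mul_of_nonneg_left (key s hs a) (hπ0 a)
      refine (Finset.sum_le_sum h3).trans (le_of_eq ?_)
      rw [← Finset.sum_mul, hπ1, one_mul]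
    have h3 := mul_le_mul_of_nonneg_left h2 (hb s hs)
    linarith
  obtain ⟨o, -, ho⟩ := Finset.exists_le_of_sum_le (off_pos44 d M) h1
  exact ⟨o, ho⟩

/-- **Leaf OFF.** -/
theorem offF44 {ρ : Measure ℝ} [IsProbabilityMeasure ρ] (β : ℝ) : OffF ρ β := by
  intro A S _ _ ps n t π w hF Q lev b r hb hr
  obtain ⟨o, ho⟩ := offG44 (ρ := ρ) (β := β) (ps := ps) (n := n) (t := t) hF Q lev b r hb hr
  refine ⟨o, ho.trans (le_of_eq ?_)⟩
  refine Finset.sum_congr rfl fun s _ => ?_
  push_cast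
  ring

end Pool.Agent.W_7d29a1_GW
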