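import Pool.Agent.W_7d29a1_GW.BasG39

/-!
Theorem GW, leaf SIB: the influence of one site.
-/

namespace Pool.Agent.W_7d29a1_GW

open MeasureTheory ProbabilityTheory Filter Topology Pool.Agent.W_MP_7d29a1_pr
  Pool.Agent.W_7d29a1_h46 Pool.Agent.W_7d29a1_h46u Pool.Agent.W_7d29a1_D2.B35
  Pool.Agent.W_7d29a1_Q29 Pool.Agent.W_7d29a1_S90 Pool.Agent.W_7d29a1_NS

variable {d : ℕ} {S : Type} [Fintype S] {ps : S → ℕ → Site d} {n : ℕ} {w : S → ℝ}

open Classical in
lemma sumG39 (β : ℝ) (η : Env d) {τ : ℕ} (y : Site d) (hτ : 1 ≤ τ) (hτn : τ ≤ n) (F : S → ℝ)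
    (r : ℝ) : ∑ s : S, gw β ps n w (Function.update η (τ, y) r) s * F s =
      (∑ s : S, if ps s τ = y then
        gw β ps n w (Function.update η (τ, y) 0) s * F s else 0) * Real.exp (β * r) +
      ∑ s : S, if ps s τ = y then 0 else
        gw β ps n w (Function.update η (τ, y) 0) s * F s := by
  rw [Finset.sum_mul, ← Finset.sum_add_distrib]
  refine Finset.sum_congr rfl fun s _ => ?_
  rw [gw_upd39 β η s y r hτ hτn]
  split_ifs <;> ring

open Classical in
/-- The three means which occur, as functions of the value of one site. -/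
lemma shapeG39 (hw : ∀ s, 0 ≤ w s) (hw1 : 0 < ∑ s, w s) (β : ℝ) (η : Env d) {τ : ℕ}
    (y : Site d) (hτ : 1 ≤ τ) (hτn : τ ≤ n) (Fr : S → Prop) :
    ∃ a b e f : ℝ, 0 ≤ e ∧ e ≤ a ∧ 0 ≤ f ∧ f ≤ b ∧ 0 < a + b ∧ ∀ r : ℝ,
      gp β ps n w (Function.update η (τ, y) r) (fun s => if ps s τ = y ∧ Fr s then (1 : ℝ) else 0) =
        e * Real.exp (β * r) / (b + a * Real.exp (β * r)) ∧
      gp β ps n w (Function.update η (τ, y) r) (fun s => if ¬ Fr s then (1 : ℝ) else 0) =
        ((a - e) * Real.exp (β * r) + (b - f)) / (b + a * Real.exp (β * r)) ∧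
      gp2 β ps n w (Function.update η (τ, y) r) (fun s s' => if ps s τ = y ∧ ps s' τ ≠ y ∧ Fr s'
        then (1 : ℝ) else 0) = a * Real.exp (β * r) / (b + a * Real.exp (β * r)) *
          (f / (b + a * Real.exp (β * r))) := by
  set W : S → ℝ := fun s => gw β ps n w (Function.update η (τ, y) 0) s with hW
  have hW0 : ∀ s, 0 ≤ W s := fun s => gw_nonneg39 hw β _ s
  set a : ℝ := ∑ s, if ps s τ = y then W s else 0 with ha
  set b : ℝ := ∑ s, if ps s τ = y then 0 else W s with hb
  set e : ℝ := ∑ s, if ps s τ = y ∧ Fr s then W s else 0 with he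
  set f : ℝ := ∑ s, if ps s τ ≠ y ∧ Fr s then W s else 0 with hf
  have hZ : ∀ r, ∑ s, gw β ps n w (Function.update η (τ, y) r) s = b + a * Real.exp (β * r) := by
    intro r
    have h1 := sumG39 (ps := ps) (w := w) β η y hτ hτn (fun _ => 1) r
    simp only [mul_one] at h1
    rw [h1]
    ring
  refine ⟨a, b, e, f, ?_, ?_, ?_, ?_, ?_, fun r => ⟨?_, ?_, ?_⟩⟩
  · exact Finset.sum_nonneg fun s _ => by
      split_ifs
      · exact hW0 s
      · exact le_rfl
  · refine Finset.sum_le_sum fun s _ => ?_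
    by_cases h1 : ps s τ = y
    · by_cases h2 : Fr s
      · rw [if_pos ⟨h1, h2⟩, if_pos h1]
      · rw [if_neg (fun h3 => h2 h3.2), if_pos h1]
        exact hW0 s
    · rw [if_neg (fun h3 => h1 h3.1), if_neg h1]
  · exact Finset.sum_nonneg fun s _ => by
      split_ifs
      · exact hW0 s
      · exact le_rfl
  · refine Finset.sum_le_sum fun s _ => ?_
    by_cases h1 : ps s τ = y
    · rw [if_neg (fun h3 => h3.1 h1), if_pos h1]
    · by_cases h2 : Fr s
      · rw [if_pos ⟨h1, h2⟩, if_neg h1]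
      · rw [if_neg (fun h3 => h2 h3.2), if_neg h1]
        exact hW0 s
  · have h1 := hZ 0
    rw [mul_zero, Real.exp_zero, mul_one] at h1
    rw [add_comm, ← h1]
    exact gZ_pos39 hw hw1 β _
  · unfold gp
    rw [hZ r, sumG39 β η y hτ hτn]
    congr 1
    have h1 : (∑ s : S, if ps s τ = y then
        W s * (if ps s τ = y ∧ Fr s then (1 : ℝ) else 0) else 0) = e := by
      refine Finset.sum_congr rfl fun s _ => ?_
      by_cases h1 : ps s τ = y
      · by_cases h2 : Fr s
        · simp [h1, h2]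
        · simp [h1, h2]
      · simp [h1]
    have h2 : (∑ s : S, if ps s τ = y then (0 : ℝ) else
        W s * (if ps s τ = y ∧ Fr s then (1 : ℝ) else 0)) = 0 := by
      refine Finset.sum_eq_zero fun s _ => ?_
      by_cases h1 : ps s τ = y
      · simp [h1]
      · simp [h1]
    rw [h1, h2, add_zero]
  · unfold gp
    rw [hZ r, sumG39 β η y hτ hτn]
    congr 1
    have h1 : (∑ s : S, if ps s τ = y then
        W s * (if ¬ Fr s then (1 : ℝ) else 0) else 0) = a - e := by
      rw [ha, he, ← Finset.sum_sub_distrib]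
      refine Finset.sum_congr rfl fun s _ => ?_
      by_cases h1 : ps s τ = y
      · by_cases h2 : Fr s
        · simp [h1, h2]
        · simp [h1, h2]
      · simp [h1]
    have h2 : (∑ s : S, if ps s τ = y then (0 : ℝ) else
        W s * (if ¬ Fr s then (1 : ℝ) else 0)) = b - f := by
      rw [hb, hf, ← Finset.sum_sub_distrib]
      refine Finset.sum_congr rfl fun s _ => ?_
      by_cases h1 : ps s τ = y
      · simp [h1]
      · by_cases h2 : Fr s
        · simp [h1, h2]
        · simp [h1, h2]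
    rw [h1, h2]
  · unfold gp2
    have h0 : ∀ s : S, gp β ps n w (Function.update η (τ, y) r)
        (fun s' : S => if ps s τ = y ∧ ps s' τ ≠ y ∧ Fr s' then (1 : ℝ) else 0) =
        if ps s τ = y then f / (b + a * Real.exp (β * r)) else 0 := by
      intro s
      by_cases hs : ps s τ = y
      · rw [if_pos hs]
        unfold gp
        rw [hZ r, sumG39 β η y hτ hτn]
        congr 1
        have h1 : (∑ s' : S, if ps s' τ = y then
            W s' * (if ps s τ = y ∧ ps s' τ ≠ y ∧ Fr s' then (1 : ℝ) else 0) else 0) = 0 := by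
          refine Finset.sum_eq_zero fun s' _ => ?_
          by_cases h1 : ps s' τ = y
          · simp [h1]
          · simp [h1]
        have h2 : (∑ s' : S, if ps s' τ = y then (0 : ℝ) else
            W s' * (if ps s τ = y ∧ ps s' τ ≠ y ∧ Fr s' then (1 : ℝ) else 0)) = f := by
          refine Finset.sum_congr rfl fun s' _ => ?_
          by_cases h1 : ps s' τ = y
          · simp [h1]
          · by_cases h2 : Fr s'
            · simp [h1, h2, hs]
            · simp [h1, h2]
        rw [h1, h2, zero_mul, zero_add]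
      · rw [if_neg hs]
        unfold gp
        rw [Finset.sum_eq_zero, zero_div]
        intro s' _
        simp [hs]
    simp only [h0]
    unfold gp
    rw [hZ r, sumG39 β η y hτ hτn]
    have h1 : ∀ K : ℝ, (∑ s : S, if ps s τ = y then
        W s * (if ps s τ = y then K else 0) else 0) = a * K := by
      intro K
      rw [ha, Finset.sum_mul]
      refine Finset.sum_congr rfl fun s _ => ?_
      by_cases h1 : ps s τ = y
      · simp [h1]
      · simp [h1]
    have h2 : (∑ s : S, if ps s τ = y then (0 : ℝ) else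
        W s * (if ps s τ = y then f / (b + a * Real.exp (β * r)) else 0)) = 0 := by
      refine Finset.sum_eq_zero fun s _ => ?_
      by_cases h1 : ps s τ = y
      · simp [h1]
      · simp [h1]
    rw [h1 (f / (b + a * Real.exp (β * r))), h2, add_zero]
    ring

open Classical in
/-- **The one site inequality**, any event `Fr` of the walks, any weight `χ`. -/
theorem sibG39 {ρ : Measure ℝ} [IsProbabilityMeasure ρ] (hρ : EM ρ)
    (hnc : ∀ c : ℝ, ρ {c} ≠ 1) {β : ℝ} (hβ : 0 < β) : SibG d ρ β := by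
  obtain ⟨q, c, hc0, hc1, hmain⟩ := scalarI39 hρ hnc hβ
  refine ⟨q, c, hc0, hc1, fun S _ ps n w hw hw1 τ hτ hτn y Fr χ hχm hχ hχd => ?_⟩
  have b2 : ∀ s s' : S, (0 : ℝ) ≤ (if ps s τ = y ∧ ps s' τ ≠ y ∧ Fr s' then (1 : ℝ)
      else 0) ∧ (if ps s τ = y ∧ ps s' τ ≠ y ∧ Fr s' then (1 : ℝ) else 0) ≤ 1 := by
    intro s s'
    split_ifs <;> constructor <;> norm_num
  have b1 : ∀ s : S, (0 : ℝ) ≤ (if ps s τ = y ∧ Fr s then (1 : ℝ)
      else 0) ∧ (if ps s τ = y ∧ Fr s then (1 : ℝ) else 0) ≤ 1 := by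
    intro s
    split_ifs <;> constructor <;> norm_num
  have b0 : ∀ s : S, (0 : ℝ) ≤ (if ¬ Fr s then (1 : ℝ) else 0) ∧
      (if ¬ Fr s then (1 : ℝ) else 0) ≤ 1 := by
    intro s
    split_ifs <;> constructor <;> norm_num
  have I2 : Integrable (fun η : Env d => χ η * gp2 β ps n w η (fun s s' : S =>
      if ps s τ = y ∧ ps s' τ ≠ y ∧ Fr s' then (1 : ℝ) else 0)) (law d ρ) :=
    int_bd39 (hχm.mul (meas_gp239 β _)) fun η =>
      ⟨mul_nonneg (hχ η).1 (gp2_bd39 hw hw1 β η b2).1,
        mul_le_one₀ (hχ η).2 (gp2_bd39 hw hw1 β η b2).1 (gp2_bd39 hw hw1 β η b2).2⟩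
  have I1 : Integrable (fun η : Env d => χ η * gp β ps n w η (fun s : S =>
      if ps s τ = y ∧ Fr s then (1 : ℝ) else 0)) (law d ρ) :=
    int_bd39 (hχm.mul (meas_gp39 β _)) fun η =>
      ⟨mul_nonneg (hχ η).1 (gp_bd39 hw hw1 β η b1).1,
        mul_le_one₀ (hχ η).2 (gp_bd39 hw hw1 β η b1).1 (gp_bd39 hw hw1 β η b1).2⟩
  have I0 : Integrable (fun η : Env d => χ η * (zt ρ q (η (τ, y)) *
      gp β ps n w η (fun s : S => if ¬ Fr s then (1 : ℝ) else 0))) (law d ρ) := by
    refine Integrable.of_bound (hχm.mul (((meas_zt39 ρ q).comp (measurable_pi_apply (τ, y))).mul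
      (meas_gp39 β _))).aestronglyMeasurable 1 (Eventually.of_forall fun η => ?_)
    have h1 := gp_bd39 (ps := ps) (n := n) hw hw1 β η b0
    have h2 := zt_bd39 ρ q (η (τ, y))
    rw [norm_mul, norm_mul, Real.norm_eq_abs, Real.norm_eq_abs, Real.norm_eq_abs,
      abs_of_nonneg (hχ η).1, abs_of_nonneg h1.1]
    exact mul_le_one₀ (hχ η).2 (mul_nonneg (abs_nonneg _) h1.1) (mul_le_one₀ h2 h1.1 h1.2)
  rw [D85.integral_upd (τ, y) I2, D85.integral_upd (τ, y) I1, D85.integral_upd (τ, y) I0,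
    ← integral_const_mul, ← integral_sub ((D85.integrable_upd (τ, y) I2).const_mul c)
      (D85.integrable_upd (τ, y) I1)]
  refine integral_mono (((D85.integrable_upd (τ, y) I2).const_mul c).sub
    (D85.integrable_upd (τ, y) I1)) (D85.integrable_upd (τ, y) I0) fun η => ?_
  obtain ⟨a, b, e, f, he, hea, hf, hfb, hab, hsh⟩ := shapeG39 (ps := ps) hw hw1 β η y hτ hτn Fr
  have h1 := mul_le_mul_of_nonneg_left (hmain a b e f he hea hf hfb hab) (hχ η).1
  simp only [Function.update_self]
  have e1 : ∀ r' : ℝ, gp β ps n w (Function.update η (τ, y) r')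
      (fun s => if ps s τ = y ∧ Fr s then (1 : ℝ) else 0) = _ := fun r' => (hsh r').1
  have e2 : ∀ r' : ℝ, gp β ps n w (Function.update η (τ, y) r')
      (fun s => if ¬ Fr s then (1 : ℝ) else 0) = _ := fun r' => (hsh r').2.1
  have e3 : ∀ r' : ℝ, gp2 β ps n w (Function.update η (τ, y) r') (fun s s' => if ps s τ = y ∧
      ps s' τ ≠ y ∧ Fr s' then (1 : ℝ) else 0) = _ := fun r' => (hsh r').2.2
  have e4 : ∀ r' : ℝ, χ (Function.update η (τ, y) r') = χ η := fun r' => D85.dep_upd hχd η r'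
  simp only [e1, e2, e3, e4, integral_const_mul]
  refine le_trans (le_of_eq ?_) h1
  ring

end Pool.Agent.W_7d29a1_GW
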