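import Pool.Agent.W_7d29a1_GW.DefsG31
import Pool.Agent.W_7d29a1_Q29.Ce39

/-!
Typical concentration for a finite a priori path space: the general inequality, from the chain of
the blocks.
-/

namespace Pool.Agent.W_7d29a1_GW

open MeasureTheory ProbabilityTheory Filter Topology Pool.Agent.W_MP_7d29a1_pr
  Pool.Agent.W_7d29a1_h46 Pool.Agent.W_7d29a1_h46u Pool.Agent.W_7d29a1_D2.B35
  Pool.Agent.W_7d29a1_Q29 Pool.Agent.W_7d29a1_S90 Pool.Agent.W_7d29a1_NS

variable {d : ℕ} {S : Type} [Fintype S]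

/-! ### The polymer mean -/

section Mean

lemma gw_nonneg90 (β : ℝ) (ps : S → ℕ → Site d) (n : ℕ) {w : S → ℝ} (hw : ∀ s, 0 ≤ w s)
    (η : Env d) (s : S) : 0 ≤ gw β ps n w η s := mul_nonneg (hw s) (Real.exp_pos _).le

lemma gZ_pos90 (β : ℝ) (ps : S → ℕ → Site d) (n : ℕ) {w : S → ℝ} (hw : ∀ s, 0 ≤ w s)
    (hs : 0 < ∑ s, w s) (η : Env d) : 0 < ∑ s, gw β ps n w η s := by
  obtain ⟨s, hs1, hs2⟩ := Finset.exists_ne_zero_of_sum_ne_zero hs.ne'
  exact Finset.sum_pos' (fun s _ => gw_nonneg90 β ps n hw η s)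
    ⟨s, hs1, mul_pos (lt_of_le_of_ne (hw s) (Ne.symm hs2)) (Real.exp_pos _)⟩

lemma measurable_gw90 (β : ℝ) (ps : S → ℕ → Site d) (n : ℕ) (w : S → ℝ) (s : S) :
    Measurable fun η : Env d => gw β ps n w η s := by
  unfold gw
  refine measurable_const.mul (Real.measurable_exp.comp (measurable_const.mul ?_))
  exact Finset.measurable_sum _ fun i _ => measurable_pi_apply _

lemma gp_mono90 (β : ℝ) (ps : S → ℕ → Site d) {n : ℕ} {w : S → ℝ} (hw : ∀ s, 0 ≤ w s)
    (hs : 0 < ∑ s, w s) (η : Env d) {f g : S → ℝ} (hfg : ∀ s, f s ≤ g s) :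
    gp β ps n w η f ≤ gp β ps n w η g :=
  div_le_div_of_nonneg_right (Finset.sum_le_sum fun s _ =>
    mul_le_mul_of_nonneg_left (hfg s) (gw_nonneg90 β ps n hw η s)) (gZ_pos90 β ps n hw hs η).le

lemma gp_const90 (β : ℝ) (ps : S → ℕ → Site d) {n : ℕ} {w : S → ℝ} (hw : ∀ s, 0 ≤ w s)
    (hs : 0 < ∑ s, w s) (η : Env d) (c : ℝ) : gp β ps n w η (fun _ => c) = c := by
  unfold gp
  rw [← Finset.sum_mul, mul_comm]
  exact mul_div_cancel_right₀ c (gZ_pos90 β ps n hw hs η).ne'

lemma gp_nonneg90 (β : ℝ) (ps : S → ℕ → Site d) {n : ℕ} {w : S → ℝ} (hw : ∀ s, 0 ≤ w s)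
    (hs : 0 < ∑ s, w s) (η : Env d) {f : S → ℝ} (hf : ∀ s, 0 ≤ f s) :
    0 ≤ gp β ps n w η f := by
  have h1 := gp_mono90 β ps (n := n) hw hs η hf
  rwa [gp_const90 β ps hw hs] at h1

lemma gp_add90 (β : ℝ) (ps : S → ℕ → Site d) (n : ℕ) (w : S → ℝ) (η : Env d) (f g : S → ℝ) :
    gp β ps n w η (fun s => f s + g s) = gp β ps n w η f + gp β ps n w η g := by
  unfold gp
  rw [← add_div, ← Finset.sum_add_distrib]
  congr 1
  exact Finset.sum_congr rfl fun s _ => mul_add _ _ _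

lemma gp_mul90 (β : ℝ) (ps : S → ℕ → Site d) (n : ℕ) (w : S → ℝ) (η : Env d) (c : ℝ)
    (f : S → ℝ) : gp β ps n w η (fun s => c * f s) = c * gp β ps n w η f := by
  unfold gp
  rw [← mul_div_assoc, Finset.mul_sum]
  congr 1
  exact Finset.sum_congr rfl fun s _ => by ring

lemma gp_sum90 {ι : Type*} (Q : Finset ι) (β : ℝ) (ps : S → ℕ → Site d) (n : ℕ) (w : S → ℝ)
    (η : Env d) (f : ι → S → ℝ) :
    gp β ps n w η (fun s => ∑ i ∈ Q, f i s) = ∑ i ∈ Q, gp β ps n w η (f i) := by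
  unfold gp
  rw [← Finset.sum_div, Finset.sum_comm]
  congr 1
  exact Finset.sum_congr rfl fun s _ => Finset.mul_sum _ _ _

lemma abs_gp_le90 (β : ℝ) (ps : S → ℕ → Site d) {n : ℕ} {w : S → ℝ} (hw : ∀ s, 0 ≤ w s)
    (hs : 0 < ∑ s, w s) (η : Env d) {f : S → ℝ} {C : ℝ} (hf : ∀ s, |f s| ≤ C) :
    |gp β ps n w η f| ≤ C := by
  rw [abs_le]
  constructor
  · have h1 := gp_mono90 β ps (n := n) hw hs η (f := fun _ => -C) (g := f)
      fun s => (abs_le.1 (hf s)).1
    rwa [gp_const90 β ps hw hs] at h1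
  · have h1 := gp_mono90 β ps (n := n) hw hs η (f := f) (g := fun _ => C)
      fun s => (abs_le.1 (hf s)).2
    rwa [gp_const90 β ps hw hs] at h1

lemma measurable_gp90 (β : ℝ) (ps : S → ℕ → Site d) (n : ℕ) (w : S → ℝ) {f : Env d → S → ℝ}
    (hf : ∀ s, Measurable fun η => f η s) :
    Measurable fun η : Env d => gp β ps n w η (f η) := by
  unfold gp
  exact (Finset.measurable_sum _ fun s _ => (measurable_gw90 β ps n w s).mul (hf s)).div
    (Finset.measurable_sum _ fun s _ => measurable_gw90 β ps n w s)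

lemma integrable_gp90 {ρ : Measure ℝ} [IsProbabilityMeasure ρ] (β : ℝ) (ps : S → ℕ → Site d)
    {n : ℕ} {w : S → ℝ} (hw : ∀ s, 0 ≤ w s) (hs : 0 < ∑ s, w s) {f : Env d → S → ℝ}
    (hf : ∀ s, Measurable fun η => f η s) {C : ℝ} (hC : ∀ η s, |f η s| ≤ C) :
    Integrable (fun η : Env d => gp β ps n w η (f η)) (law d ρ) := by
  refine (integrable_const C).mono' (measurable_gp90 β ps n w hf).aestronglyMeasurable
    (Eventually.of_forall fun η => ?_)
  rw [Real.norm_eq_abs]
  exact abs_gp_le90 β ps hw hs η (hC η)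

lemma integrable_gp_fun90 {ρ : Measure ℝ} [IsProbabilityMeasure ρ] (β : ℝ)
    (ps : S → ℕ → Site d) {n : ℕ} {w : S → ℝ} (hw : ∀ s, 0 ≤ w s) (hs : 0 < ∑ s, w s)
    (f : S → ℝ) : Integrable (fun η : Env d => gp β ps n w η f) (law d ρ) := by
  refine integrable_gp90 β ps hw hs (f := fun _ => f) (fun s => measurable_const)
    (C := ∑ s, |f s|) fun _ s => ?_
  exact Finset.single_le_sum (f := fun s => |f s|) (fun _ _ => abs_nonneg _) (Finset.mem_univ s)

lemma gp2_mono90 (β : ℝ) (ps : S → ℕ → Site d) {n : ℕ} {w : S → ℝ} (hw : ∀ s, 0 ≤ w s)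
    (hs : 0 < ∑ s, w s) (η : Env d) {f g : S → S → ℝ} (hfg : ∀ s s', f s s' ≤ g s s') :
    gp2 β ps n w η f ≤ gp2 β ps n w η g :=
  gp_mono90 β ps hw hs η fun s => gp_mono90 β ps hw hs η fun s' => hfg s s'

lemma gQt_nonneg90 (β : ℝ) (ps : S → ℕ → Site d) {n : ℕ} {w : S → ℝ} (hw : ∀ s, 0 ≤ w s)
    (hs : 0 < ∑ s, w s) (t : ℕ) (y : Site d) (η : Env d) : 0 ≤ gQt β ps n w t y η := by
  unfold gQt
  refine gp_nonneg90 β ps hw hs η fun s => ?_
  split_ifs <;> norm_num

lemma gQt_le_one90 (β : ℝ) (ps : S → ℕ → Site d) {n : ℕ} {w : S → ℝ} (hw : ∀ s, 0 ≤ w s)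
    (hs : 0 < ∑ s, w s) (t : ℕ) (y : Site d) (η : Env d) : gQt β ps n w t y η ≤ 1 := by
  unfold gQt
  refine (le_abs_self _).trans (abs_gp_le90 β ps hw hs η fun s => ?_)
  split_ifs <;> simp

lemma measurable_gQt90 (β : ℝ) (ps : S → ℕ → Site d) (n : ℕ) (w : S → ℝ) (t : ℕ)
    (y : Site d) : Measurable (gQt β ps n w t y) := by
  unfold gQt
  exact measurable_gp90 β ps n w fun s => measurable_const

open Classical in
/-- The sites which are reached at the time `t`. -/
noncomputable def bx90 (ps : S → ℕ → Site d) (t : ℕ) : Finset (Site d) :=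
  Finset.univ.image fun s => ps s t

lemma gp_pos90 (β : ℝ) (ps : S → ℕ → Site d) (n : ℕ) (w : S → ℝ) (η : Env d) (t : ℕ)
    (f : Site d → ℝ) :
    gp β ps n w η (fun s => f (ps s t)) = ∑ y ∈ bx90 ps t, gQt β ps n w t y η * f y := by
  classical
  unfold gQt gp
  simp only [div_mul_eq_mul_div]
  rw [← Finset.sum_div]
  congr 1
  simp only [Finset.sum_mul]
  rw [Finset.sum_comm]
  refine Finset.sum_congr rfl fun s _ => ?_
  have h1 : ps s t ∈ bx90 ps t := Finset.mem_image_of_mem _ (Finset.mem_univ s)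
  rw [Finset.sum_eq_single_of_mem (ps s t) h1 fun y _ hy => by simp [Ne.symm hy]]
  simp

end Mean

variable {ρ : Measure ℝ} [IsProbabilityMeasure ρ]

lemma measurable_gqb90 (β : ℝ) (ps : S → ℕ → Site d) (n : ℕ) (w : S → ℝ) (t i : ℕ) (o b : Site d) :
    Measurable (gqb β ps n w t i o b : Env d → ℝ) := by
  unfold gqb
  exact measurable_gp90 β ps n w fun s => measurable_const

lemma measurable_gnb90 (β : ℝ) (ps : S → ℕ → Site d) (n : ℕ) (w : S → ℝ) (t τ i : ℕ) (o b : Site d) :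
    Measurable (gnb ρ β ps n w t τ i o b) := by
  have h1 : gnb ρ β ps n w t τ i o b = cE ρ (Pa d τ) (gqb β ps n w t i o b) := rfl
  rw [h1]
  exact Pool.Agent.W_7d29a1_Q29.measurable_cE (measurable_gqb90 β ps n w t i o b) _

lemma measurableSet_gHi90 (β : ℝ) (ps : S → ℕ → Site d) (n : ℕ) (w : S → ℝ) (t : ℕ) (a : ℝ) (τ i : ℕ) (o b : Site d) :
    MeasurableSet {η : Env d | gHi ρ β ps n w t a τ i o b η} :=
  measurableSet_le
    (Pool.Agent.W_7d29a1_Q29.measurable_cE (measurable_gnb90 β ps n w t τ i o b).sqrt _)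
    ((measurable_gnb90 β ps n w t (τ - 1) i o b).sqrt.const_mul _)

omit [IsProbabilityMeasure ρ] in
lemma gHi_dep90 (β : ℝ) (ps : S → ℕ → Site d) (n : ℕ) (w : S → ℝ) (t : ℕ) (a : ℝ) (τ i : ℕ) (o b : Site d) {η η' : Env d}
    (hη : ∀ p ∈ Pa d (τ - 1), η p = η' p) :
    gHi ρ β ps n w t a τ i o b η ↔ gHi ρ β ps n w t a τ i o b η' := by
  unfold gHi
  rw [Pool.Agent.W_7d29a1_Q29.cE_dep (Pa d (τ - 1))
    (fun ξ => Real.sqrt (gnb ρ β ps n w t τ i o b ξ)) hη]
  unfold gnb
  rw [Pool.Agent.W_7d29a1_Q29.cE_dep (Pa d (τ - 1)) (gqb β ps n w t i o b) hη]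

lemma measurable_gNh90 (β : ℝ) (ps : S → ℕ → Site d) (n : ℕ) (w : S → ℝ) (t : ℕ) (a : ℕ → ℝ) (lev : ℕ → ℕ) (o : Site d)
    (τ₀ τ : ℕ) (x : Site d) : Measurable (gNh ρ β ps n w t a lev o τ₀ τ x) := by
  classical
  unfold gNh
  refine Finset.measurable_sum _ fun σ _ => ?_
  exact Measurable.ite (measurableSet_gHi90 β ps n w t (a σ) σ (lev σ) o (blk (lev σ) o x))
    measurable_const measurable_const

omit [IsProbabilityMeasure ρ] in
lemma gNh_dep90 (β : ℝ) (ps : S → ℕ → Site d) (n : ℕ) (w : S → ℝ) (t : ℕ) (a : ℕ → ℝ) (lev : ℕ → ℕ) (o : Site d)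
    (τ₀ τ : ℕ) (x : Site d) {η η' : Env d} (hη : ∀ p ∈ Pa d τ, η p = η' p) :
    gNh ρ β ps n w t a lev o τ₀ τ x η = gNh ρ β ps n w t a lev o τ₀ τ x η' := by
  classical
  unfold gNh
  refine Finset.sum_congr rfl fun σ hσ => ?_
  rw [Finset.mem_Ioc] at hσ
  have h1 : gHi ρ β ps n w t (a σ) σ (lev σ) o (blk (lev σ) o x) η ↔
      gHi ρ β ps n w t (a σ) σ (lev σ) o (blk (lev σ) o x) η' := by
    refine gHi_dep90 β ps n w t (a σ) σ (lev σ) o _ fun p hp => hη p ?_
    have h2 : p.1 ≤ σ - 1 := hp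
    show p.1 ≤ τ
    omega
  simp only [h1]

omit [IsProbabilityMeasure ρ] in
lemma gNh_bd90 (β : ℝ) (ps : S → ℕ → Site d) (n : ℕ) (w : S → ℝ) (t : ℕ) {a : ℕ → ℝ} (ha : ∀ σ, 0 ≤ a σ) (lev : ℕ → ℕ)
    (o : Site d) (τ₀ τ : ℕ) (x : Site d) (η : Env d) :
    0 ≤ gNh ρ β ps n w t a lev o τ₀ τ x η ∧
      gNh ρ β ps n w t a lev o τ₀ τ x η ≤ ∑ σ ∈ Finset.Ioc τ₀ τ, a σ := by
  classical
  unfold gNh
  constructor
  · refine Finset.sum_nonneg fun σ _ => ?_
    split_ifs
    · exact ha σ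
    · exact le_rfl
  · refine Finset.sum_le_sum fun σ _ => ?_
    split_ifs
    · exact le_rfl
    · exact ha σ

/-- The mean over two replicas of a bounded measurable function is integrable. -/
lemma integrable_gp2_90 (β : ℝ) (ps : S → ℕ → Site d) {n : ℕ} {w : S → ℝ} (hw : ∀ s, 0 ≤ w s) (hs : 0 < ∑ s, w s)
    {F : Env d → S → S → ℝ}
    (hF : ∀ s s', Measurable fun η => F η s s') {C : ℝ} (hC : ∀ η s s', |F η s s'| ≤ C) :
    Integrable (fun η : Env d => gp2 β ps n w η (F η)) (law d ρ) := by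
  unfold gp2
  exact integrable_gp90 β ps hw hs (f := fun η s => gp β ps n w η fun s' => F η s s')
    (fun s => measurable_gp90 β ps n w (f := fun η s' => F η s s') fun s' => hF s s')
    (C := C) fun η s => abs_gp_le90 β ps hw hs η fun s' => hC η s s'

omit [IsProbabilityMeasure ρ] in
lemma gind_bd90 (p : Prop) [Decidable p] : |(if p then (1 : ℝ) else 0)| ≤ 1 := by
  split_ifs <;> simp

/-- The last part of the typical concentration. -/
lemma glast90 (β : ℝ) (hC : ChnG d ρ β) (ps : S → ℕ → Site d) {n : ℕ} {w : S → ℝ}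
    (hw : ∀ s, 0 ≤ w s) (hs : 0 < ∑ s, w s) {t τ₀ : ℕ} (hτ : τ₀ < t)
    (ht : t ≤ n) {a : ℕ → ℝ} (lev : ℕ → ℕ) (o : Site d) (U : Finset (Site d)) {ε A : ℝ}
    (ha : ∀ σ, 0 ≤ a σ) (hlev : Antitone lev)
    (hU : ∀ x ∈ U, ∀ z : Site d, blk (lev (τ₀ + 1)) o z = blk (lev (τ₀ + 1)) o x → z ∈ U)
    (hε : 0 ≤ ε) (q : Site d → Env d → Prop) [∀ y η, Decidable (q y η)]
    (hq : ∀ y η, q y η ↔ (y ∈ U ∧ cE ρ (Pa d (t - 1)) (gQt β ps n w t y) η < ε ∧
      A / 2 ≤ gNh ρ β ps n w t a lev o τ₀ (t - 1) y η)) :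
    ∫ η, gp β ps n w η (fun s : S => if q (ps s t) η then (1 : ℝ) else 0) ∂(law d ρ) ≤
      Real.sqrt ε * Real.exp (-(A / 2)) * Real.sqrt U.card := by
  classical
  have hνm : ∀ y : Site d, Measurable (cE ρ (Pa d (t - 1)) (gQt β ps n w t y)) := fun y =>
    Pool.Agent.W_7d29a1_Q29.measurable_cE (measurable_gQt90 β ps n w t y) _
  have hν0 : ∀ (y : Site d) (η : Env d), 0 ≤ cE ρ (Pa d (t - 1)) (gQt β ps n w t y) η := fun y η =>
    Pool.Agent.W_7d29a1_Q29.cE_nonneg (fun η => gQt_nonneg90 β ps hw hs t y η) _ η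
  have hν1 : ∀ (y : Site d) (η : Env d), cE ρ (Pa d (t - 1)) (gQt β ps n w t y) η ≤ 1 := fun y η =>
    Pool.Agent.W_7d29a1_Q29.cE_le (measurable_gQt90 β ps n w t y)
      (fun η => gQt_nonneg90 β ps hw hs t y η) (fun η => gQt_le_one90 β ps hw hs t y η) _ η
  have hNm : ∀ y : Site d, Measurable (gNh ρ β ps n w t a lev o τ₀ (t - 1) y) := fun y =>
    measurable_gNh90 β ps n w t a lev o τ₀ (t - 1) y
  set A0 : ℝ := ∑ σ ∈ Finset.Ioc τ₀ (t - 1), a σ with hA0
  -- the function `g`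
  have hgm : ∀ y : Site d, Measurable fun η : Env d => if q y η then (1 : ℝ) else 0 := by
    intro y
    have hset : MeasurableSet {η : Env d | q y η} := by
      have h1 : {η : Env d | q y η} = {_η : Env d | y ∈ U} ∩
          ({η | cE ρ (Pa d (t - 1)) (gQt β ps n w t y) η < ε} ∩
            {η | A / 2 ≤ gNh ρ β ps n w t a lev o τ₀ (t - 1) y η}) := by
        ext η
        exact hq y η
      rw [h1]
      exact (MeasurableSet.const _).inter ((measurableSet_lt (hνm y) measurable_const).inter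
        (measurableSet_le measurable_const (hNm y)))
    exact Measurable.ite hset measurable_const measurable_const
  have hgd : ∀ y : Site d, DependsOn (fun η : Env d => if q y η then (1 : ℝ) else 0)
      (Pa d (t - 1)) := by
    intro y η η' hη
    have h1 : q y η ↔ q y η' := by
      rw [hq, hq, Pool.Agent.W_7d29a1_Q29.cE_dep (Pa d (t - 1)) (gQt β ps n w t y) hη,
        gNh_dep90 β ps n w t a lev o τ₀ (t - 1) y hη]
    simp only [h1]
  have hbd : ∀ (y : Site d) (η : Env d), (if q y η then (1 : ℝ) else 0) *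
      cE ρ (Pa d (t - 1)) (gQt β ps n w t y) η ≤
        if y ∈ U then Real.sqrt ε * Real.exp (-(A / 2)) *
          (Real.sqrt (cE ρ (Pa d (t - 1)) (gQt β ps n w t y) η) *
            Real.exp (gNh ρ β ps n w t a lev o τ₀ (t - 1) y η)) else 0 := by
    intro y η
    by_cases hy : y ∈ U
    · rw [if_pos hy]
      by_cases hqy : q y η
      · rw [if_pos hqy, one_mul]
        obtain ⟨-, h2, h3⟩ := (hq y η).1 hqy
        set v := cE ρ (Pa d (t - 1)) (gQt β ps n w t y) η with hv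
        have h4 : Real.sqrt v * Real.sqrt v = v := Real.mul_self_sqrt (hν0 y η)
        have h5 : Real.sqrt v ≤ Real.sqrt ε := Real.sqrt_le_sqrt h2.le
        have h6 : 1 ≤ Real.exp (-(A / 2)) * Real.exp (gNh ρ β ps n w t a lev o τ₀ (t - 1) y η) := by
          rw [← Real.exp_add]
          exact Real.one_le_exp (by linarith)
        calc v = Real.sqrt v * Real.sqrt v * 1 := by rw [h4, mul_one]
          _ ≤ Real.sqrt ε * Real.sqrt v *
              (Real.exp (-(A / 2)) * Real.exp (gNh ρ β ps n w t a lev o τ₀ (t - 1) y η)) :=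
            mul_le_mul (mul_le_mul_of_nonneg_right h5 (Real.sqrt_nonneg _)) h6 zero_le_one
              (by positivity)
          _ = _ := by ring
      · rw [if_neg hqy, zero_mul]
        positivity
    · rw [if_neg hy, if_neg fun hqy => hy ((hq y η).1 hqy).1, zero_mul]
  have hint : ∀ y : Site d, Integrable (fun η => Real.sqrt ε * Real.exp (-(A / 2)) *
      (Real.sqrt (cE ρ (Pa d (t - 1)) (gQt β ps n w t y) η) *
        Real.exp (gNh ρ β ps n w t a lev o τ₀ (t - 1) y η))) (law d ρ) := by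
    intro y
    refine Integrable.const_mul ?_ _
    refine Integrable.mono' (integrable_const (1 * Real.exp A0))
      (((hνm y).sqrt).mul (hNm y).exp).aestronglyMeasurable (Eventually.of_forall fun η => ?_)
    rw [Real.norm_eq_abs, abs_of_nonneg (by positivity)]
    refine mul_le_mul ?_ (Real.exp_le_exp.2 (gNh_bd90 β ps n w t ha lev o τ₀ (t - 1) y η).2)
      (by positivity) zero_le_one
    rw [Real.sqrt_le_one]
    exact hν1 y η
  have hQg : ∀ y : Site d, Integrable (fun η => gQt β ps n w t y η *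
      (if q y η then (1 : ℝ) else 0)) (law d ρ) := by
    intro y
    refine Integrable.mono' (integrable_const (1 * 1))
      ((measurable_gQt90 β ps n w t y).mul (hgm y)).aestronglyMeasurable
        (Eventually.of_forall fun η => ?_)
    rw [Real.norm_eq_abs, abs_mul]
    refine mul_le_mul ?_ (gind_bd90 _) (abs_nonneg _) zero_le_one
    rw [abs_of_nonneg (gQt_nonneg90 β ps hw hs t y η)]
    exact gQt_le_one90 β ps hw hs t y η
  have hpe : ∀ η : Env d, gp β ps n w η (fun s : S =>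
      if q (ps s t) η then (1 : ℝ) else 0) =
        ∑ y ∈ bx90 ps t, gQt β ps n w t y η * (if q y η then (1 : ℝ) else 0) := fun η =>
    gp_pos90 β ps n w η t fun y => if q y η then (1 : ℝ) else 0
  have hone : ∀ y : Site d, ∫ η, gQt β ps n w t y η * (if q y η then (1 : ℝ) else 0) ∂(law d ρ) ≤
      if y ∈ U then ∫ η, Real.sqrt ε * Real.exp (-(A / 2)) *
        (Real.sqrt (cE ρ (Pa d (t - 1)) (gQt β ps n w t y) η) *
          Real.exp (gNh ρ β ps n w t a lev o τ₀ (t - 1) y η)) ∂(law d ρ) else 0 := by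
    intro y
    rw [Pool.Agent.W_7d29a1_Q29.int_mul_cE (Pa d (t - 1)) (hQg y) (hgd y)]
    have hmono : ∀ η : Env d, cE ρ (Pa d (t - 1)) (gQt β ps n w t y) η *
        (if q y η then (1 : ℝ) else 0) ≤ if y ∈ U then Real.sqrt ε * Real.exp (-(A / 2)) *
          (Real.sqrt (cE ρ (Pa d (t - 1)) (gQt β ps n w t y) η) *
            Real.exp (gNh ρ β ps n w t a lev o τ₀ (t - 1) y η)) else 0 := by
      intro η
      rw [mul_comm]
      exact hbd y η
    have hint2 : Integrable (fun η => cE ρ (Pa d (t - 1)) (gQt β ps n w t y) η *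
        (if q y η then (1 : ℝ) else 0)) (law d ρ) := by
      refine Integrable.mono' (integrable_const (1 * 1))
        ((hνm y).mul (hgm y)).aestronglyMeasurable (Eventually.of_forall fun η => ?_)
      rw [Real.norm_eq_abs, abs_mul]
      refine mul_le_mul ?_ (gind_bd90 _) (abs_nonneg _) zero_le_one
      rw [abs_of_nonneg (hν0 y η)]
      exact hν1 y η
    by_cases hy : y ∈ U
    · simp only [if_pos hy] at hmono ⊢
      exact integral_mono hint2 (hint y) hmono
    · simp only [if_neg hy] at hmono ⊢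
      exact integral_nonpos hmono
  calc ∫ η, gp β ps n w η (fun s : S => if q (ps s t) η then (1 : ℝ) else 0) ∂(law d ρ)
      = ∑ y ∈ bx90 ps t, ∫ η, gQt β ps n w t y η * (if q y η then (1 : ℝ) else 0) ∂(law d ρ) := by
        simp only [hpe]
        exact integral_finsetSum _ fun y _ => hQg y
    _ ≤ ∑ y ∈ bx90 ps t, if y ∈ U then ∫ η, Real.sqrt ε * Real.exp (-(A / 2)) *
        (Real.sqrt (cE ρ (Pa d (t - 1)) (gQt β ps n w t y) η) *
          Real.exp (gNh ρ β ps n w t a lev o τ₀ (t - 1) y η)) ∂(law d ρ) else 0 :=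
        Finset.sum_le_sum fun y _ => hone y
    _ ≤ ∑ y ∈ U, ∫ η, Real.sqrt ε * Real.exp (-(A / 2)) *
        (Real.sqrt (cE ρ (Pa d (t - 1)) (gQt β ps n w t y) η) *
          Real.exp (gNh ρ β ps n w t a lev o τ₀ (t - 1) y η)) ∂(law d ρ) := by
        rw [← Finset.sum_filter]
        refine Finset.sum_le_sum_of_subset_of_nonneg (fun y hy => (Finset.mem_filter.1 hy).2)
          fun y _ _ => integral_nonneg fun η => by positivity
    _ = Real.sqrt ε * Real.exp (-(A / 2)) * ∫ η, ∑ y ∈ U,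
        Real.sqrt (cE ρ (Pa d (t - 1)) (gQt β ps n w t y) η) *
          Real.exp (gNh ρ β ps n w t a lev o τ₀ (t - 1) y η) ∂(law d ρ) := by
        rw [← integral_finsetSum _ fun y _ => hint y, ← integral_const_mul]
        refine integral_congr_ae (Eventually.of_forall fun η => ?_)
        simp only [Finset.mul_sum]
    _ ≤ Real.sqrt ε * Real.exp (-(A / 2)) * Real.sqrt U.card :=
        mul_le_mul_of_nonneg_left (hC S ps n w hw hs t τ₀ hτ ht a lev o U ha hlev hU) (by positivity)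

/-- **Leaf TYA.** -/
theorem tyaG90 (β : ℝ) (hC : ChnG d ρ β) : TyaG d ρ β := by
  classical
  intro S _ ps n w hw hs t τ₀ hτ ht a lev o U D ε ha hlev hU hD hA hε
  set A : ℝ := ∑ σ ∈ Finset.Ioc τ₀ (t - 1), a σ with hAdef
  have hνm : ∀ y : Site d, Measurable (cE ρ (Pa d (t - 1)) (gQt β ps n w t y)) := fun y =>
    Pool.Agent.W_7d29a1_Q29.measurable_cE (measurable_gQt90 β ps n w t y) _
  have hlast := glast90 β hC ps hw hs hτ ht lev o U (ε := ε) (A := A) ha hlev hU hε
    (fun y η => y ∈ U ∧ cE ρ (Pa d (t - 1)) (gQt β ps n w t y) η < ε ∧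
      A / 2 ≤ gNh ρ β ps n w t a lev o τ₀ (t - 1) y η) (fun y η => Iff.rfl)
  set IK : Env d → S → ℝ := fun η s =>
    if ps s t ∈ U ∧ cE ρ (Pa d (t - 1)) (gQt β ps n w t (ps s t)) η < ε ∧
      A / 2 ≤ gNh ρ β ps n w t a lev o τ₀ (t - 1) (ps s t) η then (1 : ℝ) else 0 with hIK
  set IU : S → ℝ := fun s => if ps s t ∉ U then (1 : ℝ) else 0 with hIU
  set IT : Env d → S → S → ℝ := fun η s s' =>
    if D < ‖emb (ps s t) - emb (ps s' t)‖ ∧
      cE ρ (Pa d (t - 1)) (gQt β ps n w t (ps s t)) η < ε then (1 : ℝ) else 0 with hIT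
  set IL : ℕ → Env d → S → S → ℝ := fun σ η s s' =>
    if ¬ gHi ρ β ps n w t (a σ) σ (lev σ) o (blk (lev σ) o (ps s t)) η ∧
      blk (lev σ) o (ps s' t) ≠ blk (lev σ) o (ps s t) then (1 : ℝ) else 0 with hIL
  -- pointwise
  have hpt : ∀ η s s', IT η s s' ≤ IU s + 2 / A * ∑ σ ∈ Finset.Ioc τ₀ (t - 1),
      a σ * IL σ η s s' + IK η s := by
    intro η s s'
    have hIU0 : 0 ≤ IU s := by
      simp only [hIU]
      split_ifs <;> norm_num
    have hIK0 : 0 ≤ IK η s := by
      simp only [hIK]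
      split_ifs <;> norm_num
    have hIL0 : ∀ σ, 0 ≤ IL σ η s s' := by
      intro σ
      simp only [hIL]
      split_ifs <;> norm_num
    have hS0 : 0 ≤ 2 / A * ∑ σ ∈ Finset.Ioc τ₀ (t - 1), a σ * IL σ η s s' :=
      mul_nonneg (by positivity) (Finset.sum_nonneg fun σ _ => mul_nonneg (ha σ) (hIL0 σ))
    by_cases hT : D < ‖emb (ps s t) - emb (ps s' t)‖ ∧
      cE ρ (Pa d (t - 1)) (gQt β ps n w t (ps s t)) η < ε
    · have h1 : IT η s s' = 1 := by
        simp only [hIT]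
        exact if_pos hT
      rw [h1]
      by_cases hsU : ps s t ∈ U
      · by_cases hN : A / 2 ≤ gNh ρ β ps n w t a lev o τ₀ (t - 1) (ps s t) η
        · have h2 : IK η s = 1 := by
            simp only [hIK]
            exact if_pos ⟨hsU, hT.2, hN⟩
          linarith
        · push Not at hN
          have h3 : A - gNh ρ β ps n w t a lev o τ₀ (t - 1) (ps s t) η ≤
              ∑ σ ∈ Finset.Ioc τ₀ (t - 1), a σ * IL σ η s s' := by
            rw [hAdef]
            unfold gNh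
            rw [← Finset.sum_sub_distrib]
            refine Finset.sum_le_sum fun σ hσ => ?_
            by_cases hH : gHi ρ β ps n w t (a σ) σ (lev σ) o (blk (lev σ) o (ps s t)) η
            · rw [if_pos hH, sub_self]
              exact mul_nonneg (ha σ) (hIL0 σ)
            · rw [if_neg hH, sub_zero]
              rcases (ha σ).lt_or_eq with h4 | h4
              · have h5 : IL σ η s s' = 1 := by
                  simp only [hIL]
                  refine if_pos ⟨hH, fun hb => ?_⟩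
                  have h6 := hD σ hσ h4 (ps s t) (ps s' t) hb.symm
                  exact absurd h6 (not_le.2 hT.1)
                rw [h5, mul_one]
              · rw [← h4, zero_mul]
          have h4 : 1 ≤ 2 / A * ∑ σ ∈ Finset.Ioc τ₀ (t - 1), a σ * IL σ η s s' := by
            rw [div_mul_eq_mul_div, le_div_iff₀ hA]
            linarith
          linarith
      · have h2 : IU s = 1 := by
          simp only [hIU]
          exact if_pos hsU
        linarith
    · have h1 : IT η s s' = 0 := by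
        simp only [hIT]
        exact if_neg hT
      rw [h1]
      positivity
  -- measurability
  have hIKm : ∀ s, Measurable fun η => IK η s := by
    intro s
    refine Measurable.ite ?_ measurable_const measurable_const
    exact (MeasurableSet.const _).inter ((measurableSet_lt (hνm (ps s t)) measurable_const).inter
      (measurableSet_le measurable_const (measurable_gNh90 β ps n w t a lev o τ₀ (t - 1) (ps s t))))
  have hITm : ∀ s s', Measurable fun η => IT η s s' := by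
    intro s s'
    refine Measurable.ite ?_ measurable_const measurable_const
    exact (MeasurableSet.const _).inter (measurableSet_lt (hνm (ps s t)) measurable_const)
  have hILm : ∀ σ s s', Measurable fun η => IL σ η s s' := by
    intro σ s s'
    refine Measurable.ite ?_ measurable_const measurable_const
    exact (measurableSet_gHi90 β ps n w t (a σ) σ (lev σ) o _).compl.inter (MeasurableSet.const _)
  have hILb : ∀ σ η s s', |IL σ η s s'| ≤ 1 := fun σ η s s' => gind_bd90 _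
  -- the mean
  have hpe : ∀ η : Env d, gp2 β ps n w η (IT η) ≤ gp β ps n w η IU +
      2 / A * ∑ σ ∈ Finset.Ioc τ₀ (t - 1), a σ * gp2 β ps n w η (IL σ η) + gp β ps n w η (IK η) := by
    intro η
    refine (gp2_mono90 β ps hw hs η (hpt η)).trans (le_of_eq ?_)
    have h1 : ∀ s, gp β ps n w η (fun s' => IU s + 2 / A * ∑ σ ∈ Finset.Ioc τ₀ (t - 1),
        a σ * IL σ η s s' + IK η s) = IU s + 2 / A * ∑ σ ∈ Finset.Ioc τ₀ (t - 1),
          a σ * gp β ps n w η (fun s' => IL σ η s s') + IK η s := by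
      intro s
      rw [gp_add90 β ps n w η (fun s' => IU s + 2 / A * ∑ σ ∈ Finset.Ioc τ₀ (t - 1),
        a σ * IL σ η s s') (fun _ => IK η s), gp_const90 β ps hw hs,
        gp_add90 β ps n w η (fun _ => IU s) (fun s' => 2 / A * ∑ σ ∈ Finset.Ioc τ₀ (t - 1),
          a σ * IL σ η s s'), gp_const90 β ps hw hs, gp_mul90,
        gp_sum90 (Finset.Ioc τ₀ (t - 1)) β ps n w η (fun σ s' => a σ * IL σ η s s')]
      simp only [gp_mul90]
    unfold gp2
    simp only [h1]
    rw [gp_add90 β ps n w η (fun s => IU s + 2 / A * ∑ σ ∈ Finset.Ioc τ₀ (t - 1),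
        a σ * gp β ps n w η (fun s' => IL σ η s s')) (fun s => IK η s),
      gp_add90 β ps n w η IU (fun s => 2 / A * ∑ σ ∈ Finset.Ioc τ₀ (t - 1),
          a σ * gp β ps n w η (fun s' => IL σ η s s')), gp_mul90,
      gp_sum90 (Finset.Ioc τ₀ (t - 1)) β ps n w η
        (fun σ s => a σ * gp β ps n w η (fun s' => IL σ η s s'))]
    simp only [gp_mul90]
  have hiT : Integrable (fun η => gp2 β ps n w η (IT η)) (law d ρ) :=
    integrable_gp2_90 β ps hw hs hITm (C := 1) fun η s s' => gind_bd90 _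
  have hiL : ∀ σ, Integrable (fun η => gp2 β ps n w η (IL σ η)) (law d ρ) := fun σ =>
    integrable_gp2_90 β ps hw hs (hILm σ) (C := 1) fun η s s' => gind_bd90 _
  have hiK : Integrable (fun η => gp β ps n w η (IK η)) (law d ρ) :=
    integrable_gp90 β ps hw hs hIKm (C := 1) fun η s => gind_bd90 _
  have hiU : Integrable (fun η : Env d => gp β ps n w η IU) (law d ρ) := integrable_gp_fun90 β ps hw hs IU
  have hiS : Integrable (fun η => 2 / A * ∑ σ ∈ Finset.Ioc τ₀ (t - 1), a σ *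
      gp2 β ps n w η (IL σ η)) (law d ρ) :=
    (integrable_finsetSum _ fun σ _ => (hiL σ).const_mul (a σ)).const_mul _
  have hTy : gTy ρ β ps n w t D ε = ∫ η, gp2 β ps n w η (IT η) ∂(law d ρ) := rfl
  have hLo : ∀ σ, gLo ρ β ps n w t (a σ) σ (lev σ) o = ∫ η, gp2 β ps n w η (IL σ η) ∂(law d ρ) :=
    fun σ => rfl
  calc gTy ρ β ps n w t D ε = ∫ η, gp2 β ps n w η (IT η) ∂(law d ρ) := hTy
    _ ≤ ∫ η, (gp β ps n w η IU + 2 / A * ∑ σ ∈ Finset.Ioc τ₀ (t - 1), a σ * gp2 β ps n w η (IL σ η) +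
          gp β ps n w η (IK η)) ∂(law d ρ) := integral_mono hiT ((hiU.add hiS).add hiK) hpe
    _ = (∫ η, gp β ps n w η IU ∂(law d ρ)) + 2 / A * (∑ σ ∈ Finset.Ioc τ₀ (t - 1),
          a σ * gLo ρ β ps n w t (a σ) σ (lev σ) o) + ∫ η, gp β ps n w η (IK η) ∂(law d ρ) := by
        have e1 : (∫ η, (gp β ps n w η IU + 2 / A * ∑ σ ∈ Finset.Ioc τ₀ (t - 1),
            a σ * gp2 β ps n w η (IL σ η) + gp β ps n w η (IK η)) ∂(law d ρ)) =
            (∫ η, (gp β ps n w η IU + 2 / A * ∑ σ ∈ Finset.Ioc τ₀ (t - 1),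
              a σ * gp2 β ps n w η (IL σ η)) ∂(law d ρ)) + ∫ η, gp β ps n w η (IK η) ∂(law d ρ) :=
          integral_add (hiU.add hiS) hiK
        have e2 : (∫ η, (gp β ps n w η IU + 2 / A * ∑ σ ∈ Finset.Ioc τ₀ (t - 1),
              a σ * gp2 β ps n w η (IL σ η)) ∂(law d ρ)) = (∫ η, gp β ps n w η IU ∂(law d ρ)) +
            ∫ η, 2 / A * ∑ σ ∈ Finset.Ioc τ₀ (t - 1), a σ * gp2 β ps n w η (IL σ η) ∂(law d ρ) :=
          integral_add hiU hiS
        have e3 : (∫ η, 2 / A * ∑ σ ∈ Finset.Ioc τ₀ (t - 1), a σ * gp2 β ps n w η (IL σ η)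
            ∂(law d ρ)) = 2 / A * ∑ σ ∈ Finset.Ioc τ₀ (t - 1),
              a σ * gLo ρ β ps n w t (a σ) σ (lev σ) o := by
          rw [integral_const_mul, integral_finsetSum _ fun σ _ => (hiL σ).const_mul (a σ)]
          congr 1
          refine Finset.sum_congr rfl fun σ _ => ?_
          rw [integral_const_mul, hLo]
        rw [e1, e2, e3]
    _ ≤ _ := add_le_add (le_of_eq rfl) hlast

end Pool.Agent.W_7d29a1_GW
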