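import Pool.Agent.W_7d29a1_GW.DefsG31
import Pool.Agent.W_7d29a1_NS.TypB72

/-!
Leaf TYP of Theorem GW: typical concentration for a family of finite path spaces (port of
`TypB72`).
-/

namespace Pool.Agent.W_7d29a1_GW

open MeasureTheory ProbabilityTheory Filter Topology Pool.Agent.W_MP_7d29a1_pr
  Pool.Agent.W_7d29a1_h46 Pool.Agent.W_7d29a1_h46u Pool.Agent.W_7d29a1_D2.B35
  Pool.Agent.W_7d29a1_Q29 Pool.Agent.W_7d29a1_S90 Pool.Agent.W_7d29a1_NS

section Basic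

variable {d : ℕ} {S : Type} [Fintype S]

lemma gw_nonneg72 {β : ℝ} {ps : S → ℕ → Site d} {n : ℕ} {w : S → ℝ} (hw : ∀ s, 0 ≤ w s)
    (η : Env d) (s : S) : 0 ≤ gw β ps n w η s := mul_nonneg (hw s) (Real.exp_pos _).le

lemma gz_pos72 {β : ℝ} {ps : S → ℕ → Site d} {n : ℕ} {w : S → ℝ} (hw : ∀ s, 0 ≤ w s)
    (hp : 0 < ∑ s, w s) (η : Env d) : 0 < ∑ s, gw β ps n w η s := by
  refine Finset.sum_pos' (fun s _ => gw_nonneg72 hw η s) ?_
  by_contra hcon
  push Not at hcon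
  have h1 : ∑ s, w s ≤ 0 := Finset.sum_nonpos fun s hs => by
    have h2 := hcon s hs
    unfold gw at h2
    by_contra h3
    push Not at h3
    exact absurd (mul_pos h3 (Real.exp_pos _)) (not_lt.2 h2)
  linarith

lemma gw_meas72 (β : ℝ) (ps : S → ℕ → Site d) (n : ℕ) (w : S → ℝ) (s : S) :
    Measurable fun η : Env d => gw β ps n w η s := by
  unfold gw
  have h : Measurable fun η : Env d => ∑ i ∈ Finset.range n, η (i + 1, ps s (i + 1)) :=
    Finset.measurable_sum _ fun i _ => measurable_pi_apply (i + 1, ps s (i + 1))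
  exact measurable_const.mul (Real.measurable_exp.comp (h.const_mul β))

lemma gp_meas72 (β : ℝ) (ps : S → ℕ → Site d) (n : ℕ) (w : S → ℝ) (f : S → ℝ) :
    Measurable fun η : Env d => gp β ps n w η f := by
  unfold gp
  exact (Finset.measurable_sum _ fun s _ => (gw_meas72 β ps n w s).mul_const _).div
    (Finset.measurable_sum _ fun s _ => gw_meas72 β ps n w s)

lemma gp_mono72 {β : ℝ} {ps : S → ℕ → Site d} {n : ℕ} {w : S → ℝ} (hw : ∀ s, 0 ≤ w s)
    (hp : 0 < ∑ s, w s) (η : Env d) {f g : S → ℝ} (hfg : ∀ s, f s ≤ g s) :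
    gp β ps n w η f ≤ gp β ps n w η g :=
  div_le_div_of_nonneg_right (Finset.sum_le_sum fun s _ =>
    mul_le_mul_of_nonneg_left (hfg s) (gw_nonneg72 hw η s)) (gz_pos72 hw hp η).le

lemma gp_smul72 (β : ℝ) (ps : S → ℕ → Site d) (n : ℕ) (w : S → ℝ) (η : Env d) (c : ℝ)
    (f : S → ℝ) : gp β ps n w η (fun s => c * f s) = c * gp β ps n w η f := by
  unfold gp
  rw [← mul_div_assoc, Finset.mul_sum]
  congr 1
  exact Finset.sum_congr rfl fun s _ => by ring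

lemma gp_const72 {β : ℝ} {ps : S → ℕ → Site d} {n : ℕ} {w : S → ℝ} (hw : ∀ s, 0 ≤ w s)
    (hp : 0 < ∑ s, w s) (η : Env d) (c : ℝ) : gp β ps n w η (fun _ => c) = c := by
  unfold gp
  rw [← Finset.sum_mul]
  have := (gz_pos72 (β := β) (ps := ps) (n := n) hw hp η).ne'
  field_simp

lemma gp_int72 {ρ : Measure ℝ} [IsProbabilityMeasure ρ] {β : ℝ} {ps : S → ℕ → Site d} {n : ℕ}
    {w : S → ℝ} (hw : ∀ s, 0 ≤ w s) (hp : 0 < ∑ s, w s) (f : S → ℝ) :
    Integrable (fun η : Env d => gp β ps n w η f) (law d ρ) := by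
  refine Integrable.of_bound (gp_meas72 β ps n w f).aestronglyMeasurable (∑ s, |f s|)
    (Eventually.of_forall fun η => ?_)
  have hb : ∀ s, |f s| ≤ ∑ s, |f s| := fun s =>
    Finset.single_le_sum (f := fun s => |f s|) (fun s _ => abs_nonneg _) (Finset.mem_univ s)
  rw [Real.norm_eq_abs, abs_le]
  constructor
  · rw [← gp_const72 (β := β) (ps := ps) (n := n) hw hp η (-∑ s, |f s|)]
    exact gp_mono72 hw hp η fun s => (abs_le.1 (hb s)).1
  · conv_rhs => rw [← gp_const72 (β := β) (ps := ps) (n := n) hw hp η (∑ s, |f s|)]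
    exact gp_mono72 hw hp η fun s => (abs_le.1 (hb s)).2

open Classical in
/-- Chebyshev. -/
lemma gtl72 {ρ : Measure ℝ} [IsProbabilityMeasure ρ] {β : ℝ} {ps : S → ℕ → Site d} {n : ℕ}
    {w : S → ℝ} (hw : ∀ s, 0 ≤ w s) (hp : 0 < ∑ s, w s) (τ t : ℕ) (m : Vec d) {r : ℝ}
    (hr : 0 < r) : gTl ρ β ps n w τ t m r ≤
      (1 / r ^ 2) * ∫ η, gp β ps n w η (fun s => gi ps τ t m s ^ 2) ∂(law d ρ) := by
  unfold gTl
  rw [← integral_const_mul]
  refine integral_mono (gp_int72 hw hp _) ((gp_int72 hw hp _).const_mul _) fun η => ?_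
  show gp β ps n w η _ ≤ 1 / r ^ 2 * gp β ps n w η _
  rw [← gp_smul72]
  refine gp_mono72 hw hp η fun s => ?_
  show (if r < gi ps τ t m s then (1 : ℝ) else 0) ≤ 1 / r ^ 2 * gi ps τ t m s ^ 2
  split_ifs with h2
  · rw [one_div, inv_mul_eq_div, le_div_iff₀ (by positivity), one_mul]
    exact pow_le_pow_left₀ hr.le h2.le 2
  · positivity

end Basic

variable {ρ : Measure ℝ} {β : ℝ}

/-- `av` is monotone. -/
lemma av_mono72 {A S : Type} [Fintype A] [Fintype S] {π : A → ℝ} {w : A → S → ℝ}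
    (hF : IsFam π w) {F G : (S → ℝ) → ℝ}
    (h : ∀ v : S → ℝ, (∀ s, 0 ≤ v s) → 0 < ∑ s, v s → F v ≤ G v) : av π w F ≤ av π w G :=
  Finset.sum_le_sum fun a _ => mul_le_mul_of_nonneg_left (h _ (hF.2.2 a).1 (hF.2.2 a).2) (hF.1 a)

lemma av_const72 {A S : Type} [Fintype A] [Fintype S] {π : A → ℝ} {w : A → S → ℝ}
    (hF : IsFam π w) (c : ℝ) : av π w (fun _ => c) = c := by
  unfold av
  rw [← Finset.sum_mul, hF.2.1, one_mul]

lemma av_add72 {A S : Type} [Fintype A] (π : A → ℝ) (w : A → S → ℝ) (F G : (S → ℝ) → ℝ) :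
    av π w (fun v => F v + G v) = av π w F + av π w G := by
  unfold av
  rw [← Finset.sum_add_distrib]
  exact Finset.sum_congr rfl fun a _ => by ring

lemma av_sub72 {A S : Type} [Fintype A] (π : A → ℝ) (w : A → S → ℝ) (F G : (S → ℝ) → ℝ) :
    av π w (fun v => F v - G v) = av π w F - av π w G := by
  unfold av
  rw [← Finset.sum_sub_distrib]
  exact Finset.sum_congr rfl fun a _ => by ring

lemma av_mul72 {A S : Type} [Fintype A] (π : A → ℝ) (w : A → S → ℝ) (c : ℝ)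
    (F : (S → ℝ) → ℝ) : av π w (fun v => c * F v) = c * av π w F := by
  unfold av
  rw [Finset.mul_sum]
  exact Finset.sum_congr rfl fun a _ => by ring

lemma av_sum72 {A S : Type} [Fintype A] (π : A → ℝ) (w : A → S → ℝ) (I : Finset ℕ)
    (F : ℕ → (S → ℝ) → ℝ) : av π w (fun v => ∑ i ∈ I, F i v) = ∑ i ∈ I, av π w (F i) := by
  unfold av
  rw [Finset.sum_comm]
  exact Finset.sum_congr rfl fun a _ => Finset.mul_sum _ _ _

/-- One row. -/
lemma lof72 [IsProbabilityMeasure ρ] {cL : ℝ} (hcL : 0 < cL) (hcL1 : cL ≤ 1)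
    {A S : Type} [Fintype A] [Fintype S] {ps : S → ℕ → Site 2} {n : ℕ} {π : A → ℝ}
    {wf : A → S → ℝ} (hF : IsFam π wf)
    (hlow : ∀ w : S → ℝ, (∀ s, 0 ≤ w s) → 0 < ∑ s, w s → ∀ τ t : ℕ, 1 ≤ τ → τ < t → t ≤ n →
      ∀ (m : Vec 2) (r g a : ℝ) (i : ℕ) (o : Site 2), ((2 : ℕ) : ℝ) ≤ r → 0 ≤ g →
        g * 2 ^ (2 * i) ≤ 1 / 2 → 0 ≤ a →
        g * (cL * (gLo ρ β ps n w t a τ i o - 2 * gTl ρ β ps n w τ t m r -
          gNb ρ β ps n w t i o (2 * r)) - gTl ρ β ps n w τ t m r) ≤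
          2 * (a + g ^ 2 * 2 ^ (2 * i)))
    {R κ K L γ M : ℝ} (hR : 1 ≤ R) (hκ : 0 < κ) (hK : 4 ≤ K) (hK2 : 48 * R ≤ cL * κ * K)
    (hL : 1 ≤ L) (hγ : 0 < γ) (hM : M = 16 * L ^ 2 * K) (hγ1 : M * γ ≤ 1 / 2)
    (hγ2 : 32 * γ * (1 + M) ≤ cL * κ) {σ t s : ℕ} (hσ : 1 ≤ σ) (hs : 1 ≤ s)
    (hst : σ + s = t) (htn : t ≤ n) (m : Vec 2)
    (hm : av π wf (fun w' => ∫ η, gp β ps n w' η (fun x => gi ps σ t m x ^ 2) ∂(law 2 ρ)) ≤ R * s)
    (o : Site 2) :
    av π wf (fun w' => gLo ρ β ps n w' t (γ ^ 2 / s) σ (lv72 K L s) o) ≤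
      av π wf (fun w' => gNb ρ β ps n w' t (lv72 K L s) o (2 * Real.sqrt (K * s))) + κ / 8 := by
  obtain ⟨b1, b2, b3⟩ := lv_bd72 hK hL hs
  have hs' : (1 : ℝ) ≤ s := by exact_mod_cast hs
  have hs0 : (0 : ℝ) < s := by linarith
  obtain ⟨i, hi⟩ : ∃ i, i = lv72 K L s := ⟨_, rfl⟩
  rw [← hi] at b2 b3 ⊢
  obtain ⟨r, hr⟩ : ∃ r, r = Real.sqrt (K * s) := ⟨_, rfl⟩
  rw [← hr] at b1 b2 b3 ⊢
  have hr2 : r ^ 2 = K * s := by
    rw [hr, Real.sq_sqrt (by positivity)]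
  have h4 : (2 : ℝ) ^ (2 * i) ≤ M * s := by
    rw [pow_mul', hM]
    calc ((2 : ℝ) ^ i) ^ 2 ≤ (4 * (L * r)) ^ 2 := pow_le_pow_left₀ (by positivity) b3 2
      _ = 16 * L ^ 2 * (r ^ 2) := by ring
      _ = 16 * L ^ 2 * K * s := by rw [hr2]; ring
  have hMp : 0 < M := by rw [hM]; positivity
  obtain ⟨TL, hTL⟩ : ∃ TL, TL = av π wf (fun w' => gTl ρ β ps n w' σ t m r) := ⟨_, rfl⟩
  obtain ⟨LO, hLO⟩ : ∃ LO, LO = av π wf (fun w' => gLo ρ β ps n w' t (γ ^ 2 / s) σ i o) :=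
    ⟨_, rfl⟩
  obtain ⟨NB, hNB⟩ : ∃ NB, NB = av π wf (fun w' => gNb ρ β ps n w' t i o (2 * r)) := ⟨_, rfl⟩
  have hT : TL ≤ R / K := by
    have h5 : TL ≤ 1 / r ^ 2 * av π wf (fun w' => ∫ η, gp β ps n w' η
        (fun x => gi ps σ t m x ^ 2) ∂(law 2 ρ)) := by
      rw [hTL, ← av_mul72]
      exact av_mono72 hF fun v hv hv' => gtl72 hv hv' σ t m (by linarith)
    refine h5.trans ?_
    have h6 : 1 / r ^ 2 * av π wf (fun w' => ∫ η, gp β ps n w' η
        (fun x => gi ps σ t m x ^ 2) ∂(law 2 ρ)) ≤ 1 / r ^ 2 * (R * s) :=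
      mul_le_mul_of_nonneg_left hm (by positivity)
    refine h6.trans (le_of_eq ?_)
    rw [hr2]
    field_simp
  have hg1 : γ / s * 2 ^ (2 * i) ≤ M * γ := by
    rw [div_mul_eq_mul_div, div_le_iff₀ hs0]
    nlinarith
  have h6 : γ / s * (cL * (LO - 2 * TL - NB) - TL) ≤
      2 * (γ ^ 2 / s + (γ / s) ^ 2 * 2 ^ (2 * i)) := by
    have e : γ / s * (cL * (LO - 2 * TL - NB) - TL) = av π wf (fun w' =>
        γ / s * (cL * (gLo ρ β ps n w' t (γ ^ 2 / s) σ i o - 2 * gTl ρ β ps n w' σ t m r -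
          gNb ρ β ps n w' t i o (2 * r)) - gTl ρ β ps n w' σ t m r)) := by
      rw [av_mul72, av_sub72, av_mul72, av_sub72, av_sub72, av_mul72, hLO, hTL, hNB]
    rw [e, ← av_const72 hF (2 * (γ ^ 2 / s + (γ / s) ^ 2 * 2 ^ (2 * i)))]
    exact av_mono72 hF fun v hv hv' => hlow v hv hv' σ t hσ (by omega) htn m r (γ / s)
      (γ ^ 2 / s) i o (by exact_mod_cast b1) (by positivity) (hg1.trans hγ1) (by positivity)
  rw [← hLO, ← hNB]
  obtain ⟨X, hX⟩ : ∃ X, X = cL * (LO - 2 * TL - NB) - TL := ⟨_, rfl⟩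
  rw [← hX] at h6
  have h7 : X ≤ 2 * γ * (1 + M) := by
    have h8 : γ / s * X ≤ γ / s * (2 * γ * (1 + M)) := by
      refine h6.trans ?_
      have e1 : γ / s * (2 * γ * (1 + M)) = 2 * (γ ^ 2 / s + γ / s * (M * γ)) := by
        field_simp
      rw [e1]
      have e2 : (γ / s) ^ 2 * 2 ^ (2 * i) = γ / s * (γ / s * 2 ^ (2 * i)) := by ring
      rw [e2]
      have := mul_le_mul_of_nonneg_left hg1 (by positivity : 0 ≤ γ / s)
      linarith
    exact le_of_mul_le_mul_left h8 (by positivity)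
  have h9 : R / K ≤ cL * κ / 48 := by
    rw [div_le_iff₀ (by linarith)]
    linarith
  have h10 : cL * (LO - NB) ≤ cL * (κ / 8) := by
    have h11 : cL * TL ≤ cL * κ / 48 :=
      (mul_le_mul_of_nonneg_left (hT.trans h9) hcL.le).trans
        (by
          have : cL * (cL * κ / 48) ≤ 1 * (cL * κ / 48) :=
            mul_le_mul_of_nonneg_right hcL1 (by positivity)
          linarith)
    have h12 := hT.trans h9
    nlinarith
  have h13 := le_of_mul_le_mul_left h10 hcL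
  linarith

open Classical in
/-- **Leaf TYP.** -/
theorem typF72 [IsProbabilityMeasure ρ] (hL : LowG 2 ρ β) (hT : TyaG 2 ρ β) (hO : OffF ρ β) :
    TypF ρ β := by
  intro R κ hR hκ
  obtain ⟨cL, hcL, hcL1, hlow⟩ := hL
  obtain ⟨K, L, γ, M, K₀, hK, hK2, hL1, hL2, hγ, hγ1, hM, hMγ, hγ2, hK₀, hK₀2⟩ :=
    const72 hcL hR hκ
  have hM64 : 64 ≤ M := by
    rw [hM]
    nlinarith [mul_le_mul hK (one_le_pow₀ hL1 : 1 ≤ L ^ 2) zero_le_one (by linarith : 0 ≤ K)]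
  refine ⟨γ ^ 2 / 2, 16 * M + 8 * M * (2 * K₀ + 7), by positivity, by nlinarith,
    by nlinarith [mul_nonneg (by linarith : (0 : ℝ) ≤ M) (by linarith : (0 : ℝ) ≤ K₀)],
    fun A S _ _ ps n t π wf w D Λ hF hps hw htn hD hwD hDt hΛ hW => ?_⟩
  have hCw : 16 * M * w ≤ D ^ 2 := by
    refine le_trans ?_ hwD
    refine mul_le_mul_of_nonneg_right ?_ (by linarith)
    nlinarith [mul_nonneg (by linarith : (0 : ℝ) ≤ M) (by linarith : (0 : ℝ) ≤ K₀)]
  have hD0 : 16 * M ≤ D ^ 2 := by nlinarith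
  have ht1 : (1 : ℝ) ≤ t := by linarith
  have ht0 : (0 : ℝ) < t := by linarith
  have htN : 1 ≤ t := by exact_mod_cast ht1
  obtain ⟨s₁, hs₁⟩ : ∃ s₁ : ℕ, s₁ = ⌊D ^ 2 / (4 * M)⌋₊ := ⟨_, rfl⟩
  have hs1 : (s₁ : ℝ) ≤ D ^ 2 / (4 * M) := by
    rw [hs₁]
    exact Nat.floor_le (by positivity)
  have hs2 : D ^ 2 / (4 * M) < s₁ + 1 := by
    rw [hs₁]
    exact Nat.lt_floor_add_one _
  have hs1' : (s₁ : ℝ) * (4 * M) ≤ D ^ 2 := by rwa [le_div_iff₀ (by positivity)] at hs1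
  have hst : s₁ + 1 ≤ t := by
    have h1 : (s₁ : ℝ) < t := by
      rcases Nat.eq_zero_or_pos s₁ with h2 | h2
      · rw [h2]
        exact_mod_cast htN
      · have h3 : (1 : ℝ) ≤ s₁ := by exact_mod_cast h2
        nlinarith
    exact_mod_cast h1
  obtain ⟨a, ha⟩ : ∃ a : ℕ → ℝ, a = fun σ => if w ≤ ((t - σ : ℕ) : ℝ) then
    γ ^ 2 / ((t - σ : ℕ) : ℝ) else 0 := ⟨_, rfl⟩
  obtain ⟨lev, hlev⟩ : ∃ lev : ℕ → ℕ, lev = fun σ => lv72 K L (t - σ) := ⟨_, rfl⟩
  have ha0 : ∀ σ, 0 ≤ a σ := fun σ => by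
    rw [ha]
    show 0 ≤ (if w ≤ ((t - σ : ℕ) : ℝ) then γ ^ 2 / ((t - σ : ℕ) : ℝ) else 0)
    split_ifs
    · positivity
    · exact le_rfl
  have hanti : Antitone lev := by
    intro σ σ' hσ
    rw [hlev]
    exact lv_mono72 (by linarith) (by linarith) (by omega)
  -- the levels are small
  have hlevD : ∀ s : ℕ, 1 ≤ s → s ≤ s₁ → 2 * (2 : ℝ) ^ lv72 K L s ≤ D := by
    intro s h1 h2
    obtain ⟨_, _, b3⟩ := lv_bd72 hK hL1 h1
    have h3 : (s : ℝ) ≤ s₁ := by exact_mod_cast h2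
    have h4 : (8 * (L * Real.sqrt (K * s))) ^ 2 ≤ D ^ 2 := by
      have h5 : Real.sqrt (K * s) ^ 2 = K * s := Real.sq_sqrt (by positivity)
      calc (8 * (L * Real.sqrt (K * s))) ^ 2 = 64 * L ^ 2 * (Real.sqrt (K * s) ^ 2) := by ring
        _ = s * (4 * M) := by rw [h5, hM]; ring
        _ ≤ s₁ * (4 * M) := mul_le_mul_of_nonneg_right h3 (by positivity)
        _ ≤ D ^ 2 := hs1'
    have h5 := abs_le_of_sq_le_sq h4 hD.le
    linarith [h5, le_abs_self (8 * (L * Real.sqrt (K * s)))]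
  obtain ⟨N, hN⟩ : ∃ N : ℕ, N = ⌈K₀ * Real.sqrt t⌉₊ := ⟨_, rfl⟩
  have hsq : Real.sqrt t ^ 2 = t := Real.sq_sqrt ht0.le
  have hsq1 : 1 ≤ Real.sqrt t := Real.one_le_sqrt.2 ht1
  have hN1 : K₀ * Real.sqrt t ≤ N := by
    rw [hN]
    exact Nat.le_ceil _
  have hN2 : (N : ℝ) < K₀ * Real.sqrt t + 1 := by
    rw [hN]
    exact Nat.ceil_lt_add_one (by positivity)
  -- the offset
  obtain ⟨o, ho⟩ := hO A S ps n t π wf hF (Finset.Ioc (t - s₁ - 1) (t - 1)) lev a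
    (fun σ => 2 * Real.sqrt (K * ((t - σ : ℕ) : ℝ))) (fun σ _ => ha0 σ)
    (fun σ _ => by positivity)
  -- the window from the origin
  obtain ⟨m0, hm0⟩ := hW 0 t (by omega) htn (by
    push_cast
    have : w ≤ D ^ 2 := by nlinarith
    linarith)
  obtain ⟨U, hU1, hU2, hU3⟩ := uset72 m0 N (lev (t - s₁ - 1 + 1)) o
  -- the sum of the weights
  obtain ⟨W, hWd⟩ : ∃ W, W = ∑ σ ∈ Finset.Ioc (t - s₁ - 1) (t - 1), a σ := ⟨_, rfl⟩
  have hWl : γ ^ 2 * Real.log (D ^ 2 / (8 * M * w)) ≤ W := by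
    have h1 := harm72 hw s₁
    have h2 : W = ∑ s ∈ Finset.Icc 1 s₁, (if w ≤ (s : ℝ) then γ ^ 2 / (s : ℝ) else 0) := by
      rw [hWd, ha]
      exact reidx72 (fun s => if w ≤ (s : ℝ) then γ ^ 2 / (s : ℝ) else 0) hst
    have h3 : W = γ ^ 2 * ∑ s ∈ Finset.Icc 1 s₁, (if w ≤ (s : ℝ) then 1 / (s : ℝ) else 0) := by
      rw [h2, Finset.mul_sum]
      refine Finset.sum_congr rfl fun s _ => ?_
      split_ifs
      · ring
      · ring
    rw [h3]
    refine mul_le_mul_of_nonneg_left (le_trans (Real.log_le_log (by positivity) ?_) h1)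
      (by positivity)
    rw [div_le_div_iff₀ (by positivity) (by positivity)]
    have h4 : D ^ 2 < (s₁ + 1) * (4 * M) := by
      rwa [div_lt_iff₀ (by positivity)] at hs2
    nlinarith
  have hy : 2 ≤ D ^ 2 / (8 * M * w) := by
    rw [le_div_iff₀ (by positivity)]
    linarith
  have hWp : 0 < W := lt_of_lt_of_le (mul_pos (by positivity) (Real.log_pos (by linarith))) hWl
  have hmain2 : av π wf (fun w' => gTy ρ β ps n w' t D (Λ / t)) ≤
      av π wf (fun w' => ∫ η, gp β ps n w' η (fun s => if ps s t ∉ U then (1 : ℝ) else 0)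
        ∂(law 2 ρ)) +
      2 / W * (∑ σ ∈ Finset.Ioc (t - s₁ - 1) (t - 1),
        a σ * av π wf (fun w' => gLo ρ β ps n w' t (a σ) σ (lev σ) o)) +
      Real.sqrt (Λ / t) * Real.exp (-(W / 2)) * Real.sqrt U.card := by
    have e : av π wf (fun w' => ∫ η, gp β ps n w' η (fun s => if ps s t ∉ U then (1 : ℝ) else 0)
        ∂(law 2 ρ)) +
      2 / W * (∑ σ ∈ Finset.Ioc (t - s₁ - 1) (t - 1),
        a σ * av π wf (fun w' => gLo ρ β ps n w' t (a σ) σ (lev σ) o)) +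
      Real.sqrt (Λ / t) * Real.exp (-(W / 2)) * Real.sqrt U.card =
      av π wf (fun w' => (∫ η, gp β ps n w' η (fun s => if ps s t ∉ U then (1 : ℝ) else 0)
        ∂(law 2 ρ)) +
      2 / W * (∑ σ ∈ Finset.Ioc (t - s₁ - 1) (t - 1),
        a σ * gLo ρ β ps n w' t (a σ) σ (lev σ) o) +
      Real.sqrt (Λ / t) * Real.exp (-(W / 2)) * Real.sqrt U.card) := by
      rw [av_add72, av_add72, av_mul72, av_sum72, av_const72 hF]
      simp only [av_mul72]
    rw [e]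
    refine av_mono72 hF fun v hv hv' => ?_
    have hmain := hT S ps n v hv hv' t (t - s₁ - 1) (by omega) htn a lev o U D (Λ / t) ha0 hanti
      hU1
    rw [← hWd] at hmain
    exact hmain (by
      intro σ hσ haσ x z hxz
      rw [Finset.mem_Ioc] at hσ
      refine (blk_dist72 hxz).trans ?_
      rw [hlev]
      exact hlevD (t - σ) (by omega) (by omega)) hWp (by positivity)
  refine hmain2.trans ?_
  -- first term
  have hA : av π wf (fun w' => ∫ η, gp β ps n w' η (fun s => if ps s t ∉ U then (1 : ℝ) else 0)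
      ∂(law 2 ρ)) ≤ κ / 2 := by
    have hNp : (0 : ℝ) < N := lt_of_lt_of_le (by positivity) hN1
    have h2 : av π wf (fun w' => ∫ η, gp β ps n w' η (fun s => if ps s t ∉ U then (1 : ℝ) else 0)
        ∂(law 2 ρ)) ≤ 1 / (N : ℝ) ^ 2 * av π wf (fun w' => ∫ η, gp β ps n w' η
        (fun x => gi ps 0 t m0 x ^ 2) ∂(law 2 ρ)) := by
      rw [← av_mul72]
      refine av_mono72 hF fun v hv hv' => le_trans ?_ (gtl72 hv hv' 0 t m0 hNp)
      unfold gTl
      refine integral_mono (gp_int72 hv hv' _) (gp_int72 hv hv' _) fun η => ?_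
      refine gp_mono72 hv hv' η fun s => ?_
      by_cases h3 : ps s t ∈ U
      · rw [if_neg (not_not.2 h3)]
        split_ifs
        · exact zero_le_one
        · exact le_rfl
      · rw [if_pos h3, if_pos]
        by_contra h4
        refine h3 (hU3 _ ?_)
        unfold gi at h4
        rw [hps s, emb_zero73, sub_zero] at h4
        exact not_lt.1 h4
    refine h2.trans ((mul_le_mul_of_nonneg_left hm0 (by positivity)).trans ?_)
    rw [one_div, inv_mul_eq_div, div_le_iff₀ (by positivity)]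
    push_cast
    have h3 : (K₀ * Real.sqrt t) ^ 2 ≤ (N : ℝ) ^ 2 := pow_le_pow_left₀ (by positivity) hN1 2
    have h4 : (K₀ * Real.sqrt t) ^ 2 = K₀ ^ 2 * t := by rw [mul_pow, hsq]
    rw [h4] at h3
    have h5 : 2 * R * t ≤ κ * K₀ ^ 2 * t := mul_le_mul_of_nonneg_right hK₀2 ht0.le
    nlinarith
  -- second term
  have hB : 2 / W * (∑ σ ∈ Finset.Ioc (t - s₁ - 1) (t - 1),
      a σ * av π wf (fun w' => gLo ρ β ps n w' t (a σ) σ (lev σ) o)) ≤ κ / 2 := by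
    have h1 : ∑ σ ∈ Finset.Ioc (t - s₁ - 1) (t - 1),
        a σ * av π wf (fun w' => gLo ρ β ps n w' t (a σ) σ (lev σ) o) ≤
        ∑ σ ∈ Finset.Ioc (t - s₁ - 1) (t - 1), (a σ * av π wf (fun w' =>
          gNb ρ β ps n w' t (lev σ) o (2 * Real.sqrt (K * ((t - σ : ℕ) : ℝ)))) +
            a σ * (κ / 8)) := by
      refine Finset.sum_le_sum fun σ hσ => ?_
      rw [Finset.mem_Ioc] at hσ
      rcases lt_or_ge ((t - σ : ℕ) : ℝ) w with h2 | h2
      · have h3 : a σ = 0 := by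
          rw [ha]
          show (if w ≤ ((t - σ : ℕ) : ℝ) then γ ^ 2 / ((t - σ : ℕ) : ℝ) else 0) = 0
          rw [if_neg (not_le.2 h2)]
        rw [h3, zero_mul, zero_mul, zero_mul, add_zero]
      · have h3 : a σ = γ ^ 2 / ((t - σ : ℕ) : ℝ) := by
          rw [ha]
          show (if w ≤ ((t - σ : ℕ) : ℝ) then γ ^ 2 / ((t - σ : ℕ) : ℝ) else 0) = _
          rw [if_pos h2]
        have hc : ((t - σ : ℕ) : ℝ) = (t : ℝ) - σ := by
          rw [Nat.cast_sub (by omega)]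
        obtain ⟨m, hm⟩ := hW σ t (by omega) htn (by rw [← hc]; exact h2)
        rw [← hc] at hm
        rw [← mul_add]
        refine mul_le_mul_of_nonneg_left ?_ (ha0 σ)
        rw [h3, hlev]
        exact lof72 hcL hcL1 hF (fun w' hw' hw'' => hlow S ps n w' hw' hw'') hR hκ hK hK2 hL1 hγ
          hM hMγ hγ2 (by omega) (by omega) (by omega) htn m hm o
    have h2 : ∑ σ ∈ Finset.Ioc (t - s₁ - 1) (t - 1), a σ *
        (4 * (2 * Real.sqrt (K * ((t - σ : ℕ) : ℝ))) / 2 ^ lev σ) ≤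
        ∑ σ ∈ Finset.Ioc (t - s₁ - 1) (t - 1), a σ * (κ / 16) := by
      refine Finset.sum_le_sum fun σ hσ => mul_le_mul_of_nonneg_left ?_ (ha0 σ)
      rw [Finset.mem_Ioc] at hσ
      obtain ⟨b1, b2, _⟩ := lv_bd72 hK hL1 (s := t - σ) (by omega)
      rw [hlev]
      show 4 * (2 * Real.sqrt (K * ((t - σ : ℕ) : ℝ))) / 2 ^ lv72 K L (t - σ) ≤ _
      rw [div_le_iff₀ (by positivity)]
      have h3 : κ / 16 * (L * Real.sqrt (K * ((t - σ : ℕ) : ℝ))) ≤
          κ / 16 * 2 ^ lv72 K L (t - σ) := mul_le_mul_of_nonneg_left b2 (by positivity)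
      refine le_trans ?_ h3
      nlinarith [mul_le_mul_of_nonneg_right hL2 (Real.sqrt_nonneg (K * ((t - σ : ℕ) : ℝ)))]
    rw [Finset.sum_add_distrib, ← Finset.sum_mul, ← hWd] at h1
    rw [← Finset.sum_mul, ← hWd] at h2
    have h3 : ∑ σ ∈ Finset.Ioc (t - s₁ - 1) (t - 1),
        a σ * av π wf (fun w' => gLo ρ β ps n w' t (a σ) σ (lev σ) o) ≤ W * (κ / 4) := by
      have := ho.trans h2
      nlinarith
    rw [div_mul_eq_mul_div, div_le_iff₀ hWp]
    linarith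
  -- third term
  have hC : Real.sqrt (Λ / t) * Real.exp (-(W / 2)) * Real.sqrt U.card ≤
      (16 * M + 8 * M * (2 * K₀ + 7)) * Real.sqrt Λ * (w / D ^ 2) ^ (γ ^ 2 / 2) := by
    have hDp : 0 < D ^ 2 := by positivity
    have h1 : Real.exp (-(W / 2)) ≤ 8 * M * (w / D ^ 2) ^ (γ ^ 2 / 2) := by
      have h2 : Real.exp (-(W / 2)) ≤ (D ^ 2 / (8 * M * w)) ^ (-(γ ^ 2 / 2)) := by
        rw [Real.rpow_def_of_pos (by positivity)]
        refine Real.exp_le_exp.2 ?_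
        linarith
      refine h2.trans (le_of_eq_of_le ?_ (mul_le_mul_of_nonneg_right
        (?_ : (8 * M) ^ (γ ^ 2 / 2) ≤ 8 * M) (Real.rpow_nonneg (by positivity) _)))
      · rw [Real.rpow_neg (by positivity), ← Real.inv_rpow (by positivity), inv_div,
          ← Real.mul_rpow (by positivity) (by positivity)]
        congr 1
        ring
      · have h3 : (8 * M) ^ (γ ^ 2 / 2) ≤ (8 * M) ^ (1 : ℝ) :=
          Real.rpow_le_rpow_of_exponent_le (by linarith) (by nlinarith)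
        rwa [Real.rpow_one] at h3
    have h4 : Real.sqrt U.card ≤ (2 * K₀ + 7) * Real.sqrt t := by
      have hlt : (2 : ℝ) ^ lev (t - s₁ - 1 + 1) ≤ Real.sqrt t := by
        rw [hlev]
        show (2 : ℝ) ^ lv72 K L (t - (t - s₁ - 1 + 1)) ≤ Real.sqrt t
        have e : t - (t - s₁ - 1 + 1) = s₁ := by omega
        rw [e]
        rcases Nat.eq_zero_or_pos s₁ with h5 | h5
        · rw [h5]
          unfold lv72
          simp only [Nat.cast_zero, mul_zero, Real.sqrt_zero, Nat.ceil_zero]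
          rw [Nat.clog_of_right_le_one (by norm_num), pow_zero]
          exact hsq1
        · have h6 := hlevD s₁ h5 le_rfl
          have h7 : D ≤ Real.sqrt t := Real.le_sqrt_of_sq_le hDt
          have h8 : (0 : ℝ) < 2 ^ lv72 K L s₁ := by positivity
          linarith
      refine (Real.sqrt_le_sqrt hU2).trans ?_
      rw [Real.sqrt_sq (by positivity)]
      nlinarith
    have h5 : Real.sqrt (Λ / t) * Real.sqrt t = Real.sqrt Λ := by
      rw [← Real.sqrt_mul (by positivity)]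
      congr 1
      field_simp
    have hwD0 : 0 ≤ (w / D ^ 2) ^ (γ ^ 2 / 2) := Real.rpow_nonneg (by positivity) _
    calc Real.sqrt (Λ / t) * Real.exp (-(W / 2)) * Real.sqrt U.card
        ≤ Real.sqrt (Λ / t) * (8 * M * (w / D ^ 2) ^ (γ ^ 2 / 2)) *
          ((2 * K₀ + 7) * Real.sqrt t) := by
          refine mul_le_mul (mul_le_mul_of_nonneg_left h1 (Real.sqrt_nonneg _)) h4
            (Real.sqrt_nonneg _) (by positivity)
      _ = 8 * M * (2 * K₀ + 7) * (Real.sqrt (Λ / t) * Real.sqrt t) *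
          (w / D ^ 2) ^ (γ ^ 2 / 2) := by ring
      _ = 8 * M * (2 * K₀ + 7) * Real.sqrt Λ * (w / D ^ 2) ^ (γ ^ 2 / 2) := by rw [h5]
      _ ≤ (16 * M + 8 * M * (2 * K₀ + 7)) * Real.sqrt Λ * (w / D ^ 2) ^ (γ ^ 2 / 2) := by
          refine mul_le_mul_of_nonneg_right (mul_le_mul_of_nonneg_right ?_ (Real.sqrt_nonneg _))
            hwD0
          linarith
  linarith

end Pool.Agent.W_7d29a1_GW
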