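import Pool.Agent.W_7d29a1_GW.DefsG31
import Pool.Agent.W_7d29a1_NS.Dual63
import Pool.Agent.W_7d29a1_S90.Sib39

/-!
Leaf VAR for a finite a priori path space (port of helper63's leaf).
-/

namespace Pool.Agent.W_7d29a1_GW

open MeasureTheory ProbabilityTheory Filter Topology Pool.Agent.W_MP_7d29a1_pr
  Pool.Agent.W_7d29a1_h46 Pool.Agent.W_7d29a1_h46u Pool.Agent.W_7d29a1_D2.B35
  Pool.Agent.W_7d29a1_Q29 Pool.Agent.W_7d29a1_Q29.D85 Pool.Agent.W_7d29a1_S90
  Pool.Agent.W_7d29a1_NS

namespace V64

section Bas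

variable {d : ℕ} {S : Type} [Fintype S] {β : ℝ} {ps : S → ℕ → Site d} {n : ℕ} {w : S → ℝ}

omit [Fintype S] in
lemma gw_nonneg (hw : ∀ s, 0 ≤ w s) (η : Env d) (s : S) : 0 ≤ gw β ps n w η s :=
  mul_nonneg (hw s) (Real.exp_pos _).le

lemma gz_pos (hw : ∀ s, 0 ≤ w s) (hs : 0 < ∑ s, w s) (η : Env d) :
    0 < ∑ s, gw β ps n w η s := by
  have h1 : ∃ s ∈ Finset.univ, 0 < w s := by
    by_contra hcon
    push Not at hcon
    have h2 : ∑ s, w s ≤ 0 := Finset.sum_nonpos hcon
    linarith
  obtain ⟨s, -, h2⟩ := h1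
  refine Finset.sum_pos' (fun s _ => gw_nonneg hw η s) ⟨s, Finset.mem_univ s, ?_⟩
  exact mul_pos h2 (Real.exp_pos _)

lemma gp_add (η : Env d) (f g : S → ℝ) :
    gp β ps n w η f + gp β ps n w η g = gp β ps n w η (fun s => f s + g s) := by
  unfold gp
  rw [← add_div, ← Finset.sum_add_distrib]
  congr 1
  exact Finset.sum_congr rfl fun s _ => by ring

lemma gp_sub (η : Env d) (f g : S → ℝ) :
    gp β ps n w η (fun s => f s - g s) = gp β ps n w η f - gp β ps n w η g := by
  unfold gp
  rw [← sub_div, ← Finset.sum_sub_distrib]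
  congr 1
  exact Finset.sum_congr rfl fun s _ => by ring

lemma gp_mul (η : Env d) (a : ℝ) (f : S → ℝ) :
    gp β ps n w η (fun s => a * f s) = a * gp β ps n w η f := by
  unfold gp
  rw [← mul_div_assoc, Finset.mul_sum]
  congr 1
  exact Finset.sum_congr rfl fun s _ => by ring

lemma gp_sum {ι : Type*} (I : Finset ι) (η : Env d) (f : ι → S → ℝ) :
    gp β ps n w η (fun s => ∑ i ∈ I, f i s) = ∑ i ∈ I, gp β ps n w η (f i) := by
  unfold gp
  rw [← Finset.sum_div, Finset.sum_comm]
  congr 1
  exact Finset.sum_congr rfl fun s _ => by rw [Finset.mul_sum]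

lemma gp_const (hw : ∀ s, 0 ≤ w s) (hs : 0 < ∑ s, w s) (η : Env d) (a : ℝ) :
    gp β ps n w η (fun _ => a) = a := by
  unfold gp
  rw [← Finset.sum_mul, mul_comm, mul_div_assoc, div_self (gz_pos hw hs η).ne', mul_one]

lemma gp_mono (hw : ∀ s, 0 ≤ w s) (hs : 0 < ∑ s, w s) (η : Env d) {f g : S → ℝ}
    (h : ∀ s, f s ≤ g s) : gp β ps n w η f ≤ gp β ps n w η g := by
  unfold gp
  refine div_le_div_of_nonneg_right (Finset.sum_le_sum fun s _ => ?_) (gz_pos hw hs η).le
  exact mul_le_mul_of_nonneg_left (h s) (gw_nonneg hw η s)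

lemma gp_bd (hw : ∀ s, 0 ≤ w s) (hs : 0 < ∑ s, w s) (η : Env d) {f : S → ℝ}
    (h : ∀ s, 0 ≤ f s ∧ f s ≤ 1) : 0 ≤ gp β ps n w η f ∧ gp β ps n w η f ≤ 1 := by
  constructor
  · have := gp_mono (β := β) (ps := ps) (n := n) hw hs η (f := fun _ => 0) (g := f)
      fun s => (h s).1
    rwa [gp_const hw hs] at this
  · have := gp_mono (β := β) (ps := ps) (n := n) hw hs η (f := f) (g := fun _ => 1)
      fun s => (h s).2
    rwa [gp_const hw hs] at this

lemma gp2_bd (hw : ∀ s, 0 ≤ w s) (hs : 0 < ∑ s, w s) (η : Env d) {f : S → S → ℝ}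
    (h : ∀ s s', 0 ≤ f s s' ∧ f s s' ≤ 1) :
    0 ≤ gp2 β ps n w η f ∧ gp2 β ps n w η f ≤ 1 :=
  gp_bd hw hs η fun s => gp_bd hw hs η (h s)

lemma gp2_mono (hw : ∀ s, 0 ≤ w s) (hs : 0 < ∑ s, w s) (η : Env d) {f g : S → S → ℝ}
    (h : ∀ s s', f s s' ≤ g s s') : gp2 β ps n w η f ≤ gp2 β ps n w η g :=
  gp_mono hw hs η fun s => gp_mono hw hs η (h s)

lemma gp2_snd (hw : ∀ s, 0 ≤ w s) (hs : 0 < ∑ s, w s) (η : Env d) (f : S → ℝ) :
    gp2 β ps n w η (fun _ s' => f s') = gp β ps n w η f := gp_const hw hs η _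

lemma gp2_lin {ι : Type*} (I : Finset ι) (η : Env d) (a : ι → ℝ) (f : ι → S → S → ℝ) :
    gp2 β ps n w η (fun s s' => ∑ i ∈ I, a i * f i s s') =
      ∑ i ∈ I, a i * gp2 β ps n w η (f i) := by
  unfold gp2
  have h1 : ∀ s : S, gp β ps n w η (fun s' => ∑ i ∈ I, a i * f i s s') =
      ∑ i ∈ I, a i * gp β ps n w η (fun s' => f i s s') := by
    intro s
    rw [gp_sum]
    exact Finset.sum_congr rfl fun i _ => gp_mul _ _ _
  simp only [h1]
  rw [gp_sum]
  exact Finset.sum_congr rfl fun i _ => gp_mul _ _ _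

omit [Fintype S] in
lemma meas_gw (s : S) : Measurable fun η : Env d => gw β ps n w η s := by
  unfold gw
  refine measurable_const.mul (Real.measurable_exp.comp ?_)
  refine measurable_const.mul (Finset.measurable_sum _ fun i _ => ?_)
  exact measurable_pi_apply _

lemma meas_gp (f : S → ℝ) : Measurable fun η : Env d => gp β ps n w η f := by
  unfold gp
  refine Measurable.div ?_ ?_
  · exact Finset.measurable_sum _ fun s _ => (meas_gw s).mul_const _
  · exact Finset.measurable_sum _ fun s _ => meas_gw s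

lemma meas_gp2 (f : S → S → ℝ) : Measurable fun η : Env d => gp2 β ps n w η f := by
  unfold gp2
  have h : (fun η : Env d => gp β ps n w η fun s => gp β ps n w η fun s' => f s s') =
      fun η : Env d => (∑ s, gw β ps n w η s * gp β ps n w η (fun s' => f s s')) /
        ∑ s, gw β ps n w η s := rfl
  rw [h]
  refine Measurable.div ?_ ?_
  · exact Finset.measurable_sum _ fun s _ => (meas_gw s).mul (meas_gp _)
  · exact Finset.measurable_sum _ fun s _ => meas_gw s

end Bas

end V64

open V64

variable {d : ℕ} {ρ : Measure ℝ} [IsProbabilityMeasure ρ]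

open Classical in
/-- Leaf VAR. -/
theorem varG64 {β : ℝ} (hS : SibG d ρ β) : VarG d ρ β := by
  obtain ⟨q, c, hc0, hc1, hmain⟩ := hS
  refine ⟨c, hc0, hc1, fun S _ ps n w hw hs e T he hT B G sd A hGm hG01 hGB hGdep => ?_⟩
  have hTn : ∀ t ∈ T, 1 ≤ t ∧ t ≤ n := fun t ht => Finset.mem_Icc.1 (hT ht)
  set F : Env d → ℝ := fun η => gp β ps n w η (fun s : S =>
    if A (ps s e) then (1 : ℝ) else 0) with hF
  have hFm : Measurable F := meas_gp _
  have hF01 : ∀ η, 0 ≤ F η ∧ F η ≤ 1 := fun η => gp_bd hw hs η fun s => by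
    split_ifs <;> norm_num
  set sg : ℕ → Site d → ℝ := fun t y => if sd t y then (1 : ℝ) else -1 with hsg
  have hsg1 : ∀ t y, |sg t y| = 1 := fun t y => by
    simp only [hsg]
    split_ifs <;> norm_num
  set g : ℕ × Site d → Env d → ℝ := fun p η => sg p.1 p.2 * G p.1 p.2 η with hg
  have hdepc : ∀ p : ℕ × Site d, 1 ≤ p.1 → ∀ p' : ℕ × Site d, p.1 ≤ p'.1 →
      DependsOn (G p.1 p.2) ({p'}ᶜ : Set (ℕ × Site d)) := by
    intro p hp p' hpp η η' hη
    refine hGdep p.1 p.2 fun r hr => hη r ?_
    intro h1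
    rw [Set.mem_singleton_iff] at h1
    have h2 : r.1 ≤ p.1 - 1 := hr
    rw [h1] at h2
    omega
  set I : Finset (ℕ × Site d) := T ×ˢ B with hI
  have hI1 : ∀ p ∈ I, 1 ≤ p.1 ∧ p.1 ≤ n := fun p hp => hTn p.1 (Finset.mem_product.1 hp).1
  have hgdep : ∀ p ∈ I, ∀ p' : ℕ × Site d, p.1 ≤ p'.1 →
      DependsOn (g p) ({p'}ᶜ : Set (ℕ × Site d)) := by
    intro p hp p' hpp η η' hη
    simp only [hg]
    rw [hdepc p (hI1 p hp).1 p' hpp hη]
  have hdual := dual63 (ρ := ρ) q I F hFm hF01 g
    (fun p _ => (hGm p.1 p.2).const_mul _)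
    (fun p _ η => by
      simp only [hg]
      rw [abs_mul, hsg1, one_mul, abs_of_nonneg (hG01 p.1 p.2 η).1]
      exact (hG01 p.1 p.2 η).2)
    (fun p hp => hgdep p hp p le_rfl)
    (fun p hp p' hp' _ => by
      rcases le_total p.1 p'.1 with h1 | h1
      · exact Or.inr (hgdep p hp p' h1)
      · exact Or.inl (hgdep p' hp' p h1))
  -- the right side
  have hright : ∑ p ∈ I, ∫ η, g p η ^ 2 ∂(law d ρ) ≤
      ∑ t ∈ T, ∫ η, ∑ y ∈ B, G t y η ∂(law d ρ) := by
    rw [hI, Finset.sum_product]
    refine Finset.sum_le_sum fun t ht => ?_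
    have hgi : ∀ y ∈ B, Integrable (fun η => g (t, y) η ^ 2) (law d ρ) := by
      intro y _
      refine Integrable.of_bound (((hGm t y).const_mul _).pow_const 2).aestronglyMeasurable 1
        (Eventually.of_forall fun η => ?_)
      simp only [hg]
      rw [Real.norm_eq_abs, abs_pow, abs_mul, hsg1, one_mul, abs_of_nonneg (hG01 t y η).1]
      exact pow_le_one₀ (hG01 t y η).1 (hG01 t y η).2
    have hGi : ∀ y ∈ B, Integrable (G t y) (law d ρ) := fun y _ =>
      int_bd39 (hGm t y) (hG01 t y)
    rw [← integral_finsetSum _ hgi]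
    refine integral_mono (integrable_finsetSum _ hgi) (integrable_finsetSum _ hGi) fun η => ?_
    refine Finset.sum_le_sum fun y _ => ?_
    have h5 : g (t, y) η ^ 2 = G t y η ^ 2 := by
      simp only [hg]
      rw [mul_pow, ← sq_abs (sg t y), hsg1, one_pow, one_mul]
    rw [h5]
    exact pow_le_of_le_one (hG01 t y η).1 (hG01 t y η).2 two_ne_zero
  -- one row
  have hrow : ∀ t ∈ T, (c * (∫ η, gp2 β ps n w η (fun s s' : S =>
        if ¬ (sd t (ps s t) ↔ A (ps s' e)) then G t (ps s t) η else 0) ∂(law d ρ)) -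
      2 * ∫ η, gp β ps n w η (fun s : S =>
        if ¬ (sd t (ps s t) ↔ A (ps s e)) then (1 : ℝ) else 0) ∂(law d ρ)) ≤
      ∑ y ∈ B, ∫ η, g (t, y) η * zt ρ q (η (t, y)) * F η ∂(law d ρ) := by
    intro t ht
    obtain ⟨ht1, htn⟩ := hTn t ht
    obtain ⟨Fr, hFr⟩ : ∃ Fr : Site d → S → Prop,
        ∀ y s, Fr y s ↔ ¬ (sd t y ↔ A (ps s e)) := ⟨fun y s => ¬ (sd t y ↔ A (ps s e)),
      fun _ _ => Iff.rfl⟩
    -- one site
    have hsite : ∀ y ∈ B,
        c * (∫ η, G t y η * gp2 β ps n w η (fun s s' : S =>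
          if ps s t = y ∧ Fr y s' then (1 : ℝ) else 0) ∂(law d ρ)) -
        2 * (∫ η, gp β ps n w η (fun s : S =>
          if ps s t = y ∧ Fr y s then (1 : ℝ) else 0) ∂(law d ρ)) ≤
        ∫ η, g (t, y) η * zt ρ q (η (t, y)) * F η ∂(law d ρ) := by
      intro y _
      have h1 := hmain S ps n w hw hs t ht1 htn y (Fr y) (G t y) (hGm t y) (hG01 t y)
        (hdepc (t, y) ht1 (t, y) le_rfl)
      have b1 : ∀ η : Env d, 0 ≤ gp β ps n w η (fun s : S =>
          if ps s t = y ∧ Fr y s then (1 : ℝ) else 0) ∧ gp β ps n w η (fun s : S =>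
          if ps s t = y ∧ Fr y s then (1 : ℝ) else 0) ≤ 1 := fun η =>
        gp_bd hw hs η fun s => by split_ifs <;> norm_num
      have hGP : Integrable (fun η : Env d => G t y η * gp β ps n w η (fun s : S =>
            if ps s t = y ∧ Fr y s then (1 : ℝ) else 0)) (law d ρ) :=
        int_bd39 ((hGm t y).mul (meas_gp _)) fun η =>
            ⟨mul_nonneg (hG01 t y η).1 (b1 η).1, mul_le_one₀ (hG01 t y η).2 (b1 η).1 (b1 η).2⟩
      have h2 : (∫ η, G t y η * gp β ps n w η (fun s : S =>
          if ps s t = y ∧ Fr y s then (1 : ℝ) else 0) ∂(law d ρ)) ≤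
          ∫ η, gp β ps n w η (fun s : S =>
            if ps s t = y ∧ Fr y s then (1 : ℝ) else 0) ∂(law d ρ) := by
        refine integral_mono hGP (int_bd39 (meas_gp _) b1) fun η => ?_
        exact mul_le_of_le_one_left (b1 η).1 (hG01 t y η).2
      have h2' : 0 ≤ ∫ η, gp β ps n w η (fun s : S =>
            if ps s t = y ∧ Fr y s then (1 : ℝ) else 0) ∂(law d ρ) :=
        integral_nonneg fun η => (b1 η).1
      -- the pairs which meet at `y`
      have hG2 : ∀ f : S → S → ℝ, (∀ s s', 0 ≤ f s s' ∧ f s s' ≤ 1) →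
          Integrable (fun η : Env d => G t y η * gp2 β ps n w η f) (law d ρ) := by
        intro f hf
        refine int_bd39 ((hGm t y).mul (meas_gp2 _)) fun η => ?_
        have b2 := gp2_bd (β := β) (ps := ps) (n := n) hw hs η hf
        exact ⟨mul_nonneg (hG01 t y η).1 b2.1, mul_le_one₀ (hG01 t y η).2 b2.1 b2.2⟩
      have h6 : (∫ η, G t y η * gp2 β ps n w η (fun s s' : S =>
          if ps s t = y ∧ Fr y s' then (1 : ℝ) else 0) ∂(law d ρ)) ≤
          (∫ η, G t y η * gp2 β ps n w η (fun s s' : S =>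
            if ps s t = y ∧ ps s' t ≠ y ∧ Fr y s' then (1 : ℝ) else 0) ∂(law d ρ)) +
          ∫ η, G t y η * gp β ps n w η (fun s : S =>
            if ps s t = y ∧ Fr y s then (1 : ℝ) else 0) ∂(law d ρ) := by
        have i2 := hG2 (fun s s' : S =>
            if ps s t = y ∧ ps s' t ≠ y ∧ Fr y s' then (1 : ℝ) else 0)
            (fun s s' => by split_ifs <;> norm_num)
        rw [← integral_add i2 hGP]
        refine integral_mono (hG2 _ (fun s s' => by split_ifs <;> norm_num)) (i2.add hGP)
          fun η => ?_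
        show G t y η * _ ≤ G t y η * _ + G t y η * _
        rw [← mul_add]
        refine mul_le_mul_of_nonneg_left ?_ (hG01 t y η).1
        rw [← gp2_snd hw hs η (fun s : S =>
          if ps s t = y ∧ Fr y s then (1 : ℝ) else 0)]
        have h7 : gp2 β ps n w η (fun s s' : S =>
            if ps s t = y ∧ ps s' t ≠ y ∧ Fr y s' then (1 : ℝ) else 0) +
            gp2 β ps n w η (fun _ s' : S =>
              if ps s' t = y ∧ Fr y s' then (1 : ℝ) else 0) =
            gp2 β ps n w η (fun s s' : S =>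
              (if ps s t = y ∧ ps s' t ≠ y ∧ Fr y s' then (1 : ℝ) else 0) +
              if ps s' t = y ∧ Fr y s' then (1 : ℝ) else 0) := by
          unfold gp2
          rw [gp_add]
          congr 1
          funext s
          rw [gp_add]
        rw [h7]
        refine gp2_mono hw hs η fun s s' => ?_
        by_cases a1 : ps s t = y <;> by_cases a2 : ps s' t = y <;> by_cases a3 : Fr y s' <;>
          simp [a1, a2, a3]
      have hzm : Measurable fun η : Env d => zt ρ q (η (t, y)) :=
        (meas_zt39 ρ q).comp (measurable_pi_apply (t, y))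
      have h3 : ∫ η, G t y η * (zt ρ q (η (t, y)) * gp β ps n w η (fun s : S =>
          if ¬ Fr y s then (1 : ℝ) else 0)) ∂(law d ρ) =
          ∫ η, g (t, y) η * zt ρ q (η (t, y)) * F η ∂(law d ρ) := by
        by_cases hy : sd t y
        · refine integral_congr_ae (Eventually.of_forall fun η => ?_)
          have e1 : (fun s : S => if ¬ Fr y s then (1 : ℝ) else 0) =
              fun s => if A (ps s e) then (1 : ℝ) else 0 := by
            funext s
            simp only [hFr, hy, true_iff, not_not]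
          simp only [hg, hsg, hF, if_pos hy, one_mul]
          rw [e1]
          ring
        · have e1 : (fun s : S => if ¬ Fr y s then (1 : ℝ) else 0) =
              fun s => 1 - if A (ps s e) then (1 : ℝ) else 0 := by
            funext s
            simp only [hFr, hy, false_iff, not_not]
            split_ifs <;> norm_num
          have e2 : ∀ η : Env d, gp β ps n w η (fun s : S =>
              if ¬ Fr y s then (1 : ℝ) else 0) = 1 - F η := by
            intro η
            rw [e1, gp_sub, gp_const hw hs]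
          have hi1 : Integrable (fun η : Env d => G t y η * zt ρ q (η (t, y))) (law d ρ) := by
            refine Integrable.of_bound ((hGm t y).mul hzm).aestronglyMeasurable 1
              (Eventually.of_forall fun η => ?_)
            rw [Real.norm_eq_abs, abs_mul, abs_of_nonneg (hG01 t y η).1]
            exact mul_le_one₀ (hG01 t y η).2 (abs_nonneg _) (zt_bd39 ρ q _)
          have hi2 : Integrable (fun η : Env d => G t y η * zt ρ q (η (t, y)) * F η)
              (law d ρ) := by
            refine Integrable.of_bound (((hGm t y).mul hzm).mul hFm).aestronglyMeasurable 1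
              (Eventually.of_forall fun η => ?_)
            rw [Real.norm_eq_abs, abs_mul, abs_mul, abs_of_nonneg (hG01 t y η).1,
              abs_of_nonneg (hF01 η).1]
            exact mul_le_one₀ (mul_le_one₀ (hG01 t y η).2 (abs_nonneg _) (zt_bd39 ρ q _))
              (hF01 η).1 (hF01 η).2
          have e3 : ∀ η : Env d, G t y η * (zt ρ q (η (t, y)) * gp β ps n w η
              (fun s : S => if ¬ Fr y s then (1 : ℝ) else 0)) =
              G t y η * zt ρ q (η (t, y)) - G t y η * zt ρ q (η (t, y)) * F η := by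
            intro η
            rw [e2]
            ring
          simp only [e3]
          rw [integral_sub hi1 hi2, orth63 q (t, y) (hdepc (t, y) ht1 (t, y) le_rfl) hi1,
            zero_sub, ← integral_neg]
          refine integral_congr_ae (Eventually.of_forall fun η => ?_)
          simp only [hg, hsg, if_neg hy]
          ring
      rw [h3] at h1
      nlinarith [mul_le_mul_of_nonneg_left h6 hc0.le, mul_le_mul_of_nonneg_left h2 hc0.le]
    -- the sum over the sites
    refine le_trans ?_ (Finset.sum_le_sum hsite)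
    rw [Finset.sum_sub_distrib, ← Finset.mul_sum, ← Finset.mul_sum]
    have hfirst : (∫ η, gp2 β ps n w η (fun s s' : S =>
        if ¬ (sd t (ps s t) ↔ A (ps s' e)) then G t (ps s t) η else 0) ∂(law d ρ)) =
        ∑ y ∈ B, ∫ η, G t y η * gp2 β ps n w η (fun s s' : S =>
          if ps s t = y ∧ Fr y s' then (1 : ℝ) else 0) ∂(law d ρ) := by
      rw [← integral_finsetSum]
      · refine integral_congr_ae (Eventually.of_forall fun η => ?_)
        show gp2 β ps n w η _ = ∑ y ∈ B, G t y η * gp2 β ps n w η (fun s s' : S =>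
          if ps s t = y ∧ Fr y s' then (1 : ℝ) else 0)
        rw [← gp2_lin B η (fun y => G t y η)
          (fun y (s s' : S) => if ps s t = y ∧ Fr y s' then (1 : ℝ) else 0)]
        congr 1
        funext s s'
        by_cases hB : ps s t ∈ B
        · rw [Finset.sum_eq_single_of_mem (ps s t) hB]
          · by_cases a1 : (sd t (ps s t) ↔ A (ps s' e))
            · have a2 : ¬ Fr (ps s t) s' := fun h9 => (hFr _ _).1 h9 a1
              simp [a1, a2]
            · have a2 : Fr (ps s t) s' := (hFr _ _).2 a1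
              simp [a1, a2]
          · intro y _ hy
            rw [if_neg fun h1 => hy h1.1.symm, mul_zero]
        · rw [hGB t _ hB η, ite_self, Finset.sum_eq_zero]
          intro y hy
          rw [if_neg fun h1 : ps s t = y ∧ Fr y s' => hB (h1.1 ▸ hy), mul_zero]
      · intro y _
        exact int_bd39 ((hGm t y).mul (meas_gp2 _)) fun η => by
          have b2 := gp2_bd (β := β) (ps := ps) (n := n) hw hs η (f := fun s s' : S =>
            if ps s t = y ∧ Fr y s' then (1 : ℝ) else 0)
            (fun s s' => by split_ifs <;> norm_num)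
          exact ⟨mul_nonneg (hG01 t y η).1 b2.1, mul_le_one₀ (hG01 t y η).2 b2.1 b2.2⟩
    have hsecond : ∑ y ∈ B, ∫ η, gp β ps n w η (fun s : S =>
          if ps s t = y ∧ Fr y s then (1 : ℝ) else 0) ∂(law d ρ) ≤
        ∫ η, gp β ps n w η (fun s : S =>
          if ¬ (sd t (ps s t) ↔ A (ps s e)) then (1 : ℝ) else 0) ∂(law d ρ) := by
      have hi : ∀ y ∈ B, Integrable (fun η : Env d => gp β ps n w η (fun s : S =>
          if ps s t = y ∧ Fr y s then (1 : ℝ) else 0)) (law d ρ) := fun y _ =>
        int_bd39 (meas_gp _) fun η => gp_bd hw hs η fun s => by split_ifs <;> norm_num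
      rw [← integral_finsetSum _ hi]
      refine integral_mono (integrable_finsetSum _ hi)
        (int_bd39 (meas_gp _) fun η => gp_bd hw hs η fun s => by split_ifs <;> norm_num)
        fun η => ?_
      show ∑ y ∈ B, gp β ps n w η (fun s : S =>
          if ps s t = y ∧ Fr y s then (1 : ℝ) else 0) ≤ gp β ps n w η _
      rw [← gp_sum]
      refine gp_mono hw hs η fun s => ?_
      by_cases hB : ps s t ∈ B
      · rw [Finset.sum_eq_single_of_mem (ps s t) hB]
        · by_cases a1 : (sd t (ps s t) ↔ A (ps s e))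
          · have a2 : ¬ Fr (ps s t) s := fun h9 => (hFr _ _).1 h9 a1
            simp [a1, a2]
          · have a2 : Fr (ps s t) s := (hFr _ _).2 a1
            simp [a1, a2]
        · intro y _ hy
          rw [if_neg fun h1 => hy h1.1.symm]
      · rw [Finset.sum_eq_zero]
        · split_ifs <;> norm_num
        · intro y hy
          rw [if_neg fun h1 : ps s t = y ∧ Fr y s => hB (h1.1 ▸ hy)]
    rw [hfirst]
    linarith
  -- the end
  calc _ ≤ ∑ t ∈ T, ∑ y ∈ B, ∫ η, g (t, y) η * zt ρ q (η (t, y)) * F η ∂(law d ρ) :=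
        Finset.sum_le_sum hrow
    _ = ∑ p ∈ I, ∫ η, g p η * zt ρ q (η p) * F η ∂(law d ρ) := by
        rw [hI, Finset.sum_product]
    _ ≤ _ := hdual
    _ ≤ _ := Real.sqrt_le_sqrt hright

end Pool.Agent.W_7d29a1_GW
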