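import Pool.Agent.W_7d29a1_GW.DefsM31
import Pool.Agent.W_7d29a1_GW.SibG39
import Pool.Agent.W_7d29a1_GW.LoaG31
import Pool.Agent.W_7d29a1_GW.LowG56
import Pool.Agent.W_7d29a1_GW.Chn24
import Pool.Agent.W_7d29a1_GW.TyaG90
import Pool.Agent.W_7d29a1_GW.VarG64
import Pool.Agent.W_7d29a1_GW.AvgG71
import Pool.Agent.W_7d29a1_GW.Off44
import Pool.Agent.W_7d29a1_GW.TypF72
import Pool.Agent.W_7d29a1_GW.End63
import Pool.Agent.W_7d29a1_GW.LisG45
import Pool.Agent.W_7d29a1_GW.Mes24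
import Pool.Agent.W_7d29a1_GW.Shp42
import Pool.Agent.W_7d29a1_GW.Der62
import Pool.Agent.W_7d29a1_GW.LikG48
import Pool.Agent.W_7d29a1_GW.Shr24
import Pool.Agent.W_7d29a1_GW.Sep35
import Pool.Agent.W_7d29a1_GW.Main31

/-!
Theorem GW: the glue.
-/

namespace Pool.Agent.W_7d29a1_GW

open MeasureTheory ProbabilityTheory Filter Topology Pool.Agent.W_MP_7d29a1_pr
  Pool.Agent.W_7d29a1_h46 Pool.Agent.W_7d29a1_h46u Pool.Agent.W_7d29a1_D2.B35
  Pool.Agent.W_7d29a1_Q29 Pool.Agent.W_7d29a1_S90 Pool.Agent.W_7d29a1_NS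

/-- A law with bounded support has all exponential moments. -/
lemma EM_bdd17 {ρ : Measure ℝ} [IsProbabilityMeasure ρ] {b : ℝ}
    (hb : ρ (Set.Icc (-b) b)ᶜ = 0) : EM ρ := by
  intro a
  refine Integrable.of_bound (by fun_prop) (Real.exp (|a| * b)) ?_
  have h1 : ∀ᵐ t ∂ρ, t ∈ Set.Icc (-b) b := hb
  filter_upwards [h1] with t ht
  rw [Real.norm_eq_abs, abs_of_pos (Real.exp_pos _)]
  refine Real.exp_le_exp.2 ?_
  have h2 : |t| ≤ b := abs_le.2 ht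
  calc a * t ≤ |a * t| := le_abs_self _
    _ = |a| * |t| := abs_mul a t
    _ ≤ |a| * b := mul_le_mul_of_nonneg_left h2 (abs_nonneg a)

variable {ρ : Measure ℝ} [IsProbabilityMeasure ρ] {β : ℝ}

/-- Part 1: typical concentration. -/
theorem typG17 (hρ : EM ρ) (hnc : ∀ c : ℝ, ρ {c} ≠ 1) (hβ : 0 < β) : TypF ρ β :=
  typF72 (L56.lowG56 (sibG39 hρ hnc hβ) (loaG31 β)) (tyaG90 β (chnG24 β)) (offF44 β)

/-- Part 1: theorem NS for families of finite path spaces. -/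
theorem nsF17 (hρ : EM ρ) (hnc : ∀ c : ℝ, ρ {c} ≠ 1) (hβ : 0 < β) : NsF ρ β :=
  nsF63 (typG17 hρ hnc hβ) (varG64 (sibG39 hρ hnc hβ)) (avgG71 β)

/-- Part 2: theorem NS for finite path spaces with random weights. -/
theorem nsI17 (hρ : EM ρ) (hnc : ∀ c : ℝ, ρ {c} ≠ 1) (hβ : 0 < β) : NsI ρ β :=
  lisG45 (nsF17 hρ hnc hβ)

/-- Part 2: theorem NS for random a priori measures on the paths of sites. -/
theorem nsO17 (hρ : EM ρ) (hnc : ∀ c : ℝ, ρ {c} ≠ 1) (hβ : 0 < β) : NsO ρ β :=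
  likG48 (nsI17 hρ hnc hβ)

/-- Part 2: exact shear invariance. -/
theorem shrG17 : ShrG ρ β := shrG24 (shpG42 β) (mesG24 β)

/-- Part 2: the replicas are separated. -/
theorem sepG17 : SepG ρ β := sep35 (mesG24 β) shrG17 derG62

/-- Part 2: the theorem from the last leaf. -/
theorem glue17 (hρ : EM ρ) (hnc : ∀ c : ℝ, ρ {c} ≠ 1) (hβ : 0 < β)
    (hCel : NsO ρ β → NsW ρ β) : MainG ρ β :=
  main31 (mesG24 β) (hCel (nsO17 hρ hnc hβ)) sepG17

end Pool.Agent.W_7d29a1_GW
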