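import Pool.Agent.W_7d29a1_GW.SibG39
import Pool.Agent.W_7d29a1_GW.LoaG31
import Pool.Agent.W_7d29a1_GW.LowG56
import Pool.Agent.W_7d29a1_GW.Chn24
import Pool.Agent.W_7d29a1_GW.TyaG90
import Pool.Agent.W_7d29a1_GW.AvgG71
import Pool.Agent.W_7d29a1_GW.Off44
import Pool.Agent.W_7d29a1_GW.TypF72
import Pool.Agent.W_7d29a1_GW.VarG64
import Pool.Agent.W_7d29a1_GW.End63
import Pool.Agent.W_7d29a1_GW.LisG45

/-!
Theorem GW: part 1 complete, theorem NS for a finite path space with random a priori weights.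
-/

namespace Pool.Agent.W_7d29a1_GW

open MeasureTheory ProbabilityTheory Filter Topology Pool.Agent.W_MP_7d29a1_pr
  Pool.Agent.W_7d29a1_h46 Pool.Agent.W_7d29a1_h46u Pool.Agent.W_7d29a1_D2.B35
  Pool.Agent.W_7d29a1_Q29 Pool.Agent.W_7d29a1_S90 Pool.Agent.W_7d29a1_NS

theorem nsI31 {ρ : Measure ℝ} [IsProbabilityMeasure ρ] (hρ : EM ρ)
    (hnc : ∀ c : ℝ, ρ {c} ≠ 1) {β : ℝ} (hβ : 0 < β) : NsI ρ β := by
  have hS : SibG 2 ρ β := sibG39 hρ hnc hβ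
  exact lisG45 (nsF63 (typF72 (L56.lowG56 hS (loaG31 β)) (tyaG90 β (chnG24 β)) (offF44 β))
    (varG64 hS) (avgG71 β))

end Pool.Agent.W_7d29a1_GW
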