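import Pool.Agent.W_7d29a1_GW.DefsM31
import Pool.Agent.W_7d29a1_GW.BasW31

/-!
Theorem GW, leaf LIK, part 1 (helper48): the boxes, the projection to a box, the polymer measure as
an integral against the projected a priori measure, pointwise limits.
-/

namespace Pool.Agent.W_7d29a1_GW

open MeasureTheory ProbabilityTheory Filter Topology Pool.Agent.W_MP_7d29a1_pr
  Pool.Agent.W_7d29a1_h46 Pool.Agent.W_7d29a1_h46u Pool.Agent.W_7d29a1_D2.B35
  Pool.Agent.W_7d29a1_Q29 Pool.Agent.W_7d29a1_S90 Pool.Agent.W_7d29a1_NS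

namespace K48

/-- The paths of sites in the box of size `K`. -/
noncomputable def bx (n K : ℕ) : Finset (Fin n → Site 2) :=
  Fintype.piFinset fun _ => Fintype.piFinset fun _ => Finset.Icc (-(K : ℤ)) K

lemma mem_bx {n K : ℕ} {c : Fin n → Site 2} :
    c ∈ bx n K ↔ ∀ i j, -(K : ℤ) ≤ c i j ∧ c i j ≤ K := by
  simp [bx, Fintype.mem_piFinset]

lemma zero_mem (n K : ℕ) : (0 : Fin n → Site 2) ∈ bx n K := by
  rw [mem_bx]
  intro i j
  simp

open Classical in
/-- The projection: the path itself if it stays in the box, the zero path if not. -/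
noncomputable def pj (n K : ℕ) (c : Fin n → Site 2) : ↥(bx n K) :=
  if h : c ∈ bx n K then ⟨c, h⟩ else ⟨0, zero_mem n K⟩

lemma pj_cases {n : ℕ} (K : ℕ) (c : Fin n → Site 2) :
    (pj n K c).1 = c ∨ (pj n K c).1 = 0 := by
  unfold pj
  by_cases h : c ∈ bx n K
  · rw [dif_pos h]
    exact Or.inl rfl
  · rw [dif_neg h]
    exact Or.inr rfl

lemma pj_ev {n : ℕ} (c : Fin n → Site 2) :
    ∀ᶠ K : ℕ in atTop, (pj n K c).1 = c := by
  rw [eventually_atTop]
  refine ⟨∑ i, ∑ j, (c i j).natAbs, fun K hK => ?_⟩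
  have h : c ∈ bx n K := by
    rw [mem_bx]
    intro i j
    have h1 : (c i j).natAbs ≤ ∑ i, ∑ j, (c i j).natAbs :=
      (Finset.single_le_sum (f := fun j => (c i j).natAbs) (fun _ _ => Nat.zero_le _)
        (Finset.mem_univ j)).trans
        (Finset.single_le_sum (f := fun i => ∑ j, (c i j).natAbs) (fun _ _ => Nat.zero_le _)
          (Finset.mem_univ i))
    omega
  unfold pj
  rw [dif_pos h]

lemma meas_pj (n K : ℕ) : Measurable (pj n K) := measurable_of_countable _

/-- The path of the finite system. -/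
noncomputable def pk (n K : ℕ) (s : ↥(bx n K)) (t : ℕ) : Site 2 := cs s.1 t

/-- The weights of the finite system. -/
noncomputable def wk {n : ℕ} (P : Measure (Fin n → Site 2)) (K : ℕ) (s : ↥(bx n K)) : ℝ :=
  (P.map (pj n K)).real {s}

/-- The exponent. -/
noncomputable def en {n : ℕ} (β : ℝ) (η : Env 2) (c : Fin n → Site 2) : ℝ :=
  β * ∑ i : Fin n, η ((i : ℕ) + 1, c i)

lemma gw_eq {n : ℕ} (β : ℝ) (K : ℕ) (w : ↥(bx n K) → ℝ) (η : Env 2) (s : ↥(bx n K)) :
    gw β (pk n K) n w η s = w s * Real.exp (en β η s.1) := by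
  have h : ∀ i : Fin n, cs s.1 ((i : ℕ) + 1) = s.1 i := by
    intro i
    have hi := i.2
    unfold cs
    rw [dif_pos ⟨by omega, by omega⟩]
    congr 1
  unfold gw en pk
  rw [Finset.sum_range]
  simp only [h]

lemma int_pj {n : ℕ} (P : Measure (Fin n → Site 2)) [IsProbabilityMeasure P] (K : ℕ)
    (F : ↥(bx n K) → ℝ) : ∫ c, F (pj n K c) ∂P = ∑ s, wk P K s * F s := by
  have hp : IsProbabilityMeasure (P.map (pj n K)) :=
    Measure.isProbabilityMeasure_map (meas_pj n K).aemeasurable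
  rw [← integral_map (meas_pj n K).aemeasurable (measurable_of_countable F).aestronglyMeasurable,
    integral_fintype (Integrable.of_finite)]
  rfl

lemma gp_eq {n : ℕ} (P : Measure (Fin n → Site 2)) [IsProbabilityMeasure P] (β : ℝ) (K : ℕ)
    (η : Env 2) (F : ↥(bx n K) → ℝ) : gp β (pk n K) n (wk P K) η F =
      (∫ c, Real.exp (en β η (pj n K c).1) * F (pj n K c) ∂P) /
        ∫ c, Real.exp (en β η (pj n K c).1) ∂P := by
  unfold gp
  rw [int_pj P K fun s => Real.exp (en β η s.1) * F s, int_pj P K fun s => Real.exp (en β η s.1)]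
  simp only [gw_eq, mul_assoc]

lemma wk_nonneg {n : ℕ} (P : Measure (Fin n → Site 2)) (K : ℕ) (s : ↥(bx n K)) : 0 ≤ wk P K s :=
  measureReal_nonneg

lemma wk_sum {n : ℕ} (P : Measure (Fin n → Site 2)) [IsProbabilityMeasure P] (K : ℕ) :
    ∑ s, wk P K s = 1 := by
  have h := int_pj P K fun _ => (1 : ℝ)
  simpa using h.symm

lemma wk_meas {n : ℕ} {V : Type} [MeasurableSpace V] {P : V → Measure (Fin n → Site 2)}
    (hP : ∀ c, Measurable fun u => P u {c}) (K : ℕ) (s : ↥(bx n K)) :
    Measurable fun u => wk (P u) K s := by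
  have h1 : ∀ u, (P u).map (pj n K) {s} =
      ∑' c, (pj n K ⁻¹' {s}).indicator (fun c => P u {c}) c := by
    intro u
    rw [Measure.map_apply (meas_pj n K) (measurableSet_singleton s)]
    exact (Measure.tsum_indicator_apply_singleton (P u) _
      (meas_pj n K (measurableSet_singleton s))).symm
  have h2 : Measurable fun u => (P u).map (pj n K) {s} := by
    simp only [h1]
    refine Measurable.tsum fun c => ?_
    by_cases hc : c ∈ pj n K ⁻¹' {s}
    · simp only [Set.indicator_of_mem hc]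
      exact hP c
    · simp only [Set.indicator_of_notMem hc]
      exact measurable_const
  exact h2.ennreal_toReal

lemma wk_Wp {n : ℕ} (P : Measure (Fin n → Site 2)) [IsProbabilityMeasure P] (K : ℕ) :
    (∀ s, 0 ≤ wk P K s) ∧ 0 < ∑ s, wk P K s :=
  ⟨fun s => wk_nonneg P K s, by rw [wk_sum]; exact one_pos⟩

lemma cs_zero {n : ℕ} (c : Fin n → Site 2) : cs c 0 = 0 := by
  unfold cs
  rw [dif_neg (by omega)]

/-- Bounds of the exponent. -/
lemma en_bd {n : ℕ} (β : ℝ) {b : ℝ} {η : Env 2} (hη : ∀ p, |η p| ≤ b) (c : Fin n → Site 2) :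
    |en β η c| ≤ |β| * (n * b) := by
  unfold en
  rw [abs_mul]
  refine mul_le_mul_of_nonneg_left ?_ (abs_nonneg _)
  refine (Finset.abs_sum_le_sum_abs _ _).trans ?_
  refine (Finset.sum_le_sum fun i _ => hη _).trans ?_
  simp

/-- The normalisation. -/
noncomputable def zk {n : ℕ} (P : Measure (Fin n → Site 2)) (β : ℝ) (K : ℕ) (η : Env 2) : ℝ :=
  ∫ c, Real.exp (en β η (pj n K c).1) ∂P

section Point

variable {n : ℕ} (P : Measure (Fin n → Site 2)) [IsProbabilityMeasure P] (β : ℝ) {b : ℝ}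
  {η : Env 2}

lemma exp_le (hη : ∀ p, |η p| ≤ b) (c : Fin n → Site 2) :
    Real.exp (en β η c) ≤ Real.exp (|β| * (n * b)) :=
  Real.exp_le_exp.2 ((le_abs_self _).trans (en_bd β hη c))

lemma exp_ge (hη : ∀ p, |η p| ≤ b) (c : Fin n → Site 2) :
    Real.exp (-(|β| * (n * b))) ≤ Real.exp (en β η c) :=
  Real.exp_le_exp.2 (neg_le_of_abs_le (en_bd β hη c))

lemma meas_any {Y : Type*} [MeasurableSpace Y] (f : (Fin n → Site 2) → Y) : Measurable f :=
  measurable_of_countable _

lemma int_exp48 (hη : ∀ p, |η p| ≤ b) (g : (Fin n → Site 2) → (Fin n → Site 2)) :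
    Integrable (fun c => Real.exp (en β η (g c))) P :=
  (integrable_const (Real.exp (|β| * (n * b)))).mono' (meas_any _).aestronglyMeasurable
    (Eventually.of_forall fun c => by
      rw [Real.norm_eq_abs, abs_of_pos (Real.exp_pos _)]
      exact exp_le β hη _)

lemma zk_ge (hη : ∀ p, |η p| ≤ b) (K : ℕ) : Real.exp (-(|β| * (n * b))) ≤ zk P β K η := by
  have h1 := integral_mono (integrable_const (Real.exp (-(|β| * (n * b)))))
    (int_exp48 P β hη fun c => (pj n K c).1) fun c => exp_ge β hη _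
  simpa [zk] using h1

lemma zk_pos (hη : ∀ p, |η p| ≤ b) (K : ℕ) : 0 < zk P β K η :=
  lt_of_lt_of_le (Real.exp_pos _) (zk_ge P β hη K)

lemma z_pos (hη : ∀ p, |η p| ≤ b) : 0 < ∫ c, Real.exp (en β η c) ∂P := by
  have h1 := integral_mono (integrable_const (Real.exp (-(|β| * (n * b)))))
    (int_exp48 P β hη fun c => c) fun c => exp_ge β hη _
  have h2 : Real.exp (-(|β| * (n * b))) ≤ ∫ c, Real.exp (en β η c) ∂P := by simpa using h1
  exact lt_of_lt_of_le (Real.exp_pos _) h2

lemma zk_tend (hη : ∀ p, |η p| ≤ b) :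
    Tendsto (fun K => zk P β K η) atTop (𝓝 (∫ c, Real.exp (en β η c) ∂P)) := by
  refine tendsto_integral_of_dominated_convergence (fun _ => Real.exp (|β| * (n * b)))
    (fun K => (measurable_of_countable _).aestronglyMeasurable) (integrable_const _)
    (fun K => Eventually.of_forall fun c => ?_) (Eventually.of_forall fun c => ?_)
  · rw [Real.norm_eq_abs, abs_of_pos (Real.exp_pos _)]
    exact exp_le β hη _
  · refine tendsto_const_nhds.congr' ?_
    filter_upwards [pj_ev c] with K hK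
    rw [hK]

/-- The mean under the polymer measure as a ratio. -/
lemma oP_eq (g : (Fin n → Site 2) → ℝ) : ∫ c, g c ∂(oP β η P) =
    (∫ c, Real.exp (en β η c) * g c ∂P) / ∫ c, Real.exp (en β η c) ∂P := by
  unfold oP
  rw [integral_tilted]
  simp only [smul_eq_mul]
  rw [← integral_div]
  refine integral_congr_ae (Eventually.of_forall fun c => ?_)
  show Real.exp (en β η c) / (∫ c, Real.exp (en β η c) ∂P) * g c =
    Real.exp (en β η c) * g c / ∫ c, Real.exp (en β η c) ∂P
  ring

/-- The limit of the numerators. -/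
lemma num_tend (hη : ∀ p, |η p| ≤ b) {F : (K : ℕ) → (Fin n → Site 2) → ℝ}
    {g G : (Fin n → Site 2) → ℝ} (hG : Integrable G P) (hF : ∀ K c, |F K c| ≤ G c)
    (hlim : ∀ c, Tendsto (fun K => F K c) atTop (𝓝 (g c))) :
    Tendsto (fun K => ∫ c, Real.exp (en β η (pj n K c).1) * F K c ∂P) atTop
      (𝓝 (∫ c, Real.exp (en β η c) * g c ∂P)) := by
  refine tendsto_integral_of_dominated_convergence
    (fun c => Real.exp (|β| * (n * b)) * G c) (fun K => (measurable_of_countable _).aestronglyMeasurable)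
    (hG.const_mul _) (fun K => Eventually.of_forall fun c => ?_)
    (Eventually.of_forall fun c => ?_)
  · rw [Real.norm_eq_abs, abs_mul, abs_of_pos (Real.exp_pos _)]
    exact mul_le_mul (exp_le β hη _) (hF K c) (abs_nonneg _) (Real.exp_pos _).le
  · refine Tendsto.mul ?_ (hlim c)
    refine tendsto_const_nhds.congr' ?_
    filter_upwards [pj_ev c] with K hK
    rw [hK]

/-- One replica. -/
lemma one_tend (hη : ∀ p, |η p| ≤ b) {g G : (Fin n → Site 2) → ℝ} (hG : Integrable G P)
    (hF : ∀ K c, |g (pj n K c).1| ≤ G c) :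
    Tendsto (fun K => gp β (pk n K) n (wk P K) η fun s => g s.1) atTop
      (𝓝 (∫ c, g c ∂(oP β η P))) := by
  have h1 : ∀ K, gp β (pk n K) n (wk P K) η (fun s => g s.1) =
      (∫ c, Real.exp (en β η (pj n K c).1) * g (pj n K c).1 ∂P) / zk P β K η := fun K =>
    gp_eq P β K η fun s => g s.1
  simp only [h1]
  rw [oP_eq]
  refine Tendsto.div (num_tend P β hη hG hF fun c => ?_) (zk_tend P β hη) (z_pos P β hη).ne'
  refine tendsto_const_nhds.congr' ?_
  filter_upwards [pj_ev c] with K hK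
  rw [hK]

/-- A bound of the mean of a nonnegative function. -/
lemma one_bd (hη : ∀ p, |η p| ≤ b) {g G : (Fin n → Site 2) → ℝ} (hG : Integrable G P)
    {K : ℕ} (h0 : ∀ c, 0 ≤ g c) (hF : ∀ c, g (pj n K c).1 ≤ G c) :
    |gp β (pk n K) n (wk P K) η (fun s => g s.1)| ≤
      Real.exp (|β| * (n * b)) * Real.exp (|β| * (n * b)) * ∫ c, G c ∂P := by
  have h1 : gp β (pk n K) n (wk P K) η (fun s => g s.1) =
      (∫ c, Real.exp (en β η (pj n K c).1) * g (pj n K c).1 ∂P) / zk P β K η :=
    gp_eq P β K η fun s => g s.1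
  have hz := zk_pos P β hη K
  have h2 : 0 ≤ ∫ c, Real.exp (en β η (pj n K c).1) * g (pj n K c).1 ∂P :=
    integral_nonneg fun c => mul_nonneg (Real.exp_pos _).le (h0 _)
  rw [h1, abs_of_nonneg (div_nonneg h2 hz.le), div_le_iff₀ hz]
  have h3 : ∫ c, Real.exp (en β η (pj n K c).1) * g (pj n K c).1 ∂P ≤
      Real.exp (|β| * (n * b)) * ∫ c, G c ∂P := by
    rw [← integral_const_mul]
    exact integral_mono_of_nonneg (Eventually.of_forall fun c =>
      mul_nonneg (Real.exp_pos _).le (h0 _)) (hG.const_mul _) (Eventually.of_forall fun c =>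
        mul_le_mul (exp_le β hη _) (hF c) (h0 _) (Real.exp_pos _).le)
  have h4 : 1 ≤ Real.exp (|β| * (n * b)) * zk P β K η := by
    have h5 := mul_le_mul_of_nonneg_left (zk_ge P β hη K) (Real.exp_pos (|β| * (n * b))).le
    rwa [← Real.exp_add, add_neg_cancel, Real.exp_zero] at h5
  have hI : 0 ≤ ∫ c, G c ∂P := integral_nonneg fun c => (h0 _).trans (hF c)
  calc ∫ c, Real.exp (en β η (pj n K c).1) * g (pj n K c).1 ∂P
      ≤ Real.exp (|β| * (n * b)) * ∫ c, G c ∂P := h3
    _ = 1 * (Real.exp (|β| * (n * b)) * ∫ c, G c ∂P) := (one_mul _).symm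
    _ ≤ Real.exp (|β| * (n * b)) * zk P β K η * (Real.exp (|β| * (n * b)) * ∫ c, G c ∂P) :=
        mul_le_mul_of_nonneg_right h4 (mul_nonneg (Real.exp_pos _).le hI)
    _ = Real.exp (|β| * (n * b)) * Real.exp (|β| * (n * b)) * (∫ c, G c ∂P) * zk P β K η := by
        ring

/-- Two replicas. -/
lemma two_tend (hη : ∀ p, |η p| ≤ b) {k : (Fin n → Site 2) → (Fin n → Site 2) → ℝ}
    (hk : ∀ c c', |k c c'| ≤ 1) :
    Tendsto (fun K => gp2 β (pk n K) n (wk P K) η fun s s' => k s.1 s'.1) atTop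
      (𝓝 (∫ c, ∫ c', k c c' ∂(oP β η P) ∂(oP β η P))) := by
  have h1 : ∀ K, gp2 β (pk n K) n (wk P K) η (fun s s' => k s.1 s'.1) =
      (∫ c, Real.exp (en β η (pj n K c).1) *
        ((∫ c', Real.exp (en β η (pj n K c').1) * k (pj n K c).1 (pj n K c').1 ∂P) / zk P β K η) ∂P) /
          zk P β K η := by
    intro K
    unfold gp2
    have e1 : ∀ s : ↥(bx n K), gp β (pk n K) n (wk P K) η (fun s' => k s.1 s'.1) =
        (∫ c', Real.exp (en β η (pj n K c').1) * k s.1 (pj n K c').1 ∂P) / zk P β K η := fun s =>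
      gp_eq P β K η fun s' => k s.1 s'.1
    simp only [e1]
    exact gp_eq P β K η fun s =>
      (∫ c', Real.exp (en β η (pj n K c').1) * k s.1 (pj n K c').1 ∂P) / zk P β K η
  simp only [h1]
  rw [oP_eq]
  set M := Real.exp (|β| * (n * b)) with hM
  have hM0 : 0 < M := Real.exp_pos _
  have hin : ∀ K c, |(∫ c', Real.exp (en β η (pj n K c').1) * k (pj n K c).1 (pj n K c').1 ∂P) /
      zk P β K η| ≤ 1 := by
    intro K c
    have hz := zk_pos P β hη K
    rw [abs_div, abs_of_pos hz, div_le_one hz]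
    refine (abs_integral_le_integral_abs).trans ?_
    refine integral_mono_of_nonneg (Eventually.of_forall fun c' => abs_nonneg _)
      (int_exp48 P β hη fun c => (pj n K c).1) (Eventually.of_forall fun c' => ?_)
    show |Real.exp (en β η (pj n K c').1) * k (pj n K c).1 (pj n K c').1| ≤
      Real.exp (en β η (pj n K c').1)
    rw [abs_mul, abs_of_pos (Real.exp_pos _)]
    exact mul_le_of_le_one_right (Real.exp_pos _).le (hk _ _)
  refine Tendsto.div (num_tend P β hη (integrable_const (1 : ℝ)) hin fun c => ?_)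
    (zk_tend P β hη) (z_pos P β hη).ne'
  rw [oP_eq]
  refine Tendsto.div (num_tend P β hη (integrable_const (1 : ℝ)) (fun K c' => hk _ _)
    fun c' => ?_) (zk_tend P β hη) (z_pos P β hη).ne'
  refine tendsto_const_nhds.congr' ?_
  filter_upwards [pj_ev c, pj_ev c'] with K hK hK'
  rw [hK, hK']

end Point

end K48

end Pool.Agent.W_7d29a1_GW
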