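import Pool.Agent.W_MP_7d29a1_pr.Model
import Pool.Agent.W_7d29a1_h46.Model

/-!
# The directed polymer of the Gaussian random walk

The walk has independent standard Gaussian steps in `ℝ ^ d`, `s i` is the step number `i + 1`. The
row `t` of the environment consists of the cells `x + [0,1)^d - u (t, ·)`, `x ∈ ℤ ^ d`, where the
offsets `u (t, j)` are independent and uniform in `[0,1)`; the walk collects `ω (t, x)` if it is in
the cell of `x` at the time `t`, that is if `x = ⌊S_t + u (t, ·)⌋`.
-/

namespace Pool.Agent.W_7d29a1_GW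

open MeasureTheory ProbabilityTheory Pool.Agent.W_MP_7d29a1_pr Pool.Agent.W_7d29a1_h46

/-- The position `S_t`, the sum of the first `t` steps. -/
noncomputable def gaussPos {d n : ℕ} (s : Fin n → Fin d → ℝ) (t : ℕ) : Vec d :=
  WithLp.toLp 2 fun j => ∑ i : Fin n, if (i : ℕ) < t then s i j else 0

/-- The polymer measure of the Gaussian walk of length `n` in the environment `η` with the offsets
`u`: the law of `n` independent standard Gaussian steps, tilted by
`exp (β ∑_{t=1}^n η (t, ⌊S_t + u (t, ·)⌋))`. -/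
noncomputable def gaussPol {d : ℕ} (β : ℝ) (n : ℕ) (u : ℕ × Fin d → ℝ) (η : ℕ × Site d → ℝ) :
    Measure (Fin n → Fin d → ℝ) :=
  (Measure.pi fun _ => Measure.pi fun _ => gaussianReal 0 1).tilted fun s =>
    β * ∑ i : Fin n, η ((i : ℕ) + 1, fun j => ⌊gaussPos s (i + 1) j + u ((i : ℕ) + 1, j)⌋)

/-- The uniform law on `[0,1)`. -/
noncomputable def uniform01 : Measure ℝ := volume.restrict (Set.Ico (0 : ℝ) 1)

instance : IsProbabilityMeasure uniform01 := ⟨by simp [uniform01]⟩

/-- The mean of `E_n f` over the offsets (independent, uniform in `[0,1)`) and over the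
environment, where `E_n` is the expectation under the polymer measure. -/
noncomputable def gaussMean {Ω : Type*} [MeasurableSpace Ω] (μ : Measure Ω) {d : ℕ}
    (ω : ℕ × Site d → Ω → ℝ) (β : ℝ) (n : ℕ) (f : (Fin n → Fin d → ℝ) → ℝ) : ℝ :=
  ∫ u, ∫ x, ∫ s, f s ∂(gaussPol β n u fun p => ω p x) ∂μ
    ∂(Measure.infinitePi fun _ : ℕ × Fin d => uniform01)

end Pool.Agent.W_7d29a1_GW
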