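import Pool.Agent.W_7d29a1_GW.Bas63
import Pool.Agent.W_7d29a1_NS.Main63

/-!
Theorem NS for finite a priori path spaces: one row.
-/

namespace Pool.Agent.W_7d29a1_GW

open MeasureTheory ProbabilityTheory Filter Topology Pool.Agent.W_MP_7d29a1_pr
  Pool.Agent.W_7d29a1_h46 Pool.Agent.W_7d29a1_h46u Pool.Agent.W_7d29a1_D2.B35
  Pool.Agent.W_7d29a1_Q29 Pool.Agent.W_7d29a1_Q29.D85 Pool.Agent.W_7d29a1_S90
  Pool.Agent.W_7d29a1_NS

section Av

variable {A S : Type} [Fintype A] {π : A → ℝ} {w : A → S → ℝ}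

lemma av_mono63 (hπ : ∀ a, 0 ≤ π a) {F G : (S → ℝ) → ℝ} (h : ∀ a, F (w a) ≤ G (w a)) :
    av π w F ≤ av π w G :=
  Finset.sum_le_sum fun a _ => mul_le_mul_of_nonneg_left (h a) (hπ a)

lemma av_const63 (hπ : ∑ a, π a = 1) (c : ℝ) : av π w (fun _ => c) = c := by
  unfold av
  rw [← Finset.sum_mul, hπ, one_mul]

lemma av_add63 (F G : (S → ℝ) → ℝ) :
    av π w (fun v => F v + G v) = av π w F + av π w G := by
  unfold av
  rw [← Finset.sum_add_distrib]
  exact Finset.sum_congr rfl fun a _ => mul_add _ _ _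

lemma av_mul63 (c : ℝ) (F : (S → ℝ) → ℝ) : av π w (fun v => c * F v) = c * av π w F := by
  unfold av
  rw [Finset.mul_sum]
  exact Finset.sum_congr rfl fun a _ => by ring

lemma av_sum63 {ι : Type*} (T : Finset ι) (F : ι → (S → ℝ) → ℝ) :
    av π w (fun v => ∑ i ∈ T, F i v) = ∑ i ∈ T, av π w (F i) := by
  unfold av
  rw [Finset.sum_comm]
  exact Finset.sum_congr rfl fun a _ => Finset.mul_sum _ _ _

end Av

variable {S : Type} [Fintype S] {β : ℝ} {ps : S → ℕ → Site 2} {n : ℕ} {w : S → ℝ}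
  {ρ : Measure ℝ} [IsProbabilityMeasure ρ]

open Classical in
/-- Separated replicas with `S_t` at a heavy site, by coordinates. -/
lemma sepG63 (hw : ∀ s, 0 ≤ w s) (hs : 0 < ∑ s, w s) (B : Finset (Site 2)) (t : ℕ)
    (hB : ∀ s, ps s t ∈ B) {l D ε : ℝ} (hD : 0 ≤ D) (hlD : 2 * l ^ 2 ≤ D ^ 2) :
    gRp ρ β ps n w t D - gTy ρ β ps n w t D ε ≤
      ∑ j : Fin 2, ∫ η, gp2 β ps n w η (fun s s' =>
        if l ≤ |(ps s t j : ℝ) - (ps s' t j : ℝ)| then gG ρ β ps n w B ε t (ps s t) η else 0)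
          ∂(law 2 ρ) := by
  have hcm : ∀ y : Site 2, Measurable fun η : Env 2 =>
      cE ρ (Pa 2 (t - 1)) (gQt β ps n w t y) η := fun y => measurable_cE (gQt_meas63 t y) _
  have i1 : Integrable (fun η : Env 2 => gp2 β ps n w η (fun s s' =>
      if D < ‖emb (ps s t) - emb (ps s' t)‖ then (1 : ℝ) else 0)) (law 2 ρ) :=
    int_gp2_63 hw hs (f := fun _ s s' => if D < ‖emb (ps s t) - emb (ps s' t)‖ then (1 : ℝ) else 0)
      (fun _ _ => measurable_const) fun η s s' => by split_ifs <;> norm_num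
  have i2 : Integrable (fun η : Env 2 => gp2 β ps n w η (fun s s' =>
      if D < ‖emb (ps s t) - emb (ps s' t)‖ ∧
        cE ρ (Pa 2 (t - 1)) (gQt β ps n w t (ps s t)) η < ε then (1 : ℝ) else 0)) (law 2 ρ) := by
    refine int_gp2_63 hw hs (fun s s' => ?_) fun η s s' => by split_ifs <;> norm_num
    by_cases h1 : D < ‖emb (ps s t) - emb (ps s' t)‖
    · simp only [h1, true_and]
      exact Measurable.ite (measurableSet_lt (hcm _) measurable_const) measurable_const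
        measurable_const
    · simp only [h1, false_and, if_false]
      exact measurable_const
  have i3 : ∀ j : Fin 2, Integrable (fun η : Env 2 => gp2 β ps n w η (fun s s' =>
      if l ≤ |(ps s t j : ℝ) - (ps s' t j : ℝ)| then gG ρ β ps n w B ε t (ps s t) η else 0))
      (law 2 ρ) := by
    intro j
    refine int_gp2_63 hw hs (fun s s' => ?_) fun η s s' => by
      split_ifs
      · exact gG_bd63 _ _ _ _ _
      · norm_num
    split_ifs
    · exact gG_meas63 _ _ _ _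
    · exact measurable_const
  unfold gRp gTy
  rw [← integral_finsetSum _ fun j _ => i3 j, ← integral_sub i1 i2]
  refine integral_mono (i1.sub i2) (integrable_finsetSum _ fun j _ => i3 j) fun η => ?_
  show gp2 β ps n w η _ - gp2 β ps n w η _ ≤ ∑ j : Fin 2, gp2 β ps n w η _
  rw [sub_le_iff_le_add, Fin.sum_univ_two]
  have e1 : ∀ f g k : S → S → ℝ,
      gp2 β ps n w η f + gp2 β ps n w η g + gp2 β ps n w η k =
        gp2 β ps n w η fun s s' => f s s' + g s s' + k s s' := by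
    intro f g k
    rw [gp2_add63 η (fun s s' => f s s' + g s s') k, gp2_add63 η f g]
  rw [e1]
  refine gp2_mono63 hw hs η fun s s' => ?_
  by_cases h1 : D < ‖emb (ps s t) - emb (ps s' t)‖
  · by_cases h2 : cE ρ (Pa 2 (t - 1)) (gQt β ps n w t (ps s t)) η < ε
    · simp only [h1, h2, and_self, if_true]
      have b0 : ∀ j : Fin 2, 0 ≤ (if l ≤ |(ps s t j : ℝ) - (ps s' t j : ℝ)| then
          gG ρ β ps n w B ε t (ps s t) η else 0) := fun j => by
        split_ifs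
        · exact (gG_bd63 _ _ _ _ _).1
        · exact le_rfl
      linarith [b0 0, b0 1]
    · have hG : gG ρ β ps n w B ε t (ps s t) η = 1 := by
        unfold gG
        rw [if_pos ⟨hB s, not_lt.1 h2⟩]
      simp only [h1, h2, and_false, if_true, if_false, hG, add_zero]
      by_contra hcon
      push Not at hcon
      have h3 : ∀ j : Fin 2, |(ps s t j : ℝ) - (ps s' t j : ℝ)| < l := by
        intro j
        by_contra h4
        push Not at h4
        have b0 : ∀ j : Fin 2, (0 : ℝ) ≤ (if l ≤ |(ps s t j : ℝ) - (ps s' t j : ℝ)| then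
          (1 : ℝ) else 0) := fun j => by
          split_ifs <;> norm_num
        have b1 : (if l ≤ |(ps s t j : ℝ) - (ps s' t j : ℝ)| then (1 : ℝ) else 0) = 1 :=
          if_pos h4
        fin_cases j
        · simp only [Fin.zero_eta] at b1
          linarith [b0 1]
        · simp only [Fin.mk_one] at b1
          linarith [b0 0]
      have h5 : ‖emb (ps s t) - emb (ps s' t)‖ ^ 2 =
          ((ps s t 0 : ℝ) - (ps s' t 0 : ℝ)) ^ 2 + ((ps s t 1 : ℝ) - (ps s' t 1 : ℝ)) ^ 2 := by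
        rw [EuclideanSpace.norm_sq_eq, Fin.sum_univ_two]
        simp only [Real.norm_eq_abs, sq_abs]
        rfl
      have h6 : ∀ j : Fin 2, ((ps s t j : ℝ) - (ps s' t j : ℝ)) ^ 2 ≤ l ^ 2 := fun j =>
        sq_le_sq' (by linarith [(abs_lt.1 (h3 j)).1]) (by linarith [(abs_lt.1 (h3 j)).2])
      have h7 : D ^ 2 < ‖emb (ps s t) - emb (ps s' t)‖ ^ 2 := pow_lt_pow_left₀ h1 hD two_ne_zero
      linarith [h6 0, h6 1]
  · have b0 : ∀ j : Fin 2, 0 ≤ (if l ≤ |(ps s t j : ℝ) - (ps s' t j : ℝ)| then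
          gG ρ β ps n w B ε t (ps s t) η else 0) := fun j => by
      split_ifs
      · exact (gG_bd63 _ _ _ _ _).1
      · exact le_rfl
    simp only [h1, false_and, if_false]
    linarith [b0 0, b0 1]

open Classical in
/-- One row, one path space. -/
lemma rowG63 {κ R c0 s0 : ℝ} (hA : AvgG ρ β) (hκ0 : 0 < κ) (hR : 0 < R) (hc0 : 0 < c0)
    (hs0 : 0 < s0) (hw : ∀ s, 0 ≤ w s) (hs : 0 < ∑ s, w s) (hps : ∀ s, ps s 0 = 0)
    (t τ : ℕ) (htn : t ≤ n) (hτt : τ ≤ t) (ht0 : 0 < t) (B : Finset (Site 2))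
    (hB : ∀ s, ps s τ ∈ B) (D ε : ℝ) (hD : 16 ≤ D) (m M : Vec 2) :
    c0 * ((D / 8 - 1) * (gRp ρ β ps n w t D + -1 * gTy ρ β ps n w τ (D / 2) ε +
        -(160 / D ^ 2) *
          (∫ η, gp β ps n w η (fun s => gi ps τ t m s ^ 2) ∂(law 2 ρ)) +
        -(κ / (32 * (R * t))) *
          (∫ η, gp β ps n w η (fun s => gi ps 0 t M s ^ 2) ∂(law 2 ρ)))) +
      -4 * ((2 * s0)⁻¹ * (∫ η, gp β ps n w η (fun s => gi ps τ t m s ^ 2) ∂(law 2 ρ)) +
        (s0 / 2 + 1)) ≤
    ∑ j : Fin 2, ∑ u ∈ Finset.Icc ⌊M j - (D / 8 + 8 * Real.sqrt (R * t / κ))⌋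
        ⌈M j + (D / 8 + 8 * Real.sqrt (R * t / κ))⌉,
      (c0 * (∫ η, gp2 β ps n w η (fun s s' =>
        if ¬ ((u : ℝ) ≤ (ps s τ j : ℝ) + m j ↔ u ≤ ps s' t j)
          then gG ρ β ps n w B ε τ (ps s τ) η else 0) ∂(law 2 ρ)) -
      2 * ∫ η, gp β ps n w η (fun s =>
        if ¬ ((u : ℝ) ≤ (ps s τ j : ℝ) + m j ↔ u ≤ ps s t j) then (1 : ℝ) else 0)
          ∂(law 2 ρ)) := by
  have hD0 : 0 < D := by linarith
  have ht0' : (0 : ℝ) < t := by exact_mod_cast ht0
  set K' : ℝ := 8 * Real.sqrt (R * t / κ) with hK'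
  have hK'0 : 0 < K' := by positivity
  set lam : ℝ := D / 8 with hlam
  set X : ℝ := ∫ η, gp β ps n w η (fun s => gi ps τ t m s ^ 2) ∂(law 2 ρ) with hX
  set Y : ℝ := ∫ η, gp β ps n w η (fun s => gi ps 0 t M s ^ 2) ∂(law 2 ρ) with hY
  -- the windows
  have w1 : gTl ρ β ps n w τ t m lam ≤ 64 / D ^ 2 * X := by
    refine (tlqG63 hw hs τ t m (by positivity)).trans (le_of_eq ?_)
    rw [hlam, ← hX]
    field_simp
    norm_num
  have w2 : gTl ρ β ps n w τ t m (D / 4) ≤ 16 / D ^ 2 * X := by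
    refine (tlqG63 hw hs τ t m (by positivity)).trans (le_of_eq ?_)
    rw [← hX]
    field_simp
    norm_num
  have w3 := incqG63 (ρ := ρ) (β := β) (ps := ps) (n := n) hw hs τ t m hs0
  have w4 : ∫ η, gp β ps n w η (fun s =>
      if (lam + K') - lam < ‖emb (ps s t) - M‖ then (1 : ℝ) else 0) ∂(law 2 ρ) ≤
      κ / (64 * (R * t)) * Y := by
    have e1 := tlqG63 (ρ := ρ) (β := β) (ps := ps) (n := n) hw hs 0 t M hK'0
    have e2 : Y / K' ^ 2 = κ / (64 * (R * t)) * Y := by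
      rw [hK', mul_pow, Real.sq_sqrt (by positivity)]
      field_simp
      norm_num
    rw [e2] at e1
    refine le_trans (le_of_eq ?_) e1
    unfold gTl
    refine integral_congr_ae (Eventually.of_forall fun η => ?_)
    show gp β ps n w η _ = gp β ps n w η _
    congr 1
    funext s
    have e3 : gi ps 0 t M s = ‖emb (ps s t) - M‖ := by
      unfold gi
      rw [hps, emb_zero73, sub_zero]
    rw [e3, add_sub_cancel_left]
  -- the separation
  have s1 := rpqG63 (ρ := ρ) (β := β) (ps := ps) (n := n) hw hs τ t m D (D / 4)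
  have e5 : D - 2 * (D / 4) = D / 2 := by ring
  rw [e5] at s1
  have s2 := sepG63 (ρ := ρ) (β := β) (ps := ps) (n := n) hw hs B τ hB (l := 2 * lam)
    (D := D / 2) (ε := ε) (by positivity) (by rw [hlam]; nlinarith [sq_nonneg D])
  rw [Fin.sum_univ_two] at s2
  -- the counts
  have hl1 : 1 ≤ lam := by rw [hlam]; linarith
  have a0 := fun j : Fin 2 => hA S ps n w hw hs τ t j m M (lam + K') lam
    (fun y => gG ρ β ps n w B ε τ y) hτt htn
    hl1 (by linarith) (fun y => gG_meas63 B ε τ y) (fun y η => gG_bd63 B ε τ y η)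
  have k1 : ∀ j : Fin 2, ∑ u ∈ Finset.Icc ⌊M j - (lam + K')⌋ ⌈M j + (lam + K')⌉,
      (c0 * (∫ η, gp2 β ps n w η (fun s s' =>
        if ¬ ((u : ℝ) ≤ (ps s τ j : ℝ) + m j ↔ u ≤ ps s' t j)
          then gG ρ β ps n w B ε τ (ps s τ) η else 0) ∂(law 2 ρ)) -
      2 * ∫ η, gp β ps n w η (fun s =>
        if ¬ ((u : ℝ) ≤ (ps s τ j : ℝ) + m j ↔ u ≤ ps s t j) then (1 : ℝ) else 0)
          ∂(law 2 ρ)) ≥
      c0 * ((lam - 1) * ((∫ η, gp2 β ps n w η (fun s s' =>
        if 2 * lam ≤ |(ps s τ j : ℝ) - (ps s' τ j : ℝ)| then gG ρ β ps n w B ε τ (ps s τ) η else 0)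
          ∂(law 2 ρ)) - gTl ρ β ps n w τ t m lam -
      ∫ η, gp β ps n w η (fun s =>
        if (lam + K') - lam < ‖emb (ps s t) - M‖ then (1 : ℝ) else 0) ∂(law 2 ρ))) -
      2 * ((∫ η, gp β ps n w η (fun s => gi ps τ t m s) ∂(law 2 ρ)) + 1) := by
    intro j
    rw [Finset.sum_sub_distrib, ← Finset.mul_sum, ← Finset.mul_sum]
    have b1 := mul_le_mul_of_nonneg_left (a0 j).1 hc0.le
    have b2 := (a0 j).2
    linarith
  rw [Fin.sum_univ_two]
  refine le_trans ?_ (add_le_add (k1 0) (k1 1))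
  -- the numbers
  set A0 : ℝ := ∫ η, gp2 β ps n w η (fun s s' =>
    if 2 * lam ≤ |(ps s τ 0 : ℝ) - (ps s' τ 0 : ℝ)| then gG ρ β ps n w B ε τ (ps s τ) η else 0)
      ∂(law 2 ρ) with hA0
  set A1 : ℝ := ∫ η, gp2 β ps n w η (fun s s' =>
    if 2 * lam ≤ |(ps s τ 1 : ℝ) - (ps s' τ 1 : ℝ)| then gG ρ β ps n w B ε τ (ps s τ) η else 0)
      ∂(law 2 ρ) with hA1
  set F : ℝ := ∫ η, gp β ps n w η (fun s =>
      if (lam + K') - lam < ‖emb (ps s t) - M‖ then (1 : ℝ) else 0) ∂(law 2 ρ) with hF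
  set I : ℝ := ∫ η, gp β ps n w η (fun s => gi ps τ t m s) ∂(law 2 ρ) with hI
  set TL : ℝ := gTl ρ β ps n w τ t m lam with hTL
  have n0 : 160 / D ^ 2 * X = 2 * (16 / D ^ 2 * X) + 2 * (64 / D ^ 2 * X) := by ring
  have n0' : κ / (32 * (R * t)) * Y = 2 * (κ / (64 * (R * t)) * Y) := by
    field_simp
    ring
  have n1 : gRp ρ β ps n w t D + -1 * gTy ρ β ps n w τ (D / 2) ε + -(160 / D ^ 2) * X +
      -(κ / (32 * (R * t))) * Y ≤ A0 + A1 - 2 * TL - 2 * F := by
    have n2 : -(160 / D ^ 2) * X = -(160 / D ^ 2 * X) := by ring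
    have n3 : -(κ / (32 * (R * t))) * Y = -(κ / (32 * (R * t)) * Y) := by ring
    rw [n2, n3, n0, n0']
    linarith
  have n3 := mul_le_mul_of_nonneg_left n1 (by linarith : (0 : ℝ) ≤ lam - 1)
  have n4 := mul_le_mul_of_nonneg_left n3 hc0.le
  have n5 : c0 * ((lam - 1) * (A0 + A1 - 2 * TL - 2 * F)) =
      c0 * ((lam - 1) * (A0 - TL - F)) + c0 * ((lam - 1) * (A1 - TL - F)) := by ring
  linarith

end Pool.Agent.W_7d29a1_GW
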