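import Pool.Agent.W_7d29a1_GW.DefsM31

/-!
Theorem GW, leaf SEP, first part: the polymer measure in a bounded environment, the joint law of two
replicas (helper35).
-/

set_option autoImplicit false

namespace Pool.Agent.W_7d29a1_GW

open MeasureTheory ProbabilityTheory Filter Topology Pool.Agent.W_MP_7d29a1_pr
  Pool.Agent.W_7d29a1_h46 Pool.Agent.W_7d29a1_h46u

namespace Sep35

/-- The first coordinate of the end point. -/
noncomputable def X (n : ℕ) (s : Fin n → Fin 2 → ℝ) : ℝ := sp s n 0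

lemma sp_meas {n : ℕ} (t : ℕ) (j : Fin 2) :
    Measurable fun s : Fin n → Fin 2 → ℝ => sp s t j := by
  unfold sp
  simp only
  refine Finset.measurable_fun_sum _ fun i _ => ?_
  by_cases h : (i : ℕ) < t
  · simp only [h, if_true]
    exact (measurable_pi_apply j).comp (measurable_pi_apply i)
  · simp only [h, if_false]
    exact measurable_const

lemma sp_measV {n : ℕ} (t : ℕ) : Measurable fun s : Fin n → Fin 2 → ℝ => sp s t := by
  have h : Measurable fun s : Fin n → Fin 2 → ℝ => WithLp.toLp 2 fun j => sp s t j :=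
    (PiLp.continuous_toLp 2 _).measurable.comp (measurable_pi_lambda _ fun j => sp_meas t j)
  exact h

lemma X_meas (n : ℕ) : Measurable (X n) := sp_meas n 0

lemma cel_meas {n : ℕ} (u : ℕ × Fin 2 → ℝ) (t : ℕ) :
    Measurable fun s : Fin n → Fin 2 → ℝ => cel u s t := by
  unfold cel
  exact measurable_pi_lambda _ fun j => Int.measurable_floor.comp ((sp_meas t j).add_const _)

lemma gE_meas {n : ℕ} (u : ℕ × Fin 2 → ℝ) (η : Env 2) :
    Measurable fun s : Fin n → Fin 2 → ℝ => gE u η s := by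
  unfold gE
  refine Finset.measurable_fun_sum _ fun i _ => ?_
  have h1 : Measurable fun x : Site 2 => η ((i : ℕ) + 1, x) := Measurable.of_discrete
  exact h1.comp (cel_meas u _)

lemma gE_abs {n : ℕ} {b : ℝ} {η : Env 2} (hη : ∀ p, |η p| ≤ b) (u : ℕ × Fin 2 → ℝ)
    (s : Fin n → Fin 2 → ℝ) : |gE u η s| ≤ n * b := by
  unfold gE
  refine (Finset.abs_sum_le_sum_abs _ _).trans ?_
  calc ∑ i : Fin n, |η ((i : ℕ) + 1, cel u s (i + 1))| ≤ ∑ _i : Fin n, b :=
        Finset.sum_le_sum fun i _ => hη _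
    _ = n * b := by simp

/-- Exponential moments of the end point. -/
lemma exp_int (n : ℕ) (v : ℝ) : Integrable (fun s => Real.exp (v * X n s)) (gam n) := by
  have h1 : Integrable (fun t : Fin 2 → ℝ => Real.exp (v * t 0))
      (Measure.pi fun _ => gaussianReal 0 1) := by
    have := (measurePreserving_eval (fun _ : Fin 2 => gaussianReal 0 1) 0).integrable_comp_of_integrable
      (integrable_exp_mul_gaussianReal (μ := 0) (v := 1) v)
    exact this
  have h2 := Integrable.fintype_prod (μ := fun _ : Fin n => Measure.pi fun _ : Fin 2 =>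
    gaussianReal 0 1) (f := fun _ t => Real.exp (v * t 0)) fun _ => h1
  refine h2.congr (Eventually.of_forall fun s => ?_)
  simp only [X, sp]
  rw [← Real.exp_sum, ← Finset.mul_sum]
  congr 2
  refine Finset.sum_congr rfl fun i _ => ?_
  rw [if_pos i.2]

section Fixed

variable {n : ℕ} {β b : ℝ} {η : Env 2} (u : ℕ × Fin 2 → ℝ)

lemma w_int (hη : ∀ p, |η p| ≤ b) (v : ℝ) :
    Integrable (fun s => Real.exp (β * gE u η s + v * X n s)) (gam n) := by
  have hb : 0 ≤ b := (abs_nonneg _).trans (hη (0, 0))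
  refine ((exp_int n v).const_mul (Real.exp (|β| * (n * b)))).mono'
    (((gE_meas u η).const_mul β).add ((X_meas n).const_mul v)).exp.aestronglyMeasurable
    (Eventually.of_forall fun s => ?_)
  rw [Real.norm_of_nonneg (Real.exp_pos _).le, Real.exp_add]
  refine mul_le_mul_of_nonneg_right (Real.exp_le_exp.2 ?_) (Real.exp_pos _).le
  calc β * gE u η s ≤ |β * gE u η s| := le_abs_self _
    _ = |β| * |gE u η s| := abs_mul _ _
    _ ≤ |β| * (n * b) := mul_le_mul_of_nonneg_left (gE_abs hη u s) (abs_nonneg _)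

lemma prob (hη : ∀ p, |η p| ≤ b) (v : ℝ) : IsProbabilityMeasure (Qg β n v u η) :=
  isProbabilityMeasure_tilted (w_int u hη v)

lemma tilt (hη : ∀ p, |η p| ≤ b) (v : ℝ) :
    Qg β n v u η = (Qg β n 0 u η).tilted fun s => v * X n s := by
  have h := tilted_tilted (μ := gam n) (f := fun s => β * gE u η s + 0 * sp s n 0)
    (w_int u hη 0) (fun s => v * X n s)
  unfold Qg
  rw [h]
  congr 1
  funext s
  simp only [Pi.add_apply, X]
  ring

lemma exp_intQ (hη : ∀ p, |η p| ≤ b) (v : ℝ) :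
    Integrable (fun s => Real.exp (v * X n s)) (Qg β n 0 u η) := by
  have h := (integrable_tilted_iff (μ := gam n) (f := fun s => β * gE u η s + 0 * sp s n 0)
    (w_int u hη 0) (fun s => Real.exp (v * X n s)))
  unfold Qg
  rw [h]
  refine (w_int (β := β) u hη v).congr (Eventually.of_forall fun s => ?_)
  simp only [smul_eq_mul]
  rw [← Real.exp_add]
  congr 1
  simp only [X]
  ring

/-- The density is bounded. -/
lemma lint_le (hη : ∀ p, |η p| ≤ b) (F : (Fin n → Fin 2 → ℝ) → ENNReal) :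
    ∫⁻ s, F s ∂(Qg β n 0 u η) ≤
      ENNReal.ofReal (Real.exp (|β| * (n * b)) / Real.exp (-(|β| * (n * b)))) *
        ∫⁻ s, F s ∂(gam n) := by
  unfold Qg
  rw [lintegral_tilted, ← lintegral_const_mul' _ _ ENNReal.ofReal_ne_top]
  refine lintegral_mono fun s => ?_
  refine mul_le_mul_left (ENNReal.ofReal_le_ofReal ?_) _
  have h0 : ∀ s : Fin n → Fin 2 → ℝ, |β * gE u η s + 0 * sp s n 0| ≤ |β| * (n * b) := by
    intro s
    rw [zero_mul, add_zero, abs_mul]
    exact mul_le_mul_of_nonneg_left (gE_abs hη u s) (abs_nonneg _)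
  have h1 : Real.exp (-(|β| * (n * b))) ≤
      ∫ s : Fin n → Fin 2 → ℝ, Real.exp (β * gE u η s + 0 * sp s n 0) ∂(gam n) := by
    have h2 : ∫ _s : Fin n → Fin 2 → ℝ, Real.exp (-(|β| * (n * b))) ∂(gam n) ≤
        ∫ s : Fin n → Fin 2 → ℝ, Real.exp (β * gE u η s + 0 * sp s n 0) ∂(gam n) :=
      integral_mono (integrable_const _) (w_int u hη 0) fun s =>
        Real.exp_le_exp.2 (abs_le.1 (h0 s)).1
    simpa using h2
  exact div_le_div₀ (Real.exp_pos _).le (Real.exp_le_exp.2 (abs_le.1 (h0 s)).2)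
    (Real.exp_pos _) h1

end Fixed

/-- Second moments. -/
lemma sq_int (n : ℕ) (m : Vec 2) : Integrable (fun s => ‖sp s n - m‖ ^ 2) (gam n) := by
  have h1 : ∀ (i : Fin n) (j : Fin 2), MemLp (fun s : Fin n → Fin 2 → ℝ => s i j) 2 (gam n) := by
    intro i j
    have g1 : MemLp (fun t : Fin 2 → ℝ => t j) 2 (Measure.pi fun _ => gaussianReal 0 1) := by
      have := (memLp_id_gaussianReal (μ := 0) (v := 1) 2).comp_measurePreserving
        (measurePreserving_eval (fun _ : Fin 2 => gaussianReal 0 1) j)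
      exact this
    have := g1.comp_measurePreserving (measurePreserving_eval (fun _ : Fin n =>
      (Measure.pi fun _ : Fin 2 => gaussianReal 0 1)) i)
    exact this
  have h2 : ∀ j : Fin 2, MemLp (fun s : Fin n → Fin 2 → ℝ => sp s n j - m j) 2 (gam n) := by
    intro j
    have h3 : MemLp (fun s : Fin n → Fin 2 → ℝ => ∑ i : Fin n, s i j) 2 (gam n) :=
      memLp_finsetSum _ fun i _ => h1 i j
    refine (h3.sub (memLp_const (m j))).congr_norm
      ((sp_meas n j).sub_const _).aestronglyMeasurable (Eventually.of_forall fun s => ?_)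
    simp only [Pi.sub_apply, sp]
    congr 2
    refine Finset.sum_congr rfl fun i _ => ?_
    rw [if_pos i.2]
  have h4 : Integrable (fun s : Fin n → Fin 2 → ℝ => (sp s n 0 - m 0) ^ 2 +
      (sp s n 1 - m 1) ^ 2) (gam n) := (h2 0).integrable_sq.add (h2 1).integrable_sq
  refine h4.congr (Eventually.of_forall fun s => ?_)
  simp only
  rw [EuclideanSpace.norm_sq_eq, Fin.sum_univ_two]
  simp only [PiLp.sub_apply, Real.norm_eq_abs, sq_abs]

/-! ### The joint law of two replicas -/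

/-- Two replicas in a fixed environment. -/
noncomputable def kQ (β : ℝ) (n : ℕ) (v : ℝ) (p : (ℕ × Fin 2 → ℝ) × Env 2) :
    Measure ((Fin n → Fin 2 → ℝ) × (Fin n → Fin 2 → ℝ)) :=
  (Qg β n v p.1 p.2).prod (Qg β n v p.1 p.2)

instance (β : ℝ) (n : ℕ) (v : ℝ) (u : ℕ × Fin 2 → ℝ) (η : Env 2) :
    SFinite (Qg β n v u η) := by
  unfold Qg
  infer_instance

lemma kQ_lint {β : ℝ} {n : ℕ} (v : ℝ) (p : (ℕ × Fin 2 → ℝ) × Env 2)
    {F : (Fin n → Fin 2 → ℝ) × (Fin n → Fin 2 → ℝ) → ENNReal} (hF : Measurable F) :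
    ∫⁻ z, F z ∂(kQ β n v p) =
      ∫⁻ s, ∫⁻ s', F (s, s') ∂(Qg β n v p.1 p.2) ∂(Qg β n v p.1 p.2) :=
  lintegral_prod _ hF.aemeasurable

lemma kQ_meas3 {β : ℝ} (hM : MesG β) (n : ℕ)
    {F : (Fin n → Fin 2 → ℝ) × (Fin n → Fin 2 → ℝ) → ENNReal} (hF : Measurable F) :
    Measurable fun q : ((ℕ × Fin 2 → ℝ) × Env 2) × ℝ => ∫⁻ z, F z ∂(kQ β n q.2 q.1) := by
  have h1 := hM n (fun s s' => F (s, s')) hF
  have h2 : Measurable fun q : ((ℕ × Fin 2 → ℝ) × Env 2) × ℝ => (q.1.1, q.1.2, q.2) :=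
    (measurable_fst.comp measurable_fst).prodMk
      ((measurable_snd.comp measurable_fst).prodMk measurable_snd)
  have h3 : (fun q : ((ℕ × Fin 2 → ℝ) × Env 2) × ℝ => ∫⁻ z, F z ∂(kQ β n q.2 q.1)) =
      (fun p : (ℕ × Fin 2 → ℝ) × Env 2 × ℝ => ∫⁻ s, ∫⁻ s', F (s, s')
        ∂(Qg β n p.2.2 p.1 p.2.1) ∂(Qg β n p.2.2 p.1 p.2.1)) ∘
        fun q : ((ℕ × Fin 2 → ℝ) × Env 2) × ℝ => (q.1.1, q.1.2, q.2) := by
    funext q
    exact kQ_lint q.2 q.1 hF
  rw [h3]
  exact h1.comp h2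

lemma kQ_meas {β : ℝ} (hM : MesG β) (n : ℕ) (v : ℝ) : Measurable (kQ β n v) := by
  refine Measure.measurable_of_measurable_coe _ fun A hA => ?_
  have h1 := (kQ_meas3 hM n (F := A.indicator 1) (measurable_one.indicator hA)).comp
    (measurable_id.prodMk (measurable_const (a := v)))
  have h2 : (fun p => kQ β n v p A) = (fun q : ((ℕ × Fin 2 → ℝ) × Env 2) × ℝ =>
      ∫⁻ z, A.indicator 1 z ∂(kQ β n q.2 q.1)) ∘ fun p => (p, v) := by
    funext p
    simp only [Function.comp_apply]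
    rw [lintegral_indicator_one hA]
  rw [h2]
  exact h1

/-- The joint law of two replicas. -/
noncomputable def MM (ρ : Measure ℝ) (β : ℝ) (n : ℕ) (v : ℝ) :
    Measure ((Fin n → Fin 2 → ℝ) × (Fin n → Fin 2 → ℝ)) :=
  (off.prod (law 2 ρ)).bind (kQ β n v)

lemma X_shf {n : ℕ} (v : ℝ) (s : Fin n → Fin 2 → ℝ) : X n (shf v s) = X n s + n * v := by
  have h1 : ∀ s : Fin n → Fin 2 → ℝ, X n s = ∑ i : Fin n, s i 0 := by
    intro s
    simp only [X, sp]
    refine Finset.sum_congr rfl fun i _ => ?_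
    rw [if_pos i.2]
  rw [h1, h1]
  simp only [shf, if_true]
  rw [Finset.sum_add_distrib]
  simp

section Joint

variable {ρ : Measure ℝ} [IsProbabilityMeasure ρ] {β : ℝ} {n : ℕ}

omit [IsProbabilityMeasure ρ] in
lemma MM_lint (hM : MesG β) (v : ℝ)
    {F : (Fin n → Fin 2 → ℝ) × (Fin n → Fin 2 → ℝ) → ENNReal} (hF : Measurable F) :
    ∫⁻ z, F z ∂(MM ρ β n v) = ∫⁻ p, ∫⁻ z, F z ∂(kQ β n v p) ∂(off.prod (law 2 ρ)) := by
  unfold MM
  rw [Measure.lintegral_bind (kQ_meas hM n v).aemeasurable hF.aemeasurable]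

lemma MM_lint4 (hM : MesG β) (v : ℝ)
    {F : (Fin n → Fin 2 → ℝ) × (Fin n → Fin 2 → ℝ) → ENNReal} (hF : Measurable F) :
    ∫⁻ z, F z ∂(MM ρ β n v) = ∫⁻ u, ∫⁻ η, ∫⁻ s, ∫⁻ s', F (s, s')
      ∂(Qg β n v u η) ∂(Qg β n v u η) ∂(law 2 ρ) ∂off := by
  have h0 : Measurable fun p : (ℕ × Fin 2 → ℝ) × Env 2 => (p, v) :=
    measurable_id.prodMk measurable_const
  have h1 : Measurable fun p => ∫⁻ z, F z ∂(kQ β n v p) := by
    have := (kQ_meas3 hM n hF).comp h0
    exact this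
  rw [MM_lint hM v hF, lintegral_prod _ h1.aemeasurable]
  simp only [kQ_lint v _ hF]

/-- Shear invariance. -/
lemma MM_shr (hM : MesG β) (hS : ShrG ρ β) (v : ℝ)
    {F : (Fin n → Fin 2 → ℝ) × (Fin n → Fin 2 → ℝ) → ENNReal} (hF : Measurable F)
    (hs : Measurable fun z : (Fin n → Fin 2 → ℝ) × (Fin n → Fin 2 → ℝ) =>
      F (shf v z.1, shf v z.2)) :
    ∫⁻ z, F z ∂(MM ρ β n v) = ∫⁻ z, F (shf v z.1, shf v z.2) ∂(MM ρ β n 0) := by
  rw [MM_lint4 hM v hF, MM_lint4 hM 0 hs]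
  exact hS n v (fun s s' => F (s, s')) hF

variable {b : ℝ}

lemma ae_p (hb : ∀ᵐ η ∂(law 2 ρ), ∀ p, |η p| ≤ b) :
    ∀ᵐ p ∂(off.prod (law 2 ρ)), ∀ q, |p.2 q| ≤ b := by
  have : (off.prod (law 2 ρ)).map Prod.snd = law 2 ρ := by
    rw [Measure.map_snd_prod, measure_univ, one_smul]
  rw [← this] at hb
  exact ae_of_ae_map measurable_snd.aemeasurable hb

lemma prob_law : IsProbabilityMeasure (law 2 ρ) := by
  unfold law
  infer_instance

/-- The marginals of the two replicas agree. -/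
lemma MM_fst (hM : MesG β) (hb : ∀ᵐ η ∂(law 2 ρ), ∀ p, |η p| ≤ b) (v : ℝ)
    {G : (Fin n → Fin 2 → ℝ) → ENNReal} (hG : Measurable G) :
    ∫⁻ z, G z.1 ∂(MM ρ β n v) = ∫⁻ p, ∫⁻ s, G s ∂(Qg β n v p.1 p.2) ∂(off.prod (law 2 ρ)) ∧
    ∫⁻ z, G z.2 ∂(MM ρ β n v) = ∫⁻ p, ∫⁻ s, G s ∂(Qg β n v p.1 p.2) ∂(off.prod (law 2 ρ)) := by
  have m1 : Measurable fun z : (Fin n → Fin 2 → ℝ) × (Fin n → Fin 2 → ℝ) => G z.1 :=
    hG.comp measurable_fst
  have m2 : Measurable fun z : (Fin n → Fin 2 → ℝ) × (Fin n → Fin 2 → ℝ) => G z.2 :=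
    hG.comp measurable_snd
  rw [MM_lint hM v m1, MM_lint hM v m2]
  constructor
  · refine lintegral_congr_ae ?_
    filter_upwards [ae_p hb] with p hp
    have := prob (β := β) (n := n) p.1 hp v
    rw [kQ_lint v p m1]
    simp
  · refine lintegral_congr_ae ?_
    filter_upwards [ae_p hb] with p hp
    have := prob (β := β) (n := n) p.1 hp v
    rw [kQ_lint v p m2]
    simp

lemma MM_prob (hM : MesG β) (hb : ∀ᵐ η ∂(law 2 ρ), ∀ p, |η p| ≤ b) (v : ℝ) :
    IsProbabilityMeasure (MM ρ β n v) := by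
  have h1 := (MM_fst (ρ := ρ) (n := n) hM hb v (G := fun _ => 1) measurable_const).1
  have h2 : ∫⁻ p, ∫⁻ _s : Fin n → Fin 2 → ℝ, 1 ∂(Qg β n v p.1 p.2) ∂(off.prod (law 2 ρ)) = 1 := by
    have h3 : ∫⁻ p, ∫⁻ _s : Fin n → Fin 2 → ℝ, 1 ∂(Qg β n v p.1 p.2) ∂(off.prod (law 2 ρ)) =
        ∫⁻ _p, 1 ∂(off.prod (law 2 ρ)) := by
      refine lintegral_congr_ae ?_
      filter_upwards [ae_p hb] with p hp
      have := prob (β := β) (n := n) p.1 hp v
      simp
    rw [h3]
    simp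
  rw [h2] at h1
  constructor
  simpa using h1

end Joint

end Sep35

end Pool.Agent.W_7d29a1_GW
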