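import Pool.Agent.W_7d29a1_GW.SepA35

/-!
Theorem GW, leaf SEP, second part: the increment of the tilted mean, in a fixed environment and
integrated over the environment (helper35).
-/

set_option autoImplicit false

namespace Pool.Agent.W_7d29a1_GW

open MeasureTheory ProbabilityTheory Filter Topology Pool.Agent.W_MP_7d29a1_pr
  Pool.Agent.W_7d29a1_h46 Pool.Agent.W_7d29a1_h46u

namespace Sep35

lemma ofReal_int_le {α : Type*} [MeasurableSpace α] {μ : Measure α} {f : α → ℝ}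
    (hf : ∀ x, 0 ≤ f x) :
    ENNReal.ofReal (∫ x, f x ∂μ) ≤ ∫⁻ x, ENNReal.ofReal (f x) ∂μ := by
  by_cases h : Integrable f μ
  · rw [ofReal_integral_eq_lintegral_ofReal h (Eventually.of_forall hf)]
  · rw [integral_undef h]
    simp

/-- The clamp. -/
noncomputable def cl (K m x : ℝ) : ℝ := max (-K) (min K (x - m))

lemma cl_meas (K m : ℝ) : Measurable (cl K m) := by
  unfold cl
  exact measurable_const.max (measurable_const.min (measurable_id.sub_const m))

lemma cl_abs {K : ℝ} (hK : 0 ≤ K) (m x : ℝ) : |cl K m x| ≤ K := by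
  unfold cl
  rw [abs_le]
  constructor
  · exact le_max_left _ _
  · exact max_le (by linarith) (min_le_left _ _)

lemma cl_mono (K m : ℝ) {x y : ℝ} (h : x ≤ y) : cl K m x ≤ cl K m y := by
  unfold cl
  exact max_le_max le_rfl (min_le_min le_rfl (by linarith))

lemma cl_lip (K m : ℝ) {x y : ℝ} (h : x ≤ y) : cl K m y - cl K m x ≤ y - x := by
  unfold cl
  rcases le_total K (y - m) with h1 | h1 <;> rcases le_total K (x - m) with h2 | h2 <;>
    simp only [min_eq_left, min_eq_right, h1, h2] <;>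
    rcases le_total (-K) (x - m) with h3 | h3 <;> rcases le_total (-K) (y - m) with h4 | h4 <;>
    rcases le_total (-K) K with h5 | h5 <;>
    simp only [max_eq_left, max_eq_right, h3, h4, h5] <;> linarith

lemma cl_eq {K m x : ℝ} (h : |x - m| ≤ K) : cl K m x = x - m := by
  unfold cl
  rw [abs_le] at h
  rw [min_eq_right h.2, max_eq_right h.1]

lemma cl_prod (K m x y : ℝ) : 0 ≤ (cl K m x - cl K m y) * (x - y) := by
  rcases le_total x y with h | h
  · exact mul_nonneg_of_nonpos_of_nonpos (by linarith [cl_mono K m h]) (by linarith)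
  · exact mul_nonneg (by linarith [cl_mono K m h]) (by linarith)

/-- The integrand of the derivative. -/
noncomputable def Fz (K m : ℝ) (n : ℕ)
    (z : (Fin n → Fin 2 → ℝ) × (Fin n → Fin 2 → ℝ)) : ENNReal :=
  ENNReal.ofReal ((cl K m (X n z.1) - cl K m (X n z.2)) * (X n z.1 - X n z.2))

lemma X1_meas (n : ℕ) : Measurable fun z : (Fin n → Fin 2 → ℝ) × (Fin n → Fin 2 → ℝ) => X n z.1 :=
  (X_meas n).comp measurable_fst

lemma X2_meas (n : ℕ) : Measurable fun z : (Fin n → Fin 2 → ℝ) × (Fin n → Fin 2 → ℝ) => X n z.2 :=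
  (X_meas n).comp measurable_snd

lemma Fz_meas (K m : ℝ) (n : ℕ) : Measurable (Fz K m n) := by
  unfold Fz
  have h1 := X1_meas n
  have h2 := X2_meas n
  exact ((((cl_meas K m).comp h1).sub ((cl_meas K m).comp h2)).mul (h1.sub h2)).ennreal_ofReal

lemma step (hD : DerG) {n : ℕ} {β b : ℝ} {η : Env 2} (u : ℕ × Fin 2 → ℝ)
    (hη : ∀ p, |η p| ≤ b) {K m v₀ : ℝ} (hK : 0 ≤ K) (hv : 0 ≤ v₀) :
    ∫⁻ s, ENNReal.ofReal (cl K m (X n s) + K) ∂(Qg β n v₀ u η) ≤
      ∫⁻ s, ENNReal.ofReal (cl K m (X n s) + K) ∂(Qg β n (-v₀) u η) +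
      ∫⁻ v in Set.Ioc (-v₀) v₀, ENNReal.ofReal (1 / 2) * ∫⁻ z, Fz K m n z ∂(kQ β n v (u, η)) := by
  have hp : ∀ v, IsProbabilityMeasure (Qg β n v u η) := fun v => prob u hη v
  have hcm : Measurable fun s : Fin n → Fin 2 → ℝ => cl K m (X n s) := (cl_meas K m).comp (X_meas n)
  obtain ⟨_, hE⟩ := hD (Fin n → Fin 2 → ℝ) (Qg β n 0 u η) (X n) (fun s => cl K m (X n s)) K v₀
    (X_meas n) hcm (fun s => cl_abs hK m _) (exp_intQ u hη) hv
  simp only [← tilt u hη] at hE
  have e1 : ∀ v, ∫⁻ s, ENNReal.ofReal (cl K m (X n s) + K) ∂(Qg β n v u η) =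
      ENNReal.ofReal (∫ s, cl K m (X n s) ∂(Qg β n v u η) + K) := by
    intro v
    have := hp v
    have i1 : Integrable (fun s => cl K m (X n s)) (Qg β n v u η) :=
      Integrable.of_bound hcm.aestronglyMeasurable K
        (Eventually.of_forall fun s => by rw [Real.norm_eq_abs]; exact cl_abs hK m _)
    have i2 : Integrable (fun s => cl K m (X n s) + K) (Qg β n v u η) :=
      i1.add (integrable_const K)
    rw [← ofReal_integral_eq_lintegral_ofReal i2 (Eventually.of_forall fun s => by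
      have := (abs_le.1 (cl_abs hK m (X n s))).1
      show 0 ≤ cl K m (X n s) + K
      linarith)]
    rw [integral_add i1 (integrable_const K)]
    simp
  rw [e1, e1]
  have e2 : ∫ s, cl K m (X n s) ∂(Qg β n v₀ u η) + K = (∫ s, cl K m (X n s) ∂(Qg β n (-v₀) u η) +
      K) + ∫ v in (-v₀)..v₀, (1 / 2) * ∫ x, ∫ y, (cl K m (X n x) - cl K m (X n y)) *
        (X n x - X n y) ∂(Qg β n v u η) ∂(Qg β n v u η) := by linarith
  rw [e2]
  refine ENNReal.ofReal_add_le.trans (add_le_add_right ?_ _)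
  rw [intervalIntegral.integral_of_le (by linarith)]
  have hnn : ∀ v, 0 ≤ ∫ x, ∫ y, (cl K m (X n x) - cl K m (X n y)) *
      (X n x - X n y) ∂(Qg β n v u η) ∂(Qg β n v u η) := fun v =>
    integral_nonneg fun x => integral_nonneg fun y => cl_prod K m _ _
  refine (ofReal_int_le fun v => mul_nonneg (by norm_num) (hnn v)).trans ?_
  refine lintegral_mono fun v => ?_
  rw [ENNReal.ofReal_mul (by norm_num)]
  refine mul_le_mul_right ?_ _
  rw [kQ_lint v _ (Fz_meas K m n)]
  refine (ofReal_int_le fun x => integral_nonneg fun y => cl_prod K m _ _).trans ?_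
  exact lintegral_mono fun x => ofReal_int_le fun y => cl_prod K m _ _

section Joint

variable {ρ : Measure ℝ} [IsProbabilityMeasure ρ] {β b : ℝ} {n : ℕ}

lemma cl_measM (K m : ℝ) (n : ℕ) : Measurable fun s : Fin n → Fin 2 → ℝ =>
    ENNReal.ofReal (cl K m (X n s) + K) :=
  (((cl_meas K m).comp (X_meas n)).add_const K).ennreal_ofReal

lemma tonelli (hD : DerG) (hM : MesG β) (hb : ∀ᵐ η ∂(law 2 ρ), ∀ p, |η p| ≤ b)
    {K m v₀ : ℝ} (hK : 0 ≤ K) (hv : 0 ≤ v₀) :
    ∫⁻ z, ENNReal.ofReal (cl K m (X n z.1) + K) ∂(MM ρ β n v₀) ≤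
      ∫⁻ z, ENNReal.ofReal (cl K m (X n z.1) + K) ∂(MM ρ β n (-v₀)) +
      ∫⁻ v in Set.Ioc (-v₀) v₀, ENNReal.ofReal (1 / 2) * ∫⁻ z, Fz K m n z ∂(MM ρ β n v) := by
  rw [(MM_fst (ρ := ρ) hM hb v₀ (cl_measM K m n)).1, (MM_fst (ρ := ρ) hM hb (-v₀)
    (cl_measM K m n)).1]
  have m3 : Measurable fun q : ((ℕ × Fin 2 → ℝ) × Env 2) × ℝ =>
      ENNReal.ofReal (1 / 2) * ∫⁻ z, Fz K m n z ∂(kQ β n q.2 q.1) :=
    (kQ_meas3 hM n (Fz_meas K m n)).const_mul _
  have h1 : ∫⁻ v in Set.Ioc (-v₀) v₀, ENNReal.ofReal (1 / 2) * ∫⁻ z, Fz K m n z ∂(MM ρ β n v) =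
      ∫⁻ p, (∫⁻ v in Set.Ioc (-v₀) v₀, ENNReal.ofReal (1 / 2) * ∫⁻ z, Fz K m n z ∂(kQ β n v p))
        ∂(off.prod (law 2 ρ)) := by
    rw [lintegral_lintegral_swap m3.aemeasurable]
    refine lintegral_congr fun v => ?_
    rw [MM_lint hM v (Fz_meas K m n), lintegral_const_mul]
    have h0 : Measurable fun p : (ℕ × Fin 2 → ℝ) × Env 2 => (p, v) :=
      measurable_id.prodMk measurable_const
    have := (kQ_meas3 hM n (Fz_meas K m n)).comp h0
    exact this
  rw [h1]
  have m4 : Measurable fun p => ∫⁻ v in Set.Ioc (-v₀) v₀,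
      ENNReal.ofReal (1 / 2) * ∫⁻ z, Fz K m n z ∂(kQ β n v p) :=
    m3.lintegral_prod_right'
  rw [← lintegral_add_right _ m4]
  refine lintegral_mono_ae ?_
  filter_upwards [ae_p hb] with p hp
  exact step hD p.1 hp hK hv

/-- The shear invariance of the two terms. -/
lemma terms (hM : MesG β) (hS : ShrG ρ β) (K m v : ℝ) :
    ∫⁻ z, ENNReal.ofReal (cl K m (X n z.1) + K) ∂(MM ρ β n v) =
      ∫⁻ z, ENNReal.ofReal (cl K m (X n z.1 + n * v) + K) ∂(MM ρ β n 0) ∧
    ∫⁻ z, Fz K m n z ∂(MM ρ β n v) = ∫⁻ z, ENNReal.ofReal ((cl K m (X n z.1 + n * v) -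
      cl K m (X n z.2 + n * v)) * (X n z.1 - X n z.2)) ∂(MM ρ β n 0) := by
  have h1 := X1_meas n
  have h2 := X2_meas n
  constructor
  · have h3 := MM_shr (ρ := ρ) hM hS v (F := fun z => ENNReal.ofReal (cl K m (X n z.1) + K))
      (((((cl_meas K m).comp h1)).add_const K).ennreal_ofReal) (by
        simp only [X_shf]
        exact (((cl_meas K m).comp (h1.add_const _)).add_const K).ennreal_ofReal)
    simp only [X_shf] at h3
    exact h3
  · have h3 := MM_shr (ρ := ρ) hM hS v (F := Fz K m n) (Fz_meas K m n) (by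
        unfold Fz
        simp only [X_shf]
        exact ((((cl_meas K m).comp (h1.add_const _)).sub
          ((cl_meas K m).comp (h2.add_const _))).mul
            ((h1.add_const _).sub (h2.add_const _))).ennreal_ofReal)
    rw [h3]
    unfold Fz
    simp only [X_shf]
    refine lintegral_congr fun z => ?_
    congr 2
    ring

end Joint

end Sep35

end Pool.Agent.W_7d29a1_GW
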